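import Pool.Agent.Lib.MP_391708_nt.TG1.RelA
import Pool.Agent.Lib.MP_391708_nt.TG.Basic

/-!
# T1b, group A: bridge between `TG.Defs` and `TG1.RelA`

CHANGES against TF1: `IsR.sz : aa < M ^ 2`; the signs of `F₁`, `F₂` are known only in the critical window,
so `IsR.F1_eq`, `IsR.F2_eq`, `IsR.ok` are replaced by `IsR.F1_abs : |F₁| = X T`, `IsR.F2_abs`,
`IsR.F1_iff`, `IsR.F2_iff` (divisors), and by `Crit.F1_eq`, `Crit.F2_eq`, `Crit.ok`.
-/

set_option autoImplicit false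
set_option linter.constructorNameAsVariable false

namespace Pool.Agent.Lib.MP391708.TG

variable [Aa]

open Finset
open Pool.Agent.Lib.MP391708.T1 (RD)
open scoped Classical

lemma aaZ : (0 : ℤ) < (aa : ℤ) := by exact_mod_cast Aa.ha

lemma eq_vl_natAbs {z : ℤ} {n : ℕ} (h : (n : ℤ) = z ^ 2 + az) : n = vl z.natAbs := by
  rw [vl_natAbs, ← h, Int.natAbs_natCast]

/-- the relation as integer data -/
noncomputable def toRD (r : Rl) : RD :=
  ⟨rM r, rG r, rP r, rQ r, rX r, rT r, rR r, rD r, D2 r⟩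

variable {r : Rl}

lemma IsR.sz (h : IsR r) : aa < rM r ^ 2 := h.1
lemma IsR.G1 (h : IsR r) : 0 < rG r := h.2.1
lemma IsR.P1 (h : IsR r) : 0 < rP r := h.2.2.1
lemma IsR.Q1 (h : IsR r) : 0 < rQ r := h.2.2.2.1
lemma IsR.D0 (h : IsR r) : rD r ≠ 0 := h.2.2.2.2.1
lemma IsR.X1 (h : IsR r) : 0 < rX r := h.2.2.2.2.2.1
lemma IsR.gpq (h : IsR r) : rG r * rP r * rQ r = vl (rM r) := h.2.2.2.2.2.2.1
lemma IsR.dvdD (h : IsR r) : rD r ∣ (rX r : ℤ) - rG r := h.2.2.2.2.2.2.2.1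
lemma IsR.dvdF1 (h : IsR r) : (rX r : ℤ) ∣ F1 r := h.2.2.2.2.2.2.2.2.1
lemma IsR.cop (h : IsR r) : Nat.Coprime (rG r) (rX r) := h.2.2.2.2.2.2.2.2.2

lemma IsR.hX (h : IsR r) : (rX r : ℤ) = rG r + rD r * D2 r := by
  have := Int.mul_ediv_cancel' h.dvdD
  simp only [D2]
  linarith

lemma IsR.gpqZ (h : IsR r) : (rG r : ℤ) * rP r * rQ r = (rM r : ℤ) ^ 2 + az := by
  rw [← vl_cast h.sz, ← h.gpq]
  push_cast
  ring

lemma IsR.P_F1 (h : IsR r) : (rP r : ℤ) * F1 r = (rD r * rP r - rM r) ^ 2 + az := by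
  simp only [F1]
  linear_combination h.gpqZ

lemma IsR.Q_F2 (h : IsR r) : (rQ r : ℤ) * F2 r = (rM r + D2 r * rQ r) ^ 2 + az := by
  simp only [F2]
  linear_combination h.gpqZ

lemma IsR.F1_ne (h : IsR r) : F1 r ≠ 0 := by
  intro h0
  have e := h.P_F1
  rw [h0, mul_zero] at e
  exact Bs.sq_ne _ e.symm

lemma IsR.F2_ne (h : IsR r) : F2 r ≠ 0 := by
  intro h0
  have e := h.Q_F2
  rw [h0, mul_zero] at e
  exact Bs.sq_ne _ e.symm

lemma IsR.F1_abs (h : IsR r) : (F1 r).natAbs = rX r * rT r := by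
  have h1 := Int.mul_ediv_cancel' h.dvdF1
  have h2 := congrArg Int.natAbs h1
  rw [Int.natAbs_mul, Int.natAbs_natCast] at h2
  simp only [rT]
  exact h2.symm

lemma IsR.copDD (h : IsR r) : IsCoprime (rG r : ℤ) (rD r * D2 r) := by
  have h1 : IsCoprime (rG r : ℤ) (rX r : ℤ) := Nat.isCoprime_iff_coprime.mpr h.cop
  rw [h.hX] at h1
  have e : (rG r : ℤ) + rD r * D2 r = rD r * D2 r + rG r * 1 := by ring
  rw [e] at h1
  exact (IsCoprime.of_add_mul_left_right h1)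

/-- automatic: `D` is prime to `G` -/
lemma IsR.copD (h : IsR r) : IsCoprime (rD r) (rG r : ℤ) :=
  h.copDD.of_mul_right_left.symm

lemma IsR.dvdF2 (h : IsR r) : (rX r : ℤ) ∣ F2 r := by
  have hc := h.copDD
  obtain ⟨T, R, _, -, a2, -⟩ := T1.rel h.gpqZ h.hX (by exact_mod_cast h.X1.ne') hc h.dvdF1
  refine ⟨R, ?_⟩
  rw [← a2]
  simp only [F2]; ring

lemma IsR.F2_abs (h : IsR r) : (F2 r).natAbs = rX r * rR r := by
  have h1 := Int.mul_ediv_cancel' h.dvdF2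
  have h2 := congrArg Int.natAbs h1
  rw [Int.natAbs_mul, Int.natAbs_natCast] at h2
  simp only [rR]
  exact h2.symm

/-- divisors of `F₁` -/
lemma IsR.F1_iff (h : IsR r) {l : ℕ} : (l : ℤ) ∣ F1 r ↔ l ∣ rX r * rT r := by
  rw [← h.F1_abs, Int.natCast_dvd]

lemma IsR.F2_iff (h : IsR r) {l : ℕ} : (l : ℤ) ∣ F2 r ↔ l ∣ rX r * rR r := by
  rw [← h.F2_abs, Int.natCast_dvd]

lemma IsR.F1_sq_iff (h : IsR r) {l : ℕ} : (l : ℤ) ^ 2 ∣ F1 r ↔ l ^ 2 ∣ rX r * rT r := by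
  rw [← h.F1_iff]
  push_cast
  rfl

lemma IsR.F2_sq_iff (h : IsR r) {l : ℕ} : (l : ℤ) ^ 2 ∣ F2 r ↔ l ^ 2 ∣ rX r * rR r := by
  rw [← h.F2_iff]
  push_cast
  rfl

lemma IsR.F1_eq_of_pos (h : IsR r) (h0 : 0 < F1 r) : F1 r = rX r * rT r := by
  have := h.F1_abs
  have h1 : ((F1 r).natAbs : ℤ) = F1 r := Int.natAbs_of_nonneg h0.le
  rw [← h1, this]
  push_cast
  ring

lemma IsR.F2_eq_of_pos (h : IsR r) (h0 : 0 < F2 r) : F2 r = rX r * rR r := by
  have := h.F2_abs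
  have h1 : ((F2 r).natAbs : ℤ) = F2 r := Int.natAbs_of_nonneg h0.le
  rw [← h1, this]
  push_cast
  ring

lemma IsR.T_pos (h : IsR r) : 0 < rT r := by
  have h1 := h.F1_abs
  have h2 := Int.natAbs_pos.2 h.F1_ne
  rw [h1] at h2
  exact Nat.pos_of_mul_pos_left h2

lemma IsR.R_pos (h : IsR r) : 0 < rR r := by
  have h1 := h.F2_abs
  have h2 := Int.natAbs_pos.2 h.F2_ne
  rw [h1] at h2
  exact Nat.pos_of_mul_pos_left h2

/-- **bridge** -/
lemma IsR.ok_of_pos (h : IsR r) (h1 : 0 < F1 r) (h2 : 0 < F2 r) : TN.RD.Ok az (toRD r) where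
  ane := Bs.sq_ne
  gpq := h.gpqZ
  hX := h.hX
  f1 := h.F1_eq_of_pos h1
  f2 := h.F2_eq_of_pos h2
  X0 := by
    have := h.X1.ne'
    simp only [toRD]; exact_mod_cast this
  D0 := h.D0
  cgx := Nat.isCoprime_iff_coprime.mpr h.cop
  cdg := h.copD

omit [Aa] in
@[simp] lemma toRD_rM (r : Rl) : (toRD r).M = rM r := rfl
omit [Aa] in
@[simp] lemma toRD_rG (r : Rl) : (toRD r).G = rG r := rfl
omit [Aa] in
@[simp] lemma toRD_rP (r : Rl) : (toRD r).P = rP r := rfl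
omit [Aa] in
@[simp] lemma toRD_rQ (r : Rl) : (toRD r).Q = rQ r := rfl
omit [Aa] in
@[simp] lemma toRD_rX (r : Rl) : (toRD r).X = rX r := rfl
omit [Aa] in
@[simp] lemma toRD_rT (r : Rl) : (toRD r).T = rT r := rfl
omit [Aa] in
@[simp] lemma toRD_rR (r : Rl) : (toRD r).R = rR r := rfl
omit [Aa] in
@[simp] lemma toRD_rD (r : Rl) : (toRD r).D = rD r := rfl
omit [Aa] in
@[simp] lemma toRD_D2 (r : Rl) : (toRD r).D2 = D2 r := rfl

omit [Aa] in
lemma toRD_M4 (r : Rl) : (toRD r).M4 = M4 r := rfl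
omit [Aa] in
lemma toRD_M2 (r : Rl) : (toRD r).M2 = M2 r := rfl
omit [Aa] in
lemma toRD_M3 (r : Rl) : (toRD r).M3 = M3 r := by
  simp only [RD.M3, toRD, M3, M2]; ring

/-- from integer data back -/
lemma ok_to {s : RD} (h : TN.RD.Ok az s) {r : Rl} (hM : (rM r : ℤ) = s.M) (hG : (rG r : ℤ) = s.G)
    (hP : (rP r : ℤ) = s.P) (hQ : (rQ r : ℤ) = s.Q) (hX : (rX r : ℤ) = s.X)
    (hDD : rD r = s.D) (hG1 : 0 < s.G) (hP1 : 0 < s.P) (hQ1 : 0 < s.Q) (hX1 : 0 < s.X)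
    (hT1 : 0 < s.T) (hR1 : 0 < s.R) :
    IsR r ∧ D2 r = s.D2 ∧ (rT r : ℤ) = s.T ∧ (rR r : ℤ) = s.R := by
  have e2 : (rX r : ℤ) - rG r = rD r * s.D2 := by rw [hX, hG, hDD, h.hX]; ring
  have eD2 : D2 r = s.D2 := by
    simp only [D2]
    rw [e2]
    exact Int.mul_ediv_cancel_left _ (by rw [hDD]; exact h.D0)
  have eF1 : F1 r = s.X * s.T := by
    simp only [F1]
    rw [hP, hDD, hM, hG, hQ]; exact h.f1
  have eF2 : F2 r = s.X * s.R := by
    simp only [F2]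
    rw [hP, eD2, hM, hG, hQ]; exact h.f2
  have hgpq : (rG r : ℤ) * rP r * rQ r = (rM r : ℤ) ^ 2 + az := by
    rw [hG, hP, hQ, hM]; exact h.gpq
  have hsz : aa < rM r ^ 2 := by
    have h1 : 0 < (rM r : ℤ) ^ 2 + az := by
      rw [← hgpq, hG, hP, hQ]; positivity
    rw [az_eq] at h1
    have h2 : (aa : ℤ) < (rM r : ℤ) ^ 2 := by linarith
    exact_mod_cast h2
  have hR : IsR r := by
    refine ⟨hsz, ?_, ?_, ?_, ?_, ?_, ?_, ?_, ?_, ?_⟩
    · exact_mod_cast hG ▸ hG1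
    · exact_mod_cast hP ▸ hP1
    · exact_mod_cast hQ ▸ hQ1
    · rw [hDD]; exact h.D0
    · exact_mod_cast hX ▸ hX1
    · have : ((rG r * rP r * rQ r : ℕ) : ℤ) = ((vl (rM r) : ℕ) : ℤ) := by
        rw [vl_cast hsz, ← hgpq]; push_cast; ring
      exact_mod_cast this
    · rw [e2]; exact dvd_mul_right _ _
    · rw [eF1, hX]; exact dvd_mul_right _ _
    · rw [← Nat.isCoprime_iff_coprime, hG, hX]; exact h.cgx
  refine ⟨hR, eD2, ?_, ?_⟩
  · have h1 := hR.F1_eq_of_pos (by rw [eF1]; positivity)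
    rw [eF1, hX] at h1
    exact (mul_left_cancel₀ hX1.ne' h1).symm
  · have h1 := hR.F2_eq_of_pos (by rw [eF2]; positivity)
    rw [eF2, hX] at h1
    exact (mul_left_cancel₀ hX1.ne' h1).symm

/-- the critical window: everything needed about a relation -/
structure Crit (r : Rl) : Prop where
  isR : IsR r
  win : TN.RD.Win az (toRD r)

namespace Crit

lemma F1_pos (h : Crit r) : 0 < F1 r := by
  have hP : (0 : ℤ) < rP r := by exact_mod_cast h.isR.P1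
  have h1 := h.win.p1
  have h2 := h.win.pos
  have h3 := h.win.M3
  simp only [toRD] at h1 h2 h3
  have e := h.isR.P_F1
  have : 0 < (rP r : ℤ) * F1 r := by
    rw [e]
    nlinarith
  exact (mul_pos_iff_of_pos_left hP).1 this

lemma F2_pos (h : Crit r) : 0 < F2 r := by
  have hP : (0 : ℤ) < rQ r := by exact_mod_cast h.isR.Q1
  have h1 := h.win.lq
  have h2 := h.win.pos
  have h3 := h.win.M3
  simp only [toRD] at h1 h2 h3
  have e := h.isR.Q_F2
  have : 0 < (rQ r : ℤ) * F2 r := by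
    rw [e]
    nlinarith
  exact (mul_pos_iff_of_pos_left hP).1 this

lemma F1_eq (h : Crit r) : F1 r = rX r * rT r := h.isR.F1_eq_of_pos h.F1_pos
lemma F2_eq (h : Crit r) : F2 r = rX r * rR r := h.isR.F2_eq_of_pos h.F2_pos

lemma ok (h : Crit r) : TN.RD.Ok az (toRD r) := h.isR.ok_of_pos h.F1_pos h.F2_pos

lemma M4_pos (h : Crit r) : 0 < M4 r := by
  have h1 := h.win.M4_lo
  have h2 := h.win.M3
  rw [toRD_M4] at h1
  linarith

lemma M2_pos (h : Crit r) : 0 < M2 r := by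
  have h1 := h.win.M2_lo
  have h2 := h.win.M3
  rw [toRD_M2] at h1
  linarith

lemma M3_pos (h : Crit r) : 0 < M3 r := by
  have h1 := h.win.M3pos h.ok
  rw [toRD_M3] at h1
  linarith

lemma T_pos (h : Crit r) : 0 < rT r := h.isR.T_pos
lemma R_pos (h : Crit r) : 0 < rR r := h.isR.R_pos

/-- `X P T = M_4² + 1`, `X Q R = M_2² + 1`, `G R T = M_3² + 1` in `ℕ` -/
lemma xpt (h : Crit r) : rX r * rP r * rT r = vl (M4 r).natAbs := by
  have h1 := h.ok.xpt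
  rw [toRD_M4] at h1
  apply eq_vl_natAbs
  push_cast
  exact h1

lemma xrq (h : Crit r) : rX r * rR r * rQ r = vl (M2 r).natAbs := by
  have h1 := h.ok.xqr
  rw [toRD_M2] at h1
  apply eq_vl_natAbs
  rw [← h1]
  simp only [toRD_rX, toRD_rQ, toRD_rR]; push_cast; ring

lemma grt (h : Crit r) : rG r * rR r * rT r = vl (M3 r).natAbs := by
  have h1 := h.ok.grt
  rw [toRD_M3] at h1
  apply eq_vl_natAbs
  push_cast
  exact h1

lemma r4 (h : Crit r) : IsR (role4 r) ∧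
    D2 (role4 r) = -D2 r ∧ rT (role4 r) = rQ r ∧ rR (role4 r) = rR r := by
  have hM : ((M4 r).natAbs : ℤ) = M4 r := Int.natAbs_of_nonneg h.M4_pos.le
  have := ok_to (s := (toRD r).role4) h.ok.role4 (r := role4 r) hM rfl rfl rfl rfl rfl
    (by simpa using h.isR.X1) (by simpa using h.isR.P1) (by simpa using h.T_pos)
    (by simpa using h.isR.G1) (by simpa using h.isR.Q1) (by simpa using h.R_pos)
  exact ⟨this.1, this.2.1, Nat.cast_injective (R := ℤ) this.2.2.1,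
    Nat.cast_injective (R := ℤ) this.2.2.2⟩

lemma r2 (h : Crit r) : IsR (role2 r) ∧
    D2 (role2 r) = -D2 r ∧ rT (role2 r) = rT r ∧ rR (role2 r) = rP r := by
  have hM : ((M2 r).natAbs : ℤ) = M2 r := Int.natAbs_of_nonneg h.M2_pos.le
  have := ok_to (s := (toRD r).role2) h.ok.role2 (r := role2 r) hM rfl rfl rfl rfl rfl
    (by simpa using h.isR.X1) (by simpa using h.R_pos) (by simpa using h.isR.Q1)
    (by simpa using h.isR.G1) (by simpa using h.T_pos) (by simpa using h.isR.P1)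
  exact ⟨this.1, this.2.1, Nat.cast_injective (R := ℤ) this.2.2.1,
    Nat.cast_injective (R := ℤ) this.2.2.2⟩

lemma r3 (h : Crit r) : IsR (role3 r) ∧
    D2 (role3 r) = D2 r ∧ rT (role3 r) = rQ r ∧ rR (role3 r) = rP r := by
  have hM : ((M3 r).natAbs : ℤ) = (toRD r).M3 := by
    rw [toRD_M3]; exact Int.natAbs_of_nonneg h.M3_pos.le
  have := ok_to (s := (toRD r).role3) h.ok.role3 (r := role3 r) hM rfl rfl rfl rfl rfl
    (by simpa using h.isR.G1) (by simpa using h.R_pos) (by simpa using h.T_pos)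
    (by simpa using h.isR.X1) (by simpa using h.isR.Q1) (by simpa using h.isR.P1)
  exact ⟨this.1, this.2.1, Nat.cast_injective (R := ℤ) this.2.2.1,
    Nat.cast_injective (R := ℤ) this.2.2.2⟩

/-- `D₂ T = M_4 - M_3` -/
lemma d2t (h : Crit r) : D2 r * rT r = M4 r - M3 r := by
  have h1 := h.ok.d2t
  rw [toRD_M3, toRD_M4] at h1
  exact h1

omit [Aa] in
lemma dr (r : Rl) : rD r * rR r = M2 r + M3 r := by
  simp only [M3]; ring

lemma role4_role4 (h : Crit r) : role4 (role4 r) = r := by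
  have hM : ((M4 r).natAbs : ℤ) = M4 r := Int.natAbs_of_nonneg h.M4_pos.le
  have e : M4 (role4 r) = rM r := by
    have : M4 (role4 r) = rD r * rP r - ((M4 r).natAbs : ℤ) := rfl
    rw [this, hM]; simp only [M4]; ring
  have hT := h.r4.2.2.1
  show ((M4 (role4 r)).natAbs, rX (role4 r), rP (role4 r), rT (role4 r), rD (role4 r),
    rG (role4 r)) = r
  rw [e, hT]
  simp [role4, rX, rP, rQ, rD, rG, rM]

lemma role2_role2 (h : Crit r) : role2 (role2 r) = r := by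
  have hM : ((M2 r).natAbs : ℤ) = M2 r := Int.natAbs_of_nonneg h.M2_pos.le
  have e : M2 (role2 r) = rM r := by
    have : M2 (role2 r) = ((M2 r).natAbs : ℤ) + D2 (role2 r) * rQ r := rfl
    rw [this, hM, h.r2.2.1]; simp only [M2]; ring
  have hT := h.r2.2.2.2
  show ((M2 (role2 r)).natAbs, rX (role2 r), rR (role2 r), rQ (role2 r), rD (role2 r),
    rG (role2 r)) = r
  rw [e, hT]
  simp [role2, rX, rP, rQ, rD, rG, rM]

lemma role3_role3 (h : Crit r) : role3 (role3 r) = r := by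
  have hM : ((M3 r).natAbs : ℤ) = M3 r := Int.natAbs_of_nonneg h.M3_pos.le
  have e : M3 (role3 r) = rM r := by
    have : M3 (role3 r) = rD r * rR (role3 r) - (((M3 r).natAbs : ℤ) + D2 (role3 r) * rT r) := rfl
    rw [this, hM, h.r3.2.1, h.r3.2.2.2]
    have := h.d2t
    simp only [M4] at this
    linarith
  have hT := h.r3.2.2
  show ((M3 (role3 r)).natAbs, rG (role3 r), rR (role3 r), rT (role3 r), rD (role3 r),
    rX (role3 r)) = r
  rw [e, hT.1, hT.2]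
  simp [role3, rX, rP, rQ, rD, rG, rM]

end Crit

/-- the conditions of `RP`, as a structure -/
structure InRP (p : Prm) (e₁ : ℝ) (N : ℕ) (r : Rl) : Prop where
  isR : IsR r
  sml : small p r
  M_lo : N < rM r
  M_hi : rM r ≤ 2 * N
  p1 : 2 * (rM r : ℤ) < rD r * rP r
  p2 : rD r * rP r ≤ 3 * (rM r : ℤ)
  q1 : (rM r : ℤ) ^ 2 + az ≤ D2 r * rQ r * rM r
  q2 : D2 r * rQ r * rM r < 2 * ((rM r : ℤ) ^ 2 + az)
  sqG : Squarefree (rG r)
  sqX : Squarefree (rX r)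
  dq : ∀ l : ℕ, l.Prime → (l : ℤ) ∣ rD r → l ∣ rQ r → l ≤ p.E
  uv : ∃ u v : ℕ, u.Prime ∧ v.Prime ∧ Y1 p N ≤ (u : ℝ) ∧ (u : ℝ) ≤ Y2 p N ∧ Y3 p N ≤ (v : ℝ) ∧
    (v : ℝ) ≤ Y4 p N ∧ rG r = sm p N (rG r) * u * v
  nsq : ∀ l ∈ PP p N, ¬ l ^ 2 ∣ rG r * rP r * rQ r * rX r * rT r * rR r
  D_lo : Y1 p N / zz p N ^ (4 * p.K) ≤ (rD r : ℝ)
  D_hi : (rD r : ℝ) ≤ Y2 p N * zz p N ^ (4 * p.K)
  smX : (sm p N (rX r) : ℝ) ≤ zz p N ^ p.K
  smM : (sm p N (vl (rM r)) : ℝ) ≤ zz p N ^ (2 * p.K)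
  smM2 : (sm p N (vl (M2 r).natAbs) : ℝ) ≤ zz p N ^ (4 * p.K)
  smM3 : (sm p N (vl (M3 r).natAbs) : ℝ) ≤ zz p N ^ (4 * p.K)
  smM4 : (sm p N (vl (M4 r).natAbs) : ℝ) ≤ zz p N ^ (4 * p.K)
  omM : (2 - e₁) * S0 p N ≤ (om p N (vl (rM r)) : ℝ)
  omX : (1 / 2 - e₁) * S0 p N ≤ (om p N (rX r) + om p N (rT r) + om p N (rR r) : ℝ)

lemma inRP {p : Prm} {e₁ : ℝ} {N : ℕ} (h : r ∈ RP p e₁ N) : InRP p e₁ N r := by
  rw [RP, Finset.mem_filter] at h
  obtain ⟨-, a1, a2, a3, a4, a5, a6, a7, a8, a9, a10, -, a12, a13, a14, a15, a16, a17, a18, a19,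
    a20, a21, a22, a23⟩ := h
  exact ⟨a1, a2, a3, a4, a5, a6, a7, a8, a9, a10, a12, a13, a14, a15, a16, a17, a18, a19, a20,
    a21, a22, a23⟩

lemma InRP.crit {p : Prm} {e₁ : ℝ} {N : ℕ} (h : InRP p e₁ N r) (hN : 8 * aa ≤ N) : Crit r where
  isR := h.isR
  win :=
    { a1 := az_neg
      Ma := by
        have := h.M_lo
        simp only [toRD_rM]
        rw [az_eq, mul_neg, neg_neg]
        exact_mod_cast (by omega : 8 * aa ≤ rM r)
      G1 := by have := h.isR.G1; simp only [toRD_rG]; omega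
      P1 := by have := h.isR.P1; simp only [toRD_rP]; omega
      Q1 := by have := h.isR.Q1; simp only [toRD_rQ]; omega
      D1 := by
        have h1 := h.p1
        have h2 := h.isR.P1
        simp only [toRD_rD]
        by_contra hc
        have h3 : rD r ≤ 0 := by omega
        have h4 : rD r * rP r ≤ 0 := mul_nonpos_of_nonpos_of_nonneg h3 (by positivity)
        have h5 : (0 : ℤ) ≤ rM r := by positivity
        linarith
      p1 := h.p1
      p2 := h.p2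
      q1 := h.q1
      q2 := h.q2.le }

end Pool.Agent.Lib.MP391708.TG
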