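import Pool.Agent.Lib.MP_391708_nt.TG.Spec
import Pool.Agent.Lib.MP_391708_nt.T1.A3An
import Pool.Agent.Lib.MP_391708_nt.TA.A3An

/-!
# Theorem T1b: the size of `S0` and of `rp`

`|S0 - log log z| ≤ C`, and `1 / rp D ≤ exp (δ S0)` for all `D` in the box of the relations
(wrappers of `TA/A3An.lean`, with the names of `T1/A3An.lean`).
-/

set_option autoImplicit false

namespace Pool.Agent.Lib.MP391708.TG.A3

open Finset Filter Topology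
open Pool.Agent.Lib.MP391708.TG
open scoped Classical

export Pool.Agent.Lib.MP391708.T4.A3 (tendsto_zz log_zz card_primeFactors_le)

variable [Aa]

noncomputable section

lemma aa_ne : az ≠ 0 := az_ne

lemma nsq_aa : TA.Nsq az := nsq_az

lemma PP_eq_f (p : Prm) (N : ℕ) : PP p N = TA.A3.PPf az p.E (zz p N) := by
  unfold PP TA.A3.PPf spl
  ext l
  simp only [mem_filter]

lemma S0_eq_f (p : Prm) (N : ℕ) : S0 p N = TA.A3.S0f az p.E (zz p N) := by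
  unfold S0 TA.A3.S0f
  rw [PP_eq_f]

lemma rp_eq_f (D : ℕ) : rp D = TA.rp az D := rfl

/-- the split primes up to `y` -/
def P4 (y : ℕ) : Finset ℕ := (Icc 1 y).filter (fun l => l.Prime ∧ spl l)

lemma P4_eq_f (y : ℕ) : P4 y = TA.A3.P1 az y := by
  unfold P4 TA.A3.P1 spl
  ext l
  simp only [mem_filter]

lemma mert : ∃ C : ℝ, 0 ≤ C ∧ ∀ y : ℕ, 3 ≤ y →
    |(∑ l ∈ P4 y, 1 / (l : ℝ)) - 1 / 2 * Real.log (Real.log y)| ≤ C := by
  obtain ⟨C, h0, hC⟩ := TA.A3.mert aa_ne nsq_aa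
  refine ⟨C, h0, fun y hy => ?_⟩
  rw [P4_eq_f]
  exact hC y hy

lemma PP_eq (p : Prm) (N : ℕ) :
    PP p N = (P4 (⌈zz p N⌉₊ - 1)).filter (fun l => p.E < l) := by
  rw [PP_eq_f, TA.A3.PPf_eq, P4_eq_f]

lemma S0_le_sum (p : Prm) (N : ℕ) : S0 p N ≤ 2 * ∑ l ∈ P4 (⌈zz p N⌉₊ - 1), 1 / (l : ℝ) := by
  rw [S0_eq_f, P4_eq_f]
  exact TA.A3.S0_le_sum _ _ _

lemma sum_le_S0 (p : Prm) (N : ℕ) :
    2 * ∑ l ∈ P4 (⌈zz p N⌉₊ - 1), 1 / (l : ℝ) ≤ S0 p N + 2 * p.E := by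
  rw [S0_eq_f, P4_eq_f]
  exact TA.A3.sum_le_S0 _ _ _

/-- **the size of `S0`** -/
theorem S0_bounds (p : Prm) (hζ : 0 < p.ζ) : ∃ C : ℝ, 0 ≤ C ∧ ∀ᶠ N : ℕ in atTop,
    |S0 p N - Real.log (Real.log (zz p N))| ≤ C := by
  obtain ⟨C, h0, hC⟩ := TA.A3.S0_bounds aa_ne nsq_aa p.E
  refine ⟨C, h0, ?_⟩
  filter_upwards [(tendsto_zz hζ).eventually_ge_atTop 9] with N hN
  rw [S0_eq_f]
  exact hC _ hN

/-- `exp S0 ≤ C log z` -/
theorem exp_S0_le (p : Prm) (hζ : 0 < p.ζ) : ∃ C : ℝ, 0 < C ∧ ∀ᶠ N : ℕ in atTop,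
    Real.exp (S0 p N) ≤ C * Real.log (zz p N) ∧ 1 < Real.log (zz p N) ∧
      Real.log (zz p N) ≤ C * Real.exp (S0 p N) := by
  obtain ⟨C, h0, hC⟩ := TA.A3.exp_S0_le aa_ne nsq_aa p.E
  refine ⟨C, h0, ?_⟩
  filter_upwards [(tendsto_zz hζ).eventually_ge_atTop 9] with N hN
  rw [S0_eq_f]
  exact hC _ hN

/-! ### The weight `rp` -/

lemma ch_le_one (l : ℕ) : ch l ≤ 1 := TA.ch_le _ l

lemma neg_one_le_ch (l : ℕ) : -1 ≤ ch l := TA.ch_ge _ l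

lemma ch_nonpos {l : ℕ} (hl : ¬ spl l) : ch l ≤ 0 := TA.A3.ch_nonpos hl

lemma rp_pos (D : ℕ) : 0 < rp D := TA.rp_pos _ D

lemma one_div_rp_le (D : ℕ) :
    1 / rp D ≤ Real.exp (1 + ∑ l ∈ D.primeFactors.filter (fun l => spl l), 1 / (l : ℝ)) := by
  have h := TA.A3.one_div_rp_le az D
  have e : D.primeFactors.filter (fun l => spl l) =
      D.primeFactors.filter (fun l => TA.chz az l = 1) := by
    unfold spl
    ext l
    simp only [mem_filter]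
  rw [e]
  exact h

/-- the sum of the reciprocals of the split prime divisors -/
lemma sum_primeFactors_le {C : ℝ} (hC : ∀ y : ℕ, 3 ≤ y →
    |(∑ l ∈ P4 y, 1 / (l : ℝ)) - 1 / 2 * Real.log (Real.log y)| ≤ C) {D B : ℕ} (h : D ≤ B) :
    ∑ l ∈ D.primeFactors.filter (fun l => spl l), 1 / (l : ℝ) ≤
      1 / 2 * Real.log (Real.log (Nat.log 2 B + 3 : ℕ)) + C + 1 := by
  have e : D.primeFactors.filter (fun l => spl l) =
      D.primeFactors.filter (fun l => TA.chz az l = 1) := by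
    unfold spl
    ext l
    simp only [mem_filter]
  rw [e]
  refine TA.A3.sum_primeFactors_le (fun y hy => ?_) h
  rw [← P4_eq_f]
  exact hC y hy

/-- **the weight `rp` is negligible** -/
theorem one_div_rp_le_exp (p : Prm) (hζ : 0 < p.ζ) {δ : ℝ} (hδ : 0 < δ) :
    ∀ᶠ N : ℕ in atTop, ∀ D : ℕ, D ≤ 10000 * (N + 1) ^ 2 → 1 / rp D ≤ Real.exp (δ * S0 p N) := by
  filter_upwards [TA.A3.one_div_rp_le_exp aa_ne nsq_aa p.E 10000 hζ hδ] with N hN D hD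
  rw [S0_eq_f]
  exact hN D hD

/-- the same with any constant in the box -/
theorem one_div_rp_le_exp' (p : Prm) (hζ : 0 < p.ζ) (B : ℕ) {δ : ℝ} (hδ : 0 < δ) :
    ∀ᶠ N : ℕ in atTop, ∀ D : ℕ, D ≤ B * (N + 1) ^ 2 → 1 / rp D ≤ Real.exp (δ * S0 p N) := by
  filter_upwards [TA.A3.one_div_rp_le_exp aa_ne nsq_aa p.E B hζ hδ] with N hN D hD
  rw [S0_eq_f]
  exact hN D hD

end

end Pool.Agent.Lib.MP391708.TG.A3
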