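import Pool.Agent.Lib.MP_391708_nt.TG1.ESpecC
import Pool.Agent.Lib.MP_391708_nt.TA.RRB
import Pool.Agent.Lib.MP_391708_nt.TG.ISm
import Pool.Agent.Lib.MP_391708_nt.TG.Basic
import Pool.Agent.Lib.MP_391708_nt.T1.EVS

/-!
# Theorem T1b (`a < 0`), module EDI: the decomposition of the sum over `S1`
-/

set_option autoImplicit false

namespace Pool.Agent.Lib.MP391708.TG1

open Finset
open scoped Classical
open TG (Aa aa az vl az_eq az_neg vl_cast vl_castR vl_add vl_pos natCast_dvd_vl spl cE Prm zz W0 PP sm Adm S1 vh DX dbox)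
open T1 (SDD Dm Locm F1 F2 wgt wgt0 SQ)
open TA (EX DD Rt PPs chz rr LL dens dm lm lmj Bm)

noncomputable section

attribute [local irreducible] S1 dbox TG.S2 TG.RG T4.rbox

namespace EDI

variable [Aa]

/-! ### windows -/

lemma window {G D n X N' : ℕ} {h : ℝ} {e : ℤ} (hn : 0 < n) (hG : 0 < G) (hD : 0 < D) (hh : 0 ≤ h)
    (hX : (X : ℤ) = G + D * e) (hXN : X = n * N') :
    (h ≤ (e : ℝ) ↔ ⌈((G : ℝ) + D * h) / n⌉₊ - 1 < N') := by
  have hn' : (0 : ℝ) < n := by exact_mod_cast hn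
  have hG' : (0 : ℝ) < G := by exact_mod_cast hG
  have hD' : (0 : ℝ) < D := by exact_mod_cast hD
  have h1 : (0 : ℝ) < ((G : ℝ) + D * h) / n := by positivity
  have h2 : 0 < ⌈((G : ℝ) + D * h) / n⌉₊ := Nat.ceil_pos.mpr h1
  have h3 : (⌈((G : ℝ) + D * h) / n⌉₊ - 1 < N') ↔ ⌈((G : ℝ) + D * h) / n⌉₊ ≤ N' := by omega
  rw [h3, Nat.ceil_le, div_le_iff₀ hn']
  have h4 : (N' : ℝ) * n = G + D * e := by
    have : (X : ℝ) = G + D * e := by exact_mod_cast hX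
    rw [← this, hXN]
    push_cast
    ring
  rw [h4]
  constructor
  · intro h5
    have := mul_le_mul_of_nonneg_left h5 hD'.le
    linarith
  · intro h5
    have : (D : ℝ) * h ≤ D * e := by linarith
    exact le_of_mul_le_mul_left this hD'

lemma window2 {G D n X N' : ℕ} {h : ℝ} {e : ℤ} (hn : 0 < n) (hG : 0 < G) (hD : 0 < D)
    (hh : 0 ≤ h) (hX : (X : ℤ) = G + D * e) (hXN : X = n * N') :
    ((e : ℝ) < 2 * h ↔ N' ≤ ⌈((G : ℝ) + 2 * D * h) / n⌉₊ - 1) := by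
  have h1 := window (h := 2 * h) hn hG hD (by linarith) hX hXN
  have h2 : ((G : ℝ) + D * (2 * h)) / n = ((G : ℝ) + 2 * D * h) / n := by ring
  rw [h2] at h1
  rw [← not_le, h1, not_lt]

lemma hI_iff {M Q : ℕ} (hM : 0 < M) (hQ : 0 < Q) (e : ℤ) :
    (M : ℤ) ^ 2 + az ≤ e * Q * M ↔ hI M Q ≤ (e : ℝ) := by
  have hM' : (0 : ℝ) < M := by exact_mod_cast hM
  have hQ' : (0 : ℝ) < Q := by exact_mod_cast hQ
  rw [hI, div_le_iff₀ (by positivity)]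
  have : ((M : ℝ) ^ 2 + az ≤ (e : ℝ) * (Q * M)) ↔
      (((M : ℤ) ^ 2 + az : ℤ) : ℝ) ≤ ((e * Q * M : ℤ) : ℝ) := by
    push_cast
    rw [mul_assoc]
  rw [this, Int.cast_le]

lemma hI_iff2 {M Q : ℕ} (hM : 0 < M) (hQ : 0 < Q) (e : ℤ) :
    e * Q * M < 2 * ((M : ℤ) ^ 2 + az) ↔ (e : ℝ) < 2 * hI M Q := by
  have hM' : (0 : ℝ) < M := by exact_mod_cast hM
  have hQ' : (0 : ℝ) < Q := by exact_mod_cast hQ
  have h1 : 2 * hI M Q = (2 * ((M : ℝ) ^ 2 + az)) / (Q * M) := by rw [hI]; ring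
  rw [h1, lt_div_iff₀ (by positivity)]
  have : ((e : ℝ) * (Q * M) < 2 * ((M : ℝ) ^ 2 + az)) ↔
      ((e * Q * M : ℤ) : ℝ) < ((2 * ((M : ℤ) ^ 2 + az) : ℤ) : ℝ) := by
    push_cast
    rw [mul_assoc]
  rw [this, Int.cast_lt]

lemma hI_nonneg {M : ℕ} (h : aa < M ^ 2) (Q : ℕ) : 0 ≤ hI M Q := by
  rw [hI, ← vl_castR h]
  positivity

/-! ### `sm`, `om` -/

lemma sm_mul {p : Prm} {N a b : ℕ} (ha : a ≠ 0) (hb : b ≠ 0) :
    sm p N (a * b) = sm p N a * sm p N b := by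
  unfold sm
  rw [← prod_mul_distrib]
  refine prod_congr rfl fun l _ => ?_
  rw [Nat.factorization_mul ha hb, Finsupp.add_apply, pow_add]

lemma sm_one_of {p : Prm} {N n : ℕ} (h : ∀ l ∈ PP p N, ¬ l ∣ n) : sm p N n = 1 := by
  unfold sm
  refine prod_eq_one fun l hl => ?_
  rw [Nat.factorization_eq_zero_of_not_dvd (h l hl), pow_zero]

lemma sm_self {p : Prm} {N n : ℕ} (hn : n ≠ 0) (h : ∀ l : ℕ, l.Prime → l ∣ n → l ∈ PP p N) :
    sm p N n = n := by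
  unfold sm
  have h1 : n.primeFactors ⊆ PP p N := fun l hl =>
    h l (Nat.prime_of_mem_primeFactors hl) (Nat.dvd_of_mem_primeFactors hl)
  rw [← prod_subset h1 (f := fun l => l ^ n.factorization l)]
  · exact Nat.prod_factorization_pow_eq_self hn
  · intro l _ hl
    rw [← Nat.support_factorization, Finsupp.mem_support_iff, not_not] at hl
    rw [hl, pow_zero]

lemma om_eq_card {p : Prm} {N n s : ℕ} (hs : s ≠ 0)
    (h : ∀ l : ℕ, l.Prime → l ∣ s → l ∈ PP p N)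
    (h' : ∀ l ∈ PP p N, l ∣ n ↔ l ∣ s) : TG.om p N n = s.primeFactors.card := by
  unfold TG.om
  congr 1
  ext l
  rw [mem_filter, Nat.mem_primeFactors]
  constructor
  · rintro ⟨h1, h2⟩
    exact ⟨TG.I.prime_of_mem_PP h1, (h' l h1).1 h2, hs⟩
  · rintro ⟨h1, h2, -⟩
    exact ⟨h l h1 h2, (h' l (h l h1 h2)).2 h2⟩

/-! ### the weights -/

lemma mem_PE {p : Prm} {N l : ℕ} : l ∈ PE p N ↔ (l : ℝ) < zz p N ∧ l.Prime ∧ p.E < l := by
  unfold PE QPA.PB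
  rw [mem_filter, mem_filter, mem_range, Nat.lt_ceil]
  tauto

lemma D2_eq {M G P Q D X : ℕ} {e : ℤ} (hD : 0 < D) (hX : (X : ℤ) = G + D * e) :
    T4.D2 (M, G, P, Q, (D : ℤ), X) = e := by
  show ((X : ℤ) - G) / (D : ℤ) = e
  have h1 : (D : ℤ) ≠ 0 := by exact_mod_cast hD.ne'
  have h2 : (X : ℤ) - G = D * e := by linear_combination hX
  rw [h2, Int.mul_ediv_cancel_left _ h1]

/-- the product of the local weights -/
lemma prod_pI {p : Prm} {N M G P Q n D X : ℕ} {e : ℤ} (hD : 0 < D)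
    (hX : (X : ℤ) = G + D * e) (hn : n ∣ X)
    (h1 : ∀ l ∈ PE p N, ¬ l ∣ n → ¬ l ∣ X)
    (h2 : ∀ l ∈ PE p N, ¬ l ∣ n → (l : ℤ) ∣ (M : ℤ) ^ 2 + az → ¬ ((l : ℤ) ∣ (D : ℤ) ∧ l ∣ Q)) :
    ∏ l ∈ (PE p N).filter (fun l => ¬ l ∣ n), pI M G P Q l D e =
      TG.tilt p N (1 / 6) (1 / 6) (M, G, P, Q, (D : ℤ), X) := by
  have hXd : ∀ l : ℕ, (l : ℤ) ∣ (G : ℤ) + D * e ↔ l ∣ X := by
    intro l
    rw [← hX, Int.natCast_dvd_natCast]
  have hsub : (PP p N).filter (fun l => ¬ l ∣ (vl M) * X) ⊆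
      (PE p N).filter (fun l => ¬ l ∣ n) := by
    intro l hl
    rw [mem_filter, TG.I.mem_PP] at hl
    rw [mem_filter, mem_PE]
    exact ⟨⟨hl.1.1, hl.1.2.1, hl.1.2.2.2⟩, fun h => hl.2 (dvd_mul_of_dvd_right (h.trans hn) _)⟩
  have hMd : ∀ l : ℕ, (l : ℤ) ∣ (M : ℤ) ^ 2 + az ↔ l ∣ vl M := fun l => natCast_dvd_vl.symm
  rw [← Finset.prod_subset hsub]
  · unfold TG.tilt
    refine prod_congr rfl fun l hl => ?_
    rw [mem_filter, TG.I.mem_PP] at hl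
    have h3 : ¬ l ∣ vl M := fun h => hl.2 (dvd_mul_of_dvd_left h _)
    have h4 : ¬ l ∣ X := fun h => hl.2 (dvd_mul_of_dvd_right h _)
    rw [pI, if_neg (by rw [hMd]; exact h3), if_pos hl.1.2.2.1, wgt, if_neg (by rw [hXd]; exact h4),
      T1.EVS.F1_eq, T1.EVS.F2_eq, D2_eq hD hX]
  · intro l hl hl2
    rw [mem_filter] at hl
    have h4 := h1 l hl.1 hl.2
    rw [pI]
    by_cases h3 : (l : ℤ) ∣ (M : ℤ) ^ 2 + az
    · rw [if_pos h3, wgt0, if_neg]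
      rw [hXd, not_or]
      exact ⟨h4, h2 l hl.1 hl.2 h3⟩
    · rw [if_neg h3]
      by_cases h5 : spl l
      · exfalso
        apply hl2
        rw [mem_PE] at hl
        rw [mem_filter, TG.I.mem_PP]
        refine ⟨⟨hl.1.1, hl.1.2.1, h5, hl.1.2.2⟩, fun h => ?_⟩
        rcases (Nat.Prime.dvd_mul hl.1.2.1).mp h with h | h
        · exact h3 ((hMd l).mpr h)
        · exact h4 h
      · rw [if_neg h5, wgt, if_neg (by rw [hXd]; exact h4), ite_self, ite_self, one_mul]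

lemma pI_mem (M G P Q l : ℕ) (d e : ℤ) : 0 ≤ pI M G P Q l d e ∧ pI M G P Q l d e ≤ 1 := by
  rw [pI, wgt0, wgt, wgt]
  split_ifs <;> norm_num

lemma of_ne_zero {p : Prm} {N M G P Q n D X : ℕ} {e : ℤ} (hX : (X : ℤ) = G + D * e)
    (h : ∏ l ∈ (PE p N).filter (fun l => ¬ l ∣ n), pI M G P Q l D e ≠ 0) :
    (∀ l ∈ PE p N, ¬ l ∣ n → ¬ l ∣ X) ∧
    (∀ l ∈ PE p N, ¬ l ∣ n → (l : ℤ) ∣ (M : ℤ) ^ 2 + az → ¬ ((l : ℤ) ∣ (D : ℤ) ∧ l ∣ Q)) := by
  have hXd : ∀ l : ℕ, (l : ℤ) ∣ (G : ℤ) + D * e ↔ l ∣ X := by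
    intro l
    rw [← hX, Int.natCast_dvd_natCast]
  rw [Finset.prod_ne_zero_iff] at h
  constructor
  · intro l hl hn hlX
    apply h l (mem_filter.mpr ⟨hl, hn⟩)
    rw [pI, wgt0, wgt, wgt, if_pos (Or.inl ((hXd l).mpr hlX)), if_pos ((hXd l).mpr hlX),
      if_pos ((hXd l).mpr hlX), ite_self, ite_self]
  · intro l hl hn hM hDQ
    apply h l (mem_filter.mpr ⟨hl, hn⟩)
    rw [pI, if_pos hM, wgt0, if_pos (Or.inr hDQ)]

/-! ### the hypotheses -/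

structure Hyp (p : Prm) (N M G P Q : ℕ) : Prop where
  W4 : 4 * aa ∣ W0 p
  WE : ∀ l : ℕ, l.Prime → (l ≤ p.E ↔ l ∣ W0 p)
  z2 : 2 ≤ zz p N
  adm : Adm p N M G P Q
  M0 : 0 < M
  G0 : 0 < G
  P0 : 0 < P
  Q0 : 0 < Q
  aM : aa ≤ M

/-- the good `x` -/
def gk (p : Prm) (N G n : ℕ) (x : ℕ) : Prop :=
  ¬ (∃ l : ℕ, l.Prime ∧ l ∣ n ∧ l ∣ x) ∧
  ¬ (∃ l : ℕ, l.Prime ∧ zz p N ≤ (l : ℝ) ∧ (l ^ 2 ∣ x ∨ (l ∣ x ∧ l ∣ G)))

section main

variable {p : Prm} {N M G P Q : ℕ}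

lemma Hyp.eq (h : Hyp p N M G P Q) : G * P * Q = vl M := h.adm.2.1

lemma Hyp.nd (h : Hyp p N M G P Q) {l : ℕ} (hl : l.Prime) (hE : p.E < l) : ¬ l ∣ 2 * aa := by
  intro h1
  have h2 : l ∣ W0 p := (h1.trans ⟨2, by ring⟩).trans h.W4
  have := (h.WE l hl).mpr h2
  omega

lemma mem_SQ {n : ℕ} : n ∈ SQ (PP p N \ P1 p N M) (zz p N ^ p.K) ↔
    1 ≤ n ∧ n ≤ ⌊zz p N ^ p.K⌋₊ ∧ Squarefree n ∧
      ∀ l : ℕ, l.Prime → l ∣ n → l ∈ PP p N ∧ ¬ l ∣ vl M := by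
  unfold SQ P1
  rw [mem_filter, mem_Icc]
  constructor
  · rintro ⟨⟨h1, h2⟩, h3, h4⟩
    refine ⟨h1, h2, h3, fun l hl hd => ?_⟩
    have h5 := h4 l hl hd
    rw [mem_sdiff, mem_filter, not_and] at h5
    exact ⟨h5.1, h5.2 h5.1⟩
  · rintro ⟨h1, h2, h3, h4⟩
    refine ⟨⟨h1, h2⟩, h3, fun l hl hd => ?_⟩
    have h5 := h4 l hl hd
    rw [mem_sdiff, mem_filter, not_and]
    exact ⟨h5.1, fun _ => h5.2⟩

lemma box_aux (h : Hyp p N M G P Q) {D X : ℕ} {e : ℤ} (hD : 0 < D) (hX : (X : ℤ) = G + D * e)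
    (h1 : D * P ≤ 3 * M) (h2 : (M : ℤ) ^ 2 + az ≤ e * Q * M)
    (h3 : e * Q * M < 2 * ((M : ℤ) ^ 2 + az)) :
    -((10000 * (N + 1) ^ 2 : ℕ) : ℤ) < (D : ℤ) ∧ (D : ℤ) < ((10000 * (N + 1) ^ 2 : ℕ) : ℤ) ∧
      X < 10000 * (N + 1) ^ 2 := by
  obtain ⟨ham, hGP, hN1, hN2, -⟩ := h.adm
  have hGP' : (G : ℤ) * P * Q = (M : ℤ) ^ 2 + az := by
    rw [← vl_cast ham]
    exact_mod_cast hGP
  have hM : (0 : ℤ) < M := by exact_mod_cast h.M0
  have hG : (0 : ℤ) < G := by exact_mod_cast h.G0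
  have hP : (0 : ℤ) < P := by exact_mod_cast h.P0
  have hQ : (0 : ℤ) < Q := by exact_mod_cast h.Q0
  have ha : az ≤ M := by
    have := TG.az_neg
    linarith
  have hDz : (0 : ℤ) < D := by exact_mod_cast hD
  have hN0 : (0 : ℤ) ≤ N := Int.natCast_nonneg N
  have h1' : (D : ℤ) * P ≤ 3 * M := by exact_mod_cast h1
  have hN2' : (M : ℤ) ≤ 8 * N := by exact_mod_cast hN2
  have hD3 : (D : ℤ) ≤ 24 * N := by nlinarith
  have he1 : e * M < 2 * G * P := by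
    rw [← hGP'] at h3
    have : (e * M) * Q < (2 * G * P) * Q := by linarith
    exact lt_of_mul_lt_mul_right this hQ.le
  have he2 : (D : ℤ) * e < 6 * G := by
    have h4 : ((D : ℤ) * e) * M < (6 * G) * M := by
      calc ((D : ℤ) * e) * M = D * (e * M) := by ring
        _ < D * (2 * G * P) := mul_lt_mul_of_pos_left he1 hDz
        _ = 2 * G * (D * P) := by ring
        _ ≤ 2 * G * (3 * M) := mul_le_mul_of_nonneg_left h1' (by positivity)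
        _ = (6 * G) * M := by ring
    exact lt_of_mul_lt_mul_right h4 hM.le
  have hGM : (G : ℤ) ≤ (M : ℤ) ^ 2 + az := by
    rw [← hGP']
    have h5 : (1 : ℤ) ≤ P * Q := by nlinarith
    nlinarith
  have hM2 : (M : ℤ) ^ 2 ≤ 64 * N ^ 2 := by nlinarith
  have hX3 : (X : ℤ) < 10000 * ((N : ℤ) + 1) ^ 2 := by
    rw [hX]
    nlinarith
  push_cast
  refine ⟨by nlinarith [sq_nonneg ((N : ℤ) + 1)], by nlinarith, ?_⟩
  exact_mod_cast hX3

/-- from `(n, D, x)` to `(D, X)` -/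
lemma backward (h : Hyp p N M G P Q) {n D x : ℕ}
    (hn : n ∈ SQ (PP p N \ P1 p N M) (zz p N ^ p.K))
    (hD : D ∈ DD (W0 p) n M G P Q (2 * M / P) (3 * M / P))
    (hk : x ∈ KI p M G Q n D) (hg : gk p N G n x)
    (hp : rr az x * ∏ l ∈ (PE p N).filter (fun l => ¬ l ∣ n),
      pI M G P Q l D (((n : ℤ) * x - G) / D) ≠ 0) :
    ((D : ℤ), n * x) ∈ S1 p N M G P Q ∧ sm p N (n * x) = n ∧ 0 < n ∧
      0 < D ∧ 0 < x ∧ (n : ℤ) ∣ F1 M G P Q (D : ℤ) := by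
  obtain ⟨ham, hGP, hN1, hN2, hGW, -, -, -, -, -⟩ := h.adm
  have hrr : rr az x ≠ 0 := left_ne_zero_of_mul hp
  replace hp := right_ne_zero_of_mul hp
  obtain ⟨hn1, hnK, hns, hnp⟩ := mem_SQ.mp hn
  unfold DD at hD
  rw [mem_filter, mem_Ioc] at hD
  obtain ⟨⟨hD1, hD2⟩, hWD, hDG, hDn, hnF⟩ := hD
  unfold KI at hk
  rw [mem_filter, mem_Ioc] at hk
  obtain ⟨⟨hk1, hk2⟩, hkD⟩ := hk
  have hD0 : 0 < D := lt_of_le_of_lt (Nat.zero_le _) hD1
  have hx0 : 0 < x := by omega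
  set e : ℤ := ((n : ℤ) * x - G) / D with he
  have hDz : (D : ℤ) ≠ 0 := by exact_mod_cast hD0.ne'
  have hDe : (n : ℤ) * x - G = D * e := by
    have h1 : (D : ℤ) ∣ (n : ℤ) * x - G := by
      refine Dvd.dvd.trans ?_ hkD
      rw [Nat.cast_mul]
      exact dvd_mul_right _ _
    rw [he, Int.mul_ediv_cancel' h1]
  have hWe : (W0 p : ℤ) ∣ e := by
    rw [hDe, Nat.cast_mul] at hkD
    exact (mul_dvd_mul_iff_left hDz).mp hkD
  have hX : ((n * x : ℕ) : ℤ) = G + D * e := by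
    rw [Nat.cast_mul]
    linear_combination hDe
  obtain ⟨hz1, hz2⟩ := of_ne_zero hX hp
  -- `X` is prime to `W0`
  have hXW : ∀ l : ℕ, l.Prime → l ∣ n * x → ¬ l ∣ W0 p := by
    intro l hl hlX hlW
    have h1 : (l : ℤ) ∣ D := by exact_mod_cast hlW.trans hWD
    have h2 : (l : ℤ) ∣ ((n * x : ℕ) : ℤ) := by exact_mod_cast hlX
    have h3 : (l : ℤ) ∣ G := by
      rw [hX] at h2
      exact (dvd_add_left (Dvd.dvd.mul_right h1 e)).mp h2
    have h4 : l ∣ G := by exact_mod_cast h3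
    exact Nat.not_coprime_of_dvd_of_dvd hl.one_lt h4 hlW hGW
  -- the primes of `x`
  have hNp : ∀ l : ℕ, l.Prime → l ∣ x → zz p N ≤ l ∧ spl l := by
    intro l hl hlN
    have h1 : ¬ l ∣ W0 p := hXW l hl (dvd_mul_of_dvd_right hlN n)
    have h2 : p.E < l := by
      by_contra h3
      exact h1 ((h.WE l hl).mp (by omega))
    have hz : zz p N ≤ l := by
      by_contra h3
      have h4 : l ∈ PE p N := mem_PE.mpr ⟨not_le.mp h3, hl, h2⟩
      have h5 : ¬ l ∣ n := fun h6 => hg.1 ⟨l, hl, h6, hlN⟩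
      exact hz1 l h4 h5 (dvd_mul_of_dvd_right hlN n)
    refine ⟨hz, ?_⟩
    have h6 : l.Coprime (2 * aa) := (Nat.Prime.coprime_iff_not_dvd hl).mpr (h.nd hl h2)
    rcases TA.chz_sq (a := az) hl.ne_zero (by rw [TG.az_natAbs]; exact h6) with h7 | h7
    · exact h7
    · exfalso
      have h8 : ¬ l ^ 2 ∣ x := fun h9 => hg.2 ⟨l, hl, hz, Or.inl h9⟩
      have ha : az ≠ 0 := TG.az_ne
      exact hrr ((TA.specRRB az ha).2.2.1 x l hx0 hl h7 hlN h8)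
  have hNs : Squarefree x := by
    rw [Nat.squarefree_iff_prime_squarefree]
    intro l hl hd
    have h1 := (hNp l hl ((dvd_mul_right l l).trans hd)).1
    refine hg.2 ⟨l, hl, h1, Or.inl ?_⟩
    rw [pow_two]
    exact hd
  have hcop : n.Coprime x := by
    rw [Nat.coprime_iff_gcd_eq_one]
    by_contra hne
    obtain ⟨l, hl, hd⟩ := Nat.exists_prime_and_dvd hne
    exact hg.1 ⟨l, hl, hd.trans (Nat.gcd_dvd_left _ _), hd.trans (Nat.gcd_dvd_right _ _)⟩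
  have hXs : Squarefree (n * x) := (Nat.squarefree_mul hcop).mpr ⟨hns, hNs⟩
  have hXp : ∀ l : ℕ, l.Prime → l ∣ n * x → spl l := by
    intro l hl hd
    rcases (Nat.Prime.dvd_mul hl).mp hd with h1 | h1
    · exact (TG.I.mem_PP.mp (hnp l hl h1).1).2.2.1
    · exact (hNp l hl h1).2
  have hGX : Nat.Coprime G (n * x) := by
    rw [Nat.coprime_iff_gcd_eq_one]
    by_contra hne
    obtain ⟨l, hl, hd⟩ := Nat.exists_prime_and_dvd hne
    have hlG := hd.trans (Nat.gcd_dvd_left _ _)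
    rcases (Nat.Prime.dvd_mul hl).mp (hd.trans (Nat.gcd_dvd_right _ _)) with h1 | h1
    · apply (hnp l hl h1).2
      rw [← hGP, mul_assoc]
      exact dvd_mul_of_dvd_left hlG _
    · exact hg.2 ⟨l, hl, (hNp l hl h1).1, Or.inr ⟨h1, hlG⟩⟩
  have hsm : sm p N (n * x) = n := by
    rw [sm_mul (by omega) (by omega), sm_self (by omega) (fun l hl hd => (hnp l hl hd).1),
      sm_one_of, mul_one]
    intro l hl hd
    have h1 := TG.I.mem_PP.mp hl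
    have h2 := (hNp l h1.2.1 hd).1
    linarith [h1.1]
  -- the windows
  have hwe1 := (hI_iff h.M0 h.Q0 e).mpr
    ((window (by omega) h.G0 hD0 (hI_nonneg h.adm.1 Q) hX rfl).mpr hk1)
  have hwe2 := (hI_iff2 h.M0 h.Q0 e).mpr
    ((window2 (by omega) h.G0 hD0 (hI_nonneg h.adm.1 Q) hX rfl).mpr hk2)
  have hwD1 : 2 * M < D * P := (Nat.div_lt_iff_lt_mul h.P0).mp hD1
  have hwD2 : D * P ≤ 3 * M := (Nat.le_div_iff_mul_le h.P0).mp hD2
  have hD2e : T4.D2 (M, G, P, Q, (D : ℤ), n * x) = e := D2_eq hD0 hX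
  refine ⟨?_, hsm, by omega, hD0, hx0, hnF⟩
  unfold S1
  rw [mem_filter]
  refine ⟨?_, ⟨hDz, ?_, ?_, ?_, ?_, hXs, hXp, hGX, ?_⟩, ?_, ?_, ?_, ?_, ?_, ?_, ?_⟩
  · have hb := box_aux h hD0 hX hwD2 hwe1 hwe2
    unfold dbox
    rw [mem_product, mem_Ioo, mem_range]
    exact ⟨⟨hb.1, hb.2.1⟩, hb.2.2⟩
  · show (D : ℤ) ∣ ((n * x : ℕ) : ℤ) - G
    rw [hX]
    exact ⟨e, by ring⟩
  · show (W0 p : ℤ) ∣ (D : ℤ)
    exact_mod_cast hWD
  · rw [hD2e]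
    exact hWe
  · show Nat.Coprime (n * x) (W0 p)
    rw [Nat.coprime_iff_gcd_eq_one]
    by_contra hne
    obtain ⟨l, hl, hd⟩ := Nat.exists_prime_and_dvd hne
    exact hXW l hl (hd.trans (Nat.gcd_dvd_left _ _)) (hd.trans (Nat.gcd_dvd_right _ _))
  · exact Nat.isCoprime_iff_coprime.mpr hDG
  · show 2 * (M : ℤ) < (D : ℤ) * P
    exact_mod_cast hwD1
  · show (D : ℤ) * P ≤ 3 * (M : ℤ)
    exact_mod_cast hwD2
  · rw [hD2e]
    exact hwe1
  · rw [hD2e]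
    exact hwe2
  · intro l hl hlD hlQ
    have h1 := TG.I.mem_PP.mp hl
    have h2 : l ∣ vl M := by rw [← hGP]; exact dvd_mul_of_dvd_right hlQ _
    have h3 : ¬ l ∣ n := fun h4 => (hnp l h1.2.1 h4).2 h2
    exact hz2 l (mem_PE.mpr ⟨h1.1, h1.2.1, h1.2.2.2⟩) h3 (natCast_dvd_vl.mp h2) ⟨hlD, hlQ⟩
  · intro l hl hlX
    have h1 := TG.I.mem_PP.mp hl
    rcases (Nat.Prime.dvd_mul h1.2.1).mp hlX with h2 | h2
    · exact (hnp l h1.2.1 h2).2
    · have h3 := (hNp l h1.2.1 h2).1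
      linarith [h1.1]
  · show (sm p N (n * x) : ℝ) ≤ zz p N ^ p.K
    rw [hsm]
    exact (Nat.le_floor_iff (by have := h.z2; positivity)).mp hnK

lemma tilt_pos (r : T4.Rl) : 0 < TG.tilt p N (1 / 6) (1 / 6) r := by
  unfold TG.tilt
  refine prod_pos fun l _ => ?_
  split_ifs <;> norm_num

/-- from `(D, X)` to `(n, D, x)` -/
lemma forward (h : Hyp p N M G P Q) {D' : ℤ} {X x : ℕ}
    (ht : (D', X) ∈ S1 p N M G P Q) (hF : (sm p N X : ℤ) ∣ F1 M G P Q D')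
    (hk : x = X / sm p N X) :
    ((D'.toNat : ℕ) : ℤ) = D' ∧ 0 < D'.toNat ∧ X ≠ 0 ∧ sm p N X * x = X ∧
      sm p N X ∈ SQ (PP p N \ P1 p N M) (zz p N ^ p.K) ∧
      D'.toNat ∈ DD (W0 p) (sm p N X) M G P Q (2 * M / P) (3 * M / P) ∧
      x ∈ KI p M G Q (sm p N X) D'.toNat ∧ gk p N G (sm p N X) x ∧
      rr az x = 2 ^ x.primeFactors.card ∧ 0 < x ∧
      ∏ l ∈ (PE p N).filter (fun l => ¬ l ∣ sm p N X),
        pI M G P Q l (D'.toNat : ℕ) ((((sm p N X : ℕ) : ℤ) * x - G) / (D'.toNat : ℕ)) =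
          TG.tilt p N (1 / 6) (1 / 6) (M, G, P, Q, D', X) := by
  obtain ⟨-, hGP, -⟩ := h.adm
  unfold S1 at ht
  rw [mem_filter] at ht
  obtain ⟨-, ⟨hD0, hDX, hWD, hWe, hXW, hXs, hXp, hGX, hDG⟩, hw1, hw2, hw3, hw4, hDQ, hXM, hXK⟩ := ht
  change D' ≠ 0 at hD0
  change D' ∣ (X : ℤ) - G at hDX
  change (W0 p : ℤ) ∣ D' at hWD
  change Nat.Coprime X (W0 p) at hXW
  change Squarefree X at hXs
  change ∀ l : ℕ, l.Prime → l ∣ X → spl l at hXp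
  change Nat.Coprime G X at hGX
  change IsCoprime D' (G : ℤ) at hDG
  change 2 * (M : ℤ) < D' * P at hw1
  change D' * P ≤ 3 * (M : ℤ) at hw2
  change ∀ l ∈ PP p N, (l : ℤ) ∣ D' → ¬ l ∣ Q at hDQ
  change ∀ l ∈ PP p N, l ∣ X → ¬ l ∣ vl M at hXM
  change (sm p N X : ℝ) ≤ zz p N ^ p.K at hXK
  have hM : (0 : ℤ) < M := by exact_mod_cast h.M0
  have hP : (0 : ℤ) < P := by exact_mod_cast h.P0
  have hD'0 : 0 < D' := by
    by_contra hc
    have : D' * P ≤ 0 := mul_nonpos_of_nonpos_of_nonneg (not_lt.mp hc) hP.le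
    linarith
  obtain ⟨D, rfl⟩ : ∃ D : ℕ, D' = (D : ℤ) := ⟨D'.toNat, (Int.toNat_of_nonneg hD'0.le).symm⟩
  rw [Int.toNat_natCast]
  have hD : 0 < D := by exact_mod_cast hD'0
  have hX0 : X ≠ 0 := hXs.ne_zero
  obtain ⟨N', hN'⟩ := TG.I.sm_dvd (p := p) (N := N) hX0
  set n := sm p N X with hn
  have hn0 : 0 < n := TG.I.sm_pos X
  have hN'0 : 0 < N' := by
    rcases Nat.eq_zero_or_pos N' with h1 | h1
    · rw [h1, mul_zero] at hN'; exact absurd hN' hX0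
    · exact h1
  have hdiv : X / n = N' := by
    conv_lhs => rw [hN']
    exact Nat.mul_div_cancel_left _ hn0
  rw [hdiv] at hk
  subst hk
  obtain ⟨e, he⟩ := hDX
  have hX : (X : ℤ) = G + D * e := by linear_combination he
  have hD2e : T4.D2 (M, G, P, Q, (D : ℤ), X) = e := D2_eq hD hX
  rw [hD2e] at hWe hw3 hw4
  have hcop : n.Coprime x ∧ Squarefree n ∧ Squarefree x := by
    have h1 := hXs
    rw [hN', Nat.squarefree_mul_iff] at h1
    exact h1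
  have hnX : n ∣ X := ⟨x, hN'⟩
  have hNX : x ∣ X := ⟨n, by rw [hN', mul_comm]⟩
  have h1 : ∀ l ∈ PE p N, ¬ l ∣ n → ¬ l ∣ X := by
    intro l hl hln hlX
    rw [mem_PE] at hl
    apply hln
    exact (TG.I.dvd_sm_iff hX0 (TG.I.mem_PP.mpr ⟨hl.1, hl.2.1, hXp l hl.2.1 hlX, hl.2.2⟩)).mpr hlX
  have h2 : ∀ l ∈ PE p N, ¬ l ∣ n → (l : ℤ) ∣ (M : ℤ) ^ 2 + az →
      ¬ ((l : ℤ) ∣ (D : ℤ) ∧ l ∣ Q) := by
    intro l hl hln hlM hlDQ
    rw [mem_PE] at hl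
    have h3 : spl l := TG.Bs.spl_of_dvd hl.2.1 (h.nd hl.2.1 hl.2.2) (M := M) (natCast_dvd_vl.mpr hlM)
    exact hDQ l (TG.I.mem_PP.mpr ⟨hl.1, hl.2.1, h3, hl.2.2⟩) hlDQ.1 hlDQ.2
  have hee : ((n : ℤ) * x - G) / (D : ℤ) = e := by
    have h5 : (n : ℤ) * x - G = D * e := by
      have : (X : ℤ) = n * x := by exact_mod_cast hN'
      linear_combination hX - this
    rw [h5, Int.mul_ediv_cancel_left _ (by exact_mod_cast hD.ne')]
  have hprod := prod_pI (p := p) (N := N) (P := P) hD hX hnX h1 h2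
  have ha : az ≠ 0 := TG.az_ne
  refine ⟨rfl, hD, hX0, hN'.symm, ?_, ?_, ?_, ⟨?_, ?_⟩, ?_, hN'0, ?_⟩
  · rw [mem_SQ]
    refine ⟨hn0, Nat.le_floor hXK, hcop.2.1, fun l hl hd => ?_⟩
    have h5 := TG.I.mem_PP_of_dvd_sm (p := p) (N := N) hl hd
    exact ⟨h5.1, hXM l h5.1 h5.2⟩
  · unfold DD
    rw [mem_filter, mem_Ioc]
    refine ⟨⟨?_, ?_⟩, by exact_mod_cast hWD, Nat.isCoprime_iff_coprime.mp hDG, ?_, hF⟩
    · rw [Nat.div_lt_iff_lt_mul h.P0]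
      exact_mod_cast hw1
    · rw [Nat.le_div_iff_mul_le h.P0]
      exact_mod_cast hw2
    · rw [Nat.coprime_iff_gcd_eq_one]
      by_contra hne
      obtain ⟨l, hl, hd⟩ := Nat.exists_prime_and_dvd hne
      have h5 : l ∣ X := (hd.trans (Nat.gcd_dvd_right _ _)).trans hnX
      have h6 : (l : ℤ) ∣ (D : ℤ) := by exact_mod_cast hd.trans (Nat.gcd_dvd_left _ _)
      have h7 : (l : ℤ) ∣ (G : ℤ) := by
        have h8 : (l : ℤ) ∣ (X : ℤ) := by exact_mod_cast h5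
        rw [hX] at h8
        exact (dvd_add_left (Dvd.dvd.mul_right h6 e)).mp h8
      exact Nat.not_coprime_of_dvd_of_dvd hl.one_lt (by exact_mod_cast h7) h5 hGX
  · unfold KI
    rw [mem_filter, mem_Ioc]
    have hw3' := (window hn0 h.G0 hD (hI_nonneg h.adm.1 Q) hX hN').mp ((hI_iff h.M0 h.Q0 e).mp hw3)
    have hw4' := (window2 hn0 h.G0 hD (hI_nonneg h.adm.1 Q) hX hN').mp ((hI_iff2 h.M0 h.Q0 e).mp hw4)
    refine ⟨⟨hw3', hw4'⟩, ?_⟩
    have h5 : (n : ℤ) * ((x : ℕ) : ℤ) - G = D * e := by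
      have : (X : ℤ) = n * x := by exact_mod_cast hN'
      linear_combination hX - this
    rw [h5, Nat.cast_mul]
    exact mul_dvd_mul_left _ hWe
  · rintro ⟨l, hl, hln, hlk⟩
    exact Nat.not_coprime_of_dvd_of_dvd hl.one_lt hln hlk hcop.1
  · rintro ⟨l, hl, -, hlk | ⟨hlk, hlG⟩⟩
    · rw [pow_two] at hlk
      exact hl.one_lt.ne' (Nat.isUnit_iff.mp (hcop.2.2 l hlk))
    · exact Nat.not_coprime_of_dvd_of_dvd hl.one_lt hlG (hlk.trans hNX) hGX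
  · exact (TA.specRRB az ha).2.1 x hN'0 hcop.2.2 (fun l hl hd => hXp l hl (hd.trans hNX))
  · rw [hee, hprod]

/-- one term of the sum over `S1` -/
lemma term (h : Hyp p N M G P Q) {t : ℤ × ℕ} (ht : t ∈ S1 p N M G P Q) :
    (t.2 : ℝ) / G * vh p N (1 / 6) (1 / 6) (1 / 6) (M, G, P, Q, t) =
      if (sm p N t.2 : ℤ) ∣ F1 M G P Q t.1 then
        cI G (sm p N t.2) * (1 / TA.rp az t.1.toNat *
          (rr az (t.2 / sm p N t.2) * TG.tilt p N (1 / 6) (1 / 6) (M, G, P, Q, t))) else 0 := by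
  obtain ⟨D', X⟩ := t
  have hvh : vh p N (1 / 6) (1 / 6) (1 / 6) (M, G, P, Q, (D', X)) =
      1 / TG.rp D'.natAbs * (1 / 6) ^ TG.om p N X * T4.dn (X / sm p N X) *
        (if (sm p N X : ℤ) ∣ F1 M G P Q D' then 1 else 0) *
        TG.tilt p N (1 / 6) (1 / 6) (M, G, P, Q, (D', X)) := by
    have h1 := T1.EVS.F1_eq M G P Q (D', X)
    unfold vh
    rw [h1]
    rfl
  show (X : ℝ) / G * vh p N (1 / 6) (1 / 6) (1 / 6) (M, G, P, Q, (D', X)) =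
    if (sm p N X : ℤ) ∣ F1 M G P Q D' then cI G (sm p N X) * (1 / TA.rp az D'.toNat *
        (rr az (X / sm p N X) * TG.tilt p N (1 / 6) (1 / 6) (M, G, P, Q, (D', X)))) else 0
  rw [hvh]
  by_cases hF : (sm p N X : ℤ) ∣ F1 M G P Q D'
  · rw [if_pos hF, if_pos hF, mul_one]
    obtain ⟨hf1, hf2, hX0, hf4, -, -, -, -, hrr, hx0, -⟩ := forward h ht hF rfl
    have hom : TG.om p N X = (sm p N X).primeFactors.card :=
      om_eq_card (TG.I.sm_pos X).ne' (fun l hl hd => (TG.I.mem_PP_of_dvd_sm hl hd).1)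
        (fun l hl => (TG.I.dvd_sm_iff hX0 hl).symm)
    set n := sm p N X with hn
    set x := X / n with hx
    rw [hrr, hom, rp_eq, cI, T4.dn, T4.wn]
    have h3 : D'.natAbs = D'.toNat := by omega
    rw [h3]
    have h4 : (X : ℝ) = n * x := by exact_mod_cast hf4.symm
    have h5 : (x : ℝ) ≠ 0 := by exact_mod_cast hx0.ne'
    have h6 : (G : ℝ) ≠ 0 := by exact_mod_cast h.G0.ne'
    rw [h4]
    field_simp
  · rw [if_neg hF, if_neg hF]
    ring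

lemma cI_UI (n : ℕ) (c : ℕ → Prop) : cI G n * UI p N M G P Q n c =
    ∑ D ∈ DD (W0 p) n M G P Q (2 * M / P) (3 * M / P), ∑ x ∈ (KI p M G Q n D).filter c,
      cI G n * (1 / TA.rp az D * (rr az x * ∏ l ∈ (PE p N).filter (fun l => ¬ l ∣ n),
        pI M G P Q l D (((n : ℤ) * x - G) / D))) := by
  unfold UI
  rw [mul_sum]
  refine sum_congr rfl fun D _ => ?_
  rw [mul_sum, mul_sum]

/-- the exact decomposition -/
lemma sum_S1 (h : Hyp p N M G P Q) :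
    ∑ t ∈ S1 p N M G P Q, (t.2 : ℝ) / G * vh p N (1 / 6) (1 / 6) (1 / 6) (M, G, P, Q, t) =
      ∑ n ∈ SQ (PP p N \ P1 p N M) (zz p N ^ p.K), cI G n * UI p N M G P Q n (gk p N G n) := by
  rw [sum_congr rfl fun t ht => term h ht, sum_congr rfl fun n _ => cI_UI n (gk p N G n),
    ← sum_filter]
  have hR : ∀ n D : ℕ, ∑ x ∈ (KI p M G Q n D).filter (gk p N G n),
      cI G n * (1 / TA.rp az D * (rr az x * ∏ l ∈ (PE p N).filter (fun l => ¬ l ∣ n),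
        pI M G P Q l D (((n : ℤ) * x - G) / D))) =
      ∑ x ∈ (KI p M G Q n D).filter (fun x => gk p N G n x ∧
        rr az x * ∏ l ∈ (PE p N).filter (fun l => ¬ l ∣ n),
          pI M G P Q l D (((n : ℤ) * x - G) / D) ≠ 0),
      cI G n * (1 / TA.rp az D * (rr az x * ∏ l ∈ (PE p N).filter (fun l => ¬ l ∣ n),
        pI M G P Q l D (((n : ℤ) * x - G) / D))) := by
    intro n D
    rw [← Finset.filter_filter]
    symm
    refine Finset.sum_filter_of_ne ?_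
    intro x _ hk hz
    apply hk
    rw [hz, mul_zero, mul_zero]
  rw [sum_congr rfl fun n _ => sum_congr rfl fun D _ => hR n D]
  rw [sum_congr rfl fun n _ => Finset.sum_sigma' (DD (W0 p) n M G P Q (2 * M / P) (3 * M / P))
    (fun D => (KI p M G Q n D).filter (fun x => gk p N G n x ∧
        rr az x * ∏ l ∈ (PE p N).filter (fun l => ¬ l ∣ n),
          pI M G P Q l D (((n : ℤ) * x - G) / D) ≠ 0))
    (fun D x => cI G n * (1 / TA.rp az D * (rr az x * ∏ l ∈ (PE p N).filter (fun l => ¬ l ∣ n),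
        pI M G P Q l D (((n : ℤ) * x - G) / D))))]
  rw [Finset.sum_sigma']
  refine Finset.sum_bij' (fun t _ => ⟨sm p N t.2, ⟨t.1.toNat, t.2 / sm p N t.2⟩⟩)
    (fun y _ => ((y.2.1 : ℤ), y.1 * y.2.2)) ?_ ?_ ?_ ?_ ?_
  · rintro ⟨D', X⟩ hx
    rw [mem_filter] at hx
    obtain ⟨ht, hF⟩ := hx
    obtain ⟨-, -, -, -, h1, h2, h3, h4, h5, h6, h7⟩ := forward h ht hF rfl
    rw [mem_sigma, mem_sigma, mem_filter]
    refine ⟨h1, h2, h3, h4, ?_⟩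
    rw [h5, h7]
    exact (mul_pos (by positivity) (tilt_pos _)).ne'
  · rintro ⟨n, D, x⟩ hx
    rw [mem_sigma, mem_sigma, mem_filter] at hx
    obtain ⟨hn, hD, hk, hg, hp⟩ := hx
    obtain ⟨h1, h2, h3, h4, h5, h7⟩ := backward h hn hD hk hg hp
    rw [mem_filter]
    refine ⟨h1, ?_⟩
    show (sm p N (n * x) : ℤ) ∣ F1 M G P Q (D : ℤ)
    rw [h2]
    exact h7
  · rintro ⟨D', X⟩ hx
    rw [mem_filter] at hx
    obtain ⟨ht, hF⟩ := hx
    obtain ⟨h1, -, -, h4, -⟩ := forward h ht hF rfl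
    show (((D'.toNat : ℕ) : ℤ), sm p N X * (X / sm p N X)) = (D', X)
    rw [h1, h4]
  · rintro ⟨n, D, x⟩ hx
    rw [mem_sigma, mem_sigma, mem_filter] at hx
    obtain ⟨hn, hD, hk, hg, hp⟩ := hx
    obtain ⟨h1, h2, h3, -⟩ := backward h hn hD hk hg hp
    show (⟨sm p N (n * x), ⟨((D : ℤ)).toNat, n * x / sm p N (n * x)⟩⟩ : Σ _ : ℕ, Σ _ : ℕ, ℕ) =
      ⟨n, ⟨D, x⟩⟩
    rw [h2, Int.toNat_natCast, Nat.mul_div_cancel_left _ h3]
  · rintro ⟨D', X⟩ hx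
    rw [mem_filter] at hx
    obtain ⟨ht, hF⟩ := hx
    obtain ⟨-, -, -, -, -, -, -, -, -, -, h5⟩ := forward h ht hF rfl
    show cI G (sm p N X) * (1 / TA.rp az D'.toNat * (rr az (X / sm p N X) *
        TG.tilt p N (1 / 6) (1 / 6) (M, G, P, Q, (D', X)))) = cI G (sm p N X) *
      (1 / TA.rp az D'.toNat * (rr az (X / sm p N X) *
        ∏ l ∈ (PE p N).filter (fun l => ¬ l ∣ sm p N X),
        pI M G P Q l (D'.toNat : ℕ)
          ((((sm p N X : ℕ) : ℤ) * ((X / sm p N X : ℕ) : ℤ) - G) / (D'.toNat : ℕ))))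
    rw [h5]

lemma prod_mem (M G P Q n : ℕ) (d e : ℤ) :
    0 ≤ ∏ l ∈ (PE p N).filter (fun l => ¬ l ∣ n), pI M G P Q l d e ∧
      ∏ l ∈ (PE p N).filter (fun l => ¬ l ∣ n), pI M G P Q l d e ≤ 1 :=
  ⟨prod_nonneg fun l _ => (pI_mem M G P Q l d e).1,
    prod_le_one (fun l _ => (pI_mem M G P Q l d e).1) fun l _ => (pI_mem M G P Q l d e).2⟩

lemma cI_nonneg (n : ℕ) : 0 ≤ cI G n := by unfold cI; positivity

/-- dropping the condition -/
lemma UI_mono {c c' : ℕ → Prop} (hc : ∀ k, c k → c' k) (n : ℕ) :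
    UI p N M G P Q n c ≤ UI p N M G P Q n c' := by
  unfold UI
  refine sum_le_sum fun D _ => mul_le_mul_of_nonneg_left ?_ (one_div_nonneg.mpr (TA.rp_pos az D).le)
  refine sum_le_sum_of_subset_of_nonneg (fun k hk => ?_) fun k _ _ =>
    mul_nonneg (TA.RRB.rr_nonneg _ _) (prod_mem M G P Q n _ _).1
  rw [mem_filter] at hk ⊢
  exact ⟨hk.1, hc k hk.2⟩

/-- the bad `x` -/
lemma UI_le (n : ℕ) : UI p N M G P Q n (fun _ => True) ≤ UI p N M G P Q n (gk p N G n) +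
    UI p N M G P Q n (fun x => ∃ l : ℕ, l.Prime ∧ l ∣ n ∧ l ∣ x) +
    UI3 p N M G P Q n := by
  unfold UI UI3
  rw [← sum_add_distrib, ← sum_add_distrib]
  refine sum_le_sum fun D _ => ?_
  rw [← mul_add, ← mul_add]
  refine mul_le_mul_of_nonneg_left ?_ (one_div_nonneg.mpr (TA.rp_pos az D).le)
  rw [sum_filter, sum_filter, sum_filter, sum_filter, ← sum_add_distrib, ← sum_add_distrib]
  refine sum_le_sum fun x _ => ?_
  obtain ⟨h0, h1⟩ := prod_mem (p := p) (N := N) M G P Q n (D : ℤ) (((n : ℤ) * x - G) / D)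
  have hr : 0 ≤ rr az x := TA.RRB.rr_nonneg _ _
  have h2 : rr az x * ∏ l ∈ (PE p N).filter (fun l => ¬ l ∣ n),
      pI M G P Q l (D : ℤ) (((n : ℤ) * x - G) / D) ≤ rr az x := mul_le_of_le_one_right hr h1
  have h3 := mul_nonneg hr h0
  rw [if_pos trivial]
  by_cases hb : ∃ l : ℕ, l.Prime ∧ l ∣ n ∧ l ∣ x
  · rw [if_pos hb]
    split_ifs <;> linarith
  · by_cases hb2 : ∃ l : ℕ, l.Prime ∧ zz p N ≤ (l : ℝ) ∧ (l ^ 2 ∣ x ∨ (l ∣ x ∧ l ∣ G))
    · rw [if_pos hb2]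
      split_ifs <;> linarith
    · have hg : gk p N G n x := ⟨hb, hb2⟩
      rw [if_pos hg, if_neg hb, if_neg hb2]
      linarith

end main

end EDI

theorem specEDI [Aa] : SpecEDI := by
  intro p N M G P Q h4 hE hz hadm hM hG hP hQ haM
  have h : EDI.Hyp p N M G P Q := ⟨h4, hE, hz, hadm, hM, hG, hP, hQ, haM⟩
  rw [EDI.sum_S1 h]
  constructor
  · refine sum_le_sum fun n _ => mul_le_mul_of_nonneg_left ?_ (EDI.cI_nonneg n)
    exact EDI.UI_mono (fun _ _ => trivial) n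
  · refine sum_le_sum fun n _ => mul_le_mul_of_nonneg_left ?_ (EDI.cI_nonneg n)
    have := EDI.UI_le (p := p) (N := N) (M := M) (G := G) (P := P) (Q := Q) n
    linarith

end

end Pool.Agent.Lib.MP391708.TG1
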