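import Pool.Agent.Lib.MP_391708_nt.TG1.ESpecC
import Pool.Agent.Lib.MP_391708_nt.TA.RRB
import Pool.Agent.Lib.MP_391708_nt.T1.GoodL

/-!
# Theorem T1b, group E, module EI12: the sums over `(D, x)` of PHI for given smooth part `n`
-/

set_option autoImplicit false

namespace Pool.Agent.Lib.MP391708.TG1

open Finset Filter Topology
open scoped Classical
open TG (Aa aa az vl az_eq az_neg az_ne vl_cast natCast_dvd_vl spl cE Prm Good zz W0 PP sm Adm S1 S2 vh kp kpU S0)
open T1 (SDD Dm Locm F1 F2 wgt wgt0 SQ)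
open TA (EX DD Rt PPs chz rr LL dens dm lm lmj Bm SpecRTS)

noncomputable section

variable [Aa]

namespace EI12M

lemma pI_nonneg (M G P Q l : ℕ) (d e : ℤ) : 0 ≤ pI M G P Q l d e := by
  unfold pI T1.wgt0 T1.wgt
  split_ifs <;> norm_num

/-- the product of the local weights -/
def FI (p : Prm) (N M G P Q n : ℕ) (D D₂ : ℤ) : ℝ :=
  ∏ l ∈ (PE p N).filter (fun l => ¬ l ∣ n), pI M G P Q l D D₂

lemma FI_nonneg (p : Prm) (N M G P Q n : ℕ) (D D₂ : ℤ) : 0 ≤ FI p N M G P Q n D D₂ :=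
  prod_nonneg fun _ _ => pI_nonneg _ _ _ _ _ _ _

lemma t_nonneg (p : Prm) (N M G P Q n : ℕ) (D : ℕ) (x : ℕ) :
    0 ≤ rr az x * FI p N M G P Q n D ((n * x - G) / D) :=
  mul_nonneg (TA.RRB.rr_nonneg _ _) (FI_nonneg _ _ _ _ _ _ _ _ _)

/-- the `x` for `m = 1` -/
lemma SX_one (p : Prm) (M G P Q ρ n D : ℕ) (c : ℕ → Prop) (hc : ∀ x, c x) :
    (tI p M G P Q ρ n 1 0).SX D = (KI p M G Q n D).filter c := by
  unfold TA.EX.SX KI tI
  ext x
  simp [hc, Nat.modEq_one]

lemma mem_SX (p : Prm) (M G P Q ρ n D l x : ℕ) :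
    x ∈ (tI p M G P Q ρ n l 0).SX D ↔ x ∈ KI p M G Q n D ∧ l ∣ x := by
  unfold TA.EX.SX KI tI
  simp only [mem_filter, Nat.modEq_zero_iff_dvd]
  tauto

lemma UI_eq (hRTS : SpecRTS) (p : Prm) (N M G P Q n : ℕ) (hn : 0 < n) (c : ℕ → Prop) :
    UI p N M G P Q n c = ∑ ρ ∈ Rt n M G P Q, ∑ D ∈ SDD (W0 p) n ρ G (2 * M / P) (3 * M / P),
      (1 / TA.rp az D) * ∑ x ∈ (KI p M G Q n D).filter c,
        rr az x * FI p N M G P Q n D ((n * x - G) / D) := by
  unfold UI
  exact hRTS.1 (W0 p) n G P Q (2 * M / P) (3 * M / P) M (fun D => (1 / TA.rp az D) *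
    ∑ x ∈ (KI p M G Q n D).filter c, rr az x * FI p N M G P Q n D ((n * x - G) / D)) hn

lemma S_one (p : Prm) (N M G P Q ρ n : ℕ) (c : ℕ → Prop) (hc : ∀ x, c x) :
    (tI p M G P Q ρ n 1 0).S az (FI p N M G P Q n) =
    ∑ D ∈ SDD (W0 p) n ρ G (2 * M / P) (3 * M / P),
      (1 / TA.rp az D) * ∑ x ∈ (KI p M G Q n D).filter c,
        rr az x * FI p N M G P Q n D ((n * x - G) / D) := by
  unfold TA.EX.S
  refine sum_congr rfl fun D _ => ?_
  rw [SX_one _ _ _ _ _ _ _ _ c hc]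
  rfl

/-- the part with a prime of `n` dividing `x`, for given `D` -/
lemma sum_dvd (p : Prm) (M G P Q ρ n D : ℕ) (t : ℕ → ℝ) (ht : ∀ x, 0 ≤ t x) (hn : n ≠ 0) :
    ∑ x ∈ (KI p M G Q n D).filter (fun x => ∃ l : ℕ, l.Prime ∧ l ∣ n ∧ l ∣ x), t x ≤
    ∑ l ∈ n.primeFactors, ∑ x ∈ (tI p M G P Q ρ n l 0).SX D, t x := by
  have h2 : ∀ l ∈ n.primeFactors, ∑ x ∈ (tI p M G P Q ρ n l 0).SX D, t x =
      ∑ x ∈ KI p M G Q n D, if l ∣ x then t x else 0 := by
    intro l _
    rw [← sum_filter]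
    refine sum_congr ?_ fun _ _ => rfl
    ext x
    rw [mem_SX, mem_filter]
  rw [sum_congr rfl h2, sum_comm, sum_filter]
  refine sum_le_sum fun x _ => ?_
  split_ifs with h
  · obtain ⟨l, hl1, hl2, hl3⟩ := h
    have hmem : l ∈ n.primeFactors := Nat.mem_primeFactors.2 ⟨hl1, hl2, hn⟩
    have h3 := single_le_sum (f := fun l : ℕ => if l ∣ x then t x else 0)
      (s := n.primeFactors) (fun l _ => by
        show 0 ≤ if l ∣ x then t x else 0
        split_ifs
        · exact ht x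
        · exact le_rfl) hmem
    simp only [if_pos hl3] at h3
    exact h3
  · refine sum_nonneg fun l _ => ?_
    split_ifs
    · exact ht x
    · exact le_rfl

/-- the number of prime factors of `n ≤ z ^ K` -/
lemma card_pf {n K : ℕ} {z : ℝ} (hz : 1 ≤ z) (hn : n ≠ 0) (hnz : (n : ℝ) ≤ z ^ K) :
    (n.primeFactors.card : ℝ) ≤ 2 * K * z := by
  have h1 : 2 ^ n.primeFactors.card ≤ n := by
    calc 2 ^ n.primeFactors.card ≤ ∏ q ∈ n.primeFactors, q :=
          Finset.pow_card_le_prod _ _ _ fun q hq => (Nat.prime_of_mem_primeFactors hq).two_le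
      _ ≤ n := Nat.le_of_dvd (Nat.pos_of_ne_zero hn) (Nat.prod_primeFactors_dvd n)
  have h2 : (2 : ℝ) ^ n.primeFactors.card ≤ z ^ K := by
    refine le_trans ?_ hnz
    exact_mod_cast h1
  have h3 := Real.log_le_log (by positivity) h2
  rw [Real.log_pow, Real.log_pow] at h3
  have h4 : Real.log z ≤ z := by
    have := Real.log_le_sub_one_of_pos (show 0 < z by linarith)
    linarith
  have h5 : (1 / 2 : ℝ) ≤ Real.log 2 := by
    have := Real.log_two_gt_d9
    linarith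
  have h6 : (K : ℝ) * Real.log z ≤ K * z := mul_le_mul_of_nonneg_left h4 (Nat.cast_nonneg _)
  have h7 : (n.primeFactors.card : ℝ) * (1 / 2) ≤ n.primeFactors.card * Real.log 2 :=
    mul_le_mul_of_nonneg_left h5 (Nat.cast_nonneg _)
  linarith

end EI12M

open EI12M in
theorem specEI12 (hEIG : SpecEIG) (hRTS : SpecRTS) (hERR : SpecERR) : SpecEI12 := by
  intro ε hε
  refine ((hEIG ε hε).and (hERR (fun _ => 0))).mono fun p hp => ?_
  obtain ⟨hp1, hζ, hE, hK, hW, hWl, hp2⟩ := hp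
  have hzt : Tendsto (fun N : ℕ => zz p N) atTop atTop := by
    unfold T4.zz
    exact (tendsto_rpow_atTop hζ).comp tendsto_natCast_atTop_atTop
  filter_upwards [hp1, hp2, hzt.eventually_ge_atTop (4 * p.K : ℝ)] with N hN1 hN2 hN3 M G P Q n
    hAdm hn
  obtain ⟨hz2, -, hN2⟩ := hN2
  obtain ⟨hM0, hG0, hP0, hQ0, hG4, -, -, -, -, -⟩ := hN2 M G P Q hAdm
  set z := zz p N with hz
  have hn' := hn
  unfold T1.SQ at hn'
  rw [mem_filter, mem_Icc] at hn'
  obtain ⟨⟨hn1, hn2⟩, hnsf, hnp⟩ := hn'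
  have hn0 : n ≠ 0 := by omega
  have hnz : (n : ℝ) ≤ z ^ p.K := by
    exact (Nat.cast_le.2 hn2).trans (Nat.floor_le (by positivity))
  have hGPQ : (G : ℤ) * P * Q = (M : ℤ) ^ 2 + az := by
    rw [← vl_cast hAdm.1]
    exact_mod_cast hAdm.2.1
  have hcond : ∀ l : ℕ, l.Prime → l ∣ n → (l : ℝ) < z ∧ chz az l = 1 ∧
      ¬ (l : ℤ) ∣ (M : ℤ) ^ 2 + az := by
    intro l hl hln
    have h1 := hnp l hl hln
    rw [Finset.mem_sdiff] at h1
    obtain ⟨h2, h3⟩ := h1
    have h4 := h2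
    unfold TG.PP at h4
    rw [mem_filter, mem_range, Nat.lt_ceil] at h4
    refine ⟨h4.1, h4.2.2.1, fun h5 => h3 ?_⟩
    unfold P1
    rw [mem_filter]
    exact ⟨h2, natCast_dvd_vl.2 h5⟩
  have hcard : (Rt n M G P Q).card = 2 ^ n.primeFactors.card :=
    hRTS.2.2 az n G P Q M hGPQ (by omega) fun l hl hln => (hcond l hl hln).2
  have hcardR : ((Rt n M G P Q).card : ℝ) = 2 ^ n.primeFactors.card := by
    rw [hcard]; push_cast; rfl
  set X := mI p M G P Q n * VI p N M G P Q n with hX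
  have hzpos : 0 < z := by linarith
  have hz1 : 1 ≤ z := by linarith
  have hGr : (0 : ℝ) ≤ G := Nat.cast_nonneg _
  constructor
  · -- part 1
    rw [UI_eq hRTS p N M G P Q n (by omega), ← hcardR, ← nsmul_eq_mul, ← nsmul_eq_mul, ← sum_const,
      ← sum_const, ← sum_sub_distrib]
    refine (abs_sum_le_sum_abs _ _).trans (sum_le_sum fun ρ hρ => ?_)
    unfold TA.Rt at hρ
    rw [mem_filter] at hρ
    have h1 := (hN1 M G P Q n ρ hAdm hn hρ.2.1).1
    have h3 : (G : ℝ) / z ^ (20 * p.K + 20) ≤ G / z ^ (20 * p.K + 10) :=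
      div_le_div_of_nonneg_left hGr (by positivity) (pow_le_pow_right₀ hz1 (by omega))
    have h4 : |(tI p M G P Q ρ n 1 0).S az (FI p N M G P Q n) - X| ≤
        ε * X + G / z ^ (20 * p.K + 10) := by
      refine le_trans h1 ?_
      linarith
    rw [S_one p N M G P Q ρ n (fun _ => True) (fun _ => trivial)] at h4
    exact h4
  · -- part 2
    rw [UI_eq hRTS p N M G P Q n (by omega), ← hcardR, ← nsmul_eq_mul, ← sum_const]
    refine sum_le_sum fun ρ hρ => ?_
    unfold TA.Rt at hρ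
    rw [mem_filter] at hρ
    have h1 := (hN1 M G P Q n ρ hAdm hn hρ.2.1).2
    have h2 : ∑ D ∈ SDD (W0 p) n ρ G (2 * M / P) (3 * M / P), (1 / TA.rp az D) *
        ∑ x ∈ (KI p M G Q n D).filter (fun x => ∃ l : ℕ, l.Prime ∧ l ∣ n ∧ l ∣ x),
          rr az x * FI p N M G P Q n D ((n * x - G) / D) ≤
        ∑ l ∈ n.primeFactors, (tI p M G P Q ρ n l 0).S az (FI p N M G P Q n) := by
      have h3 : ∀ D ∈ SDD (W0 p) n ρ G (2 * M / P) (3 * M / P), (1 / TA.rp az D) *
          ∑ x ∈ (KI p M G Q n D).filter (fun x => ∃ l : ℕ, l.Prime ∧ l ∣ n ∧ l ∣ x),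
            rr az x * FI p N M G P Q n D ((n * x - G) / D) ≤
          ∑ l ∈ n.primeFactors, (1 / TA.rp az D) *
            ∑ x ∈ (tI p M G P Q ρ n l 0).SX D,
              rr az x * FI p N M G P Q n D ((n * x - G) / D) := by
        intro D _
        have h4 := mul_le_mul_of_nonneg_left (sum_dvd p M G P Q ρ n D
          (fun x => rr az x * FI p N M G P Q n D ((n * x - G) / D))
          (fun x => t_nonneg _ _ _ _ _ _ _ _ _)
          hn0) (div_nonneg zero_le_one (TA.rp_pos az D).le)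
        refine h4.trans (le_of_eq ?_)
        rw [mul_sum]
      refine (sum_le_sum h3).trans (le_of_eq ?_)
      rw [sum_comm]
      rfl
    refine h2.trans ?_
    have h5 : ∀ l ∈ n.primeFactors, (tI p M G P Q ρ n l 0).S az (FI p N M G P Q n) ≤
        1 / (l : ℝ) * (4 * X) + G / z ^ (20 * p.K + 20) := by
      intro l hl
      have h6 := h1 l 0 (Nat.prime_of_mem_primeFactors hl) (Nat.dvd_of_mem_primeFactors hl)
      have e : 4 * X / (l : ℝ) = 1 / (l : ℝ) * (4 * X) := by ring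
      rw [← e]
      exact h6
    refine (sum_le_sum h5).trans ?_
    rw [sum_add_distrib, ← sum_mul, sum_const, nsmul_eq_mul]
    have h10 : (n.primeFactors.card : ℝ) * (G / z ^ (20 * p.K + 20)) ≤
        G / z ^ (20 * p.K + 10) := by
      have h11 := card_pf hz1 hn0 hnz
      have hKr : (0 : ℝ) ≤ p.K := Nat.cast_nonneg _
      have h12 : (n.primeFactors.card : ℝ) ≤ z ^ 10 := by
        calc (n.primeFactors.card : ℝ) ≤ 2 * p.K * z := h11
          _ ≤ z * z := mul_le_mul_of_nonneg_right (by linarith) hzpos.le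
          _ = z ^ 2 := by ring
          _ ≤ z ^ 10 := pow_le_pow_right₀ hz1 (by norm_num)
      calc (n.primeFactors.card : ℝ) * (G / z ^ (20 * p.K + 20)) ≤
            z ^ 10 * (G / z ^ (20 * p.K + 20)) := mul_le_mul_of_nonneg_right h12 (by positivity)
        _ = G / z ^ (20 * p.K + 10) := by
            have : z ^ (20 * p.K + 20) = z ^ 10 * z ^ (20 * p.K + 10) := by
              rw [← pow_add]; congr 1; ring
            rw [this]
            field_simp
    linarith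

end

end Pool.Agent.Lib.MP391708.TG1
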