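import Pool.Agent.Lib.MP_391708_nt.TA.ESpecU
import Pool.Agent.Lib.MP_391708_nt.TA.ESN
import Pool.Agent.Lib.MP_391708_nt.TG.Spec

/-!
# Theorem T1a, group E: stage 2 (from the equidistribution statements to `SpecPHI`)

The part for `SpecPHU` (LU, tU, wU, UU, EDU, EUG, VU, EUC) is helper49's `TA/ESpecU.lean`.

Copy of `T1/ESpecC.lean` with: `∑` over `k ∈ ℤ²`, `x = N(k)` ↦ `∑` over `x` with weight `rr a x`;
`l % 4 = 1 ↦ chz a l = 1`, `M² + 1 ↦ M² + a`, `π/2 ↦ 2 L(1, χ)`.  `rr a x = 2^ω(x)` for squarefree `x`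
with all primes `χ(l) = 1`, so the factor `4` of T1 disappears (`25 ↦ 100` in EDU, `4 G ↦ G` in `cI`).
A condition on `x mod m` (`m = 1` or prime) replaces the condition on `k mod m`:
`dm a m κ ≤ 2 / m` for `χ(m) = 1`.
-/

set_option autoImplicit false

namespace Pool.Agent.Lib.MP391708.TG1

open Finset Filter Topology
open scoped Classical
open TG (Aa aa az vl spl cE Prm Good zz W0 PP sm Adm S1 S2 vh kp kpU S0)
open T1 (SDD Dm Locm F1 F2 wgt wgt0 SQ)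
open TA (EX DD Rt PPs chz rr LL dens dm lm lmj Bm)

noncomputable section

variable [Aa]

/-! ## elementary modules -/

lemma PPs_eq (p : Prm) (N : ℕ) : PPs az p.E (zz p N) = PP p N := by
  ext l
  simp only [PPs, PP, QPA.PB, mem_filter, mem_range, spl]
  tauto

lemma rp_eq (D : ℕ) : TG.rp D = TA.rp az D := rfl

/-- EVS: products over the sieving primes, `S0 = ∑ 2/l` (as T1/EVS) -/
def SpecEVS : Prop :=
  (∀ (p : Prm) (N : ℕ) (c : ℝ), 100 ≤ p.E → 0 ≤ c → c ≤ 6 →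
    (1 - 40 / (p.E : ℝ)) * Real.exp (-(c / 2 * S0 p N)) ≤
        ∏ l ∈ PPs az p.E (zz p N), (1 - c / (l : ℝ)) ∧
      ∏ l ∈ PPs az p.E (zz p N), (1 - c / (l : ℝ)) ≤ Real.exp (-(c / 2 * S0 p N))) ∧
  ∀ c : ℝ, Good (fun p => ∀ᶠ N : ℕ in atTop, (W0 p : ℝ) ^ 4 * Real.exp (c * S0 p N) ≤ zz p N)

/-- ERR: sizes (as T1/ERR) -/
def SpecERR : Prop := ∀ c : ℕ → ℕ, Good (fun p => 0 < p.ζ ∧ 1000 ≤ p.E ∧ 1 ≤ p.K ∧
  4 * aa ∣ W0 p ∧ (∀ l : ℕ, l.Prime → (l ≤ p.E ↔ l ∣ W0 p)) ∧ ∀ᶠ N : ℕ in atTop,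
  2 ≤ zz p N ∧ zz p N ^ (c p.K) ≤ N ∧ ∀ M G P Q : ℕ, Adm p N M G P Q →
    0 < M ∧ 0 < G ∧ 0 < P ∧ 0 < Q ∧ spl G ∧ (M : ℝ) / P ≤ N ∧ (G : ℝ) ≤ 100 * (N : ℝ) ^ 2 ∧
    zz p N ^ (c p.K) * P ≤ M ∧ zz p N ^ (c p.K) ≤ G ∧
    zz p N ^ (c p.K) * ((M : ℝ) / P * Real.sqrt G + ((M : ℝ) / P) ^ 2 + G * P / M) ≤ G)

/-- ERR2: two more sizes -/
def SpecERR2 : Prop := Good (fun p => 4 * aa ≤ p.E ∧ ∀ᶠ N : ℕ in atTop,
  ∀ M G P Q : ℕ, Adm p N M G P Q → aa ≤ M)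

/-! ## PHI -/

def hI (M Q : ℕ) : ℝ := ((M : ℝ) ^ 2 + az) / (Q * M)

/-- the data for PHI -/
def tI (p : Prm) (M G P Q ρ n m κ : ℕ) : EX :=
  ⟨W0 p, n, ρ, n, m, κ, G, 2 * M / P, 3 * M / P, 7 * G / n,
    fun D => ⌈((G : ℝ) + D * hI M Q) / n⌉₊ - 1, fun D => ⌈((G : ℝ) + 2 * D * hI M Q) / n⌉₊ - 1,
    hI M Q⟩

/-- the local weights of PHI -/
def pI (M G P Q l : ℕ) (d e : ℤ) : ℝ :=
  if (l : ℤ) ∣ (M : ℤ) ^ 2 + az then wgt0 l G Q d e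
  else if spl l then wgt l M G P Q (1 / 6) (1 / 6) d e else wgt l M G P Q 1 1 d e

/-- all primes in `(E, z)` -/
def PE (p : Prm) (N : ℕ) : Finset ℕ := (QPA.PB (zz p N)).filter (fun l => p.E < l)

/-- the sieving primes of `M² + a` -/
def P1 (p : Prm) (N M : ℕ) : Finset ℕ := (PP p N).filter (fun l => l ∣ vl M)

/-- the `x` of PHI -/
def KI (p : Prm) (M G Q n D : ℕ) : Finset ℕ :=
  (Ioc (⌈((G : ℝ) + D * hI M Q) / n⌉₊ - 1) (⌈((G : ℝ) + 2 * D * hI M Q) / n⌉₊ - 1)).filter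
    (fun x : ℕ => ((D * W0 p : ℕ) : ℤ) ∣ (n : ℤ) * x - G)

/-- the sum for given smooth part `n` of `X`, with a condition on `x` -/
def UI (p : Prm) (N M G P Q n : ℕ) (c : ℕ → Prop) : ℝ :=
  ∑ D ∈ DD (W0 p) n M G P Q (2 * M / P) (3 * M / P), (1 / TA.rp az D) *
    ∑ x ∈ (KI p M G Q n D).filter c, rr az x *
      ∏ l ∈ (PE p N).filter (fun l => ¬ l ∣ n), pI M G P Q l D (((n : ℤ) * x - G) / D)

/-- the sum over the `(D, x)` with a bad prime `≥ z` -/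
def UI3 (p : Prm) (N M G P Q n : ℕ) : ℝ :=
  ∑ D ∈ DD (W0 p) n M G P Q (2 * M / P) (3 * M / P), (1 / TA.rp az D) *
    ∑ x ∈ (KI p M G Q n D).filter (fun x : ℕ => ∃ l : ℕ, l.Prime ∧ zz p N ≤ (l : ℝ) ∧
      (l ^ 2 ∣ x ∨ (l ∣ x ∧ l ∣ G))), rr az x

/-- the coefficient of `n` -/
def cI (G n : ℕ) : ℝ := (1 / 6) ^ n.primeFactors.card * n / G

/-- EDI (helper12): the decomposition of the sum over `S1`.  `n = sm X`, `x = X/n`,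
`X/G · dn(X/n) = n/G · 2^ω(x)`; an `x` counted in `UI` such that no prime of `n` divides `x` and no
bad prime `≥ z` gives an `X = n x` which satisfies all conditions, or `rr a x = 0` (a prime with
`χ(l) = -1` divides `x` exactly once). -/
def SpecEDI : Prop := ∀ (p : Prm) (N M G P Q : ℕ),
  4 * aa ∣ W0 p → (∀ l : ℕ, l.Prime → (l ≤ p.E ↔ l ∣ W0 p)) → 2 ≤ zz p N → Adm p N M G P Q →
  0 < M → 0 < G → 0 < P → 0 < Q → aa ≤ M →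
  ∑ t ∈ S1 p N M G P Q, (t.2 : ℝ) / G * vh p N (1 / 6) (1 / 6) (1 / 6) (M, G, P, Q, t) ≤
    ∑ n ∈ SQ (PP p N \ P1 p N M) (zz p N ^ p.K), cI G n * UI p N M G P Q n (fun _ => True) ∧
  ∑ n ∈ SQ (PP p N \ P1 p N M) (zz p N ^ p.K), cI G n * (UI p N M G P Q n (fun _ => True) -
      UI p N M G P Q n (fun x => ∃ l : ℕ, l.Prime ∧ l ∣ n ∧ l ∣ x) -
      UI3 p N M G P Q n) ≤
    ∑ t ∈ S1 p N M G P Q, (t.2 : ℝ) / G * vh p N (1 / 6) (1 / 6) (1 / 6) (M, G, P, Q, t)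

/-- main term for given `n` and `ρ` -/
def mI (p : Prm) (M G P Q n : ℕ) : ℝ :=
  2 * LL az * (((3 * M / P : ℕ) : ℝ) - ((2 * M / P : ℕ) : ℝ)) * hI M Q /
      ((W0 p : ℝ) ^ 2 * (n : ℝ) ^ 2) * ∏ l ∈ G.primeFactors, (1 - 1 / (l : ℝ))

/-- the local means for given `n` -/
def VI (p : Prm) (N M G P Q n : ℕ) : ℝ :=
  ∏ l ∈ (PE p N).filter (fun l => ¬ l ∣ n), lm az l G (pI M G P Q l)

/-- EIG (from E2g, ELM, ERR); `dm a l₀ κ ≤ 2 / l₀` -/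
def SpecEIG : Prop := ∀ ε : ℝ, 0 < ε → Good (fun p => ∀ᶠ N : ℕ in atTop,
  ∀ M G P Q n ρ : ℕ, Adm p N M G P Q → n ∈ SQ (PP p N \ P1 p N M) (zz p N ^ p.K) →
  n.Coprime ρ →
  |(tI p M G P Q ρ n 1 0).S az (fun D D₂ => ∏ l ∈ (PE p N).filter (fun l => ¬ l ∣ n),
      pI M G P Q l D D₂) - mI p M G P Q n * VI p N M G P Q n| ≤
    ε * (mI p M G P Q n * VI p N M G P Q n) + G / zz p N ^ (20 * p.K + 20) ∧
  ∀ l₀ κ : ℕ, l₀.Prime → l₀ ∣ n →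
    (tI p M G P Q ρ n l₀ κ).S az (fun D D₂ => ∏ l ∈ (PE p N).filter (fun l => ¬ l ∣ n),
      pI M G P Q l D D₂) ≤
    4 * (mI p M G P Q n * VI p N M G P Q n) / (l₀ : ℝ) + G / zz p N ^ (20 * p.K + 20))

/-- EI1, EI2 (from EIG, RTS): (1) `UI` without condition; (2) the part with a prime `l` of `n`
dividing `x`: the class `κ = 0` modulo `l` -/
def SpecEI12 : Prop := ∀ ε : ℝ, 0 < ε → Good (fun p => ∀ᶠ N : ℕ in atTop,
  ∀ M G P Q n : ℕ, Adm p N M G P Q → n ∈ SQ (PP p N \ P1 p N M) (zz p N ^ p.K) →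
  |UI p N M G P Q n (fun _ => True) -
      2 ^ n.primeFactors.card * (mI p M G P Q n * VI p N M G P Q n)| ≤
    2 ^ n.primeFactors.card * (ε * (mI p M G P Q n * VI p N M G P Q n) +
      G / zz p N ^ (20 * p.K + 10)) ∧
  UI p N M G P Q n (fun x => ∃ l : ℕ, l.Prime ∧ l ∣ n ∧ l ∣ x) ≤
    2 ^ n.primeFactors.card * ((∑ l ∈ n.primeFactors, 1 / (l : ℝ)) *
      (4 * (mI p M G P Q n * VI p N M G P Q n)) + G / zz p N ^ (20 * p.K + 10)))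

/-- EI3 (from EBD with `η = ζ/10`, RTS, ERR) -/
def SpecEI3 : Prop := Good (fun p => ∀ᶠ N : ℕ in atTop, ∀ M G P Q : ℕ, Adm p N M G P Q →
  ∑ n ∈ SQ (PP p N \ P1 p N M) (zz p N ^ p.K), cI G n * UI3 p N M G P Q n ≤
    1 / Real.sqrt (zz p N))

end

end Pool.Agent.Lib.MP391708.TG1
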