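import Pool.Agent.Lib.MP_391708_nt.TG1.EVS

/-!
# Theorem T1b, module ERR: sizes and error terms
-/

set_option autoImplicit false

namespace Pool.Agent.Lib.MP391708.TG1

open Finset Filter Topology
open scoped Classical
open TG (Aa aa az vl vl_pos vl_le vl_castR spl Prm Good zz W0 PP Adm S0 Y1 Y2 Y3 Y4)
open T1.EVS (sum_inv_sq_le prod_bounds prod_ge log_pow_le zz_tendsto zz_large zpow_le_N)

variable [Aa]

namespace ERRM

omit [Aa] in
/-- every `n ≤ E` divides `W0` -/
lemma dvd_W0 {p : Prm} {n : ℕ} (hn : 0 < n) (h : n ≤ p.E) : n ∣ W0 p := by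
  unfold W0
  have h1 : n ∣ (∏ l ∈ n.primeFactors, l) ^ p.E := by
    rw [← Finset.prod_pow]
    conv_lhs => rw [← Nat.prod_factorization_pow_eq_self hn.ne']
    rw [Finsupp.prod, Nat.support_factorization]
    refine Finset.prod_dvd_prod_of_dvd _ _ fun l _ => pow_dvd_pow _ ?_
    exact ((Nat.factorization_lt l hn.ne').le).trans h
  refine h1.trans (pow_dvd_pow_of_dvd ?_ _)
  unfold primorial
  refine Finset.prod_dvd_prod_of_subset _ _ _ fun l hl => ?_
  have hl' := Nat.prime_of_mem_primeFactors hl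
  have := Nat.le_of_dvd hn (Nat.dvd_of_mem_primeFactors hl)
  rw [mem_filter, mem_range]
  exact ⟨by omega, hl'⟩

end ERRM

open EVS ERRM in
/-- **ERR** -/
theorem specERR : SpecERR := by
  intro c
  refine ((((((T4.Good.large_E (1000 + 4 * aa)).and (T4.Good.large_K (fun _ => 1))).and
    (T4.Good.large_r (fun _ _ => 1))).and
    (T4.Good.large_k (fun _ K _ => c K + 4 * K + 1))).and
    (((err_small (fun _ K _ => c K)).and (size_le (fun _ _ _ _ => 0))).and
    ((zz_large (fun _ _ _ _ => 10)).and (zpow_le_N (fun _ K _ _ => c K))))).and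
    T4.Good.zeta_pos).mono fun p hp => ?_
  obtain ⟨⟨⟨⟨⟨hE, hK⟩, hr⟩, hk⟩, ⟨herr, hsize⟩, hz10, hzN⟩, hζ⟩ := hp
  have ha := aa_pos
  have hpr : ∀ l : ℕ, l.Prime → (l ≤ p.E ↔ l ∣ W0 p) := by
    intro l hl
    refine ⟨fun h => dvd_W0 hl.pos h, fun h => ?_⟩
    unfold W0 at h
    exact hl.dvd_primorial_iff.1 (hl.dvd_of_dvd_pow h)
  refine ⟨hζ, by omega, hK, dvd_W0 (by omega) (by omega), hpr, ?_⟩
  filter_upwards [herr, hsize, hz10, hzN, eventually_ge_atTop (aa + 1)]
    with N herr hsize hz10 hzN hN1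
  refine ⟨by linarith, hzN, fun M G P Q hA => ?_⟩
  have herr := herr M G P Q hA
  have hsize := (hsize M G P Q hA).2.2
  obtain ⟨h0, h1, h2, h3, h4, h5, h6, h7, h8, h9⟩ := hA
  set z := zz p N with hzdef
  have hz0 : 0 < z := by linarith
  have hz1 : 1 ≤ z := by linarith
  have hM0 : 0 < M := by omega
  have hMr : (0 : ℝ) < M := by exact_mod_cast hM0
  have hprod : 0 < G * P * Q := by rw [h1]; exact vl_pos h0
  have hG0 : 0 < G := Nat.pos_of_ne_zero fun h => by simp [h] at hprod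
  have hP0 : 0 < P := Nat.pos_of_ne_zero fun h => by simp [h] at hprod
  have hQ0 : 0 < Q := Nat.pos_of_ne_zero fun h => by simp [h] at hprod
  have hGr : (0 : ℝ) < G := by exact_mod_cast hG0
  have hPr : (0 : ℝ) < P := by exact_mod_cast hP0
  have hQr : (0 : ℝ) < Q := by exact_mod_cast hQ0
  have hGd : G ∣ vl M := ⟨P * Q, by rw [← h1]; ring⟩
  refine ⟨hM0, hG0, hP0, hQ0, ?_, ?_, ?_, ?_, ?_, ?_⟩
  · unfold spl
    refine chz_one_of hG0 fun l hl hlG => spl_of_dvd hl ?_ (hlG.trans hGd)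
    by_contra hle
    have h10 : l ∣ W0 p := (hpr l hl).1 (by omega)
    have h11 := Nat.dvd_gcd hlG h10
    rw [h4] at h11
    exact hl.one_lt.ne' (Nat.dvd_one.1 h11)
  · have h10 := hsize ((M : ℝ) / P) (by rw [div_mul_cancel₀ _ hPr.ne']; linarith)
    rwa [pow_zero, one_mul] at h10
  · have h10 : G ≤ M ^ 2 := (Nat.le_of_dvd (vl_pos h0) hGd).trans (vl_le h0)
    have h11 : G ≤ 100 * N ^ 2 := by nlinarith
    exact_mod_cast h11
  · have h10 : z ^ c p.K * P * z ^ p.k ≤ M * z ^ p.k := by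
      calc z ^ c p.K * P * z ^ p.k = z ^ c p.K * (P * Y1 p N) := by unfold Y1; ring
        _ ≤ z ^ c p.K * (10 * M * z ^ (4 * p.K)) := by gcongr
        _ ≤ z ^ c p.K * (z * M * z ^ (4 * p.K)) := by gcongr
        _ = M * z ^ (c p.K + 4 * p.K + 1) := by ring
        _ ≤ M * z ^ p.k := by
          refine mul_le_mul_of_nonneg_left (pow_le_pow_right₀ hz1 hk) hMr.le
    exact le_of_mul_le_mul_right h10 (by positivity)
  · have hrk : 1 * p.k ≤ p.r * p.k := Nat.mul_le_mul_right _ hr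
    have h10 : z ^ c p.K * z ≤ G * z := by
      calc z ^ c p.K * z = z ^ (c p.K + 1) := by ring
        _ ≤ z ^ (p.k + 10 * p.r * p.k) := pow_le_pow_right₀ hz1 (by nlinarith)
        _ = Y1 p N * Y3 p N := by unfold Y1 Y3; ring
        _ ≤ 10 * G := h8
        _ ≤ G * z := by nlinarith
    exact le_of_mul_le_mul_right h10 hz0
  · have h10 := herr ((M : ℝ) / P) G (G * P / M) (by positivity)
      (by rw [div_mul_cancel₀ _ hPr.ne']; linarith) hGr.le (by linarith) (by positivity) ?_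
    · exact h10
    · have h11 : (G : ℝ) * P * Q = (M : ℝ) ^ 2 + az := by
        rw [← vl_castR h0]
        exact_mod_cast h1
      have h12 : (0 : ℝ) < (M : ℝ) ^ 2 + az := by
        rw [← vl_castR h0]
        exact_mod_cast vl_pos h0
      calc (G : ℝ) * P / M * Q * M = G * P * Q := by field_simp
        _ = (M : ℝ) ^ 2 + az := h11
        _ ≤ 20 * ((M : ℝ) ^ 2 + az) := by linarith

/-- **ERR2** -/
theorem specERR2 : SpecERR2 := by
  refine (T4.Good.large_E (4 * aa)).mono fun p hE => ⟨hE, ?_⟩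
  filter_upwards [eventually_ge_atTop (2 * aa)] with N hN M G P Q hA
  have := hA.2.2.1
  omega

end Pool.Agent.Lib.MP391708.TG1
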