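import Pool.Agent.Lib.MP_391708_nt.TG1.EUCA

/-!
# Theorem T1a, group E: PHU, case `q² ∣ F₂`, `q ∣ n` (x-form of `T1/EUCDp.lean`)

For each lift `ρ` modulo `n q` of a root there is at most one class `κ` of `x` modulo `q` with
`q² ∣ F₂((n κ - G)/ρ)`; its density is `dm aa q κ ≤ 2/q`.
-/

set_option autoImplicit false
set_option linter.unusedSectionVars false

namespace Pool.Agent.Lib.MP391708.TG1

open Finset Filter Topology
open scoped Classical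
open TG (Aa aa az vl spl Prm Good zz W0 PP sm Adm S1 S2 vh kp kpU S0)
open T1 (SDD Dm Locm F1 F2 wgt wgt0 SQ)
open TA (EX DD Rt chz rr dens dm lm lmj)

noncomputable section

variable [Aa]

namespace EUCD

/-- `ρ² F₂ (Y / ρ)` -/
def hf (M : ℤ) (G P Q : ℕ) (Y ρ : ℤ) : ℤ := Q * Y ^ 2 + 2 * M * Y * ρ + G * P * ρ ^ 2

lemma hf_congr {m M : ℤ} {G P Q : ℕ} {Y Y' ρ ρ' : ℤ} (h1 : m ∣ Y - Y') (h2 : m ∣ ρ - ρ')
    (h : m ∣ hf M G P Q Y ρ) : m ∣ hf M G P Q Y' ρ' := by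
  obtain ⟨a, ha⟩ := h1
  obtain ⟨b, hb⟩ := h2
  obtain ⟨c, hc⟩ := h
  unfold hf at *
  refine ⟨c - a * (Q * (Y + Y') + 2 * M * ρ) - b * (2 * M * Y' + G * P * (ρ + ρ')), ?_⟩
  linear_combination hc - (Q * (Y + Y') + 2 * M * ρ) * ha -
    (2 * M * Y' + G * P * (ρ + ρ')) * hb

lemma dm_le {q : ℕ} (hq : q.Prime) (κ : ℕ) : dm az q κ ≤ 2 / q := by
  unfold dm
  rw [if_neg hq.one_lt.ne']
  have h1 := ((TA.specLMJ az q 1 0 hq le_rfl).2.2.2.2.2.2.1 (κ : ℤ)).2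
  have h2 : (0 : ℝ) < q := by exact_mod_cast hq.pos
  refine div_le_div_of_nonneg_right ?_ h2.le
  push_cast at h1
  linarith

/-- `q ∤ 2 M ρ - 2 G Q` -/
lemma unit {q : ℕ} (hq : q.Prime) (hq2 : q ≠ 2) {M : ℤ} {G P Q : ℕ}
    (h : (G : ℤ) * P * Q = M ^ 2 + az) (hM : ¬ (q : ℤ) ∣ M ^ 2 + az) (ha : ¬ (q : ℤ) ∣ az)
    {ρ : ℤ} (hF : (q : ℤ) ∣ F1 M G P Q ρ) {U : ℤ} (hU : (q : ℤ) ∣ U - 2 * (M * ρ - G * Q)) :
    ¬ (q : ℤ) ∣ U := by
  intro hqU
  have hqp : Prime (q : ℤ) := Nat.prime_iff_prime_int.1 hq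
  have h1 : (q : ℤ) ∣ 2 * (M * ρ - G * Q) := by
    have := dvd_sub hqU hU
    rwa [sub_sub_cancel] at this
  have h2 : (q : ℤ) ∣ M * ρ - G * Q := by
    rcases hqp.dvd_or_dvd h1 with h2 | h2
    · exfalso
      have h3 : q ∣ 2 := by exact_mod_cast h2
      exact hq2 ((Nat.prime_dvd_prime_iff_eq hq Nat.prime_two).1 h3)
    · exact h2
  obtain ⟨a, hea⟩ := h2
  obtain ⟨b, hb⟩ := hF
  unfold F1 at hb
  have h3 : (q : ℤ) ∣ az * (G * Q) := by
    refine ⟨M ^ 2 * b + (-(P * (M * ρ + G * Q)) + 2 * M ^ 2) * a, ?_⟩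
    linear_combination M ^ 2 * hb + (-(P * (M * ρ + G * Q)) + 2 * M ^ 2) * hea - G * Q * h
  rcases hqp.dvd_or_dvd h3 with h4 | h4
  · exact ha h4
  · apply hM
    rw [← h]
    have h5 : (G : ℤ) * P * Q = G * Q * P := by ring
    rw [h5]
    exact h4.mul_right _

/-- at most one class `κ` for a given root -/
lemma card_kappa {q n : ℕ} (hq : q.Prime) (hq2 : q ≠ 2) (hqn : q ∣ n) (hsq : Squarefree n)
    {M : ℤ} {G P Q : ℕ} (h : (G : ℤ) * P * Q = M ^ 2 + az) (hM : ¬ (q : ℤ) ∣ M ^ 2 + az)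
    (ha : ¬ (q : ℤ) ∣ az) {ρ : ℤ} (hF : (n : ℤ) ∣ F1 M G P Q ρ) :
    ((range q).filter (fun κ : ℕ => (q : ℤ) ^ 2 ∣ hf M G P Q ((n : ℤ) * κ - G) ρ)).card ≤ 1 := by
  rw [card_le_one]
  intro x hx y hy
  rw [mem_filter, mem_range] at hx hy
  have hqp : Prime (q : ℤ) := Nat.prime_iff_prime_int.1 hq
  obtain ⟨n₀, rfl⟩ := hqn
  have hcop : Nat.Coprime q n₀ := Nat.coprime_of_squarefree_mul hsq
  set Y : ℤ := ((q * n₀ : ℕ) : ℤ) * (x : ℤ) - G with hY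
  set Y' : ℤ := ((q * n₀ : ℕ) : ℤ) * (y : ℤ) - G with hY'
  have hU : ¬ (q : ℤ) ∣ Q * (Y + Y') + 2 * M * ρ := by
    refine unit hq hq2 h hM ha ((Dvd.intro (n₀ : ℤ) (by push_cast; ring)).trans hF) ?_
    refine ⟨Q * (n₀ * (x : ℤ) + n₀ * (y : ℤ)), ?_⟩
    rw [hY, hY']
    push_cast
    ring
  obtain ⟨a, hea⟩ := dvd_sub hx.2 hy.2
  have h1 : (q : ℤ) ∣ n₀ * ((x : ℤ) - (y : ℤ)) * (Q * (Y + Y') + 2 * M * ρ) := by
    have hq0 : (q : ℤ) ≠ 0 := by exact_mod_cast hq.ne_zero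
    refine ⟨a, ?_⟩
    apply mul_left_cancel₀ hq0
    have h2 : hf M G P Q Y ρ - hf M G P Q Y' ρ = (Y - Y') * (Q * (Y + Y') + 2 * M * ρ) := by
      unfold hf
      ring
    have h3 : Y - Y' = q * (n₀ * ((x : ℤ) - (y : ℤ))) := by
      rw [hY, hY']
      push_cast
      ring
    rw [h2, h3] at hea
    linear_combination hea
  have h2 : (q : ℤ) ∣ (x : ℤ) - (y : ℤ) := by
    rcases hqp.dvd_or_dvd h1 with h2 | h2
    · rcases hqp.dvd_or_dvd h2 with h3 | h3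
      · exfalso
        have h4 : q ∣ n₀ := by exact_mod_cast h3
        have := Nat.dvd_gcd dvd_rfl h4
        rw [hcop] at this
        exact hq.one_lt.ne' (Nat.dvd_one.1 this)
      · exact h3
    · exact absurd h2 hU
  have h3 : y ≡ x [MOD q] := (Nat.modEq_iff_dvd).2 h2
  exact (Nat.ModEq.eq_of_lt_of_lt h3 hy.1 hx.1).symm

/-- the number of lifts of the roots -/
lemma card_lift {q n : ℕ} (hn : 0 < n) {M : ℤ} {G P Q : ℕ} :
    ((range (n * q)).filter (fun ρ : ℕ => (n * q).Coprime ρ ∧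
      (n : ℤ) ∣ F1 M G P Q (ρ : ℤ))).card ≤ (Rt n M G P Q).card * q := by
  have h1 : ((Rt n M G P Q) ×ˢ range q).card = (Rt n M G P Q).card * q := by
    rw [card_product, card_range]
  rw [← h1]
  refine card_le_card_of_injOn (fun ρ => (ρ % n, ρ / n)) ?_ ?_
  · intro ρ hρ
    rw [mem_coe, mem_filter, mem_range] at hρ
    obtain ⟨h2, h3, h4⟩ := hρ
    rw [mem_coe, mem_product, mem_range]
    refine ⟨?_, Nat.div_lt_of_lt_mul h2⟩
    unfold Rt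
    rw [mem_filter, mem_range]
    refine ⟨Nat.mod_lt _ hn, ?_, ?_⟩
    · rw [Nat.coprime_iff_gcd_eq_one, Nat.gcd_comm, ← Nat.gcd_rec]
      exact Nat.Coprime.coprime_mul_right h3
    · obtain ⟨e, he⟩ := EUCA.dvd_sub_mod ρ n
      obtain ⟨f, hf⟩ := h4
      unfold F1 at hf ⊢
      refine ⟨f - e * (P * (ρ + ((ρ % n : ℕ) : ℤ)) - 2 * M), ?_⟩
      linear_combination hf - (P * (ρ + ((ρ % n : ℕ) : ℤ)) - 2 * M) * he
  · intro ρ _ ρ' _ h2
    rw [Prod.mk.injEq] at h2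
    rw [← Nat.div_add_mod ρ n, ← Nat.div_add_mod ρ' n, h2.1, h2.2]

/-- the classes -/
def TT (q n : ℕ) (M : ℤ) (G P Q : ℕ) : Finset (ℕ × ℕ) :=
  ((range (n * q)).filter (fun ρ : ℕ => (n * q).Coprime ρ ∧ (n : ℤ) ∣ F1 M G P Q (ρ : ℤ)) ×ˢ
    range q).filter (fun t => (q : ℤ) ^ 2 ∣ hf M G P Q ((n : ℤ) * (t.2 : ℤ) - G) t.1)

lemma card_TT {q n : ℕ} (hn : 0 < n) (hq : q.Prime) (hq2 : q ≠ 2) (hqn : q ∣ n)
    (hsq : Squarefree n) {M : ℤ} {G P Q : ℕ} (h : (G : ℤ) * P * Q = M ^ 2 + az)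
    (hM : ¬ (q : ℤ) ∣ M ^ 2 + az) (ha : ¬ (q : ℤ) ∣ az) :
    (TT q n M G P Q).card ≤ (Rt n M G P Q).card * q := by
  unfold TT
  rw [card_filter, sum_product]
  have h1 : ∀ ρ ∈ (range (n * q)).filter (fun ρ : ℕ => (n * q).Coprime ρ ∧
      (n : ℤ) ∣ F1 M G P Q (ρ : ℤ)), (∑ κ ∈ range q, if (q : ℤ) ^ 2 ∣
      hf M G P Q ((n : ℤ) * (κ : ℤ) - G) ρ then 1 else 0) ≤ 1 := by
    intro ρ hρ
    rw [mem_filter] at hρ
    rw [← card_filter]
    exact card_kappa hq hq2 hqn hsq h hM ha hρ.2.2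
  refine (sum_le_sum h1).trans ?_
  rw [sum_const, smul_eq_mul, mul_one]
  exact card_lift hn

end EUCD

open EUCA EUCD

/-- **EUCD'**: `q ∣ n`, `q² ∣ F₂` -/
theorem specEUCD' (hG : SpecEUG) (hE : SpecERR) : SpecEUCD' := by
  have hR := TA.specRTS
  obtain ⟨C, hC, hG⟩ := eug0 hG
  refine ⟨2 * C, by positivity, (hG.and (hE (fun _ => 0))).mono fun p hp => ?_⟩
  obtain ⟨hp1, -, hE1, hK, -, -, hp2⟩ := hp
  filter_upwards [hp1, hp2] with N hU h2
  obtain ⟨hz2, -, h2⟩ := h2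
  intro M G P Q s bT bR n q hA hs hT0 hT1 hR0 hR1 hn hnG hH
  obtain ⟨hq, hqn, hqM⟩ := hH
  obtain ⟨hn0, hnz, hnsq, hnl⟩ := SQ_facts hn
  have hq' := mem_PP.1 hq
  have hq0 : 0 < q := hq'.2.1.pos
  have hqodd : q ≠ 2 := spl_ne_two hq'.2.1 hq'.2.2.1
  have hqa : ¬ (q : ℤ) ∣ az := spl_not_dvd hq'.2.1 hq'.2.2.1
  have hprimes : ∀ l : ℕ, l.Prime → (l ∣ n * q ↔ l ∣ n) := by
    intro l hl
    rw [hl.dvd_mul, Nat.prime_dvd_prime_iff_eq hl hq'.2.1]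
    constructor
    · rintro (h | rfl)
      · exact h
      · exact hqn
    · exact Or.inl
  have hnl' : ∀ l : ℕ, l.Prime → l ∣ n * q → l ∈ PP p N ∧ ¬ l ∣ G := by
    intro l hl h
    have h := (hprimes l hl).1 h
    refine ⟨hnl l hl h, fun h' => ?_⟩
    have := Nat.dvd_gcd h h'
    rw [hnG] at this
    exact hl.one_lt.ne' (Nat.dvd_one.1 this)
  have hz0 : 0 < zz p N := by linarith
  have hn'z : ((n * q : ℕ) : ℝ) ≤ zz p N ^ (4 * p.K + 2) := by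
    push_cast
    rw [pow_add]
    have h5 : (q : ℝ) ≤ zz p N ^ 2 := by nlinarith [hq'.1]
    exact mul_le_mul hnz h5 (by positivity) (by positivity)
  have hGPQ := GPQ_of hA hs
  have hqM' : ¬ (q : ℤ) ∣ (s * (M : ℤ)) ^ 2 + az := by
    rw [sM_sq hs]
    intro h
    exact hqM (TG.natCast_dvd_vl.2 h)
  have hn'0 : 0 < n * q := by positivity
  have hnq : ∀ D : ℕ, D.Coprime n → (n * q).Coprime D := fun D h =>
    Nat.Coprime.mul_left h.symm ((Nat.Coprime.coprime_dvd_right hqn h).symm)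
  have h3 := sum_le (c := fun _ f₂ _ => (q : ℤ) ^ 2 ∣ f₂) (m := q) hC.le hU hE1 hA hs hT0 hT1
    hR0 hR1 hn
    (Dvd.intro _ rfl) hn'0 hn'z hnl' (Or.inr hq'.2.1) hq'.1.le (fun l hl h => by
      rw [Nat.prime_dvd_prime_iff_eq hl hq'.2.1] at h
      rw [h]
      exact Dvd.intro_left _ rfl) (TT q n (s * M) G P Q) (2 / q)
      (fun t _ => dm_le hq'.2.1 t.2) (by
      intro t ht
      unfold TT at ht
      rw [mem_filter, mem_product, mem_filter] at ht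
      exact ht.1.1.2.1) (by
      intro D hD x hx hc
      unfold DD at hD
      rw [mem_filter] at hD
      obtain ⟨-, -, -, hDn, hDF⟩ := hD
      refine ⟨(D % (n * q), x % q), ?_, (Nat.mod_modEq _ _).symm, (Nat.mod_modEq _ _).symm⟩
      unfold TT
      rw [mem_filter, mem_product, mem_filter, mem_range, mem_range]
      refine ⟨⟨⟨Nat.mod_lt _ hn'0, ?_, ?_⟩, Nat.mod_lt _ hq0⟩, ?_⟩
      · rw [Nat.coprime_iff_gcd_eq_one, Nat.gcd_comm, ← Nat.gcd_rec]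
        exact hnq D hDn
      · have h5 : (n : ℤ) ∣ (D : ℤ) - ((D % (n * q) : ℕ) : ℤ) :=
          dvd_trans ⟨(q : ℤ), by push_cast; ring⟩ (dvd_sub_mod D (n * q))
        obtain ⟨e, he⟩ := h5
        obtain ⟨f, hf⟩ := hDF
        unfold F1 at hf ⊢
        refine ⟨f - e * (P * (D + ((D % (n * q) : ℕ) : ℤ)) - 2 * (s * M)), ?_⟩
        linear_combination hf - (P * (D + ((D % (n * q) : ℕ) : ℤ)) - 2 * (s * M)) * he
      · have hqq : (q : ℤ) ^ 2 ∣ ((n * q : ℕ) : ℤ) := by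
          obtain ⟨n₀, rfl⟩ := hqn
          exact ⟨n₀, by push_cast; ring⟩
        refine hf_congr (Y := (n : ℤ) * x - G) (ρ := D) ?_ (hqq.trans (dvd_sub_mod D (n * q))) ?_
        · refine hqq.trans ?_
          obtain ⟨e, he⟩ := dvd_sub_mod x q
          refine ⟨e, ?_⟩
          push_cast at he ⊢
          linear_combination (n : ℤ) * he
        · have h5 : (D : ℤ) ∣ (n : ℤ) * x - G := by
            refine dvd_trans ⟨(W0 p : ℤ), by push_cast; ring⟩ hx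
          obtain ⟨e, he⟩ := hc
          refine ⟨e * D ^ 2, ?_⟩
          have h6 := Int.mul_ediv_cancel' h5
          set D₂ := ((n : ℤ) * x - G) / D with hD₂
          unfold F2 at he
          unfold hf
          rw [← h6]
          linear_combination (D : ℤ) ^ 2 * he)
  refine h3.trans ?_
  have hcard : ((TT q n (s * M) G P Q).card : ℝ) ≤ 2 ^ n.primeFactors.card * (q : ℝ) := by
    have h6 := card_TT hn0 hq'.2.1 hqodd hqn hnsq hGPQ hqM' hqa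
    have h7 := hR.2.1 az n G P Q (s * M) hGPQ (cop_of hnl)
    have h8 : (Rt n (s * M) G P Q).card * q ≤ 2 ^ n.primeFactors.card * q :=
      Nat.mul_le_mul_right _ h7
    exact_mod_cast h6.trans h8
  have hV : VU p N M s G P Q (n * q) bT bR = VU p N M s G P Q n bT bR := VU_same hprimes
  have hV0 := VU_nonneg hE1 hA hs hT0 hT1 hR0 hR1 n
  obtain ⟨-, hG0, -⟩ := h2 M G P Q hA
  have hW : (0 : ℝ) < W0 p := by
    have : 0 < W0 p := by unfold W0; exact pow_pos (primorial_pos _) _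
    exact_mod_cast this
  have hnR : (0 : ℝ) < n := by exact_mod_cast hn0
  have hqR : (0 : ℝ) < q := by exact_mod_cast hq0
  have hGR : (0 : ℝ) < G := by exact_mod_cast hG0
  have e1 : (q : ℝ) * (C * ((G : ℝ) / ((W0 p : ℝ) ^ 2 * ((n * q : ℕ) : ℝ) * n)) * (2 / q) *
      VU p N M s G P Q n bT bR) =
      2 * C * (1 / (q : ℝ)) * (G / ((W0 p : ℝ) ^ 2 * (n : ℝ) ^ 2)) * VU p N M s G P Q n bT bR := by
    push_cast
    field_simp
  have e2 : (q : ℝ) * ((G : ℝ) / zz p N ^ (20 * p.K + 20)) ≤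
      G / zz p N ^ (20 * p.K + 10) := by
    have h5 : (q : ℝ) ≤ zz p N ^ 10 := by
      calc (q : ℝ) ≤ zz p N ^ 1 := by rw [pow_one]; exact hq'.1.le
        _ ≤ zz p N ^ 10 := pow_le_pow_right₀ (by linarith) (by norm_num)
    rw [show 20 * p.K + 20 = (20 * p.K + 10) + 10 by ring, pow_add (zz p N) (20 * p.K + 10) 10]
    rw [mul_div_assoc', div_le_div_iff₀ (by positivity) (by positivity)]
    have h6 : 0 < zz p N ^ (20 * p.K + 10) := by positivity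
    calc (q : ℝ) * G * zz p N ^ (20 * p.K + 10) =
          (G * zz p N ^ (20 * p.K + 10)) * q := by ring
      _ ≤ (G * zz p N ^ (20 * p.K + 10)) * zz p N ^ 10 :=
          mul_le_mul_of_nonneg_left h5 (by positivity)
      _ = _ := by ring
  rw [hV]
  refine (mul_le_mul_of_nonneg_right hcard (by positivity)).trans ?_
  rw [mul_assoc (2 ^ n.primeFactors.card : ℝ)]
  refine mul_le_mul_of_nonneg_left ?_ (by positivity)
  rw [mul_add, e1]
  exact add_le_add le_rfl e2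

end

end Pool.Agent.Lib.MP391708.TG1
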