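import Pool.Agent.Lib.MP_391708_nt.TG1.ESpecC
import Pool.Agent.Lib.MP_391708_nt.TA.A3An
import Pool.Agent.Lib.MP_391708_nt.T1.EVS

/-!
# Theorem T1b, module EVS: bridges, the product over the sieving primes, the size of the errors
-/

set_option autoImplicit false

namespace Pool.Agent.Lib.MP391708.TG1

open Finset Filter Topology
open scoped Classical
open TG (Aa aa az vl az_eq az_neg az_ne az_natAbs vl_pos vl_castR vl_cast natCast_dvd_vl spl Prm Good zz W0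
  PP Adm S0 Y1 Y2 Y3 Y4)
open T1.EVS (sum_inv_sq_le prod_bounds prod_ge log_pow_le zz_tendsto zz_large zpow_le_N)

variable [Aa]

lemma aa_pos : 0 < aa := Aa.ha

lemma aa_ne : az ≠ 0 := az_ne

lemma nsq_aa : TA.Nsq az := TG.nsq_az

namespace EVS

/-! ## Bridges -/

lemma mem_PP {p : Prm} {N l : ℕ} :
    l ∈ PP p N ↔ (l : ℝ) < zz p N ∧ l.Prime ∧ spl l ∧ p.E < l := by
  unfold PP
  rw [mem_filter, mem_range, Nat.lt_ceil]

theorem PPf_eq (p : Prm) (N : ℕ) : TA.A3.PPf az p.E (zz p N) = PP p N := by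
  ext l
  rw [mem_PP]
  unfold TA.A3.PPf spl
  rw [mem_filter, mem_range, Nat.lt_ceil]

theorem S0f_eq (p : Prm) (N : ℕ) : TA.A3.S0f az p.E (zz p N) = S0 p N := by
  unfold TA.A3.S0f S0
  rw [PPf_eq]

lemma S0_eq (p : Prm) (N : ℕ) : S0 p N = 2 * ∑ l ∈ PP p N, 1 / (l : ℝ) := by
  unfold S0
  rw [mul_sum]
  exact sum_congr rfl fun l _ => by ring

lemma S0_nonneg (p : Prm) (N : ℕ) : 0 ≤ S0 p N := sum_nonneg fun _ _ => by positivity

/-- a prime `> E ≥ 2a` is split or inert -/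
lemma spl_or {p : Prm} (hE : 2 * aa ≤ p.E) {l : ℕ} (hl : l.Prime) (h : p.E < l) :
    spl l ∨ TA.chz az l = -1 := by
  refine TA.chz_big aa_ne ?_ hl h
  rw [az_natAbs]
  exact hE

/-- a prime `> 2a` dividing `M² + a` is split -/
lemma spl_of_dvd {l M : ℕ} (hl : l.Prime) (h2 : 2 * aa < l) (h : l ∣ vl M) : spl l := by
  have ha := aa_pos
  refine (TA.chz_prime_one hl (by omega) ?_).2 ⟨M, natCast_dvd_vl.1 h⟩
  intro h3
  have h4 : l ∣ aa := by
    rw [az_eq, dvd_neg] at h3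
    exact_mod_cast h3
  have := Nat.le_of_dvd ha h4
  omega

/-- a number all of whose primes are split has `χ = 1` -/
lemma chz_one_of {n : ℕ} (hn : 0 < n) (h : ∀ l : ℕ, l.Prime → l ∣ n → spl l) :
    TA.chz az n = 1 := by
  induction n using induction_on_primes with
  | zero => omega
  | one => exact TA.chz_one _
  | prime_mul q b hq ih =>
    have hb : 0 < b := Nat.pos_of_ne_zero fun h0 => by simp [h0] at hn
    rw [TA.chz_mul, ih hb fun l hl hla => h l hl (hla.mul_left q), h q hq (dvd_mul_right q b),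
      one_mul]

/-! ## The product -/

/-- the product over the sieving primes, `0 ≤ c ≤ 6` -/
theorem prod_PP (p : Prm) (N : ℕ) (c : ℝ) (hE : 100 ≤ p.E) (h0 : 0 ≤ c) (h6 : c ≤ 6) :
    (1 - 40 / (p.E : ℝ)) * Real.exp (-(c / 2 * S0 p N)) ≤ ∏ l ∈ PP p N, (1 - c / (l : ℝ)) ∧
      ∏ l ∈ PP p N, (1 - c / (l : ℝ)) ≤ Real.exp (-(c / 2 * S0 p N)) := by
  have h1 : c / 2 * S0 p N = c * ∑ l ∈ PP p N, 1 / (l : ℝ) := by
    rw [S0_eq]
    ring
  rw [h1]
  have hP : ∀ l ∈ PP p N, p.E < l := fun l hl => (mem_PP.1 hl).2.2.2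
  exact ⟨prod_ge hE hP h0 h6, (prod_bounds (by omega) hP h0 h6).2⟩

/-- `exp S0 ≍ log z` -/
theorem exp_S0_le (p : Prm) (hζ : 0 < p.ζ) : ∃ C : ℝ, 0 < C ∧ ∀ᶠ N : ℕ in atTop,
    Real.exp (S0 p N) ≤ C * Real.log (zz p N) ∧ 1 < Real.log (zz p N) ∧
      Real.log (zz p N) ≤ C * Real.exp (S0 p N) := by
  obtain ⟨C, hC0, hC⟩ := TA.A3.exp_S0_le aa_ne nsq_aa p.E
  refine ⟨C, hC0, ?_⟩
  filter_upwards [(zz_tendsto hζ).eventually_ge_atTop 9] with N hN
  rw [← S0f_eq]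
  exact hC (zz p N) hN

/-- for every `c, C`: `C e^(c S0) ≤ z` -/
theorem exp_S0_small (p : Prm) (hζ : 0 < p.ζ) (c C' : ℝ) (hC' : 0 ≤ C') :
    ∀ᶠ N : ℕ in atTop, C' * Real.exp (c * S0 p N) ≤ zz p N := by
  obtain ⟨C, hC0, hC⟩ := exp_S0_le p hζ
  set n := ⌈|c|⌉₊ with hn
  filter_upwards [hC, (zz_tendsto hζ).eventually (log_pow_le (C' * C ^ n) n)] with N hN hz
  obtain ⟨h1, h2, -⟩ := hN
  have h3 : Real.exp (c * S0 p N) ≤ (C * Real.log (zz p N)) ^ n := by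
    calc Real.exp (c * S0 p N) ≤ Real.exp (n * S0 p N) := by
          refine Real.exp_le_exp.2 (mul_le_mul_of_nonneg_right ?_ (S0_nonneg p N))
          exact (le_abs_self c).trans (Nat.le_ceil _)
      _ = Real.exp (S0 p N) ^ n := Real.exp_nat_mul _ _
      _ ≤ (C * Real.log (zz p N)) ^ n := pow_le_pow_left₀ (Real.exp_pos _).le h1 n
  calc C' * Real.exp (c * S0 p N) ≤ C' * (C * Real.log (zz p N)) ^ n :=
        mul_le_mul_of_nonneg_left h3 hC'
    _ = C' * C ^ n * Real.log (zz p N) ^ n := by rw [mul_pow]; ring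
    _ ≤ zz p N := hz

/-! ## The error terms -/

/-- **ERR**: the error terms are small.  `A ≍ M/P` bounds `D`, `R ≍ G`, `L ≍ M/Q`. -/
theorem err_small (g : ℕ → ℕ → ℕ → ℕ) : Good (fun p => ∀ᶠ N : ℕ in atTop, ∀ M G P Q : ℕ,
    Adm p N M G P Q → ∀ A R L : ℝ, 0 ≤ A → A * P ≤ 10 * M → 0 ≤ R → R ≤ 100 * G → 0 ≤ L →
    L * Q * M ≤ 20 * ((M : ℝ) ^ 2 + az) →
    zz p N ^ g p.E p.K p.r * (A * Real.sqrt R + A ^ 2 + L) ≤ G) := by
  refine ((((T4.Good.large_k (fun E K r => 2 * g E K r + 8 * K + 20)).and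
    (T4.Good.large_r (fun _ _ => 1))).and (zz_large (fun _ _ _ _ => 1000))).and
    T4.Good.zeta_pos).mono fun p hp => ?_
  obtain ⟨⟨⟨hk, hr⟩, hz⟩, hζ⟩ := hp
  filter_upwards [hz, eventually_ge_atTop 1] with N hz hN M G P Q hA A R L hA0 hAP hR0 hR hL0 hL
  obtain ⟨h0, h1, h2, h3, h4, h5, h6, h7, h8, h9⟩ := hA
  set z := zz p N with hzdef
  set γ := g p.E p.K p.r with hγ
  have hz0 : 0 < z := by linarith
  have hz1 : 1 ≤ z := by linarith
  have hM0 : 0 < M := by omega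
  have hMr : (0 : ℝ) < M := by exact_mod_cast hM0
  have hprod : 0 < G * P * Q := by rw [h1]; exact vl_pos h0
  have hG0 : 0 < G := Nat.pos_of_ne_zero fun h => by simp [h] at hprod
  have hP0 : 0 < P := Nat.pos_of_ne_zero fun h => by simp [h] at hprod
  have hQ0 : 0 < Q := Nat.pos_of_ne_zero fun h => by simp [h] at hprod
  have hGr : (0 : ℝ) < G := by exact_mod_cast hG0
  have hPr : (0 : ℝ) < P := by exact_mod_cast hP0
  have hQr : (0 : ℝ) < Q := by exact_mod_cast hQ0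
  have hY1 : Y1 p N = z ^ p.k := rfl
  have hY2 : Y2 p N = z ^ (p.r * p.k) := rfl
  have hY3 : Y3 p N = z ^ (10 * p.r * p.k) := rfl
  -- `A ≤ z^(rk + 4K + 1)`
  have hAle : A ≤ z ^ (p.r * p.k + 4 * p.K + 1) := by
    have e1 : A * P ≤ 100 * (Y2 p N * z ^ (4 * p.K)) * P := by
      calc A * P ≤ 10 * M := hAP
        _ ≤ 10 * (10 * P * (Y2 p N * z ^ (4 * p.K))) := by linarith
        _ = 100 * (Y2 p N * z ^ (4 * p.K)) * P := by ring
    have e2 : A ≤ 100 * (Y2 p N * z ^ (4 * p.K)) := le_of_mul_le_mul_right e1 hPr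
    calc A ≤ 100 * (Y2 p N * z ^ (4 * p.K)) := e2
      _ ≤ z * (Y2 p N * z ^ (4 * p.K)) := by
          refine mul_le_mul_of_nonneg_right (by linarith) ?_
          rw [hY2]
          positivity
      _ = z ^ (p.r * p.k + 4 * p.K + 1) := by rw [hY2]; ring
  -- `z^(k + 10 r k - 1) ≤ G`
  have hGge : z ^ (p.k + 10 * (p.r * p.k)) ≤ z * G := by
    calc z ^ (p.k + 10 * (p.r * p.k)) = Y1 p N * Y3 p N := by rw [hY1, hY3]; ring
      _ ≤ 10 * G := h8
      _ ≤ z * G := mul_le_mul_of_nonneg_right (by linarith) hGr.le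
  have hrk : 1 * p.k ≤ p.r * p.k := Nat.mul_le_mul_right _ hr
  -- the three terms
  have hsq : (1000 * z ^ γ * z ^ (p.r * p.k + 4 * p.K + 1)) ^ 2 ≤ G := by
    have e1 : (1000 * z ^ γ * z ^ (p.r * p.k + 4 * p.K + 1)) ^ 2 * z ≤
        z ^ (p.k + 10 * (p.r * p.k) - 1) * z := by
      calc (1000 * z ^ γ * z ^ (p.r * p.k + 4 * p.K + 1)) ^ 2 * z
          ≤ (z * z ^ γ * z ^ (p.r * p.k + 4 * p.K + 1)) ^ 2 * z := by
            refine mul_le_mul_of_nonneg_right (pow_le_pow_left₀ (by positivity) ?_ 2) hz0.le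
            gcongr
        _ = z ^ (2 * γ + 2 * (p.r * p.k) + 8 * p.K + 5) := by ring
        _ ≤ z ^ (p.k + 10 * (p.r * p.k)) := pow_le_pow_right₀ hz1 (by omega)
        _ = z ^ (p.k + 10 * (p.r * p.k) - 1) * z := by
          rw [← pow_succ]
          congr 1
          omega
    have e2 : z ^ (p.k + 10 * (p.r * p.k) - 1) * z ≤ G * z := by
      rw [← pow_succ, show p.k + 10 * (p.r * p.k) - 1 + 1 = p.k + 10 * (p.r * p.k) by omega]
      linarith
    exact le_of_mul_le_mul_right (e1.trans e2) hz0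
  have hT1 : z ^ γ * (A * Real.sqrt R) ≤ G / 4 := by
    have e1 : Real.sqrt R ≤ 10 * Real.sqrt G := by
      calc Real.sqrt R ≤ Real.sqrt (100 * G) := Real.sqrt_le_sqrt hR
        _ = 10 * Real.sqrt G := by
          rw [Real.sqrt_mul (by norm_num), show (100 : ℝ) = 10 ^ 2 by norm_num,
            Real.sqrt_sq (by norm_num)]
    have e2 : 1000 * z ^ γ * z ^ (p.r * p.k + 4 * p.K + 1) ≤ Real.sqrt G :=
      Real.le_sqrt_of_sq_le hsq
    have e3 : Real.sqrt G * Real.sqrt G = G := Real.mul_self_sqrt hGr.le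
    calc z ^ γ * (A * Real.sqrt R) ≤
        z ^ γ * (z ^ (p.r * p.k + 4 * p.K + 1) * (10 * Real.sqrt G)) := by gcongr
      _ = (1000 * z ^ γ * z ^ (p.r * p.k + 4 * p.K + 1)) * Real.sqrt G / 100 := by ring
      _ ≤ Real.sqrt G * Real.sqrt G / 100 := by gcongr
      _ = G / 100 := by rw [e3]
      _ ≤ G / 4 := by linarith
  have hT2 : z ^ γ * A ^ 2 ≤ G / 4 := by
    calc z ^ γ * A ^ 2 ≤ z ^ γ * (z ^ (p.r * p.k + 4 * p.K + 1)) ^ 2 := by gcongr
      _ ≤ (1000 * z ^ γ * z ^ (p.r * p.k + 4 * p.K + 1)) ^ 2 / 4 := by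
        have e1 : 1 ≤ z ^ γ := one_le_pow₀ hz1
        have e2 : z ^ γ ≤ (z ^ γ) ^ 2 := by nlinarith
        have e3 : 0 ≤ (z ^ (p.r * p.k + 4 * p.K + 1)) ^ 2 := by positivity
        nlinarith [mul_le_mul_of_nonneg_right e2 e3,
          mul_nonneg (sq_nonneg (z ^ γ)) e3]
      _ ≤ G / 4 := by linarith
  have hT3 : z ^ γ * L ≤ G / 4 := by
    -- `L Q M ≤ 20 G P Q`
    have e0 : (G : ℝ) * P * Q = (M : ℝ) ^ 2 + az := by
      rw [← vl_castR h0]
      exact_mod_cast h1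
    have e1 : L * M * Q ≤ 20 * G * P * Q := by
      calc L * M * Q = L * Q * M := by ring
        _ ≤ 20 * ((M : ℝ) ^ 2 + az) := hL
        _ = 20 * G * P * Q := by rw [← e0]; ring
    have e2 : L * M ≤ 20 * G * P := le_of_mul_le_mul_right e1 hQr
    have e3 : L * M * Y1 p N ≤ 200 * G * M * z ^ (4 * p.K) := by
      calc L * M * Y1 p N ≤ 20 * G * P * Y1 p N := by
            refine mul_le_mul_of_nonneg_right e2 ?_
            rw [hY1]
            positivity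
        _ = 20 * G * (P * Y1 p N) := by ring
        _ ≤ 20 * G * (10 * M * z ^ (4 * p.K)) := by gcongr
        _ = 200 * G * M * z ^ (4 * p.K) := by ring
    have e4 : L * Y1 p N ≤ 200 * G * z ^ (4 * p.K) := by
      refine le_of_mul_le_mul_right ?_ hMr
      linarith
    have e5 : z ^ γ * L * z ^ p.k ≤ G / 4 * z ^ p.k := by
      calc z ^ γ * L * z ^ p.k = z ^ γ * (L * Y1 p N) := by rw [hY1]; ring
        _ ≤ z ^ γ * (200 * G * z ^ (4 * p.K)) := by gcongr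
        _ = G / 4 * (800 * z ^ (γ + 4 * p.K)) := by ring
        _ ≤ G / 4 * (z * z ^ (γ + 4 * p.K)) := by
            have : 0 ≤ z ^ (γ + 4 * p.K) := by positivity
            have : 800 * z ^ (γ + 4 * p.K) ≤ z * z ^ (γ + 4 * p.K) := by nlinarith
            exact mul_le_mul_of_nonneg_left this (by positivity)
        _ = G / 4 * z ^ (γ + 4 * p.K + 1) := by ring
        _ ≤ G / 4 * z ^ p.k := by
            refine mul_le_mul_of_nonneg_left (pow_le_pow_right₀ hz1 (by omega)) (by positivity)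
    exact le_of_mul_le_mul_right e5 (by positivity)
  calc z ^ γ * (A * Real.sqrt R + A ^ 2 + L)
      = z ^ γ * (A * Real.sqrt R) + z ^ γ * A ^ 2 + z ^ γ * L := by ring
    _ ≤ (G : ℝ) := by linarith

/-- all data are at most `N` -/
theorem size_le (g : ℕ → ℕ → ℕ → ℕ → ℕ) : Good (fun p => ∀ᶠ N : ℕ in atTop, ∀ M G P Q : ℕ,
    Adm p N M G P Q → ((W0 p : ℕ) : ℝ) ≤ N ∧ zz p N ^ g p.E p.K p.r p.k * (G : ℝ) ≤ N ∧
      ∀ A : ℝ, A * P ≤ 10 * M → zz p N ^ g p.E p.K p.r p.k * A ≤ N) := by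
  refine (((zpow_le_N (fun E K r k => g E K r k + r * k + 10 * r ^ 2 * k + 4 * K + 1)).and
    (zz_large (fun _ _ _ _ => 1000))).and (zz_large (fun _ _ _ _ => 1000))).mono fun p hp => ?_
  obtain ⟨⟨hN, hz⟩, -⟩ := hp
  have hW : ∀ᶠ N : ℕ in atTop, ((W0 p : ℕ) : ℝ) ≤ N :=
    tendsto_natCast_atTop_atTop.eventually_ge_atTop _
  filter_upwards [hN, hz, hW, eventually_ge_atTop 1] with N hN hz hW hN1 M G P Q hA
  obtain ⟨h0, h1, h2, h3, h4, h5, h6, h7, h8, h9⟩ := hA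
  set z := zz p N with hzdef
  set γ := g p.E p.K p.r p.k with hγ
  have hz0 : 0 < z := by linarith
  have hz1 : 1 ≤ z := by linarith
  have hM0 : 0 < M := by omega
  have hprod : 0 < G * P * Q := by rw [h1]; exact vl_pos h0
  have hP0 : 0 < P := Nat.pos_of_ne_zero fun h => by simp [h] at hprod
  have hPr : (0 : ℝ) < P := by exact_mod_cast hP0
  refine ⟨hW, ?_, fun A hAP => ?_⟩
  · calc z ^ γ * (G : ℝ) ≤ z ^ γ * (10 * (Y2 p N * Y4 p N * z ^ (4 * p.K))) := by gcongr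
      _ ≤ z ^ γ * (z * (Y2 p N * Y4 p N * z ^ (4 * p.K))) := by
          have : 0 ≤ Y2 p N * Y4 p N * z ^ (4 * p.K) := by unfold Y2 Y4; positivity
          gcongr
          linarith
      _ = z ^ (γ + p.r * p.k + 10 * p.r ^ 2 * p.k + 4 * p.K + 1) := by unfold Y2 Y4; ring
      _ ≤ N := hN
  · have e1 : A * P ≤ 100 * (Y2 p N * z ^ (4 * p.K)) * P := by
      calc A * P ≤ 10 * M := hAP
        _ ≤ 10 * (10 * P * (Y2 p N * z ^ (4 * p.K))) := by linarith
        _ = 100 * (Y2 p N * z ^ (4 * p.K)) * P := by ring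
    have e2 : A ≤ 100 * (Y2 p N * z ^ (4 * p.K)) := le_of_mul_le_mul_right e1 hPr
    have e3 : 0 ≤ Y2 p N * z ^ (4 * p.K) := by unfold Y2; positivity
    calc z ^ γ * A ≤ z ^ γ * (z * (Y2 p N * z ^ (4 * p.K))) := by
          have : A ≤ z * (Y2 p N * z ^ (4 * p.K)) := by nlinarith
          gcongr
      _ = z ^ (γ + p.r * p.k + 4 * p.K + 1) := by unfold Y2; ring
      _ ≤ z ^ (γ + p.r * p.k + 10 * p.r ^ 2 * p.k + 4 * p.K + 1) :=
          pow_le_pow_right₀ hz1 (by omega)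
      _ ≤ N := hN

end EVS

open EVS in
/-- **EVS** -/
theorem specEVS : SpecEVS := by
  refine ⟨fun p N c hE h0 h6 => ?_, fun c => T4.Good.zeta_pos.mono fun p hζ => ?_⟩
  · rw [PPs_eq]
    exact prod_PP p N c hE h0 h6
  · exact exp_S0_small p hζ c _ (by positivity)

end Pool.Agent.Lib.MP391708.TG1
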