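import Pool.Agent.Lib.MP_391708_nt.TA.E1D
import Pool.Agent.Lib.MP_391708_nt.TA.EQR
import Pool.Agent.Lib.MP_391708_nt.T1.E1S
import Pool.Agent.Lib.MP_391708_nt.TA.E1G
import Pool.Agent.Lib.MP_391708_nt.TA.E2g
import Pool.Agent.Lib.MP_391708_nt.TA.RRB
import Pool.Agent.Lib.MP_391708_nt.TA.LLX
import Pool.Agent.Lib.MP_391708_nt.TA.RTS
import Pool.Agent.Lib.MP_391708_nt.TA.ELM
import Pool.Agent.Lib.MP_391708_nt.TA.ESN
import Pool.Agent.Lib.MP_391708_nt.TG1.EDU
import Pool.Agent.Lib.MP_391708_nt.TG1.EUC0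
import Pool.Agent.Lib.MP_391708_nt.TG1.EUG
import Pool.Agent.Lib.MP_391708_nt.TG1.EIG
import Pool.Agent.Lib.MP_391708_nt.TG1.ERR
import Pool.Agent.Lib.MP_391708_nt.TG1.EVS
import Pool.Agent.Lib.MP_391708_nt.TG1.EDI
import Pool.Agent.Lib.MP_391708_nt.TG1.EI3
import Pool.Agent.Lib.MP_391708_nt.TG1.EUCA
import Pool.Agent.Lib.MP_391708_nt.TG1.EUCDp
import Pool.Agent.Lib.MP_391708_nt.TG1.EI12
import Pool.Agent.Lib.MP_391708_nt.TG1.EPI
import Pool.Agent.Lib.MP_391708_nt.TG1.EPUh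

/-!
# Theorem T1b (`a < 0`), group E: the statements without hypotheses
-/

set_option autoImplicit false

namespace Pool.Agent.Lib.MP391708.TG1.EFin

open TG (Aa aa)

variable [Aa]

omit [Aa] in
theorem e1g : TA.SpecE1g := TA.specE1g (TA.specE1D TA.specEQR TA.specLMJ) T1.specE1S TA.specLMJ
omit [Aa] in
theorem e2g : TA.SpecE2g := TA.specE2g e1g TA.specRRB TA.specLLX
theorem eug : SpecEUG := specEUG e2g specERR
theorem eig : SpecEIG := specEIG e2g specERR
theorem ei12 : SpecEI12 := specEI12 eig TA.specRTS specERR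
theorem euc0 : SpecEUC0 := specEUC0 eug TA.specRTS TA.specELM TA.specRRB
theorem eucB : SpecEUCB := specEUCB eug TA.specRTS TA.specELM TA.specRRB
theorem eucD : SpecEUCD := specEUCD eug TA.specRTS TA.specELM TA.specRRB TA.specLMJ
theorem eucF : SpecEUCF := specEUCF eug TA.specRTS TA.specELM TA.specRRB
theorem eucA : SpecEUCA := specEUCA eug specERR
theorem eucA' : SpecEUCA' := specEUCA' eug specERR
theorem eucD' : SpecEUCD' := specEUCD' eug specERR
theorem phi : TG.SpecPHI := specPHI_of specEDI ei12 specEI3 specEVS specERR specERR2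
theorem phu : TG.SpecPHU :=
  specPHU_of' specEDU euc0 eucB eucA eucA' eucD eucD' eucF TA.specESX specEVS specERR
    TA.specELM TA.specRRB

end Pool.Agent.Lib.MP391708.TG1.EFin
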