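import Pool.Agent.Lib.MP_391708_nt.TG.EqcD
import Pool.Agent.Lib.MP_391708_nt.TG.BasF
import Pool.Agent.Lib.MP_391708_nt.TG1.NGP
import Pool.Agent.Lib.MP_391708_nt.T1.NGC

/-!
# T1b, group NG: number of pairs `(M, V)`, `V ∣ M² + a`, with conditions at small moduli (`a < 0`)
-/

set_option autoImplicit false
set_option maxHeartbeats 4000000

namespace Pool.Agent.Lib.MP391708.TG1.NG

open Finset
open Pool.Agent.Lib.MP391708.Eqd (V cross pairs mem_pairs res scal shp specFirst nsq_pos_of_cross)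
open Pool.Agent.Lib.MP391708.Eqd.Loc
open Pool.Agent.Lib.MP391708.T1 (sl Bd)
open Pool.Agent.Lib.MP391708.T1.NG (PS PS_pairwise tent tent_supp tent_one tent_le_one
  tent_nonneg win bd sl_card_ge totient_ge)
open Pool.Agent.Lib.MP391708.TA (RegQ qv qb)
open Pool.Agent.Lib.MP391708.TA.NG (Pts LC card_red_le mem_PS qn)
open Pool.Agent.Lib.MP391708.TG (Aa aa az vl Cn mm dd ee VV dot nsq CC Cls SpecCLS)
open scoped Classical

section form

variable [Aa] [TG.Frm]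

/-- the square of the Euclidean length -/
abbrev nE (v : V) : ℤ := Eqd.nsq v

/-- the constant of the form -/
noncomputable def kF : ℝ := ((4 * TG.PQ ^ 2 + 4 * TG.SS ^ 2 + TG.SS + aa + 1 : ℤ) : ℝ)

lemma kF_one : 1 ≤ kF := by
  have h1 := TG.PQ_nonneg
  have h2 := TG.SS_nonneg
  have h3 := TG.aa_posZ
  have : (1 : ℤ) ≤ 4 * TG.PQ ^ 2 + 4 * TG.SS ^ 2 + TG.SS + aa + 1 := by
    nlinarith [sq_nonneg TG.PQ, sq_nonneg TG.SS]
  unfold kF
  exact_mod_cast this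

lemma nsq_le (v : V) : nsq v ≤ TG.SS * nE v := by
  have a1 := le_abs_self TG.Frm.A
  have a2 := abs_nonneg TG.Frm.A
  have b1 := le_abs_self TG.Frm.B
  have b2 := neg_abs_le TG.Frm.B
  have b3 := abs_nonneg TG.Frm.B
  have c1 := le_abs_self TG.Frm.C
  have c2 := abs_nonneg TG.Frm.C
  have s1 := sq_nonneg v.1
  have s2 := sq_nonneg v.2
  have e1 : TG.Frm.A * v.1 ^ 2 ≤ |TG.Frm.A| * v.1 ^ 2 := mul_le_mul_of_nonneg_right a1 s1
  have e2 : TG.Frm.C * v.2 ^ 2 ≤ |TG.Frm.C| * v.2 ^ 2 := mul_le_mul_of_nonneg_right c1 s2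
  have e3 : 2 * TG.Frm.B * v.1 * v.2 ≤ |TG.Frm.B| * (v.1 ^ 2 + v.2 ^ 2) := by
    rcases le_total 0 (v.1 * v.2) with h | h
    · nlinarith [mul_le_mul_of_nonneg_right b1 h, sq_nonneg (v.1 - v.2)]
    · nlinarith [mul_le_mul_of_nonpos_right b2 h, sq_nonneg (v.1 + v.2)]
  have e4 : 0 ≤ |TG.Frm.A| * v.2 ^ 2 := mul_nonneg a2 s2
  have e5 : 0 ≤ |TG.Frm.C| * v.1 ^ 2 := mul_nonneg c2 s1
  simp only [nsq, TG.SS, nE, Eqd.nsq]
  nlinarith

/-- total number of pairs in the region -/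
lemma totalC (c₁ C₁ : ℝ) (hc : 0 < c₁) (hcC : c₁ < C₁) :
    ∃ Ct : ℝ, 0 < Ct ∧ ∀ N Y : ℝ, 1 ≤ N → 1 ≤ Y → ∀ M : ℕ,
      (((pairs 1 M).filter (fun x =>
        RegQ TG.Frm.A TG.Frm.B TG.Frm.C (fun _ => c₁ * N) (fun s => c₁ * N + C₁ * N * tent Y s) x ∧
          Cn x.1)).card : ℝ) ≤ Ct * N := by
  obtain ⟨K, hK⟩ := specFirst 1 one_pos
  have hK1 : 0 < K := hK.1
  obtain ⟨κ, hκ⟩ : ∃ κ : ℝ, κ = kF := ⟨_, rfl⟩
  have hκ1 : 1 ≤ κ := by rw [hκ]; exact kF_one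
  have hκ0 : 0 < κ := by linarith
  set X0 : ℝ := 2 * κ * (c₁ + C₁ + κ) with hX0
  have hX0pos : 1 ≤ X0 := by rw [hX0]; nlinarith
  obtain ⟨n, hn⟩ := exists_nat_ge (Real.log (16 * κ ^ 3 * X0 / c₁))
  refine ⟨(n + 1) * (K * X0), by positivity, fun N Y hN hY M => ?_⟩
  have hN0 : 0 < N := by linarith
  have hY0 : 0 < Y := by linarith
  have hXN : 1 ≤ X0 * N := by nlinarith
  refine le_trans ?_ ((win hK.2 hXN M n (Real.log (c₁ * N / (8 * κ ^ 2 * Y)))).trans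
    (le_of_eq (by ring)))
  refine Nat.cast_le.mpr (card_le_card ?_)
  intro x hx
  rw [mem_filter] at hx ⊢
  obtain ⟨hx0, ⟨hx1, hx2⟩, hcn⟩ := hx
  simp only at hx1 hx2
  refine ⟨hx0, ?_⟩
  have hcr := (mem_pairs.mp hx0).2
  have hcr1 : cross x.1 x.2 = -1 := by simpa using hcr
  obtain ⟨hv, hw⟩ := nsq_pos_of_cross one_pos hcr
  have hv' : (0 : ℝ) < nE x.1 := by exact_mod_cast hv
  have hw' : (0 : ℝ) < nE x.2 := by exact_mod_cast hw
  have hw1 : (1 : ℝ) ≤ nE x.2 := by exact_mod_cast hw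
  have hqv : (qv TG.Frm.A TG.Frm.B TG.Frm.C x.1 : ℝ) = ((dd x : ℤ) : ℝ) := rfl
  have hqb : (qb TG.Frm.A TG.Frm.B TG.Frm.C x.1 x.2 : ℝ) = ((mm x : ℤ) : ℝ) := by
    have : qb TG.Frm.A TG.Frm.B TG.Frm.C x.1 x.2 = mm x := by
      simp only [qb, mm, dot]; ring
    rw [this]
  rw [hqb] at hx1 hx2
  rw [hqv] at hx2
  obtain ⟨p, hp⟩ : ∃ p : ℝ, p = (dd x : ℝ) := ⟨_, rfl⟩
  obtain ⟨r, hr⟩ : ∃ r : ℝ, r = (ee x : ℝ) := ⟨_, rfl⟩
  obtain ⟨n1, hn1⟩ : ∃ z : ℝ, z = (nE x.1 : ℝ) := ⟨_, rfl⟩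
  obtain ⟨n2, hn2⟩ : ∃ z : ℝ, z = (nE x.2 : ℝ) := ⟨_, rfl⟩
  obtain ⟨μ, hμ⟩ : ∃ μ : ℝ, μ = (mm x : ℝ) := ⟨_, rfl⟩
  rw [← hμ, ← hp] at hx2
  rw [← hμ] at hx1
  rw [← hn1] at hv'
  rw [← hn2] at hw' hw1
  -- the constants
  have hS0 := TG.SS_nonneg
  have hP0 := TG.PQ_nonneg
  have ha0 := TG.aa_posZ
  have hκS : ((TG.SS : ℤ) : ℝ) ≤ κ := by
    rw [hκ]; unfold kF
    have : TG.SS ≤ 4 * TG.PQ ^ 2 + 4 * TG.SS ^ 2 + TG.SS + aa + 1 := by nlinarith
    exact_mod_cast this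
  have hκP : ((4 * TG.PQ ^ 2 : ℤ) : ℝ) ≤ κ := by
    rw [hκ]; unfold kF
    have : 4 * TG.PQ ^ 2 ≤ 4 * TG.PQ ^ 2 + 4 * TG.SS ^ 2 + TG.SS + aa + 1 := by nlinarith
    exact_mod_cast this
  have hκS2 : ((4 * TG.SS ^ 2 : ℤ) : ℝ) ≤ κ := by
    rw [hκ]; unfold kF
    have : 4 * TG.SS ^ 2 ≤ 4 * TG.PQ ^ 2 + 4 * TG.SS ^ 2 + TG.SS + aa + 1 := by nlinarith
    exact_mod_cast this
  have hκa : (aa : ℝ) ≤ κ := by
    rw [hκ]; unfold kF
    have : (aa : ℤ) ≤ 4 * TG.PQ ^ 2 + 4 * TG.SS ^ 2 + TG.SS + aa + 1 := by nlinarith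
    exact_mod_cast this
  have har : (1 : ℝ) ≤ aa := by exact_mod_cast ha0
  -- `F` against the length
  have p2 : n1 ≤ κ * p := by
    obtain ⟨h1, h2⟩ := TG.sq_le_nsq hcn
    have h3 : nE x.1 ≤ 4 * TG.PQ ^ 2 * dd x := by
      have e : nE x.1 = x.1.1 ^ 2 + x.1.2 ^ 2 := rfl
      have e' : dd x = nsq x.1 := rfl
      rw [e, e']; linarith
    have h4 : n1 ≤ ((4 * TG.PQ ^ 2 : ℤ) : ℝ) * p := by
      rw [hn1, hp]; exact_mod_cast h3
    have hpp : 0 ≤ p := by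
      by_contra hcon
      push Not at hcon
      have : ((4 * TG.PQ ^ 2 : ℤ) : ℝ) * p ≤ 0 := by
        apply mul_nonpos_of_nonneg_of_nonpos _ hcon.le
        exact_mod_cast (by positivity : (0 : ℤ) ≤ 4 * TG.PQ ^ 2)
      linarith
    exact h4.trans (mul_le_mul_of_nonneg_right hκP hpp)
  have hp0 : 0 < p := pos_of_mul_pos_right (lt_of_lt_of_le hv' p2) hκ0.le
  have r1 : r ≤ κ * n2 := by
    have h1 := nsq_le x.2
    have h2 : r ≤ ((TG.SS : ℤ) : ℝ) * n2 := by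
      rw [hr, hn2]; exact_mod_cast h1
    exact h2.trans (mul_le_mul_of_nonneg_right hκS hw'.le)
  have hprod : p * r = μ ^ 2 - aa := by
    have h1 := TG.dd_mul_ee' hcr1
    have h2 : ((dd x * ee x : ℤ) : ℝ) = ((mm x ^ 2 + az : ℤ) : ℝ) := by rw [h1]
    rw [TG.az_eq] at h2
    push_cast at h2
    rw [hp, hr, hμ]
    linarith
  -- the length of `w`
  have hw2 : p ^ 2 * n2 ≤ 2 * (μ ^ 2 + κ ^ 2) * n1 := by
    obtain ⟨h1, h2⟩ := TG.dd_mul_snd hcr1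
    have k1 : (dd x * x.2.1) ^ 2 ≤ 2 * (mm x * x.1.1) ^ 2 +
        2 * (TG.Frm.B * x.1.1 + TG.Frm.C * x.1.2) ^ 2 := by
      rw [h1]; nlinarith [sq_nonneg (mm x * x.1.1 - (TG.Frm.B * x.1.1 + TG.Frm.C * x.1.2))]
    have k2 : (dd x * x.2.2) ^ 2 ≤ 2 * (mm x * x.1.2) ^ 2 +
        2 * (TG.Frm.A * x.1.1 + TG.Frm.B * x.1.2) ^ 2 := by
      rw [h2]; nlinarith [sq_nonneg (mm x * x.1.2 + (TG.Frm.A * x.1.1 + TG.Frm.B * x.1.2))]
    have kk : ∀ u v : ℤ, |u| ≤ TG.SS → |v| ≤ TG.SS →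
        (u * x.1.1 + v * x.1.2) ^ 2 ≤ 2 * TG.SS ^ 2 * nE x.1 := by
      intro u v hu hv
      have e : nE x.1 = x.1.1 ^ 2 + x.1.2 ^ 2 := rfl
      have u2 : u ^ 2 ≤ TG.SS ^ 2 := sq_le_sq' (by linarith [neg_abs_le u]) (by linarith [le_abs_self u])
      have v2 : v ^ 2 ≤ TG.SS ^ 2 := sq_le_sq' (by linarith [neg_abs_le v]) (by linarith [le_abs_self v])
      have w1 : u ^ 2 * x.1.1 ^ 2 ≤ TG.SS ^ 2 * x.1.1 ^ 2 :=
        mul_le_mul_of_nonneg_right u2 (sq_nonneg _)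
      have w2 : v ^ 2 * x.1.2 ^ 2 ≤ TG.SS ^ 2 * x.1.2 ^ 2 :=
        mul_le_mul_of_nonneg_right v2 (sq_nonneg _)
      rw [e]
      nlinarith [sq_nonneg (u * x.1.1 - v * x.1.2)]
    have hA : |TG.Frm.A| ≤ TG.SS := by
      unfold TG.SS; linarith [abs_nonneg TG.Frm.B, abs_nonneg TG.Frm.C]
    have hB : |TG.Frm.B| ≤ TG.SS := by
      unfold TG.SS; linarith [abs_nonneg TG.Frm.A, abs_nonneg TG.Frm.C]
    have hC : |TG.Frm.C| ≤ TG.SS := by
      unfold TG.SS; linarith [abs_nonneg TG.Frm.B, abs_nonneg TG.Frm.A]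
    have k3 := kk _ _ hB hC
    have k4 := kk _ _ hA hB
    have k5 : dd x ^ 2 * nE x.2 ≤ 2 * mm x ^ 2 * nE x.1 + 8 * TG.SS ^ 2 * nE x.1 := by
      have e : nE x.1 = x.1.1 ^ 2 + x.1.2 ^ 2 := rfl
      have e' : nE x.2 = x.2.1 ^ 2 + x.2.2 ^ 2 := rfl
      have e3 : 2 * mm x ^ 2 * nE x.1 = 2 * (mm x * x.1.1) ^ 2 + 2 * (mm x * x.1.2) ^ 2 := by
        rw [e]; ring
      have e4 : dd x ^ 2 * nE x.2 = (dd x * x.2.1) ^ 2 + (dd x * x.2.2) ^ 2 := by
        rw [e']; ring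
      rw [e3, e4]
      linarith
    have k6 : p ^ 2 * n2 ≤ 2 * μ ^ 2 * n1 + 2 * ((4 * TG.SS ^ 2 : ℤ) : ℝ) * n1 := by
      have : ((dd x ^ 2 * nE x.2 : ℤ) : ℝ) ≤
          ((2 * mm x ^ 2 * nE x.1 + 8 * TG.SS ^ 2 * nE x.1 : ℤ) : ℝ) := by exact_mod_cast k5
      push_cast at this ⊢
      rw [hp, hn1, hn2, hμ]
      linarith
    have k7 : ((4 * TG.SS ^ 2 : ℤ) : ℝ) * n1 ≤ κ ^ 2 * n1 := by
      apply mul_le_mul_of_nonneg_right _ hv'.le
      nlinarith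
    linarith
  have ht : 0 < tent Y p := by
    have : 0 < C₁ * N * tent Y p := by linarith
    exact (mul_pos_iff_of_pos_left (mul_pos (hc.trans hcC) hN0)).mp this
  obtain ⟨hs1, hs2⟩ := tent_supp hY0 ht
  have hdot : μ ≤ (c₁ + C₁) * N := by
    have := tent_le_one Y p
    have h1 : C₁ * N * tent Y p ≤ C₁ * N * 1 :=
      mul_le_mul_of_nonneg_left this (by nlinarith)
    nlinarith
  have hd0 : 0 < μ := lt_trans (by positivity) hx1
  have hnn : n1 * n2 ≤ (X0 * N) ^ 2 := by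
    have h1 : p ^ 2 * (n1 * n2) ≤ p ^ 2 * (2 * (μ ^ 2 + κ ^ 2) * κ ^ 2) := by
      calc p ^ 2 * (n1 * n2) = n1 * (p ^ 2 * n2) := by ring
        _ ≤ n1 * (2 * (μ ^ 2 + κ ^ 2) * n1) := by gcongr
        _ = 2 * (μ ^ 2 + κ ^ 2) * n1 ^ 2 := by ring
        _ ≤ 2 * (μ ^ 2 + κ ^ 2) * (κ * p) ^ 2 := by gcongr
        _ = _ := by ring
    have h2 : n1 * n2 ≤ 2 * (μ ^ 2 + κ ^ 2) * κ ^ 2 := le_of_mul_le_mul_left h1 (by positivity)
    have h3 : μ + κ ≤ (c₁ + C₁ + κ) * N := by nlinarith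
    have h4 : μ ^ 2 + κ ^ 2 ≤ (μ + κ) ^ 2 := by nlinarith [mul_pos hd0 hκ0]
    have h5 : (μ + κ) ^ 2 ≤ ((c₁ + C₁ + κ) * N) ^ 2 := pow_le_pow_left₀ (by positivity) h3 2
    calc n1 * n2 ≤ 2 * (μ ^ 2 + κ ^ 2) * κ ^ 2 := h2
      _ ≤ 4 * ((c₁ + C₁ + κ) * N) ^ 2 * κ ^ 2 := by
          apply mul_le_mul_of_nonneg_right _ (by positivity)
          nlinarith [sq_nonneg ((c₁ + C₁ + κ) * N)]
      _ = _ := by rw [hX0]; ring
  have hscal : scal x ≤ X0 * N := by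
    rw [scal]
    refine Real.sqrt_le_iff.mpr ⟨by positivity, ?_⟩
    rw [hn1, hn2] at hnn
    exact hnn
  have hshp : shp x = (1 / 2) * Real.log (n2 / n1) := by rw [shp, hn1, hn2]
  refine ⟨hscal, ?_, ?_⟩
  · -- lower bound for the shape
    rw [hshp]
    have h1 : (c₁ * N / (8 * κ ^ 2 * Y)) ^ 2 ≤ n2 / n1 := by
      rw [div_pow, div_le_div_iff₀ (by positivity) hv']
      have hκ2 : 1 ≤ κ ^ 2 := one_le_pow₀ hκ1
      rcases le_or_gt (2 * (aa : ℝ)) ((c₁ * N) ^ 2) with hA | hB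
      · have i1 : (c₁ * N) ^ 2 ≤ μ ^ 2 := pow_le_pow_left₀ (by positivity) hx1.le 2
        have i2 : (c₁ * N) ^ 2 ≤ 2 * (p * r) := by rw [hprod]; linarith
        calc (c₁ * N) ^ 2 * n1 ≤ (2 * (p * r)) * n1 := by gcongr
          _ = 2 * p * n1 * r := by ring
          _ ≤ 2 * p * n1 * (κ * n2) := by gcongr
          _ ≤ 2 * p * (κ * p) * (κ * n2) := by gcongr
          _ = n2 * (2 * κ ^ 2 * p ^ 2) := by ring
          _ ≤ n2 * (2 * κ ^ 2 * (4 * Y) ^ 2) := by gcongr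
          _ ≤ n2 * (8 * κ ^ 2 * Y) ^ 2 := by
              apply mul_le_mul_of_nonneg_left _ hw'.le
              have e1 : 2 * κ ^ 2 * (4 * Y) ^ 2 = 32 * κ ^ 2 * Y ^ 2 * 1 := by ring
              have e2 : (8 * κ ^ 2 * Y) ^ 2 = 64 * κ ^ 2 * Y ^ 2 * κ ^ 2 := by ring
              rw [e1, e2]
              have e3 : 0 ≤ κ ^ 2 * Y ^ 2 := by positivity
              apply mul_le_mul _ hκ2 zero_le_one (by positivity)
              linarith
      · have hYY : Y ≤ Y ^ 2 := by nlinarith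
        calc (c₁ * N) ^ 2 * n1 ≤ (2 * κ) * (κ * p) := by
              apply mul_le_mul (by linarith) p2 hv'.le (by positivity)
          _ ≤ (2 * κ) * (κ * (4 * Y)) := by gcongr
          _ = 8 * κ ^ 2 * Y := by ring
          _ ≤ 8 * κ ^ 2 * Y ^ 2 := by gcongr
          _ ≤ (8 * κ ^ 2 * Y) ^ 2 := by
              have e2 : (8 * κ ^ 2 * Y) ^ 2 = 8 * κ ^ 2 * Y ^ 2 * (8 * κ ^ 2) := by ring
              rw [e2]
              have e3 : 0 ≤ κ ^ 2 * Y ^ 2 := by positivity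
              nlinarith
          _ = 1 * (8 * κ ^ 2 * Y) ^ 2 := (one_mul _).symm
          _ ≤ n2 * (8 * κ ^ 2 * Y) ^ 2 := by gcongr
    have h2 : Real.log ((c₁ * N / (8 * κ ^ 2 * Y)) ^ 2) ≤ Real.log (n2 / n1) :=
      Real.log_le_log (by positivity) h1
    rw [Real.log_pow] at h2
    push_cast at h2
    linarith
  · rw [hshp]
    have h1 : n2 / n1 ≤ (2 * κ * (X0 * N) / Y) ^ 2 := by
      rw [div_pow, div_le_div_iff₀ hv' (by positivity)]
      have hp1 : p ≤ κ * n1 := by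
        have h1 := nsq_le x.1
        have h2 : p ≤ ((TG.SS : ℤ) : ℝ) * n1 := by
          rw [hp, hn1]; exact_mod_cast h1
        exact h2.trans (mul_le_mul_of_nonneg_right hκS hv'.le)
      have hY2 : Y ≤ 2 * (κ * n1) := by linarith
      calc n2 * Y ^ 2 ≤ n2 * (2 * (κ * n1)) ^ 2 := by gcongr
        _ = 4 * κ ^ 2 * n1 * (n1 * n2) := by ring
        _ ≤ 4 * κ ^ 2 * n1 * (X0 * N) ^ 2 := by gcongr
        _ = (2 * κ * (X0 * N)) ^ 2 * n1 := by ring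
    have h2 : Real.log (n2 / n1) ≤ Real.log ((2 * κ * (X0 * N) / Y) ^ 2) :=
      Real.log_le_log (by positivity) h1
    rw [Real.log_pow] at h2
    push_cast at h2
    have h3 : Real.log (2 * κ * (X0 * N) / Y) =
        Real.log (c₁ * N / (8 * κ ^ 2 * Y)) + Real.log (16 * κ ^ 3 * X0 / c₁) := by
      rw [← Real.log_mul (by positivity) (by positivity)]
      congr 1
      field_simp
      ring
    have h4 : Real.log (16 * κ ^ 3 * X0 / c₁) ≤ n + 1 := by linarith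
    linarith

/-- the pairs represented by the form in its cone -/
def Rep (x : ℕ × ℕ) : Prop :=
  ∃ y : VV, cross y.1 y.2 = -1 ∧ Cn y.1 ∧ mm y = x.1 ∧ dd y = x.2

lemma qf_qn (y : VV) (s t : ℤ) :
    qf (mm y) (dd y) (ee y) s t = qn TG.Frm.A TG.Frm.B TG.Frm.C s t y := by
  simp only [qf, mm, dd, ee, nsq, dot, qn]; ring

lemma mem_box' {M : ℕ} {v : V} (h1 : |v.1| ≤ M) (h2 : |v.2| ≤ M) : v ∈ Eqd.box M := by
  unfold Eqd.box
  rw [mem_product, mem_Icc, mem_Icc]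
  exact ⟨abs_le.1 h1, abs_le.1 h2⟩

/-- one form -/
theorem cntFm (c₁ C₁ : ℝ) (hc : 0 < c₁) (hcC : c₁ < C₁) :
    ∃ K : ℝ, 0 < K ∧ ∀ N Y : ℝ, 1 ≤ N → 1 ≤ Y → Y ≤ C₁ * N →
      ∀ (m : Fin 3 → ℕ) (s t : Fin 3 → ℤ) (g : ℕ), Pts az m s t g → 0 < g →
      ∀ S : Finset (ℕ × ℕ), (∀ x ∈ S, c₁ * N < x.1 ∧ (x.1 : ℝ) ≤ C₁ * N ∧ Y ≤ x.2 ∧
        (x.2 : ℝ) ≤ 2 * Y ∧ aa < x.1 ^ 2 ∧ x.2 ∣ vl x.1 ∧
        ∀ i, (m i : ℤ) ∣ qf x.1 x.2 (vl x.1 / x.2 : ℕ) (s i) (t i)) →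
      (∀ x ∈ S, Rep x) →
      (S.card : ℝ) ≤ K * N * (4 ^ (PS m).card * g / (m 0 * m 1 * m 2)) +
        K * (md (PS m) : ℝ) ^ 12 * (N * Y ^ (-(1 / 20) : ℝ)) := by
  obtain ⟨Ct, hCt, htot⟩ := totalC c₁ C₁ hc hcC
  set L : ℝ := 4 + 4 * (c₁ + C₁) with hL
  have hL1 : 1 ≤ L := by rw [hL]; nlinarith
  obtain ⟨K, hK⟩ := TG.equidCn L hL1
  refine ⟨Ct + |K| + 1, by positivity, ?_⟩
  intro N Y hN hY hYN m s t g H hg S hS hSr
  have hN0 : 0 < N := by linarith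
  have hY0 : 0 < Y := by linarith
  have hm0 : ∀ i, 0 < m i := fun i => Nat.pos_of_ne_zero (H.sqf i).ne_zero
  have hPS : ∀ p ∈ PS m, p.Prime := fun p hp => ((mem_PS H).mp hp).1
  set q : ℕ := md (PS m) with hq
  have hq0 : 0 < q := by
    rw [hq, md]; exact prod_pos fun i _ => (hPS i i.2).pos
  haveI : NeZero q := ⟨hq0.ne'⟩
  obtain ⟨K', hK'⟩ := exists_nat_ge (C₁ * N)
  obtain ⟨M, hM⟩ := exists_nat_ge (|K| * (N + 1) ^ 2 +
    ((2 * TG.PQ * (K' + TG.SS) : ℤ) : ℝ))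
  have hP0 := TG.PQ_nonneg
  have hS0 := TG.SS_nonneg
  have hPS0 : (0 : ℤ) ≤ 2 * TG.PQ * (K' + TG.SS) := by positivity
  have hPS0R : (0 : ℝ) ≤ ((2 * TG.PQ * (K' + TG.SS) : ℤ) : ℝ) := by exact_mod_cast hPS0
  have hK2 : 0 ≤ |K| * (N + 1) ^ 2 := by positivity
  have hM1 : K * (N + 1) ^ 2 ≤ M := by
    have := mul_le_mul_of_nonneg_right (le_abs_self K) (sq_nonneg (N + 1))
    linarith
  have hM2 : 2 * TG.PQ * (K' + TG.SS) ≤ (M : ℤ) := by
    have : ((2 * TG.PQ * (K' + TG.SS) : ℤ) : ℝ) ≤ ((M : ℤ) : ℝ) := by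
      push_cast at hM ⊢
      linarith
    exact_mod_cast this
  have hBd := bd (L := L) (N := N) (Y := Y) hc hcC hL.ge hN hY
  set T₁ : ℝ → ℝ := fun _ => c₁ * N with hT1
  set T₂ : ℝ → ℝ := fun s => c₁ * N + C₁ * N * tent Y s with hT2
  have hYL : Y ≤ L * N := hYN.trans (mul_le_mul_of_nonneg_right (by rw [hL]; linarith) hN0.le)
  have hEq := hK N Y hY hYL T₁ T₂ hBd M hM1 q
  -- the region
  obtain ⟨Rg, hRg⟩ : ∃ Rg : VV → Prop, Rg = fun x =>
    RegQ TG.Frm.A TG.Frm.B TG.Frm.C T₁ T₂ x ∧ Cn x.1 := ⟨_, rfl⟩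
  have hEq' : ∀ z ∈ sl q, |(((pairs 1 M).filter (fun x => Rg x ∧ res q x = z)).card : ℝ) -
        (((pairs 1 M).filter Rg).card : ℝ) / ((sl q).card : ℝ)| ≤
        K * (q : ℝ) ^ 8 * N * Y ^ (-(1 / 20) : ℝ) := by
    intro z hz
    have := hEq z hz
    rw [hRg]
    convert this
  -- the admissible classes
  set R : Finset ((ZMod q × ZMod q) × (ZMod q × ZMod q)) :=
    (sl q).filter (fun z => ∀ i : PS m, LC TG.Frm.A TG.Frm.B TG.Frm.C m s t i
      (red (PS m) (PS_pairwise m) z i)) with hR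
  choose! φ hprops using hSr
  have hinj : Set.InjOn φ (S : Set (ℕ × ℕ)) := by
    intro x hx y hy hxy
    obtain ⟨-, -, h1, h2⟩ := hprops x hx
    obtain ⟨-, -, h3, h4⟩ := hprops y hy
    rw [hxy] at h1 h2
    exact Prod.ext (by exact_mod_cast h1.symm.trans h3) (by exact_mod_cast h2.symm.trans h4)
  have hmaps : ∀ x ∈ S, φ x ∈ (pairs 1 M).filter (fun y => Rg y ∧ res q y ∈ R) := by
    intro x hx
    obtain ⟨h4, hcn, h1, h2⟩ := hprops x hx
    obtain ⟨g1, g2, g3, g4, ga, g5, g6⟩ := hS x hx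
    have hx2 : 0 < x.2 := by
      have : (0 : ℝ) < x.2 := by linarith
      exact_mod_cast this
    have hvl : ((vl x.1 : ℕ) : ℤ) = (x.1 : ℤ) ^ 2 + az := TG.vl_cast ga
    have hvp : 0 < vl x.1 := TG.vl_pos ga
    have hde := TG.dd_mul_ee' h4
    rw [h1, h2] at hde
    have k0 : (vl x.1 : ℤ) = x.2 * ((vl x.1 / x.2 : ℕ) : ℤ) := by
      exact_mod_cast (Nat.mul_div_cancel' g5).symm
    have h3 : ee (φ x) = ((vl x.1 / x.2 : ℕ) : ℤ) := by
      have hx2Z : (x.2 : ℤ) ≠ 0 := by exact_mod_cast hx2.ne'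
      apply mul_left_cancel₀ hx2Z
      rw [hde, ← k0, hvl]
    have hee : 0 < ee (φ x) := by
      rw [h3]
      have : 0 < vl x.1 / x.2 := Nat.div_pos (Nat.le_of_dvd hvp g5) hx2
      exact_mod_cast this
    have hdd : 0 < dd (φ x) := by rw [h2]; exact_mod_cast hx2
    have hCC : CC (φ x) := ⟨h4, hcn, hdd, hee⟩
    have hmK : |mm (φ x)| ≤ (K' : ℤ) := by
      rw [h1, abs_of_nonneg (Int.natCast_nonneg _)]
      have : (x.1 : ℝ) ≤ (K' : ℝ) := g2.trans hK'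
      exact_mod_cast this
    have hco := TG.coord hCC hmK
    rw [mem_filter]
    refine ⟨?_, ?_, ?_⟩
    · rw [mem_pairs]
      refine ⟨⟨mem_box' ?_ ?_, mem_box' ?_ ?_⟩, by simpa using h4⟩
      · exact (hco _ (Or.inl rfl)).trans hM2
      · exact (hco _ (Or.inr (Or.inl rfl))).trans hM2
      · exact (hco _ (Or.inr (Or.inr (Or.inl rfl)))).trans hM2
      · exact (hco _ (Or.inr (Or.inr (Or.inr rfl)))).trans hM2
    · rw [hRg]
      have hqv : (qv TG.Frm.A TG.Frm.B TG.Frm.C (φ x).1 : ℝ) = (x.2 : ℝ) := by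
        have : qv TG.Frm.A TG.Frm.B TG.Frm.C (φ x).1 = dd (φ x) := rfl
        rw [this, h2]
        push_cast
        rfl
      have hqb : (qb TG.Frm.A TG.Frm.B TG.Frm.C (φ x).1 (φ x).2 : ℝ) = (x.1 : ℝ) := by
        have : qb TG.Frm.A TG.Frm.B TG.Frm.C (φ x).1 (φ x).2 = mm (φ x) := by
          simp only [qb, mm, dot]; ring
        rw [this, h1]
        push_cast
        rfl
      refine ⟨⟨?_, ?_⟩, hcn⟩
      · rw [hqb]; exact g1
      · rw [hqb, hqv]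
        simp only [hT2]
        have : tent Y ((x.2 : ℕ) : ℝ) = 1 := tent_one hY0 g3 g4
        rw [this]
        have : 0 ≤ c₁ * N := by positivity
        linarith
    · have hcr : (((φ x).1.1 : ZMod q)) * ((φ x).2.2 : ZMod q) -
          ((φ x).1.2 : ZMod q) * ((φ x).2.1 : ZMod q) = -1 := by
        have := congrArg (fun z : ℤ => (z : ZMod q)) h4
        simp only [cross] at this
        push_cast at this
        exact this
      rw [hR, mem_filter]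
      refine ⟨?_, ?_⟩
      · simp only [sl, mem_filter, mem_univ, true_and, res]
        exact hcr
      · intro i
        have hred : red (PS m) (PS_pairwise m) (res q (φ x)) i = res (i : ℕ) (φ x) := by
          have key : ∀ a : ℤ, (ZMod.prodEquivPi (fun i : PS m => (i : ℕ)) (PS_pairwise m)
              ((a : ZMod (∏ i : PS m, (i : ℕ)))) : (i : PS m) → ZMod (i : ℕ)) i =
              (a : ZMod (i : ℕ)) := by
            intro a
            rw [map_intCast]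
            rfl
          exact Prod.ext (Prod.ext (key _) (key _)) (Prod.ext (key _) (key _))
        rw [hred]
        refine ⟨?_, ?_⟩
        · have := congrArg (fun z : ℤ => (z : ZMod (i : ℕ))) h4
          simp only [cross] at this
          push_cast at this
          simp only [res]
          exact this
        · intro j hj
          have h6 := g6 j
          have h7 : ((i : ℕ) : ℤ) ∣ qf x.1 x.2 (vl x.1 / x.2 : ℕ) (s j) (t j) :=
            (Int.natCast_dvd_natCast.mpr hj).trans h6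
          rw [← h1, ← h2, ← h3, qf_qn] at h7
          have h8 := (ZMod.intCast_zmod_eq_zero_iff_dvd _ (i : ℕ)).mpr h7
          simp only [qn] at h8
          simp only [qn, res]
          push_cast at h8
          exact h8
  have hcard : S.card ≤ ((pairs 1 M).filter (fun y => Rg y ∧ res q y ∈ R)).card :=
    card_le_card_of_injOn φ hmaps hinj
  have hfib : ((pairs 1 M).filter (fun y => Rg y ∧ res q y ∈ R)).card =
      ∑ r ∈ R, ((pairs 1 M).filter (fun y => Rg y ∧ res q y = r)).card := by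
    rw [card_eq_sum_card_fiberwise (f := res q) (t := R)]
    · refine sum_congr rfl fun r hr => ?_
      congr 1
      ext y
      simp only [mem_filter]
      constructor
      · rintro ⟨⟨a, b, c⟩, d⟩; exact ⟨a, b, d⟩
      · rintro ⟨a, b, d⟩; exact ⟨⟨a, b, by rw [d]; exact hr⟩, d⟩
    · intro y hy
      exact (mem_filter.mp hy).2.2
  have hbound : (S.card : ℝ) ≤ ∑ r ∈ R,
      ((((pairs 1 M).filter Rg).card : ℝ) / ((sl q).card : ℝ) +
        K * (q : ℝ) ^ 8 * N * Y ^ (-(1 / 20) : ℝ)) := by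
    calc (S.card : ℝ) ≤
          (((pairs 1 M).filter (fun y => Rg y ∧ res q y ∈ R)).card : ℝ) := by
          exact_mod_cast hcard
      _ = ∑ r ∈ R,
          (((pairs 1 M).filter (fun y => Rg y ∧ res q y = r)).card : ℝ) := by
          rw [hfib]; push_cast; rfl
      _ ≤ _ := by
          refine sum_le_sum fun r hr => ?_
          have h1 := hEq' r (mem_filter.mp hr).1
          have h2 := le_of_abs_le h1
          linarith
  rw [sum_const, nsmul_eq_mul] at hbound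
  -- cardinalities
  have hAc := card_red_le TG.Frm.det H hg R (fun z hz i => (mem_filter.mp hz).2 i)
  have hsl := sl_card_ge q
  have hsqf : Squarefree q := by
    have : q = ∏ p ∈ PS m, p := by
      rw [hq, md]; exact Finset.prod_coe_sort (PS m) (fun i => i)
    rw [this]
    exact (Finset.squarefree_prod_of_pairwise_isCoprime (fun a ha b hb hab =>
      (Nat.coprime_iff_isRelPrime.mp ((Nat.coprime_primes (hPS a ha) (hPS b hb)).mpr hab)))
      (fun p hp => (hPS p hp).squarefree))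
  have hqpf : q.primeFactors = PS m := by
    have : q = ∏ p ∈ PS m, p := by
      rw [hq, md]; exact Finset.prod_coe_sort (PS m) (fun i => i)
    rw [this, Nat.primeFactors_prod hPS]
  have htt := totient_ge q hsqf
  rw [hqpf] at htt
  have hqR : (0 : ℝ) < q := by exact_mod_cast hq0
  have hslpos : (0 : ℝ) < ((sl q).card : ℝ) := by
    have : (0 : ℝ) < (q.totient : ℝ) := by exact_mod_cast Nat.totient_pos.mpr hq0
    exact lt_of_lt_of_le (by positivity) hsl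
  have hmpos : (0 : ℝ) < (m 0 : ℝ) * m 1 * m 2 := by
    have h0 : (0 : ℝ) < m 0 := by exact_mod_cast hm0 0
    have h1 : (0 : ℝ) < m 1 := by exact_mod_cast hm0 1
    have h2 : (0 : ℝ) < m 2 := by exact_mod_cast hm0 2
    positivity
  have hratio : (R.card : ℝ) / ((sl q).card : ℝ) ≤
      4 ^ (PS m).card * g / (m 0 * m 1 * m 2) := by
    rw [div_le_div_iff₀ hslpos hmpos]
    have h1 : (q : ℝ) ^ 3 ≤ 2 ^ (PS m).card * ((sl q).card : ℝ) := by
      calc (q : ℝ) ^ 3 = q * (q : ℝ) ^ 2 := by ring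
        _ ≤ (2 ^ (PS m).card * q.totient) * (q : ℝ) ^ 2 := by gcongr
        _ = 2 ^ (PS m).card * (q.totient * (q : ℝ) ^ 2) := by ring
        _ ≤ _ := by gcongr
    calc (R.card : ℝ) * (m 0 * m 1 * m 2) ≤ 2 ^ (PS m).card * (q : ℝ) ^ 3 * g := hAc
      _ ≤ 2 ^ (PS m).card * (2 ^ (PS m).card * ((sl q).card : ℝ)) * g := by gcongr
      _ = 4 ^ (PS m).card * g * ((sl q).card : ℝ) := by
        have : (4 : ℝ) ^ (PS m).card = 2 ^ (PS m).card * 2 ^ (PS m).card := by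
          rw [← mul_pow]; norm_num
        rw [this]; ring
  have hAq : (R.card : ℝ) ≤ (q : ℝ) ^ 4 := by
    have h1 : R.card ≤ (univ : Finset ((ZMod q × ZMod q) × (ZMod q × ZMod q))).card :=
      card_le_card (subset_univ _)
    rw [card_univ, Fintype.card_prod, Fintype.card_prod, ZMod.card] at h1
    calc (R.card : ℝ) ≤ ((q * q * (q * q) : ℕ) : ℝ) := by exact_mod_cast h1
      _ = (q : ℝ) ^ 4 := by push_cast; ring
  have hTot : (((pairs 1 M).filter Rg).card : ℝ) ≤ Ct * N := by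
    rw [hRg]
    convert htot N Y hN hY M
  have hYp : 0 ≤ Y ^ (-(1 / 20) : ℝ) := Real.rpow_nonneg hY0.le _
  calc (S.card : ℝ) ≤ R.card * ((((pairs 1 M).filter Rg).card : ℝ) /
          ((sl q).card : ℝ) + K * (q : ℝ) ^ 8 * N * Y ^ (-(1 / 20) : ℝ)) := hbound
    _ = (R.card / ((sl q).card : ℝ)) * (((pairs 1 M).filter Rg).card : ℝ) +
        R.card * (K * (q : ℝ) ^ 8 * (N * Y ^ (-(1 / 20) : ℝ))) := by ring
    _ ≤ (4 ^ (PS m).card * g / (m 0 * m 1 * m 2)) * (Ct * N) +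
        (q : ℝ) ^ 4 * (|K| * (q : ℝ) ^ 8 * (N * Y ^ (-(1 / 20) : ℝ))) := by
        refine add_le_add ?_ ?_
        · exact mul_le_mul hratio hTot (Nat.cast_nonneg _) (by positivity)
        · refine (mul_le_mul_of_nonneg_left ?_ (Nat.cast_nonneg _)).trans
            (mul_le_mul_of_nonneg_right hAq (by positivity))
          gcongr
          exact le_abs_self K
    _ ≤ _ := by
        have e1 : 0 ≤ 4 ^ (PS m).card * (g : ℝ) / (m 0 * m 1 * m 2) * N := by positivity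
        have e2 : 0 ≤ (q : ℝ) ^ 12 * (N * Y ^ (-(1 / 20) : ℝ)) := by positivity
        have e3 := abs_nonneg K
        nlinarith

end form

/-! ### all forms of determinant `a` -/

/-- **CNT** from EQUID in the cones and the classes -/
theorem cnt [Aa] (hL : SpecCLS) : CNT := by
  obtain ⟨k, L, hCls⟩ := hL
  intro c₁ C₁ hc hcC
  have hone : ∀ i : Fin k, ∃ K : ℝ, 0 < K ∧
      ∀ N Y : ℝ, 1 ≤ N → 1 ≤ Y → Y ≤ C₁ * N →
      ∀ (m : Fin 3 → ℕ) (s t : Fin 3 → ℤ) (g : ℕ), Pts az m s t g → 0 < g →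
      ∀ S : Finset (ℕ × ℕ), (∀ x ∈ S, c₁ * N < x.1 ∧ (x.1 : ℝ) ≤ C₁ * N ∧ Y ≤ x.2 ∧
        (x.2 : ℝ) ≤ 2 * Y ∧ aa < x.1 ^ 2 ∧ x.2 ∣ vl x.1 ∧
        ∀ i, (m i : ℤ) ∣ qf x.1 x.2 (vl x.1 / x.2 : ℕ) (s i) (t i)) →
      (∀ x ∈ S, @Rep _ (L i) x) →
      (S.card : ℝ) ≤ K * N * (4 ^ (PS m).card * g / (m 0 * m 1 * m 2)) +
        K * (md (PS m) : ℝ) ^ 12 * (N * Y ^ (-(1 / 20) : ℝ)) := fun i =>
    @cntFm _ (L i) c₁ C₁ hc hcC
  choose K hK0 hK using hone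
  refine ⟨∑ i, K i + 1, add_pos_of_nonneg_of_pos (sum_nonneg fun i _ => (hK0 i).le) one_pos, ?_⟩
  intro N Y hN hY hYN m s t g H hg S hS
  have hN0 : 0 < N := by linarith
  have hY0 : 0 < Y := by linarith
  have hsub : S ⊆ (univ : Finset (Fin k)).biUnion (fun i => S.filter (@Rep _ (L i))) := by
    intro x hx
    obtain ⟨g1, -, h3, -, ga, h5, -⟩ := hS x hx
    have hx0 : 0 < x.2 := by
      have : (0 : ℝ) < x.2 := by linarith
      exact_mod_cast this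
    have hM0 : 0 < x.1 := by
      have : (0 : ℝ) < x.1 := lt_trans (by positivity) g1
      exact_mod_cast this
    have hvl : ((vl x.1 : ℕ) : ℤ) = (x.1 : ℤ) ^ 2 + az := TG.vl_cast ga
    have hvp : 0 < vl x.1 := TG.vl_pos ga
    obtain ⟨i, y, h6, h7, h8, h9⟩ := hCls x.1 x.2 (by exact_mod_cast hM0)
      (by rw [← hvl]; exact_mod_cast hvp) (by exact_mod_cast hx0)
      (by rw [← hvl]; exact_mod_cast h5)
    exact mem_biUnion.mpr ⟨i, mem_univ _, mem_filter.mpr ⟨hx, y, h6, h7, h8, h9⟩⟩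
  have h1 : S.card ≤ ∑ i, (S.filter (@Rep _ (L i))).card :=
    (card_le_card hsub).trans card_biUnion_le
  have e1 : 0 ≤ N * (4 ^ (PS m).card * (g : ℝ) / (m 0 * m 1 * m 2)) := by positivity
  have e2 : 0 ≤ (md (PS m) : ℝ) ^ 12 * (N * Y ^ (-(1 / 20) : ℝ)) := by positivity
  set P1 : ℝ := N * (4 ^ (PS m).card * (g : ℝ) / (m 0 * m 1 * m 2)) with hP1
  set P2 : ℝ := (md (PS m) : ℝ) ^ 12 * (N * Y ^ (-(1 / 20) : ℝ)) with hP2
  have h2 : (S.card : ℝ) ≤ ∑ i, K i * (P1 + P2) := by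
    calc (S.card : ℝ) ≤ ∑ i, ((S.filter (@Rep _ (L i))).card : ℝ) := by
          exact_mod_cast h1
      _ ≤ _ := by
          refine sum_le_sum fun i _ => ?_
          refine (hK i N Y hN hY hYN m s t g H hg (S.filter (@Rep _ (L i)))
            (fun x hx => hS x (mem_filter.mp hx).1) (fun x hx => (mem_filter.mp hx).2)).trans ?_
          exact le_of_eq (by rw [hP1, hP2]; ring)
  rw [← sum_mul] at h2
  calc (S.card : ℝ) ≤ (∑ i, K i) * (P1 + P2) := h2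
    _ ≤ (∑ i, K i + 1) * (P1 + P2) := by nlinarith
    _ = _ := by rw [hP1, hP2]; ring

end Pool.Agent.Lib.MP391708.TG1.NG
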