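import Pool.Agent.Lib.MP_391708_nt.TG.Defs
import Pool.Agent.Lib.MP_391708_nt.T1.NGA2

/-!
# T1b, group NG: two relations at the same `M` with `M₄ = M₄'`
-/

set_option autoImplicit false

namespace Pool.Agent.Lib.MP391708.TG1.NG

export Pool.Agent.Lib.MP391708.T1.NG (ep_factorization step1 step2)

open Finset
open Pool.Agent.Lib.MP391708.TG

set_option linter.constructorNameAsVariable false in
/-- **algebra of a pair** with `M₄ = M₄'` -/
theorem pair_same [Aa] {p : Prm} {N : ℕ} {r r' : Rl} (hr : r ∈ RG p N) (hr' : r' ∈ RG p N)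
    (hM : rM r = rM r') (hne : r ≠ r') (hep : ep p (rP r) = ep p (rP r'))
    (hAD : ((rP r / Nat.gcd (rP r) (rP r') : ℕ) : ℤ) * rD r =
      ((rP r' / Nat.gcd (rP r) (rP r') : ℕ) : ℤ) * rD r') :
    rP r = rP r' ∧ rD r = rD r' ∧
      ((rD r).natAbs ≤ (rX r / Nat.gcd (rX r) (rX r')) ^ 2 ∨
        (rD r).natAbs ≤ (rX r' / Nat.gcd (rX r) (rX r')) ^ 2 ∨
        (rD r).natAbs ≤ (rG r / Nat.gcd (rG r) (rG r')) ^ 2 ∨
        (rD r).natAbs ≤ (rG r' / Nat.gcd (rG r) (rG r')) ^ 2) := by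
  classical
  rw [RG, mem_filter] at hr hr'
  obtain ⟨-, g0, P0, q0, d0, x0, hm, hdv, -, hcop⟩ := hr.2.1
  obtain ⟨-, g0', P0', q0', d0', x0', hm', hdv', -, hcop'⟩ := hr'.2.1
  have hcD := hr.2.2.2.2.2.2.2.2.2.2.2.2.1
  have hcD' := hr'.2.2.2.2.2.2.2.2.2.2.2.2.1
  have hq := hr.2.2.2.2.2.2.2.2.2.2.2.2.2.1
  have hq' := hr'.2.2.2.2.2.2.2.2.2.2.2.2.2.1
  have hE : ∀ l : ℕ, l.Prime → l ≤ p.E → (rP r).factorization l = (rP r').factorization l := by
    intro l hl hle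
    rw [← ep_factorization p (rP r) l hl hle, ← ep_factorization p (rP r') l hl hle, hep]
  have hm2 : rG r' * rP r' * rQ r' = vl (rM r) := by rw [hm', hM]
  have h1 : rP r / Nat.gcd (rP r) (rP r') = 1 := step1 P0 P0' hm hm2 hcD' hq' hE hAD
  have h2 : rP r' / Nat.gcd (rP r) (rP r') = 1 := by
    have := step1 (D := rD r') (D' := rD r) P0' P0 hm2 hm hcD hq
      (fun l hl hle => (hE l hl hle).symm) (by rw [Nat.gcd_comm]; exact hAD.symm)
    rwa [Nat.gcd_comm] at this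
  have e1 : rP r = Nat.gcd (rP r) (rP r') := by
    have := Nat.div_mul_cancel (Nat.gcd_dvd_left (rP r) (rP r'))
    rw [h1, one_mul] at this
    exact this.symm
  have e2 : rP r' = Nat.gcd (rP r) (rP r') := by
    have := Nat.div_mul_cancel (Nat.gcd_dvd_right (rP r) (rP r'))
    rw [h2, one_mul] at this
    exact this.symm
  have hP : rP r = rP r' := e1.trans e2.symm
  have hD : rD r = rD r' := by
    rw [h1, h2] at hAD
    simpa using hAD
  refine ⟨hP, hD, step2 g0 x0 g0' x0' hdv (by rw [hD]; exact hdv') hcD hcop hcop' ?_⟩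
  rintro ⟨hG, hX⟩
  apply hne
  have hQ : rQ r = rQ r' := by
    have h3 : rG r * rP r * rQ r = rG r * rP r * rQ r' := by
      rw [hm]
      rw [hG, hP, hm2]
    exact Nat.eq_of_mul_eq_mul_left (Nat.mul_pos g0 P0) h3
  exact Prod.ext hM (Prod.ext hG (Prod.ext hP (Prod.ext hQ (Prod.ext hD hX))))

end Pool.Agent.Lib.MP391708.TG1.NG
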