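import Pool.Agent.Lib.MP_391708_nt.TG1.NGP
import Pool.Agent.Lib.MP_391708_nt.TG1.NGA2
import Pool.Agent.Lib.MP_391708_nt.T1.NGT
import Pool.Agent.Lib.MP_391708_nt.TG.Spec

/-!
# T1, group NG: the pairs of relations with `A D = B D'`
-/

set_option autoImplicit false
set_option linter.constructorNameAsVariable false

namespace Pool.Agent.Lib.MP391708.TG1.NG

open Finset Filter Topology
open Pool.Agent.Lib.MP391708.Eqd.Loc (md)
open Pool.Agent.Lib.MP391708.TG (Aa aa az vl az_eq vl_cast vl_le vl_pos natCast_dvd_vl RG NGp PP IsR small)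
open Pool.Agent.Lib.MP391708.T4 (Prm Rl rM rG rP rQ rD rX F1 D2 ep zz W0 tame Good Y1 Y2 Y3 Y4)
open Pool.Agent.Lib.MP391708.TA.NG (Pts Spl)
open Pool.Agent.Lib.MP391708.T1.NG (PS sum2)

variable [Aa]

attribute [local irreducible] RG

namespace F0

/-- sizes in a relation -/
structure RF (p : Prm) (N : ℕ) (r : Rl) : Prop where
  M1 : N ≤ 2 * rM r
  M2 : rM r ≤ 8 * N
  P1 : rM r ≤ 3 * ((rD r).natAbs * rP r)
  P2 : (rD r).natAbs * rP r ≤ 10 * rM r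
  X1 : rX r ≤ 100 * rG r
  X2 : rG r ≤ 100 * rX r
  D1 : Y1 p N / zz p N ^ (4 * p.K) ≤ ((rD r).natAbs : ℝ)
  D2 : ((rD r).natAbs : ℝ) ≤ Y2 p N * zz p N ^ (4 * p.K)
  G1 : Y1 p N * Y3 p N ≤ 10 * (rG r : ℝ)
  G2 : (rG r : ℝ) ≤ 10 * (Y2 p N * Y4 p N * zz p N ^ (4 * p.K))

lemma RG_facts {p : Prm} {N : ℕ} {r : Rl} (hr : r ∈ RG p N) : RF p N r := by
  classical
  rw [RG, mem_filter] at hr
  obtain ⟨-, -, -, h1, h2, h3, h4, -, h5, h6, -, -, -, -, -, -, -, h7, h8, h9, h10⟩ := hr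
  have e : ((rD r).natAbs : ℝ) = |((rD r : ℤ) : ℝ)| := by
    rw [Nat.cast_natAbs, Int.cast_abs]
  refine ⟨h1, h2, ?_, ?_, h5, h6, ?_, ?_, h9, h10⟩
  · have : (rM r : ℤ) ≤ ((3 * ((rD r).natAbs * rP r) : ℕ) : ℤ) := by
      push_cast
      exact h3
    exact_mod_cast this
  · have : (((rD r).natAbs * rP r : ℕ) : ℤ) ≤ ((10 * rM r : ℕ) : ℤ) := by
      push_cast
      exact h4
    exact_mod_cast this
  · rw [e]; exact h7
  · rw [e]; exact h8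

/-- the pairs with `A D = B D'` -/
noncomputable def F (p : Prm) (N : ℕ) : Finset (Rl × Rl) := (NGp p N).filter (fun t =>
  ((rP t.1 / Nat.gcd (rP t.1) (rP t.2) : ℕ) : ℤ) * rD t.1 =
    ((rP t.2 / Nat.gcd (rP t.1) (rP t.2) : ℕ) : ℤ) * rD t.2)

/-- what we know about a pair -/
structure PF (p : Prm) (N : ℕ) (t : Rl × Rl) : Prop where
  h1 : t.1 ∈ RG p N
  h2 : t.2 ∈ RG p N
  M : rM t.1 = rM t.2
  P : rP t.1 = rP t.2
  D : rD t.1 = rD t.2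
  four : (rD t.1).natAbs ≤ (rX t.1 / Nat.gcd (rX t.1) (rX t.2)) ^ 2 ∨
    (rD t.1).natAbs ≤ (rX t.2 / Nat.gcd (rX t.1) (rX t.2)) ^ 2 ∨
    (rD t.1).natAbs ≤ (rG t.1 / Nat.gcd (rG t.1) (rG t.2)) ^ 2 ∨
    (rD t.1).natAbs ≤ (rG t.2 / Nat.gcd (rG t.1) (rG t.2)) ^ 2

lemma F_facts {p : Prm} {N : ℕ} {t : Rl × Rl} (ht : t ∈ F p N) : PF p N t := by
  classical
  rw [F, mem_filter, NGp, mem_filter, mem_product] at ht
  obtain ⟨⟨⟨h1, h2⟩, hM, hne, hep, -⟩, hAD⟩ := ht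
  obtain ⟨hP, hD, hf⟩ := pair_same h1 h2 hM hne hep hAD
  exact ⟨h1, h2, hM, hP, hD, hf⟩

/-- the data of a pair -/
noncomputable def dat (N : ℕ) (t : Rl × Rl) : ℕ × Bool × ℕ × ℕ × ℕ × ℕ × ℕ :=
  (Nat.log 2 (6 * (rP t.1 * (rD t.1).natAbs) / N), decide (0 < rD t.1), (rD t.1).natAbs,
    rG t.1, rX t.1, rG t.2, rX t.2)

/-- the condition of `sum2` -/
def cnd (x : ℕ × ℕ × ℕ × ℕ × ℕ) : Prop :=
  (x.1 : ℤ) ∣ (x.2.2.1 : ℤ) - x.2.1 ∧ (x.1 : ℤ) ∣ (x.2.2.2.2 : ℤ) - x.2.2.2.1 ∧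
    Nat.Coprime x.1 (x.2.2.1 * x.2.2.2.2 * x.2.1 * x.2.2.2.1) ∧
    x.2.2.1 ≤ 100 * x.2.1 ∧ x.2.1 ≤ 100 * x.2.2.1 ∧ x.2.2.2.2 ≤ 100 * x.2.2.2.1 ∧
    x.2.2.2.1 ≤ 100 * x.2.2.2.2 ∧ x.1 ≤ x.2.1 ∧ x.1 ≤ x.2.2.2.1 ∧
    (x.1 ≤ (x.2.2.1 / Nat.gcd x.2.2.1 x.2.2.2.2) ^ 2 ∨
      x.1 ≤ (x.2.2.2.2 / Nat.gcd x.2.2.1 x.2.2.2.2) ^ 2 ∨
      x.1 ≤ (x.2.1 / Nat.gcd x.2.1 x.2.2.2.1) ^ 2 ∨
      x.1 ≤ (x.2.2.2.1 / Nat.gcd x.2.1 x.2.2.2.1) ^ 2)

/-- the weight of `sum2` -/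
noncomputable def wt (x : ℕ × ℕ × ℕ × ℕ × ℕ) : ℝ :=
  ((Nat.gcd x.2.1 x.2.2.2.1 : ℝ) * (Nat.gcd x.2.2.1 x.2.2.2.2 : ℝ)) /
    ((x.2.1 : ℝ) * x.2.2.2.1 * x.2.2.1 * x.2.2.2.2)

lemma cop_X {D : ℤ} {G X : ℕ} (hd : D ∣ (X : ℤ) - G) (hG : IsCoprime D (G : ℤ)) :
    Nat.Coprime D.natAbs (X * 1) ∧ Nat.Coprime D.natAbs G := by
  have h1 : Nat.Coprime D.natAbs G := by
    have := Int.isCoprime_iff_nat_coprime.1 hG
    simpa using this
  refine ⟨?_, h1⟩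
  rw [mul_one]
  refine Nat.coprime_of_dvd fun l hl hlD hlX => ?_
  have h2 : (l : ℤ) ∣ D := Int.natCast_dvd.2 hlD
  have h3 : (l : ℤ) ∣ (G : ℤ) := by
    have h4 := dvd_sub (Int.natCast_dvd_natCast.2 hlX) (h2.trans hd)
    have h5 : (X : ℤ) - ((X : ℤ) - G) = G := by ring
    rwa [h5] at h4
  have h6 : l ∣ G := Int.natCast_dvd_natCast.1 h3
  have h7 : l ∣ Nat.gcd D.natAbs G := Nat.dvd_gcd hlD h6
  rw [h1] at h7
  exact hl.one_lt.ne' (Nat.dvd_one.1 h7)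

lemma cnd_of {p : Prm} {N : ℕ} (hE : 2 * aa ≤ p.E) (hDG : ∀ r ∈ RG p N, (rD r).natAbs ≤ rG r)
    {t : Rl × Rl} (ht : PF p N t) :
    cnd ((rD t.1).natAbs, rG t.1, rX t.1, rG t.2, rX t.2) := by
  have f1 := RG_facts ht.h1
  have f2 := RG_facts ht.h2
  have r1 := RG_rel hE ht.h1
  have r2 := RG_rel hE ht.h2
  have d1 := r1.dvd
  have d2 := r2.dvd
  have c2 := r2.cD
  rw [← ht.D] at d2 c2
  obtain ⟨a1, a2⟩ := cop_X d1 r1.cD
  obtain ⟨b1, b2⟩ := cop_X d2 c2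
  rw [mul_one] at a1 b1
  refine ⟨?_, ?_, ?_, f1.X1, f1.X2, f2.X1, f2.X2, hDG _ ht.h1, ?_, ht.four⟩
  · exact Int.natAbs_dvd.2 d1
  · exact Int.natAbs_dvd.2 d2
  · exact Nat.Coprime.mul_right (Nat.Coprime.mul_right (Nat.Coprime.mul_right a1 b1) a2) b2
  · have := hDG _ ht.h2
    rw [← ht.D] at this
    exact this

lemma md_le {n : ℕ} (hn : 0 < n) : md n.primeFactors ≤ n := by
  have h : md n.primeFactors = ∏ l ∈ n.primeFactors, l := by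
    unfold md
    exact Finset.prod_coe_sort n.primeFactors (fun i => i)
  rw [h]
  exact Nat.le_of_dvd hn (Nat.prod_primeFactors_dvd n)

lemma two_pow_card (n : ℕ) (hn : n ≠ 0) : 2 ^ n.primeFactors.card ≤ n.divisors.card := by
  rw [Nat.card_divisors hn, ← Finset.prod_const]
  refine Finset.prod_le_prod' fun l hl => ?_
  have h1 := (Nat.prime_of_mem_primeFactors hl).dvd_iff_one_le_factorization hn |>.1
    (Nat.dvd_of_mem_primeFactors hl)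
  omega

/-- pairs with the same data -/
lemma fibre {p : Prm} {N U : ℕ} {K A4 : ℝ} (hE : 2 * aa ≤ p.E) (hN : 1 ≤ N) (hNU : 6 * U ≤ N)
    (hU : 1 ≤ U) (hK0 : 0 < K)
    (hK : ∀ N Y : ℝ, 1 ≤ N → 1 ≤ Y → Y ≤ 80 * N →
      ∀ (m : Fin 3 → ℕ) (s t : Fin 3 → ℤ) (g : ℕ), Pts az m s t g → 0 < g →
      ∀ S : Finset (ℕ × ℕ), (∀ x ∈ S, 1 / 4 * N < x.1 ∧ (x.1 : ℝ) ≤ 80 * N ∧ Y ≤ x.2 ∧
        (x.2 : ℝ) ≤ 2 * Y ∧ aa < x.1 ^ 2 ∧ x.2 ∣ vl x.1 ∧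
        ∀ i, (m i : ℤ) ∣ qf x.1 x.2 (vl x.1 / x.2 : ℕ) (s i) (t i)) →
      (S.card : ℝ) ≤ K * N * (4 ^ (PS m).card * g / (m 0 * m 1 * m 2)) +
        K * (md (PS m) : ℝ) ^ 12 * (N * Y ^ (-(1 / 20) : ℝ)))
    (hA4 : ∀ n : ℕ, 0 < n → n ≤ U ^ 4 → (4 : ℝ) ^ n.primeFactors.card ≤ A4)
    (hDG : ∀ r ∈ RG p N, (rD r).natAbs ≤ rG r)
    (j : ℕ) (s : Bool) (x : ℕ × ℕ × ℕ × ℕ × ℕ) (hx1 : 1 ≤ x.1) (hx1U : x.1 ≤ U)
    (hx2 : x.2.1 ≤ U) (hx3 : x.2.2.1 ≤ U) (hx4 : x.2.2.2.1 ≤ U) (hx5 : x.2.2.2.2 ≤ U)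
    (T : Finset (Rl × Rl)) (hT : ∀ t ∈ T, PF p N t ∧ dat N t = (j, s, x)) (hne : T.Nonempty) :
    cnd x ∧ (T.card : ℝ) ≤ K * N * A4 * wt x +
      K * (U : ℝ) ^ 48 * (N * ((N : ℝ) / (6 * U)) ^ (-(1 / 20) : ℝ)) := by
  obtain ⟨D, G, X, G', X'⟩ := x
  simp only at hx1 hx1U hx2 hx3 hx4 hx5
  obtain ⟨t0, ht0⟩ := hne
  obtain ⟨q0, e0⟩ := hT t0 ht0
  -- the components of the data
  have comp : ∀ t ∈ T, PF p N t ∧ Nat.log 2 (6 * (rP t.1 * (rD t.1).natAbs) / N) = j ∧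
      rD t.1 = (if s then (D : ℤ) else -(D : ℤ)) ∧ (rD t.1).natAbs = D ∧
      rG t.1 = G ∧ rX t.1 = X ∧ rG t.2 = G' ∧ rX t.2 = X' := by
    intro t ht
    obtain ⟨q, e⟩ := hT t ht
    unfold dat at e
    simp only [Prod.mk.injEq] at e
    obtain ⟨e1, e2, e3, e4, e5, e6, e7⟩ := e
    refine ⟨q, e1, ?_, e3, e4, e5, e6, e7⟩
    rw [← e2, ← e3]
    by_cases h : 0 < rD t.1
    · simp only [h, decide_true, if_true]
      exact (Int.natAbs_of_nonneg h.le).symm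
    · have h' : rD t.1 ≤ 0 := not_lt.1 h
      simp only [h, decide_false, Bool.false_eq_true, if_false]
      have := Int.ofNat_natAbs_of_nonpos h'
      omega
  have q0' := comp t0 ht0
  obtain ⟨-, ej, eD, eDa, eG, eX, eG', eX'⟩ := q0'
  have hcnd : cnd (D, G, X, G', X') := by
    have := cnd_of hE hDG q0
    rwa [eDa, eG, eX, eG', eX'] at this
  refine ⟨hcnd, ?_⟩
  have r1 := RG_rel hE q0.h1
  have r2 := RG_rel hE q0.h2
  have hG0 : 0 < G := by rw [← eG]; exact r1.G0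
  have hX0 : 0 < X := by rw [← eX]; exact r1.X0
  have hG0' : 0 < G' := by rw [← eG']; exact r2.G0
  have hX0' : 0 < X' := by rw [← eX']; exact r2.X0
  have hpts := (pair_pts0 hE q0.h1 q0.h2 q0.M q0.P q0.D).1
  rw [eG, eX, eG', eX', eD] at hpts
  set Dz : ℤ := if s then (D : ℤ) else -(D : ℤ) with hDz
  -- the image
  set S : Finset (ℕ × ℕ) := T.image (fun t => (rM t.1, rP t.1)) with hS
  have hinj : Set.InjOn (fun t : Rl × Rl => (rM t.1, rP t.1)) (T : Set (Rl × Rl)) := by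
    intro t ht u hu htu
    obtain ⟨qt, -, dt, -, g1, x1, g1', x1'⟩ := comp t ht
    obtain ⟨qu, -, du, -, g2, x2, g2', x2'⟩ := comp u hu
    simp only [Prod.mk.injEq] at htu
    obtain ⟨hM, hP⟩ := htu
    have key : ∀ a b : Rl, a ∈ RG p N → b ∈ RG p N → rM a = rM b → rG a = rG b → rP a = rP b →
        rD a = rD b → rX a = rX b → a = b := by
      intro a b ha hb h1 h2 h3 h4 h5
      have ra := RG_rel hE ha
      have rb := RG_rel hE hb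
      have hQ : rQ a = rQ b := by
        have h6 : rG a * rP a * rQ a = rG a * rP a * rQ b := by
          rw [ra.mul, h2, h3, rb.mul, h1]
        exact Nat.eq_of_mul_eq_mul_left (Nat.mul_pos ra.G0 ra.P0) h6
      exact Prod.ext h1 (Prod.ext h2 (Prod.ext h3 (Prod.ext hQ (Prod.ext h4 h5))))
    refine Prod.ext ?_ ?_
    · exact key _ _ qt.h1 qu.h1 hM (g1.trans g2.symm) hP (dt.trans du.symm) (x1.trans x2.symm)
    · refine key _ _ qt.h2 qu.h2 ?_ (g1'.trans g2'.symm) ?_ ?_ (x1'.trans x2'.symm)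
      · rw [← qt.M, ← qu.M, hM]
      · rw [← qt.P, ← qu.P, hP]
      · rw [← qt.D, ← qu.D, dt, du]
  have hcard : S.card = T.card := Finset.card_image_of_injOn hinj
  -- the dyadic piece
  have hNR : (1 : ℝ) ≤ N := by exact_mod_cast hN
  have hN0 : (0 : ℝ) < N := by linarith
  have hD0 : (0 : ℝ) < D := by exact_mod_cast hx1
  have hU0 : (0 : ℝ) < U := by exact_mod_cast hU
  have hDU : (D : ℝ) ≤ U := by exact_mod_cast hx1U
  set Y : ℝ := 2 ^ j * N / (6 * D) with hY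
  have hYT : ∀ t ∈ T, Y ≤ rP t.1 ∧ (rP t.1 : ℝ) ≤ 2 * Y := by
    intro t ht
    obtain ⟨qt, hj, -, dt, -⟩ := comp t ht
    have ft := RG_facts qt.h1
    rw [dt] at hj
    set q := 6 * (rP t.1 * D) / N with hq
    have hq1 : 1 ≤ q := by
      rw [hq, Nat.le_div_iff_mul_le (by omega)]
      have h1 := ft.M1
      have h2 := ft.P1
      rw [dt] at h2
      nlinarith
    have h1 : 2 ^ j ≤ q := by rw [← hj]; exact Nat.pow_log_le_self 2 (by omega)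
    have h2 : q < 2 ^ (j + 1) := by rw [← hj]; exact Nat.lt_pow_succ_log_self (by norm_num) q
    have h3 : q * N ≤ 6 * (rP t.1 * D) := Nat.div_mul_le_self _ _
    have h4 : 6 * (rP t.1 * D) < (q + 1) * N := by
      have := Nat.lt_div_mul_add (a := 6 * (rP t.1 * D)) (b := N) (by omega)
      rw [← hq] at this
      linarith
    have h1R : (2 : ℝ) ^ j ≤ q := by exact_mod_cast h1
    have h2R : (q : ℝ) + 1 ≤ 2 ^ (j + 1) := by exact_mod_cast h2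
    have h3R : (q : ℝ) * N ≤ 6 * (rP t.1 * D) := by exact_mod_cast h3
    have h4R : 6 * ((rP t.1 : ℝ) * D) ≤ (q + 1) * N := by exact_mod_cast h4.le
    constructor
    · rw [hY, div_le_iff₀ (by positivity)]
      calc (2 : ℝ) ^ j * N ≤ q * N := by gcongr
        _ ≤ 6 * (rP t.1 * D) := h3R
        _ = rP t.1 * (6 * D) := by ring
    · rw [hY, ← mul_div_assoc, le_div_iff₀ (by positivity)]
      calc (rP t.1 : ℝ) * (6 * D) = 6 * ((rP t.1 : ℝ) * D) := by ring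
        _ ≤ (q + 1) * N := h4R
        _ ≤ 2 ^ (j + 1) * N := by gcongr
        _ = 2 * (2 ^ j * N) := by rw [pow_succ]; ring
  have hYlow : (N : ℝ) / (6 * U) ≤ Y := by
    rw [hY]
    have h1 : (1 : ℝ) ≤ 2 ^ j := one_le_pow₀ (by norm_num)
    calc (N : ℝ) / (6 * U) ≤ N / (6 * D) := by gcongr
      _ = 1 * N / (6 * D) := by rw [one_mul]
      _ ≤ 2 ^ j * N / (6 * D) := by gcongr
  have hNU' : (1 : ℝ) ≤ (N : ℝ) / (6 * U) := by
    rw [le_div_iff₀ (by positivity), one_mul]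
    exact_mod_cast hNU
  have hY1 : 1 ≤ Y := hNU'.trans hYlow
  have hY80 : Y ≤ 80 * N := by
    have f0 := RG_facts q0.h1
    have h1 := (hYT t0 ht0).1
    have h2 : (rD t0.1).natAbs * rP t0.1 ≤ 80 * N := by
      have := f0.P2
      have := f0.M2
      omega
    rw [eDa] at h2
    have h3 : rP t0.1 ≤ 80 * N := by
      calc rP t0.1 = 1 * rP t0.1 := by rw [one_mul]
        _ ≤ D * rP t0.1 := Nat.mul_le_mul_right _ hx1
        _ ≤ 80 * N := h2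
    have h4 : (rP t0.1 : ℝ) ≤ 80 * N := by exact_mod_cast h3
    linarith
  -- the count
  have hmain := hK N Y hNR hY1 hY80 _ _ _ 1 hpts one_pos S (by
    intro y hy
    rw [hS, mem_image] at hy
    obtain ⟨t, ht, rfl⟩ := hy
    obtain ⟨qt, -, dt, -, g1, x1, g1', x1'⟩ := comp t ht
    have ft := RG_facts qt.h1
    have rt := RG_rel hE qt.h1
    have hp := (pair_pts0 hE qt.h1 qt.h2 qt.M qt.P qt.D).2
    rw [g1, x1, g1', x1', dt] at hp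
    refine ⟨?_, ?_, (hYT t ht).1, (hYT t ht).2, rt.sz, ?_, hp⟩
    · have h1 : (N : ℝ) ≤ 2 * rM t.1 := by exact_mod_cast ft.M1
      show 1 / 4 * (N : ℝ) < rM t.1
      linarith
    · have h1 : (rM t.1 : ℝ) ≤ 8 * N := by exact_mod_cast ft.M2
      show (rM t.1 : ℝ) ≤ 80 * N
      linarith
    · show rP t.1 ∣ vl (rM t.1)
      rw [← rt.mul]
      exact dvd_mul_of_dvd_left (dvd_mul_left _ _) _)
  rw [hcard] at hmain
  -- simplify
  set n : ℕ := Nat.lcm G G' * Nat.lcm X X' * 1 with hn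
  have hlG : 0 < Nat.lcm G G' := Nat.lcm_pos hG0 hG0'
  have hlX : 0 < Nat.lcm X X' := Nat.lcm_pos hX0 hX0'
  have hn0 : 0 < n := by positivity
  have hnU : n ≤ U ^ 4 := by
    have h1 : Nat.lcm G G' ≤ G * G' := Nat.le_of_dvd (by positivity) (Nat.lcm_dvd_mul G G')
    have h2 : Nat.lcm X X' ≤ X * X' := Nat.le_of_dvd (by positivity) (Nat.lcm_dvd_mul X X')
    calc n = Nat.lcm G G' * Nat.lcm X X' := by rw [hn, mul_one]
      _ ≤ (G * G') * (X * X') := Nat.mul_le_mul h1 h2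
      _ ≤ (U * U) * (U * U) := Nat.mul_le_mul (Nat.mul_le_mul hx2 hx4) (Nat.mul_le_mul hx3 hx5)
      _ = U ^ 4 := by ring
  have hPS : PS ![Nat.lcm G G', Nat.lcm X X', 1] = n.primeFactors := rfl
  have hwt : (1 : ℝ) / ((Nat.lcm G G' : ℝ) * (Nat.lcm X X' : ℝ) * ((1 : ℕ) : ℝ)) =
      wt (D, G, X, G', X') := by
    unfold wt
    simp only
    have h1 : (Nat.gcd G G' : ℝ) * (Nat.lcm G G' : ℝ) = G * G' := by
      exact_mod_cast Nat.gcd_mul_lcm G G'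
    have h2 : (Nat.gcd X X' : ℝ) * (Nat.lcm X X' : ℝ) = X * X' := by
      exact_mod_cast Nat.gcd_mul_lcm X X'
    have h3 : (0 : ℝ) < G := by exact_mod_cast hG0
    have h4 : (0 : ℝ) < G' := by exact_mod_cast hG0'
    have h5 : (0 : ℝ) < X := by exact_mod_cast hX0
    have h6 : (0 : ℝ) < X' := by exact_mod_cast hX0'
    have h7 : (0 : ℝ) < (Nat.lcm G G' : ℝ) := by exact_mod_cast hlG
    have h8 : (0 : ℝ) < (Nat.lcm X X' : ℝ) := by exact_mod_cast hlX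
    rw [div_eq_div_iff (by positivity) (by positivity)]
    push_cast
    calc 1 * ((G : ℝ) * G' * X * X') = (G * G') * (X * X') := by ring
      _ = (Nat.gcd G G' * Nat.lcm G G') * (Nat.gcd X X' * Nat.lcm X X') := by rw [h1, h2]
      _ = _ := by ring
  have hwt0 : 0 ≤ wt (D, G, X, G', X') := by unfold wt; positivity
  refine hmain.trans (add_le_add ?_ ?_)
  · have e1 : (4 : ℝ) ^ (PS ![Nat.lcm G G', Nat.lcm X X', 1]).card * ((1 : ℕ) : ℝ) /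
        (((![Nat.lcm G G', Nat.lcm X X', 1] : Fin 3 → ℕ) 0 : ℝ) *
          ((![Nat.lcm G G', Nat.lcm X X', 1] : Fin 3 → ℕ) 1 : ℝ) *
          ((![Nat.lcm G G', Nat.lcm X X', 1] : Fin 3 → ℕ) 2 : ℝ)) =
        (4 : ℝ) ^ n.primeFactors.card * wt (D, G, X, G', X') := by
      rw [← hwt, hPS]
      show (4 : ℝ) ^ n.primeFactors.card * ((1 : ℕ) : ℝ) /
        ((Nat.lcm G G' : ℝ) * (Nat.lcm X X' : ℝ) * ((1 : ℕ) : ℝ)) = _
      push_cast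
      ring
    rw [e1]
    calc K * (N : ℝ) * ((4 : ℝ) ^ n.primeFactors.card * wt (D, G, X, G', X'))
        ≤ K * N * (A4 * wt (D, G, X, G', X')) := by
          have := hA4 n hn0 hnU
          gcongr
      _ = K * N * A4 * wt (D, G, X, G', X') := by ring
  · rw [hPS]
    have h1 : (md n.primeFactors : ℝ) ≤ (U : ℝ) ^ 4 := by
      have : md n.primeFactors ≤ U ^ 4 := (md_le hn0).trans hnU
      exact_mod_cast this
    have h2 : (md n.primeFactors : ℝ) ^ 12 ≤ (U : ℝ) ^ 48 := by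
      calc (md n.primeFactors : ℝ) ^ 12 ≤ ((U : ℝ) ^ 4) ^ 12 := by gcongr
        _ = (U : ℝ) ^ 48 := by rw [← pow_mul]
    have h3 : Y ^ (-(1 / 20) : ℝ) ≤ ((N : ℝ) / (6 * U)) ^ (-(1 / 20) : ℝ) :=
      Real.rpow_le_rpow_of_nonpos (by positivity) hYlow (by norm_num)
    have h4 : 0 ≤ Y ^ (-(1 / 20) : ℝ) := Real.rpow_nonneg (by linarith) _
    gcongr

open scoped Classical in
/-- the number of pairs -/
lemma card_F {p : Prm} {N U Dm : ℕ} {K A4 B : ℝ} (hE : 2 * aa ≤ p.E) (hN : 1 ≤ N) (hNU : 6 * U ≤ N)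
    (hU : 1 ≤ U) (hDm : 1 ≤ Dm) (hK0 : 0 < K) (hA0 : 0 ≤ A4)
    (hK : ∀ N Y : ℝ, 1 ≤ N → 1 ≤ Y → Y ≤ 80 * N →
      ∀ (m : Fin 3 → ℕ) (s t : Fin 3 → ℤ) (g : ℕ), Pts az m s t g → 0 < g →
      ∀ S : Finset (ℕ × ℕ), (∀ x ∈ S, 1 / 4 * N < x.1 ∧ (x.1 : ℝ) ≤ 80 * N ∧ Y ≤ x.2 ∧
        (x.2 : ℝ) ≤ 2 * Y ∧ aa < x.1 ^ 2 ∧ x.2 ∣ vl x.1 ∧
        ∀ i, (m i : ℤ) ∣ qf x.1 x.2 (vl x.1 / x.2 : ℕ) (s i) (t i)) →
      (S.card : ℝ) ≤ K * N * (4 ^ (PS m).card * g / (m 0 * m 1 * m 2)) +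
        K * (md (PS m) : ℝ) ^ 12 * (N * Y ^ (-(1 / 20) : ℝ)))
    (hA4 : ∀ n : ℕ, 0 < n → n ≤ U ^ 4 → (4 : ℝ) ^ n.primeFactors.card ≤ A4)
    (hD : ∀ r ∈ RG p N, Dm ≤ (rD r).natAbs ∧ (rD r).natAbs ≤ U ∧ (rD r).natAbs ≤ rG r ∧
      rG r ≤ U ∧ rX r ≤ U)
    (hB : ∑ D ∈ Icc Dm U, ∑ G ∈ Icc 1 U, ∑ X ∈ Icc 1 U, ∑ G' ∈ Icc 1 U, ∑ X' ∈ Icc 1 U,
      (if cnd (D, G, X, G', X') then wt (D, G, X, G', X') else 0) ≤ B) :
    ((F p N).card : ℝ) ≤ 18 * (K * N * A4 * B +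
      (U : ℝ) ^ 5 * (K * (U : ℝ) ^ 48 * (N * ((N : ℝ) / (6 * U)) ^ (-(1 / 20) : ℝ)))) := by
  set e : ℝ := K * (U : ℝ) ^ 48 * (N * ((N : ℝ) / (6 * U)) ^ (-(1 / 20) : ℝ)) with he
  have hNR : (1 : ℝ) ≤ N := by exact_mod_cast hN
  have hN0 : (0 : ℝ) < N := by linarith
  have hU0 : (0 : ℝ) < U := by exact_mod_cast hU
  have he0 : 0 ≤ e := by
    rw [he]
    have : 0 ≤ ((N : ℝ) / (6 * U)) ^ (-(1 / 20) : ℝ) := Real.rpow_nonneg (by positivity) _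
    positivity
  set R : Finset (ℕ × ℕ × ℕ × ℕ × ℕ) := Icc Dm U ×ˢ Icc 1 U ×ˢ Icc 1 U ×ˢ Icc 1 U ×ˢ Icc 1 U with hR
  set I : Finset (ℕ × Bool × ℕ × ℕ × ℕ × ℕ × ℕ) := range 9 ×ˢ (univ : Finset Bool) ×ˢ R with hI
  have hmaps : Set.MapsTo (dat N) (F p N : Set (Rl × Rl)) (I : Set _) := by
    intro t ht
    have q := F_facts ht
    have r1 := RG_rel hE q.h1
    have r2 := RG_rel hE q.h2
    obtain ⟨a1, a2, a3, a4, a5⟩ := hD t.1 q.h1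
    obtain ⟨-, -, -, b4, b5⟩ := hD t.2 q.h2
    have f := RG_facts q.h1
    rw [mem_coe, hI, mem_product, mem_product, hR, mem_product, mem_product, mem_product,
      mem_product]
    refine ⟨?_, mem_univ _, mem_Icc.2 ⟨a1, a2⟩, mem_Icc.2 ⟨r1.G0, a4⟩, mem_Icc.2 ⟨r1.X0, a5⟩,
      mem_Icc.2 ⟨r2.G0, b4⟩, mem_Icc.2 ⟨r2.X0, b5⟩⟩
    rw [mem_range]
    show Nat.log 2 (6 * (rP t.1 * (rD t.1).natAbs) / N) < 9
    refine Nat.log_lt_of_lt_pow' (by norm_num) ?_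
    rw [Nat.div_lt_iff_lt_mul (by omega)]
    have h1 := f.P2
    have h2 := f.M2
    have h3 : rP t.1 * (rD t.1).natAbs ≤ 80 * N := by
      rw [mul_comm]
      omega
    omega
  have hfib : (F p N).card = ∑ d ∈ I, ((F p N).filter (fun t => dat N t = d)).card :=
    Finset.card_eq_sum_card_fiberwise hmaps
  rw [hfib]
  push_cast
  have hb : ∀ d ∈ I, (((F p N).filter (fun t => dat N t = d)).card : ℝ) ≤
      K * N * A4 * (if cnd d.2.2 then wt d.2.2 else 0) + e := by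
    rintro ⟨j, s, x⟩ hd
    rw [hI, mem_product, mem_product, hR, mem_product, mem_product, mem_product,
      mem_product] at hd
    obtain ⟨-, -, h1, h2, h3, h4, h5⟩ := hd
    simp only at h1 h2 h3 h4 h5
    rw [mem_Icc] at h1 h2 h3 h4 h5
    show _ ≤ K * N * A4 * (if cnd x then wt x else 0) + e
    by_cases hne : ((F p N).filter (fun t => dat N t = (j, s, x))).Nonempty
    · obtain ⟨hc, hle⟩ := fibre hE hN hNU hU hK0 hK hA4 (fun r hr => (hD r hr).2.2.1) j s x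
        (hDm.trans h1.1) h1.2 h2.2 h3.2 h4.2 h5.2 _
        (fun t ht => ⟨F_facts (mem_filter.1 ht).1, (mem_filter.1 ht).2⟩) hne
      rw [if_pos hc]
      exact hle
    · rw [Finset.not_nonempty_iff_eq_empty] at hne
      rw [hne]
      simp only [card_empty, Nat.cast_zero]
      have hw : 0 ≤ (if cnd x then wt x else 0) := by
        split_ifs
        · unfold wt; positivity
        · exact le_rfl
      positivity
  refine (Finset.sum_le_sum hb).trans ?_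
  have hsum : ∑ d ∈ I, (K * N * A4 * (if cnd d.2.2 then wt d.2.2 else 0) + e) =
      9 * (2 * ∑ x ∈ R, (K * N * A4 * (if cnd x then wt x else 0) + e)) := by
    rw [hI, Finset.sum_product]
    have h1 : ∀ j ∈ range 9, ∑ y ∈ (univ : Finset Bool) ×ˢ R,
        (K * N * A4 * (if cnd y.2 then wt y.2 else 0) + e) =
        2 * ∑ x ∈ R, (K * N * A4 * (if cnd x then wt x else 0) + e) := by
      intro j _
      rw [Finset.sum_product, Fintype.sum_bool, two_mul]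
    rw [Finset.sum_congr rfl h1, Finset.sum_const, card_range, nsmul_eq_mul]
    norm_num
  rw [hsum]
  have hR1 : ∑ x ∈ R, (if cnd x then wt x else 0) ≤ B := by
    rw [hR, Finset.sum_product]
    refine le_trans (le_of_eq ?_) hB
    refine Finset.sum_congr rfl fun D _ => ?_
    rw [Finset.sum_product]
    refine Finset.sum_congr rfl fun G _ => ?_
    rw [Finset.sum_product]
    refine Finset.sum_congr rfl fun X _ => ?_
    rw [Finset.sum_product]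
  have hR2 : (R.card : ℝ) ≤ (U : ℝ) ^ 5 := by
    have h1 : R.card ≤ U ^ 5 := by
      rw [hR, card_product, card_product, card_product, card_product]
      simp only [Nat.card_Icc, Nat.add_sub_cancel]
      have h2 : U + 1 - Dm ≤ U := by omega
      calc (U + 1 - Dm) * (U * (U * (U * U))) ≤ U * (U * (U * (U * U))) :=
            Nat.mul_le_mul_right _ h2
        _ = U ^ 5 := by ring
    exact_mod_cast h1
  rw [Finset.sum_add_distrib, ← Finset.mul_sum, Finset.sum_const, nsmul_eq_mul]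
  have h3 : K * N * A4 * ∑ x ∈ R, (if cnd x then wt x else 0) ≤ K * N * A4 * B :=
    mul_le_mul_of_nonneg_left hR1 (by positivity)
  have h4 : (R.card : ℝ) * e ≤ (U : ℝ) ^ 5 * e := mul_le_mul_of_nonneg_right hR2 he0
  linarith

/-- sizes of all data for `k ≥ 4 K + 10` and `z ≥ 2` -/
lemma sizes {p : Prm} {N U : ℕ} (hk : 4 * p.K + 10 ≤ p.k) (hz : 2 ≤ zz p N)
    (hU : zz p N ^ (p.r * p.k + 10 * p.r ^ 2 * p.k + 4 * p.K + 10) ≤ U) :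
    ∀ r ∈ RG p N, ⌈zz p N ^ 10⌉₊ ≤ (rD r).natAbs ∧ (rD r).natAbs ≤ U ∧
      (rD r).natAbs ≤ rG r ∧ rG r ≤ U ∧ rX r ≤ U := by
  intro r hr
  have f := RG_facts hr
  set z := zz p N with hzdef
  have hz0 : 0 < z := by linarith
  have hz1 : 1 ≤ z := by linarith
  have hY1 : Y1 p N = z ^ p.k := rfl
  have hY2 : Y2 p N = z ^ (p.r * p.k) := rfl
  have hY3 : Y3 p N = z ^ (10 * p.r * p.k) := rfl
  have hY4 : Y4 p N = z ^ (10 * p.r ^ 2 * p.k) := rfl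
  have hD1 := f.D1
  have hD2 := f.D2
  have hG1 := f.G1
  have hG2 := f.G2
  rw [hY1] at hD1 hG1
  rw [hY2] at hD2 hG2
  rw [hY3] at hG1
  rw [hY4] at hG2
  have h10 : (1000 : ℝ) ≤ z ^ 10 := by
    calc (1000 : ℝ) ≤ 2 ^ 10 := by norm_num
      _ ≤ z ^ 10 := by gcongr
  -- G
  have hG : (rG r : ℝ) ≤ z ^ (p.r * p.k + 10 * p.r ^ 2 * p.k + 4 * p.K + 10) := by
    calc (rG r : ℝ) ≤ 10 * (z ^ (p.r * p.k) * z ^ (10 * p.r ^ 2 * p.k) * z ^ (4 * p.K)) := hG2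
      _ ≤ z ^ 10 * (z ^ (p.r * p.k) * z ^ (10 * p.r ^ 2 * p.k) * z ^ (4 * p.K)) := by
          have : (10 : ℝ) ≤ z ^ 10 := by linarith
          gcongr
      _ = _ := by rw [pow_add, pow_add, pow_add]; ring
  have hX : (rX r : ℝ) ≤ z ^ (p.r * p.k + 10 * p.r ^ 2 * p.k + 4 * p.K + 10) := by
    have h1 : (rX r : ℝ) ≤ 100 * rG r := by exact_mod_cast f.X1
    calc (rX r : ℝ) ≤ 100 * rG r := h1
      _ ≤ 100 * (10 * (z ^ (p.r * p.k) * z ^ (10 * p.r ^ 2 * p.k) * z ^ (4 * p.K))) := by gcongr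
      _ = 1000 * (z ^ (p.r * p.k) * z ^ (10 * p.r ^ 2 * p.k) * z ^ (4 * p.K)) := by ring
      _ ≤ z ^ 10 * (z ^ (p.r * p.k) * z ^ (10 * p.r ^ 2 * p.k) * z ^ (4 * p.K)) := by gcongr
      _ = _ := by rw [pow_add, pow_add, pow_add]; ring
  have hDU : ((rD r).natAbs : ℝ) ≤ z ^ (p.r * p.k + 10 * p.r ^ 2 * p.k + 4 * p.K + 10) := by
    refine hD2.trans ?_
    rw [← pow_add]
    refine pow_le_pow_right₀ hz1 ?_
    have := Nat.zero_le (10 * p.r ^ 2 * p.k)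
    omega
  refine ⟨?_, ?_, ?_, ?_, ?_⟩
  · refine Nat.ceil_le.2 (le_trans ?_ hD1)
    rw [le_div_iff₀ (by positivity), ← pow_add]
    exact pow_le_pow_right₀ hz1 (by omega)
  · exact_mod_cast hDU.trans hU
  · have h1 : ((rD r).natAbs : ℝ) ≤ rG r := by
      have h2 : 10 * (z ^ (p.r * p.k) * z ^ (4 * p.K)) ≤ z ^ p.k * z ^ (10 * p.r * p.k) := by
        calc 10 * (z ^ (p.r * p.k) * z ^ (4 * p.K))
            ≤ z ^ 10 * (z ^ (p.r * p.k) * z ^ (4 * p.K)) := by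
              have : (10 : ℝ) ≤ z ^ 10 := by linarith
              gcongr
          _ = z ^ (10 + (p.r * p.k + 4 * p.K)) := by rw [pow_add, pow_add]
          _ ≤ z ^ (p.k + 10 * p.r * p.k) := by
              refine pow_le_pow_right₀ hz1 ?_
              have h3 : p.r * p.k ≤ 10 * p.r * p.k :=
                Nat.mul_le_mul_right _ (by omega)
              omega
          _ = _ := by rw [pow_add]
      linarith
    exact_mod_cast h1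
  · exact_mod_cast hG.trans hU
  · exact_mod_cast hX.trans hU

end F0

/-- **NG, part 0** -/
theorem part0 (hcnt : ∀ c₁ C₁ : ℝ, 0 < c₁ → c₁ < C₁ → ∃ K : ℝ, 0 < K ∧ ∀ N Y : ℝ, 1 ≤ N →
      1 ≤ Y → Y ≤ C₁ * N →
      ∀ (m : Fin 3 → ℕ) (s t : Fin 3 → ℤ) (g : ℕ), Pts az m s t g → 0 < g →
      ∀ S : Finset (ℕ × ℕ), (∀ x ∈ S, c₁ * N < x.1 ∧ (x.1 : ℝ) ≤ C₁ * N ∧ Y ≤ x.2 ∧
        (x.2 : ℝ) ≤ 2 * Y ∧ aa < x.1 ^ 2 ∧ x.2 ∣ vl x.1 ∧
        ∀ i, (m i : ℤ) ∣ qf x.1 x.2 (vl x.1 / x.2 : ℕ) (s i) (t i)) →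
      (S.card : ℝ) ≤ K * N * (4 ^ (PS m).card * g / (m 0 * m 1 * m 2)) +
        K * (md (PS m) : ℝ) ^ 12 * (N * Y ^ (-(1 / 20) : ℝ))) : Good (fun p => ∀ᶠ N : ℕ in atTop,
    (((NGp p N).filter (fun t => ((rP t.1 / Nat.gcd (rP t.1) (rP t.2) : ℕ) : ℤ) * rD t.1 =
      ((rP t.2 / Nat.gcd (rP t.1) (rP t.2) : ℕ) : ℤ) * rD t.2)).card : ℝ) ≤
      N * zz p N ^ (-(1 / 2) : ℝ) / 3) := by
  refine ⟨2 * aa, fun E hE2 => ⟨0, fun K _ => ⟨0, fun r _ => ⟨4 * K + 10, fun k hk => ?_⟩⟩⟩⟩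
  set c0 : ℕ := r * k + 10 * r ^ 2 * k + 4 * K + 10 with hc0
  refine ⟨1 / (10000 * (c0 + 1)), by positivity, fun ζ hζ hζ0 => ?_⟩
  set p : Prm := ⟨E, K, r, k, ζ⟩ with hp
  obtain ⟨Kc, hKc0, hKc⟩ := hcnt (1 / 4) 80 (by norm_num) (by norm_num)
  set η : ℝ := 1 / (2 * (c0 + 1)) with hη
  have hη0 : 0 < η := by positivity
  set η' : ℝ := 1 / (16 * (c0 + 1)) with hη'
  have hη0' : 0 < η' := by positivity
  obtain ⟨C, hC0, hC⟩ := sum2 η hη0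
  obtain ⟨T₀, hT₀, hT⟩ := Pool.Agent.Lib.MP_391708_nt.Div.card_divisors_le_rpow η' hη0'
  -- the limit
  have hlim : Tendsto (fun N : ℕ => (N : ℝ) ^ ζ) atTop atTop :=
    (tendsto_rpow_atTop hζ).comp tendsto_natCast_atTop_atTop
  have hlim2 : Tendsto (fun N : ℕ => (N : ℝ) ^ ((1 : ℝ) / 80)) atTop atTop :=
    (tendsto_rpow_atTop (by norm_num)).comp tendsto_natCast_atTop_atTop
  set C1 : ℝ := 18 * (Kc * T₀ ^ 2 * C) with hC1
  have hC10 : 0 < C1 := by positivity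
  filter_upwards [hlim.eventually_ge_atTop 2, hlim.eventually_ge_atTop (6 * C1),
    hlim2.eventually_ge_atTop (648 * Kc), eventually_ge_atTop 36] with N hz hz2 hN2 hN36
  have hzz : zz p N = (N : ℝ) ^ ζ := rfl
  rw [← hzz] at hz hz2
  set z := zz p N with hzdef
  have hz0 : 0 < z := by linarith
  have hz1 : 1 ≤ z := by linarith
  have hN1 : 1 ≤ N := by omega
  have hNR : (1 : ℝ) ≤ N := by exact_mod_cast hN1
  have hN0 : (0 : ℝ) < N := by linarith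
  -- U
  set U : ℕ := ⌈z ^ c0⌉₊ with hU
  have hUz : z ^ c0 ≤ U := Nat.le_ceil _
  have hU0 : (0 : ℝ) < U := lt_of_lt_of_le (by positivity) hUz
  have hU1 : 1 ≤ U := by exact_mod_cast hU0
  have hU1R : (1 : ℝ) ≤ U := by exact_mod_cast hU1
  have hUz1 : (U : ℝ) ≤ z ^ (c0 + 1) := by
    have h1 : (U : ℝ) < z ^ c0 + 1 := Nat.ceil_lt_add_one (by positivity)
    have h2 : (1 : ℝ) ≤ z ^ c0 := one_le_pow₀ hz1
    calc (U : ℝ) ≤ z ^ c0 + 1 := h1.le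
      _ ≤ z ^ c0 * 2 := by linarith
      _ ≤ z ^ c0 * z := by gcongr
      _ = z ^ (c0 + 1) := (pow_succ z c0).symm
  have hUN : ∀ a : ℕ, (U : ℝ) ^ a ≤ (N : ℝ) ^ (((a : ℝ) / 10000)) := by
    intro a
    calc (U : ℝ) ^ a ≤ (z ^ (c0 + 1)) ^ a := by gcongr
      _ = (N : ℝ) ^ (ζ * (((c0 + 1) * a : ℕ) : ℝ)) := by
          rw [← pow_mul, hzz, Real.rpow_mul_natCast hN0.le]
      _ ≤ (N : ℝ) ^ (((a : ℝ) / 10000)) := by
          refine Real.rpow_le_rpow_of_exponent_le hNR ?_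
          push_cast
          calc ζ * (((c0 : ℝ) + 1) * a) ≤ 1 / (10000 * (c0 + 1)) * (((c0 : ℝ) + 1) * a) := by
                gcongr
            _ = (a : ℝ) / 10000 := by field_simp
  have hNU : 6 * U ≤ N := by
    have h1 : (U : ℝ) ≤ (N : ℝ) ^ ((1 : ℝ) / 2) := by
      have h2 := hUN 1
      rw [pow_one] at h2
      refine h2.trans (Real.rpow_le_rpow_of_exponent_le hNR (by norm_num))
    have h2 : (6 : ℝ) ≤ (N : ℝ) ^ ((1 : ℝ) / 2) := by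
      have h3 : (36 : ℝ) ≤ N := by exact_mod_cast hN36
      calc (6 : ℝ) = (36 : ℝ) ^ ((1 : ℝ) / 2) := by
            rw [← Real.sqrt_eq_rpow]
            have : (36 : ℝ) = 6 ^ 2 := by norm_num
            rw [this, Real.sqrt_sq (by norm_num)]
        _ ≤ (N : ℝ) ^ ((1 : ℝ) / 2) := Real.rpow_le_rpow (by norm_num) h3 (by norm_num)
    have h3 : (6 * U : ℝ) ≤ N := by
      calc (6 * U : ℝ) ≤ (N : ℝ) ^ ((1 : ℝ) / 2) * (N : ℝ) ^ ((1 : ℝ) / 2) := by gcongr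
        _ = N := by rw [← Real.rpow_add hN0]; norm_num
    exact_mod_cast h3
  -- Dm
  set Dm : ℕ := ⌈z ^ 10⌉₊ with hDm
  have hDmz : z ^ 10 ≤ Dm := Nat.le_ceil _
  have hDm0 : (0 : ℝ) < Dm := lt_of_lt_of_le (by positivity) hDmz
  have hDm1 : 1 ≤ Dm := by exact_mod_cast hDm0
  have hsq : z ^ 5 ≤ √(Dm : ℝ) := by
    refine Real.le_sqrt_of_sq_le ?_
    rw [← pow_mul]
    exact hDmz
  have hsq0 : 0 < √(Dm : ℝ) := Real.sqrt_pos.2 hDm0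
  -- 4 ^ ω
  have hA4 : ∀ n : ℕ, 0 < n → n ≤ U ^ 4 →
      (4 : ℝ) ^ n.primeFactors.card ≤ T₀ ^ 2 * (U : ℝ) ^ (8 * η') := by
    intro n hn hnU
    have h1 : (2 : ℝ) ^ n.primeFactors.card ≤ n.divisors.card := by
      exact_mod_cast F0.two_pow_card n hn.ne'
    have h2 : (n.divisors.card : ℝ) ≤ T₀ * (U : ℝ) ^ (4 * η') := by
      refine (hT n hn).trans ?_
      refine mul_le_mul_of_nonneg_left ?_ hT₀.le
      have h3 : (n : ℝ) ≤ (U : ℝ) ^ (4 : ℝ) := by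
        have : (n : ℝ) ≤ (U : ℝ) ^ 4 := by exact_mod_cast hnU
        rw [show (4 : ℝ) = ((4 : ℕ) : ℝ) by norm_num, Real.rpow_natCast]
        exact this
      calc (n : ℝ) ^ η' ≤ ((U : ℝ) ^ (4 : ℝ)) ^ η' :=
            Real.rpow_le_rpow (by positivity) h3 hη0'.le
        _ = (U : ℝ) ^ (4 * η') := by rw [← Real.rpow_mul hU0.le]
    have h4 : (4 : ℝ) ^ n.primeFactors.card = ((2 : ℝ) ^ n.primeFactors.card) ^ 2 := by
      rw [← pow_mul, mul_comm, pow_mul]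
      norm_num
    rw [h4]
    calc ((2 : ℝ) ^ n.primeFactors.card) ^ 2 ≤ (T₀ * (U : ℝ) ^ (4 * η')) ^ 2 := by
          have := h1.trans h2
          gcongr
      _ = T₀ ^ 2 * (U : ℝ) ^ (8 * η') := by
          rw [mul_pow, ← Real.rpow_natCast ((U : ℝ) ^ (4 * η')) 2, ← Real.rpow_mul hU0.le]
          congr 2
          push_cast
          ring
  have hsz := F0.sizes (p := p) (N := N) (U := U) hk hz hUz
  have hB := hC U Dm hDm1 hU1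
  have hmain := F0.card_F (p := p) (N := N) (U := U) (Dm := Dm) (K := Kc)
    (A4 := T₀ ^ 2 * (U : ℝ) ^ (8 * η')) (B := C * (U : ℝ) ^ η / √(Dm : ℝ))
    hE2 hN1 hNU hU1 hDm1 hKc0 (by positivity) hKc hA4 hsz (by
      refine le_trans (le_of_eq ?_) hB
      refine Finset.sum_congr rfl fun D _ => Finset.sum_congr rfl fun G _ =>
        Finset.sum_congr rfl fun X _ => Finset.sum_congr rfl fun G' _ =>
        Finset.sum_congr rfl fun X' _ => ?_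
      classical
      exact if_congr Iff.rfl rfl rfl)
  have hFeq : ((NGp p N).filter (fun t => ((rP t.1 / Nat.gcd (rP t.1) (rP t.2) : ℕ) : ℤ) * rD t.1 =
      ((rP t.2 / Nat.gcd (rP t.1) (rP t.2) : ℕ) : ℤ) * rD t.2)) = F0.F p N := rfl
  rw [hFeq]
  refine hmain.trans ?_
  -- the main term
  have hUη : (U : ℝ) ^ (8 * η') * (U : ℝ) ^ η ≤ z := by
    rw [← Real.rpow_add hU0]
    have h1 : 8 * η' + η = 1 / ((c0 : ℝ) + 1) := by
      rw [hη, hη']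
      field_simp
      norm_num
    rw [h1]
    calc (U : ℝ) ^ (1 / ((c0 : ℝ) + 1)) ≤ (z ^ (c0 + 1)) ^ (1 / ((c0 : ℝ) + 1)) :=
          Real.rpow_le_rpow hU0.le hUz1 (by positivity)
      _ = z := by
          rw [← Real.rpow_natCast z (c0 + 1), ← Real.rpow_mul hz0.le]
          push_cast
          rw [mul_one_div_cancel (by positivity), Real.rpow_one]
  have hzh : z ^ (-(1 / 2) : ℝ) = (z ^ ((1 : ℝ) / 2))⁻¹ := by
    rw [Real.rpow_neg hz0.le]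
  have hzh0 : 0 < z ^ ((1 : ℝ) / 2) := Real.rpow_pos_of_pos hz0 _
  have hzh1 : z ^ ((1 : ℝ) / 2) ≤ z := by
    calc z ^ ((1 : ℝ) / 2) ≤ z ^ (1 : ℝ) :=
          Real.rpow_le_rpow_of_exponent_le hz1 (by norm_num)
      _ = z := Real.rpow_one z
  have hmt : 18 * (Kc * N * (T₀ ^ 2 * (U : ℝ) ^ (8 * η')) * (C * (U : ℝ) ^ η / √(Dm : ℝ))) ≤
      N * z ^ (-(1 / 2) : ℝ) / 6 := by
    have h1 : 18 * (Kc * N * (T₀ ^ 2 * (U : ℝ) ^ (8 * η')) * (C * (U : ℝ) ^ η / √(Dm : ℝ))) =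
        C1 * N * ((U : ℝ) ^ (8 * η') * (U : ℝ) ^ η) / √(Dm : ℝ) := by
      rw [hC1]; ring
    rw [h1, hzh]
    calc C1 * N * ((U : ℝ) ^ (8 * η') * (U : ℝ) ^ η) / √(Dm : ℝ) ≤ C1 * N * z / z ^ 5 := by
          gcongr
      _ = N * (C1 / z ^ 4) := by field_simp
      _ ≤ N * ((z ^ ((1 : ℝ) / 2))⁻¹ / 6) := by
          refine mul_le_mul_of_nonneg_left ?_ hN0.le
          rw [div_le_div_iff₀ (by positivity) (by norm_num)]
          have h2 : z * z ^ ((1 : ℝ) / 2) ≤ z ^ 4 := by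
            calc z * z ^ ((1 : ℝ) / 2) ≤ z * z := by gcongr
              _ = z ^ 2 := by ring
              _ ≤ z ^ 4 := pow_le_pow_right₀ hz1 (by norm_num)
          have h3 : C1 * 6 ≤ z := by linarith
          calc C1 * 6 ≤ z := h3
            _ = (z ^ ((1 : ℝ) / 2))⁻¹ * (z * z ^ ((1 : ℝ) / 2)) := by field_simp
            _ ≤ (z ^ ((1 : ℝ) / 2))⁻¹ * z ^ 4 := by gcongr
      _ = N * (z ^ ((1 : ℝ) / 2))⁻¹ / 6 := by ring
  -- the error term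
  have het : 18 * ((U : ℝ) ^ 5 * (Kc * (U : ℝ) ^ 48 * (N * ((N : ℝ) / (6 * U)) ^ (-(1 / 20) : ℝ)))) ≤
      N * z ^ (-(1 / 2) : ℝ) / 6 := by
    have h1 : ((N : ℝ) / (6 * U)) ^ (-(1 / 20) : ℝ) ≤ 6 * U * (N : ℝ) ^ (-(1 / 20) : ℝ) := by
      rw [Real.div_rpow hN0.le (by positivity), div_eq_mul_inv, mul_comm]
      refine mul_le_mul_of_nonneg_right ?_ (Real.rpow_nonneg hN0.le _)
      rw [← Real.rpow_neg (by positivity), neg_neg]
      calc (6 * (U : ℝ)) ^ ((1 : ℝ) / 20) ≤ (6 * (U : ℝ)) ^ (1 : ℝ) :=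
            Real.rpow_le_rpow_of_exponent_le (by linarith) (by norm_num)
        _ = 6 * U := Real.rpow_one _
    have h2 : (U : ℝ) ^ 54 ≤ (N : ℝ) ^ ((1 : ℝ) / 80) := by
      refine (hUN 54).trans (Real.rpow_le_rpow_of_exponent_le hNR (by norm_num))
    have h3 : z ^ ((1 : ℝ) / 2) ≤ (N : ℝ) ^ ((1 : ℝ) / 80) := by
      refine hzh1.trans ?_
      rw [hzz]
      refine Real.rpow_le_rpow_of_exponent_le hNR (hζ0.trans ?_)
      rw [div_le_div_iff₀ (by positivity) (by norm_num)]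
      have : (0 : ℝ) ≤ c0 := Nat.cast_nonneg _
      linarith
    have h4 : (N : ℝ) ^ (-(1 / 20) : ℝ) * ((N : ℝ) ^ ((1 : ℝ) / 80) * ((N : ℝ) ^ ((1 : ℝ) / 80) *
        (N : ℝ) ^ ((1 : ℝ) / 80))) ≤ 1 := by
      rw [← Real.rpow_add hN0, ← Real.rpow_add hN0, ← Real.rpow_add hN0]
      exact Real.rpow_le_one_of_one_le_of_nonpos hNR (by norm_num)
    have hn0 : 0 ≤ (N : ℝ) ^ (-(1 / 20) : ℝ) := Real.rpow_nonneg hN0.le _
    have hn8 : 0 ≤ (N : ℝ) ^ ((1 : ℝ) / 80) := Real.rpow_nonneg hN0.le _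
    rw [hzh]
    calc 18 * ((U : ℝ) ^ 5 * (Kc * (U : ℝ) ^ 48 * (N * ((N : ℝ) / (6 * U)) ^ (-(1 / 20) : ℝ))))
        ≤ 18 * ((U : ℝ) ^ 5 * (Kc * (U : ℝ) ^ 48 * (N * (6 * U * (N : ℝ) ^ (-(1 / 20) : ℝ))))) := by
          gcongr
      _ = (108 * Kc) * (U : ℝ) ^ 54 * (N * (N : ℝ) ^ (-(1 / 20) : ℝ)) := by ring
      _ ≤ ((N : ℝ) ^ ((1 : ℝ) / 80) / 6) * (N : ℝ) ^ ((1 : ℝ) / 80) *
            (N * (N : ℝ) ^ (-(1 / 20) : ℝ)) := by
          gcongr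
          linarith
      _ = N * ((N : ℝ) ^ (-(1 / 20) : ℝ) * ((N : ℝ) ^ ((1 : ℝ) / 80) *
            ((N : ℝ) ^ ((1 : ℝ) / 80) * 1))) / 6 := by ring
      _ ≤ N * ((N : ℝ) ^ (-(1 / 20) : ℝ) * ((N : ℝ) ^ ((1 : ℝ) / 80) *
            ((N : ℝ) ^ ((1 : ℝ) / 80) * ((N : ℝ) ^ ((1 : ℝ) / 80) * (z ^ ((1 : ℝ) / 2))⁻¹)))) / 6 := by
          have h5 : 1 ≤ (N : ℝ) ^ ((1 : ℝ) / 80) * (z ^ ((1 : ℝ) / 2))⁻¹ := by
            rw [← div_eq_mul_inv, one_le_div hzh0]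
            exact h3
          gcongr
      _ = N * ((N : ℝ) ^ (-(1 / 20) : ℝ) * ((N : ℝ) ^ ((1 : ℝ) / 80) *
            ((N : ℝ) ^ ((1 : ℝ) / 80) * (N : ℝ) ^ ((1 : ℝ) / 80)))) * (z ^ ((1 : ℝ) / 2))⁻¹ / 6 := by
          ring
      _ ≤ N * 1 * (z ^ ((1 : ℝ) / 2))⁻¹ / 6 := by gcongr
      _ = N * (z ^ ((1 : ℝ) / 2))⁻¹ / 6 := by ring
  linarith

end Pool.Agent.Lib.MP391708.TG1.NG
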