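import Pool.Agent.Lib.MP_391708_nt.Many.Mean
import Pool.Agent.Lib.MP_391708_nt.TG.Defs
import Pool.Agent.Lib.MP_391708_nt.TA.A3An

/-!
# Theorem T1a, group J, module NuSum (J4): sums over comparable pairs

`fC n = ∏_{p ∣ n} c_p`, `c_p = 1 + 4/p` for the split primes, `0` for the other primes.
`∑_{n ≤ x} fC n ≪ x (log x)^(-1/2)`, and the sum of `fC b fC b' / (b b')` over the comparable pairs
with `x ≤ b ≤ x ^ K` is `≪ 1 + log K`.
-/

set_option autoImplicit false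

namespace Pool.Agent.Lib.MP391708.TG1.NuSum

open Finset
open Pool.Agent.Lib.MP391708.TG
open scoped Classical

variable [Pool.Agent.Lib.MP391708.TG.Aa]

open Pool.Agent.Lib.MP_391708_nt.Many (F F_nonneg mertens_class log_mul_sum_le sum_F_div_le
  sum_inv_mul_pred_le log_gt_one)

/-- the local factor -/
noncomputable def cf (p : ℕ) : ℝ := if spl p then 1 + 4 / (p : ℝ) else 0

/-- `∏_{p ∣ n} c_p` -/
noncomputable def fC (n : ℕ) : ℝ := F cf n

lemma cf_nonneg (p : ℕ) : 0 ≤ cf p := by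
  unfold cf
  split_ifs
  · positivity
  · exact le_rfl

lemma cf_le (p : ℕ) : cf p ≤ 5 := by
  unfold cf
  split_ifs with h
  · have h1 : (1 : ℝ) ≤ p := by
      rcases Nat.eq_zero_or_pos p with h0 | h0
      · rw [h0, spl, TA.chz_zero] at h
        exact absurd h (by norm_num)
      · exact_mod_cast h0
    have h2 : 4 / (p : ℝ) ≤ 4 := div_le_self (by norm_num) h1
    linarith
  · norm_num

lemma fC_nonneg (n : ℕ) : 0 ≤ fC n := F_nonneg cf_nonneg n

lemma sum_cf : ∃ C : ℝ, 0 ≤ C ∧ ∀ x : ℕ, 3 ≤ x →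
    ∑ p ∈ (Icc 1 x).filter Nat.Prime, cf p / p ≤ (1 / 2) * Real.log (Real.log x) + C := by
  have ha : az ≠ 0 := az_ne
  have hN : TA.Nsq az := nsq_az
  obtain ⟨C, hC0, hC⟩ := TA.A3.mert ha hN
  refine ⟨C + 4, by positivity, fun x hx => ?_⟩
  have h1 := (abs_le.1 (hC x hx)).2
  have h2 : ∑ p ∈ (Icc 1 x).filter Nat.Prime, cf p / p ≤
      (∑ p ∈ TA.A3.P1 az x, 1 / (p : ℝ)) +
        ∑ n ∈ Icc 1 x, 4 * (1 / ((n : ℝ) * (n - 1))) := by
    have h3 : TA.A3.P1 az x =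
        ((Icc 1 x).filter Nat.Prime).filter (fun p => spl p) := by
      ext l
      simp only [TA.A3.P1, spl, mem_filter]
      tauto
    rw [h3, sum_filter (fun p => spl p)]
    have h4 : ∑ p ∈ (Icc 1 x).filter Nat.Prime, 4 * (1 / ((p : ℝ) * (p - 1))) ≤
        ∑ n ∈ Icc 1 x, 4 * (1 / ((n : ℝ) * (n - 1))) := by
      refine sum_le_sum_of_subset_of_nonneg (filter_subset _ _) fun n hn _ => ?_
      rw [mem_Icc] at hn
      have : (1 : ℝ) ≤ n := by exact_mod_cast hn.1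
      have : 0 ≤ 1 / ((n : ℝ) * (n - 1)) := by
        apply div_nonneg zero_le_one
        apply mul_nonneg <;> linarith
      linarith
    refine le_trans ?_ (add_le_add le_rfl h4)
    rw [← sum_add_distrib]
    refine sum_le_sum fun p hp => ?_
    rw [mem_filter] at hp
    have hp2 : (2 : ℝ) ≤ p := by exact_mod_cast hp.2.two_le
    have h0 : 0 ≤ 1 / ((p : ℝ) * (p - 1)) := by
      apply div_nonneg zero_le_one
      apply mul_nonneg <;> linarith
    unfold cf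
    by_cases h : spl p
    · rw [if_pos h, if_pos h, add_div]
      have h5 : 4 / (p : ℝ) / p ≤ 4 * (1 / ((p : ℝ) * (p - 1))) := by
        rw [div_div, mul_one_div]
        apply div_le_div_of_nonneg_left (by norm_num) (by nlinarith) (by nlinarith)
      linarith
    · rw [if_neg h, if_neg h, zero_div]
      linarith
  have h3 : ∑ n ∈ Icc 1 x, 4 * (1 / ((n : ℝ) * (n - 1))) ≤ 4 := by
    rw [← mul_sum]
    obtain ⟨y, rfl⟩ := Nat.exists_eq_add_of_le' (by omega : 1 ≤ x)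
    have h4 := sum_inv_mul_pred_le y
    have h5 : (0 : ℝ) ≤ 1 / ((y : ℝ) + 1) := by positivity
    linarith
  linarith

/-- `∑_{n ≤ x} fC n ≪ x / √log x` -/
theorem sum_fC_le : ∃ C : ℝ, 0 < C ∧ ∀ x : ℕ, 3 ≤ x →
    ∑ n ∈ Icc 1 x, fC n ≤ C * x / Real.sqrt (Real.log x) := by
  obtain ⟨C, hC0, hC⟩ := sum_cf
  have h7 : (0 : ℝ) ≤ Real.log 4 + 4 := by
    have := Real.log_nonneg (by norm_num : (1 : ℝ) ≤ 4)
    linarith
  refine ⟨(5 * (Real.log 4 + 4) + 1) * (Real.exp 5 * Real.exp C), by positivity, fun x hx => ?_⟩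
  have hlog := log_gt_one hx
  have hs : 0 < Real.sqrt (Real.log x) := Real.sqrt_pos.2 (by linarith)
  have hs2 : Real.sqrt (Real.log x) * Real.sqrt (Real.log x) = Real.log x :=
    Real.mul_self_sqrt (by linarith)
  have h1 := log_mul_sum_le cf_nonneg cf_le (by norm_num) x
  have h2 := sum_F_div_le cf_nonneg cf_le x
  have h3 : Real.exp (∑ p ∈ (Icc 1 x).filter Nat.Prime, cf p / (p : ℝ)) ≤
      Real.exp C * Real.sqrt (Real.log x) := by
    have h4 : Real.sqrt (Real.log x) = Real.exp ((1 / 2) * Real.log (Real.log x)) := by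
      rw [Real.sqrt_eq_rpow, Real.rpow_def_of_pos (by linarith), mul_comm]
    rw [h4, ← Real.exp_add]
    apply Real.exp_le_exp.2
    have := hC x hx
    linarith
  have h4 : ∑ n ∈ Icc 1 x, F cf n / n ≤ Real.exp 5 * (Real.exp C * Real.sqrt (Real.log x)) :=
    h2.trans (mul_le_mul_of_nonneg_left h3 (Real.exp_pos _).le)
  rw [le_div_iff₀ hs]
  unfold fC
  have hx0 : (0 : ℝ) ≤ x := Nat.cast_nonneg x
  have h5 : Real.log x * ∑ n ∈ Icc 1 x, F cf n ≤ (5 * (Real.log 4 + 4) + 1) * x *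
      (Real.exp 5 * (Real.exp C * Real.sqrt (Real.log x))) :=
    h1.trans (mul_le_mul_of_nonneg_left h4 (by positivity))
  have h6 : Real.sqrt (Real.log x) * ((∑ n ∈ Icc 1 x, F cf n) * Real.sqrt (Real.log x)) ≤
      Real.sqrt (Real.log x) * ((5 * (Real.log 4 + 4) + 1) * (Real.exp 5 * Real.exp C) * x) := by
    calc Real.sqrt (Real.log x) * ((∑ n ∈ Icc 1 x, F cf n) * Real.sqrt (Real.log x)) =
          (Real.sqrt (Real.log x) * Real.sqrt (Real.log x)) * ∑ n ∈ Icc 1 x, F cf n := by ring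
      _ = Real.log x * ∑ n ∈ Icc 1 x, F cf n := by rw [hs2]
      _ ≤ _ := h5
      _ = _ := by ring
  exact le_of_mul_le_mul_left h6 hs

/-- dyadic blocks -/
theorem block_le : ∃ C : ℝ, 0 < C ∧ ∀ j : ℕ,
    ∑ n ∈ Ico (2 ^ j) (2 ^ (j + 1)), fC n / n ≤ C / Real.sqrt (j + 1) := by
  obtain ⟨C, hC0, hC⟩ := sum_fC_le
  set A0 : ℝ := ∑ n ∈ Ico (2 ^ 0) (2 ^ (0 + 1)), fC n / n with hA0
  have hA0' : 0 ≤ A0 := sum_nonneg fun n _ => div_nonneg (fC_nonneg n) (Nat.cast_nonneg n)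
  refine ⟨A0 + 4 * C, by positivity, fun j => ?_⟩
  rcases Nat.eq_zero_or_pos j with rfl | hj
  · have h1 : Real.sqrt (((0 : ℕ) : ℝ) + 1) = 1 := by
      rw [Nat.cast_zero, zero_add, Real.sqrt_one]
    rw [h1, div_one, ← hA0]
    linarith
  have hj1 : 3 ≤ 2 ^ (j + 1) := by
    calc 3 ≤ 2 ^ (1 + 1) := by norm_num
      _ ≤ 2 ^ (j + 1) := Nat.pow_le_pow_right (by norm_num) (by omega)
  have h1 := hC (2 ^ (j + 1)) hj1
  have h2 : ∑ n ∈ Ico (2 ^ j) (2 ^ (j + 1)), fC n / n ≤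
      1 / 2 ^ j * ∑ n ∈ Icc 1 (2 ^ (j + 1)), fC n := by
    calc ∑ n ∈ Ico (2 ^ j) (2 ^ (j + 1)), fC n / n ≤
          ∑ n ∈ Ico (2 ^ j) (2 ^ (j + 1)), 1 / 2 ^ j * fC n := by
          refine sum_le_sum fun n hn => ?_
          rw [mem_Ico] at hn
          have h3 : ((2 : ℝ) ^ j) ≤ n := by exact_mod_cast hn.1
          rw [div_eq_mul_one_div, mul_comm]
          exact mul_le_mul_of_nonneg_right (one_div_le_one_div_of_le (by positivity) h3)
            (fC_nonneg n)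
      _ = 1 / 2 ^ j * ∑ n ∈ Ico (2 ^ j) (2 ^ (j + 1)), fC n := by rw [mul_sum]
      _ ≤ _ := by
          refine mul_le_mul_of_nonneg_left ?_ (by positivity)
          refine sum_le_sum_of_subset_of_nonneg ?_ fun n _ _ => fC_nonneg n
          intro n hn
          rw [mem_Ico] at hn
          rw [mem_Icc]
          have : 0 < 2 ^ j := by positivity
          omega
  have hs : 0 < Real.sqrt ((j : ℝ) + 1) := Real.sqrt_pos.2 (by positivity)
  have h3 : Real.sqrt ((j : ℝ) + 1) / 2 ≤ Real.sqrt (Real.log ((2 ^ (j + 1) : ℕ) : ℝ)) := by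
    have e1 : Real.sqrt ((j : ℝ) + 1) / 2 = Real.sqrt (((j : ℝ) + 1) / 4) := by
      rw [Real.sqrt_div (by positivity), show (4 : ℝ) = 2 ^ 2 by norm_num,
        Real.sqrt_sq (by norm_num)]
    rw [e1]
    apply Real.sqrt_le_sqrt
    push_cast
    rw [Real.log_pow]
    have := Real.log_two_gt_d9
    have h0 : (0 : ℝ) ≤ (j : ℝ) + 1 := by positivity
    push_cast
    nlinarith
  have h4 : C * ((2 ^ (j + 1) : ℕ) : ℝ) / Real.sqrt (Real.log ((2 ^ (j + 1) : ℕ) : ℝ)) ≤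
      C * ((2 ^ (j + 1) : ℕ) : ℝ) / (Real.sqrt ((j : ℝ) + 1) / 2) :=
    div_le_div_of_nonneg_left (by positivity) (by positivity) h3
  calc ∑ n ∈ Ico (2 ^ j) (2 ^ (j + 1)), fC n / n ≤
        1 / 2 ^ j * ∑ n ∈ Icc 1 (2 ^ (j + 1)), fC n := h2
    _ ≤ 1 / 2 ^ j * (C * ((2 ^ (j + 1) : ℕ) : ℝ) / (Real.sqrt ((j : ℝ) + 1) / 2)) :=
        mul_le_mul_of_nonneg_left (h1.trans h4) (by positivity)
    _ = 4 * C / Real.sqrt ((j : ℝ) + 1) := by
        push_cast
        field_simp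
        ring
    _ ≤ (A0 + 4 * C) / Real.sqrt ((j : ℝ) + 1) := by
        apply div_le_div_of_nonneg_right _ hs.le
        linarith

omit [Pool.Agent.Lib.MP391708.TG.Aa] in
/-- harmonic sums over an interval of indices -/
lemma harm (a m : ℕ) : ∑ j ∈ Icc a (a + m), 1 / ((j : ℝ) + 1) ≤
    1 + Real.log (((a : ℝ) + m + 1) / (a + 1)) := by
  induction m with
  | zero =>
    rw [add_zero, Icc_self, sum_singleton, Nat.cast_zero, add_zero, div_self (by positivity),
      Real.log_one, add_zero]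
    rw [div_le_one (by positivity)]
    have : (0 : ℝ) ≤ a := Nat.cast_nonneg a
    linarith
  | succ m ih =>
    rw [← Nat.add_assoc, ← Finset.insert_Icc_right_eq_Icc_add_one (by omega), sum_insert (by simp)]
    have ha : (0 : ℝ) ≤ a := Nat.cast_nonneg a
    have hm : (0 : ℝ) ≤ m := Nat.cast_nonneg m
    have h1 : Real.log (((a : ℝ) + (m + 1 : ℕ) + 1) / (a + 1)) =
        Real.log (((a : ℝ) + m + 1) / (a + 1)) +
          Real.log (((a : ℝ) + m + 2) / (a + m + 1)) := by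
      rw [← Real.log_mul (by positivity) (by positivity)]
      congr 1
      push_cast
      field_simp
      ring
    have h2 : 1 / (((a + m + 1 : ℕ) : ℝ) + 1) ≤ Real.log (((a : ℝ) + m + 2) / (a + m + 1)) := by
      have h3 := Real.one_sub_inv_le_log_of_pos
        (show (0 : ℝ) < ((a : ℝ) + m + 2) / (a + m + 1) by positivity)
      refine le_trans (le_of_eq ?_) h3
      push_cast
      field_simp
      ring
    rw [h1]
    linarith

/-- **J4.** Comparable pairs `(b, b')` with `x ≤ b ≤ x ^ K`. -/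
theorem pairs_le (B : ℝ) : ∃ C : ℝ, 0 < C ∧ ∀ x K : ℝ, 2 ≤ x → 1 ≤ K →
    ∀ S : Finset (ℕ × ℕ), (∀ s ∈ S, x ≤ s.1 ∧ (s.1 : ℝ) ≤ x ^ K ∧ (s.1 : ℝ) ≤ B * s.2 ∧
      (s.2 : ℝ) ≤ B * s.1) →
    ∑ s ∈ S, fC s.1 * fC s.2 / ((s.1 : ℝ) * s.2) ≤ C * (1 + Real.log K) := by
  obtain ⟨C, hC0, hC⟩ := block_le
  obtain ⟨m, hm⟩ : ∃ m : ℕ, B ≤ 2 ^ m := by
    obtain ⟨m, hm⟩ := pow_unbounded_of_one_lt B (by norm_num : (1 : ℝ) < 2)
    exact ⟨m, hm.le⟩
  set A : ℕ → ℝ := fun j => ∑ n ∈ Ico (2 ^ j) (2 ^ (j + 1)), fC n / n with hA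
  have hA0 : ∀ j, 0 ≤ A j := fun j =>
    sum_nonneg fun n _ => div_nonneg (fC_nonneg n) (Nat.cast_nonneg n)
  refine ⟨2 * (C ^ 2 * (2 * m + 1) * (m + 1)), by positivity, fun x K hx hK S hS => ?_⟩
  -- the index of the block
  set L : ℕ × ℕ → ℕ := fun s => Nat.log 2 s.1 with hL
  set a : ℕ := Nat.log 2 ⌈x⌉₊ with ha
  have hx0 : 0 < x := by linarith
  have hpos : ∀ s ∈ S, 0 < s.1 ∧ 0 < s.2 := by
    intro s hs
    obtain ⟨h1, _, h3, _⟩ := hS s hs
    have h4 : 0 < s.1 := by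
      have : (0 : ℝ) < s.1 := by linarith
      exact_mod_cast this
    refine ⟨h4, ?_⟩
    rcases Nat.eq_zero_or_pos s.2 with h5 | h5
    · rw [h5, Nat.cast_zero, mul_zero] at h3
      linarith
    · exact h5
  have ha1 : ∀ s ∈ S, a ≤ L s := by
    intro s hs
    obtain ⟨h1, _⟩ := hS s hs
    exact Nat.log_mono_right (Nat.ceil_le.2 h1)
  -- upper end
  set b : ℕ := ⌊K * Real.logb 2 x⌋₊ with hb
  have hlog2 : 0 < Real.log 2 := Real.log_pos (by norm_num)
  have hlogx : Real.log 2 ≤ Real.log x := Real.log_le_log (by norm_num) hx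
  have hlb : 1 ≤ Real.logb 2 x := by
    unfold Real.logb
    rwa [le_div_iff₀ hlog2, one_mul]
  have hb1 : ∀ s ∈ S, L s ≤ b := by
    intro s hs
    obtain ⟨_, h2, _⟩ := hS s hs
    apply Nat.le_floor
    have h3 : (2 : ℝ) ^ (L s) ≤ s.1 := by
      exact_mod_cast Nat.pow_log_le_self 2 (hpos s hs).1.ne'
    have h4 : (2 : ℝ) ^ (L s) ≤ x ^ K := h3.trans h2
    have h5 := Real.log_le_log (by positivity) h4
    rw [Real.log_pow, Real.log_rpow hx0] at h5
    unfold Real.logb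
    rw [← mul_div_assoc, le_div_iff₀ hlog2]
    exact h5
  have ha2 : Real.logb 2 x ≤ (a : ℝ) + 1 := by
    have h1 : ⌈x⌉₊ < 2 ^ (a + 1) := Nat.lt_pow_succ_log_self (by norm_num) _
    have h2 : x ≤ (2 : ℝ) ^ (a + 1) := (Nat.le_ceil x).trans (by exact_mod_cast h1.le)
    have h3 := Real.log_le_log hx0 h2
    rw [Real.log_pow] at h3
    unfold Real.logb
    rw [div_le_iff₀ hlog2]
    push_cast at h3
    exact h3
  -- the second index
  have hL2 : ∀ s ∈ S, Nat.log 2 s.2 ∈ Icc (L s - m) (L s + m) := by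
    intro s hs
    obtain ⟨_, _, h3, h4⟩ := hS s hs
    obtain ⟨p1, p2⟩ := hpos s hs
    rw [mem_Icc]
    constructor
    · have h5 : s.1 ≤ 2 ^ m * s.2 := by
        have : (s.1 : ℝ) ≤ 2 ^ m * s.2 :=
          h3.trans (mul_le_mul_of_nonneg_right hm (Nat.cast_nonneg _))
        exact_mod_cast this
      have h6 : s.2 < 2 ^ (Nat.log 2 s.2 + 1) := Nat.lt_pow_succ_log_self (by norm_num) _
      have h7 : 2 ^ (L s) ≤ s.1 := Nat.pow_log_le_self 2 p1.ne'
      have h8 : 2 ^ (L s) < 2 ^ (m + (Nat.log 2 s.2 + 1)) := by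
        calc 2 ^ (L s) ≤ s.1 := h7
          _ ≤ 2 ^ m * s.2 := h5
          _ < 2 ^ m * 2 ^ (Nat.log 2 s.2 + 1) := Nat.mul_lt_mul_of_pos_left h6 (by positivity)
          _ = _ := by rw [← pow_add]
      have h9 := (Nat.pow_lt_pow_iff_right (by norm_num : 1 < 2)).1 h8
      omega
    · have h5 : s.2 ≤ 2 ^ m * s.1 := by
        have : (s.2 : ℝ) ≤ 2 ^ m * s.1 :=
          h4.trans (mul_le_mul_of_nonneg_right hm (Nat.cast_nonneg _))
        exact_mod_cast this
      have h6 : s.1 < 2 ^ (L s + 1) := Nat.lt_pow_succ_log_self (by norm_num) _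
      have h7 : 2 ^ (Nat.log 2 s.2) ≤ s.2 := Nat.pow_log_le_self 2 p2.ne'
      have h8 : 2 ^ (Nat.log 2 s.2) < 2 ^ (m + (L s + 1)) := by
        calc 2 ^ (Nat.log 2 s.2) ≤ s.2 := h7
          _ ≤ 2 ^ m * s.1 := h5
          _ < 2 ^ m * 2 ^ (L s + 1) := Nat.mul_lt_mul_of_pos_left h6 (by positivity)
          _ = _ := by rw [← pow_add]
      have h9 := (Nat.pow_lt_pow_iff_right (by norm_num : 1 < 2)).1 h8
      omega
  -- compare with the sum over blocks
  have hstep : ∑ s ∈ S, fC s.1 * fC s.2 / ((s.1 : ℝ) * s.2) ≤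
      ∑ j ∈ Icc a b, A j * ∑ i ∈ Icc (j - m) (j + m), A i := by
    have e1 : ∀ j, A j * ∑ i ∈ Icc (j - m) (j + m), A i =
        ∑ i ∈ Icc (j - m) (j + m), ∑ s ∈ Ico (2 ^ j) (2 ^ (j + 1)) ×ˢ Ico (2 ^ i) (2 ^ (i + 1)),
          fC s.1 * fC s.2 / ((s.1 : ℝ) * s.2) := by
      intro j
      rw [mul_sum]
      refine sum_congr rfl fun i _ => ?_
      simp only [hA]
      rw [sum_mul_sum, sum_product]
      refine sum_congr rfl fun u _ => sum_congr rfl fun v _ => ?_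
      ring
    rw [sum_congr rfl fun j _ => e1 j]
    have hnn : ∀ s : ℕ × ℕ, 0 ≤ fC s.1 * fC s.2 / ((s.1 : ℝ) * s.2) := fun s =>
      div_nonneg (mul_nonneg (fC_nonneg _) (fC_nonneg _)) (by positivity)
    rw [← sum_sigma (Icc a b) (fun j => Icc (j - m) (j + m)) (fun t =>
      ∑ s ∈ Ico (2 ^ t.1) (2 ^ (t.1 + 1)) ×ˢ Ico (2 ^ t.2) (2 ^ (t.2 + 1)),
          fC s.1 * fC s.2 / ((s.1 : ℝ) * s.2))]
    rw [← sum_sigma ((Icc a b).sigma fun j => Icc (j - m) (j + m)) (fun t =>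
      Ico (2 ^ t.1) (2 ^ (t.1 + 1)) ×ˢ Ico (2 ^ t.2) (2 ^ (t.2 + 1))) (fun t =>
          fC t.2.1 * fC t.2.2 / ((t.2.1 : ℝ) * t.2.2))]
    set φ : ℕ × ℕ → (Σ _ : (Σ _ : ℕ, ℕ), ℕ × ℕ) := fun s => ⟨⟨L s, Nat.log 2 s.2⟩, s⟩ with hφ
    have hinj : Set.InjOn φ S := by
      intro s _ t _ h
      simp only [hφ, Sigma.mk.injEq, heq_eq_eq] at h
      exact h.2
    have him := sum_image (f := fun t : (Σ _ : (Σ _ : ℕ, ℕ), ℕ × ℕ) =>
      fC t.2.1 * fC t.2.2 / ((t.2.1 : ℝ) * t.2.2)) hinj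
    simp only [hφ] at him
    rw [← him]
    refine sum_le_sum_of_subset_of_nonneg ?_ fun t _ _ => hnn t.2
    · intro t ht
      obtain ⟨s, hs, rfl⟩ := mem_image.1 ht
      rw [mem_sigma, mem_sigma]
      refine ⟨⟨?_, hL2 s hs⟩, ?_⟩
      · rw [mem_Icc]
        exact ⟨ha1 s hs, hb1 s hs⟩
      · rw [mem_product, mem_Ico, mem_Ico]
        obtain ⟨p1, p2⟩ := hpos s hs
        exact ⟨⟨Nat.pow_log_le_self 2 p1.ne', Nat.lt_pow_succ_log_self (by norm_num) _⟩,
          ⟨Nat.pow_log_le_self 2 p2.ne', Nat.lt_pow_succ_log_self (by norm_num) _⟩⟩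
  refine hstep.trans ?_
  have hblock : ∀ j : ℕ, A j * ∑ i ∈ Icc (j - m) (j + m), A i ≤
      C ^ 2 * (2 * m + 1) * (m + 1) * (1 / ((j : ℝ) + 1)) := by
    intro j
    have hj : (0 : ℝ) < (j : ℝ) + 1 := by positivity
    have h1 : ∀ i ∈ Icc (j - m) (j + m), A i ≤ C * (m + 1) / Real.sqrt ((j : ℝ) + 1) := by
      intro i hi
      rw [mem_Icc] at hi
      refine (hC i).trans ?_
      have h2 : (j : ℝ) + 1 ≤ ((i : ℝ) + 1) * (m + 1) := by
        have : j + 1 ≤ (i + 1) * (m + 1) := by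
          have : j ≤ i + m := by omega
          nlinarith
        exact_mod_cast this
      have h3 : Real.sqrt ((j : ℝ) + 1) ≤ Real.sqrt ((i : ℝ) + 1) * (m + 1) := by
        rw [Real.sqrt_le_left (by positivity), mul_pow, Real.sq_sqrt (by positivity)]
        have hm0 : (0 : ℝ) ≤ m := Nat.cast_nonneg m
        have hi0 : (0 : ℝ) ≤ i := Nat.cast_nonneg i
        nlinarith [mul_nonneg (add_nonneg hi0 zero_le_one) (mul_nonneg hm0 (add_nonneg hm0 zero_le_one))]
      have hsi : 0 < Real.sqrt ((i : ℝ) + 1) := Real.sqrt_pos.2 (by positivity)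
      have hsj : 0 < Real.sqrt ((j : ℝ) + 1) := Real.sqrt_pos.2 hj
      rw [div_le_div_iff₀ hsi hsj]
      calc C * Real.sqrt ((j : ℝ) + 1) ≤ C * (Real.sqrt ((i : ℝ) + 1) * (m + 1)) :=
            mul_le_mul_of_nonneg_left h3 hC0.le
        _ = _ := by ring
    have h2 : ∑ i ∈ Icc (j - m) (j + m), A i ≤
        (2 * m + 1) * (C * (m + 1) / Real.sqrt ((j : ℝ) + 1)) := by
      calc ∑ i ∈ Icc (j - m) (j + m), A i ≤
            ∑ _i ∈ Icc (j - m) (j + m), C * (m + 1) / Real.sqrt ((j : ℝ) + 1) := sum_le_sum h1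
        _ = ((Icc (j - m) (j + m)).card : ℝ) * (C * (m + 1) / Real.sqrt ((j : ℝ) + 1)) := by
            rw [sum_const, nsmul_eq_mul]
        _ ≤ _ := by
            refine mul_le_mul_of_nonneg_right ?_ (by positivity)
            rw [Nat.card_Icc]
            have : j + m + 1 - (j - m) ≤ 2 * m + 1 := by omega
            exact_mod_cast this
    have hsj : 0 < Real.sqrt ((j : ℝ) + 1) := Real.sqrt_pos.2 hj
    calc A j * ∑ i ∈ Icc (j - m) (j + m), A i ≤ (C / Real.sqrt ((j : ℝ) + 1)) *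
          ((2 * m + 1) * (C * (m + 1) / Real.sqrt ((j : ℝ) + 1))) :=
          mul_le_mul (hC j) h2 (sum_nonneg fun i _ => hA0 i) (by positivity)
      _ = C ^ 2 * (2 * m + 1) * (m + 1) *
          (1 / (Real.sqrt ((j : ℝ) + 1) * Real.sqrt ((j : ℝ) + 1))) := by
          field_simp
      _ = _ := by rw [Real.mul_self_sqrt hj.le]
  by_cases hab : a ≤ b
  · obtain ⟨k, hk⟩ := Nat.exists_eq_add_of_le hab
    calc ∑ j ∈ Icc a b, A j * ∑ i ∈ Icc (j - m) (j + m), A i ≤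
          ∑ j ∈ Icc a b, C ^ 2 * (2 * m + 1) * (m + 1) * (1 / ((j : ℝ) + 1)) :=
          sum_le_sum fun j _ => hblock j
      _ = C ^ 2 * (2 * m + 1) * (m + 1) * ∑ j ∈ Icc a b, (1 / ((j : ℝ) + 1)) := by
          rw [mul_sum]
      _ ≤ C ^ 2 * (2 * m + 1) * (m + 1) * (2 * (1 + Real.log K)) := by
          refine mul_le_mul_of_nonneg_left ?_ (by positivity)
          have h1 := harm a k
          rw [← hk] at h1
          refine h1.trans ?_
          have h2 : ((a : ℝ) + k + 1) / (a + 1) ≤ 2 * K := by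
            rw [div_le_iff₀ (by positivity)]
            have h3 : (a : ℝ) + k = b := by rw [hk]; push_cast; ring
            rw [h3]
            have h4 : (b : ℝ) ≤ K * Real.logb 2 x := Nat.floor_le (by positivity)
            have h5 : K * Real.logb 2 x ≤ K * ((a : ℝ) + 1) :=
              mul_le_mul_of_nonneg_left ha2 (by linarith)
            have h6 : (1 : ℝ) ≤ K * ((a : ℝ) + 1) := by
              have : (1 : ℝ) ≤ (a : ℝ) + 1 := by
                have : (0 : ℝ) ≤ a := Nat.cast_nonneg a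
                linarith
              nlinarith
            linarith
          have h3 : Real.log (((a : ℝ) + k + 1) / (a + 1)) ≤ Real.log (2 * K) :=
            Real.log_le_log (by positivity) h2
          rw [Real.log_mul (by norm_num) (by linarith)] at h3
          have h4 : Real.log 2 ≤ 1 := by
            have := Real.log_two_lt_d9
            linarith
          have h5 : 0 ≤ Real.log K := Real.log_nonneg hK
          linarith
      _ = _ := by ring
  · rw [Icc_eq_empty hab, sum_empty]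
    have h5 : 0 ≤ Real.log K := Real.log_nonneg hK
    positivity

end Pool.Agent.Lib.MP391708.TG1.NuSum
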