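import Pool.Agent.Lib.MP_391708_nt.TG.Spec
import Pool.Agent.Lib.MP_391708_nt.TG1.NuSum

/-!
# Theorem T1, group J (the number of critical divisors): definitions and module statements

`ot n` = the part of `n` outside the sieving primes; `nus x` = the number of critical divisors `d'`
of `M² + a` with `ot d' = ot d`, `d = dd x`; `bps` = the comparable coprime pairs composed of
sieving primes; `wi i = z ^ (2 ^ (-i))` the scales; `omg w`, `oml w` = number of sieving primes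
`≥ w`, `< w` dividing `n`.

`J0 : SpecNUS → SpecNU`;  `J1 : nus ≤ #pairs`;  `J2` multi-scale typicality;  `J3` the sum over the
pairs `(v, w)` with `b ∣ d`, `b' ∣ e`;  `J4 = NuSum.pairs_le`;  `JF : J1, J2, J3, J4 → SpecNUS`.
-/

set_option autoImplicit false

namespace Pool.Agent.Lib.MP391708.TG

variable [Pool.Agent.Lib.MP391708.TG.Aa] [Pool.Agent.Lib.MP391708.TG.Frm]

open Finset Filter Topology
open Pool.Agent.Lib.MP391708.Eqd (V cross pairs)
open scoped Classical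

noncomputable section

/-- the part of `n` outside the sieving primes -/
def ot (p : Prm) (N n : ℕ) : ℕ := n / sm p N n

/-- the critical divisors with the same part outside the sieving primes -/
def nusS (p : Prm) (N : ℕ) (x : VV) : Finset ℕ :=
  ((vl (mm x).natAbs).divisors).filter (fun d => (mm x).natAbs < d ∧ d ≤ 3 * (mm x).natAbs ∧
    ot p N d = ot p N (dd x).natAbs)

/-- their number -/
def nus (p : Prm) (N : ℕ) (x : VV) : ℕ := (nusS p N x).card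

/-- comparable coprime pairs composed of sieving primes -/
def bps (p : Prm) (N : ℕ) : Finset (ℕ × ℕ) :=
  (Icc 1 ⌊zz p N ^ (2 * p.K)⌋₊ ×ˢ Icc 1 ⌊zz p N ^ (2 * p.K)⌋₊).filter (fun t =>
    Nat.Coprime t.1 t.2 ∧ t.1 < 3 * t.2 ∧ t.2 < 3 * t.1 ∧ (t.1 * t.2).primeFactors ⊆ PP p N)

/-- the scale `z ^ (2 ^ (-i))` -/
def wi (p : Prm) (N i : ℕ) : ℝ := zz p N ^ ((1 / 2 : ℝ) ^ i)

/-- the number of sieving primes `≥ w` dividing `n` -/
def omg (p : Prm) (N : ℕ) (w : ℝ) (n : ℕ) : ℕ :=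
  ((PP p N).filter (fun l : ℕ => w ≤ (l : ℝ) ∧ l ∣ n)).card

/-- the number of sieving primes `< w` dividing `n` -/
def oml (p : Prm) (N : ℕ) (w : ℝ) (n : ℕ) : ℕ :=
  ((PP p N).filter (fun l : ℕ => (l : ℝ) < w ∧ l ∣ n)).card

/-- `M² + a` -/
def mq (x : VV) : ℕ := vl (mm x).natAbs

/-! ## Inputs -/

/-- the local mean of `l ∣ M² + a` (helper3, helper85: `(4 l - 2) / (l (l + 1))`) -/
def SpecLM1 : Prop :=
  ∀ l : ℕ, l.Prime → spl l →
    mean l (fun x => if l ∣ mq x then 1 else 0) = (4 * l - 2) / ((l : ℝ) * (l + 1))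

/-- the local mean of `b ∣ d`, `b' ∣ e` -/
def SpecLM2 : Prop :=
  ∀ b b' : ℕ, 0 < b → 0 < b' → b.Coprime b' → (∀ l : ℕ, l.Prime → l ∣ b * b' → spl l) →
    mean (b * b') (fun x => if b ∣ (dd x).natAbs ∧ b' ∣ (ee x).natAbs then 1 else 0) ≤
      2 ^ wn (b * b') / ((b : ℝ) * b')

/-- group F: `sm (M² + a)` is small for most `x` -/
def SpecSMT : Prop :=
  ∀ ε : ℝ, 0 < ε → Good (fun p => ∀ᶠ N : ℕ in atTop,
    (((Gam N 1 3).filter (fun x => zz p N ^ (2 * p.K) < (sm p N (mq x) : ℝ))).card : ℝ) ≤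
      ε * ((Gam N 1 3).card : ℝ))

/-- group F: `M² + a` is tame for most `x` -/
def SpecTMT : Prop :=
  ∀ ε : ℝ, 0 < ε → Good (fun p => ∀ᶠ N : ℕ in atTop,
    (((Gam N 1 3).filter (fun x => ¬ tame p (mq x))).card : ℝ) ≤ ε * ((Gam N 1 3).card : ℝ))

/-! ## Modules -/

/-- **NUS**: as `SpecNU`, for the critical divisors with the same part outside the sieving primes -/
def SpecNUS : Prop :=
  ∀ ε : ℝ, 0 < ε → Good (fun p => ∃ K' : ℝ, 0 < K' ∧ ∀ᶠ N : ℕ in atTop,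
    (((Gam N 1 3).filter (fun x => K' * 2 ^ om p N (mq x) / Real.log (zz p N) <
      (nus p N x : ℝ))).card : ℝ) ≤ ε * ((Gam N 1 3).card : ℝ))

/-- **J0**. Proof: for tame `M² + a` there are at most `C₁(p) = E ^ E 2 ^ (3/ζ)` values of `ot d'`.
If `nu > K' 2^om / log z` then the classes with at most `(K' / (2 C₁)) 2^om / log z` elements
contain at most half of the pairs over `M`, so `#bad for nu ≤ 2 #bad for nus` (each critical
divisor is `dd x` for at most `C` pairs `x`, `SpecAUT`). -/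
def SpecJ0 : Prop := SpecAUT → SpecTMT → SpecNUS → SpecNU

/-- **J1**: `b = d / gcd(d, d')`, `b' = d' / gcd(d, d')`. -/
def SpecJ1 : Prop :=
  ∀ (p : Prm) (N : ℕ), ∀ x ∈ Gam N 1 3, (sm p N (mq x) : ℝ) ≤ zz p N ^ (2 * p.K) →
    nus p N x ≤ ((bps p N).filter (fun t => t.1 ∣ (dd x).natAbs ∧ t.2 ∣ (ee x).natAbs)).card

/-- **J2**: for most `x`, all scales have at least `1.5 i log 2 - K₀` prime divisors.
Proof: `SpecFL` with `f_l = (3/4)^[l ∣ M² + a]` for `w_i ≤ l < z`, Mertens and Markov. -/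
def SpecJ2 : Prop :=
  ∀ ε : ℝ, 0 < ε → Good (fun p => ∃ K₀ : ℝ, 0 ≤ K₀ ∧ ∀ᶠ N : ℕ in atTop,
    (((Gam N 1 3).filter (fun x => ∃ i : ℕ, (p.E : ℝ) < wi p N i ∧
      (omg p N (wi p N i) (mq x) : ℝ) < 3 / 2 * i * Real.log 2 - K₀)).card : ℝ) ≤
      ε * ((Gam N 1 3).card : ℝ))

/-- **J3**: proof: `SpecFL` with `F = [b ∣ d] [b' ∣ e]` modulo `b b'`, `f_l = (1/2)^[l ∣ M² + a]`,
`l < w`, `l ∤ b b'`; Mertens. -/
def SpecJ3 : Prop :=
  ∃ c : ℝ, 0 < c ∧ Good (fun p => ∃ C : ℝ, 0 < C ∧ ∀ᶠ N : ℕ in atTop,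
    ∀ w : ℝ, (p.E : ℝ) < w → w ≤ zz p N → ∀ t ∈ bps p N,
    (∀ l ∈ (t.1 * t.2).primeFactors, (l : ℝ) < w) →
    ∑ x ∈ (Gam N 1 3).filter (fun x => t.1 ∣ (dd x).natAbs ∧ t.2 ∣ (ee x).natAbs),
      (1 / 2 : ℝ) ^ oml p N w (mq x) ≤
    C * ((Gam N 1 3).card : ℝ) * (TG1.NuSum.fC t.1 * TG1.NuSum.fC t.2 / ((t.1 : ℝ) * t.2)) /
      Real.log w + (N : ℝ) ^ (1 - c))

end

end Pool.Agent.Lib.MP391708.TG
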