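import Pool.Agent.Lib.MP_391708_nt.TG.Basic
import Pool.Agent.Lib.MP_391708_nt.TG1.JDefs
import Pool.Agent.Lib.MP_391708_nt.T1.GoodL

/-!
# Theorem T1b, group J, module J0: `SpecAUT → SpecTMT → SpecNUS → SpecNU`
-/

set_option autoImplicit false

namespace Pool.Agent.Lib.MP391708.TG

variable [Pool.Agent.Lib.MP391708.TG.Aa] [Pool.Agent.Lib.MP391708.TG.Frm]

open Finset Filter Topology
open Pool.Agent.Lib.MP391708.Eqd (V cross pairs)
open scoped Classical

noncomputable section

namespace NuJ0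

variable {p : Prm} {N : ℕ}

/-! ## The part outside the sieving primes -/

lemma mem_PP {l : ℕ} : l ∈ PP p N ↔ (l : ℝ) < zz p N ∧ l.Prime ∧ spl l ∧ p.E < l := by
  unfold PP
  rw [mem_filter, mem_range, Nat.lt_ceil]

lemma sm_pos (n : ℕ) : 0 < sm p N n := by
  unfold sm
  exact prod_pos fun l hl => pow_pos (mem_PP.1 hl).2.1.pos _

lemma fact_sm (n l : ℕ) :
    (sm p N n).factorization l = if l ∈ PP p N then n.factorization l else 0 := by
  unfold sm
  rw [Nat.factorization_prod (fun l hl => (pow_pos (mem_PP.1 hl).2.1.pos _).ne')]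
  rw [Finsupp.finsetSum_apply]
  have h : ∀ q ∈ PP p N, (q ^ n.factorization q).factorization l =
      if q = l then n.factorization l else 0 := by
    intro q hq
    rw [Nat.factorization_pow, Finsupp.smul_apply, smul_eq_mul]
    split_ifs with hql
    · subst hql
      rw [(mem_PP.1 hq).2.1.factorization_self, mul_one]
    · rw [(mem_PP.1 hq).2.1.factorization, Finsupp.single_apply, if_neg hql, mul_zero]
  rw [sum_congr rfl h, sum_ite_eq']

lemma sm_dvd {n : ℕ} (hn : n ≠ 0) : sm p N n ∣ n := by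
  rw [← Nat.factorization_le_iff_dvd (sm_pos n).ne' hn]
  intro l
  rw [fact_sm]
  split_ifs
  · exact le_rfl
  · exact Nat.zero_le _

lemma fact_ot {n : ℕ} (hn : n ≠ 0) (l : ℕ) :
    (ot p N n).factorization l = if l ∈ PP p N then 0 else n.factorization l := by
  unfold ot
  rw [Nat.factorization_div (sm_dvd hn), Finsupp.tsub_apply, fact_sm]
  split_ifs <;> simp

lemma ot_ne_zero {n : ℕ} (hn : n ≠ 0) : ot p N n ≠ 0 := by
  unfold ot
  exact (Nat.div_pos (Nat.le_of_dvd (Nat.pos_of_ne_zero hn) (sm_dvd hn)) (sm_pos n)).ne'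

lemma ot_dvd_ot {d n : ℕ} (hn : n ≠ 0) (h : d ∣ n) : ot p N d ∣ ot p N n := by
  have hd : d ≠ 0 := fun h0 => hn (by rw [h0] at h; exact Nat.eq_zero_of_zero_dvd h)
  rw [← Nat.factorization_le_iff_dvd (ot_ne_zero hd) (ot_ne_zero hn)]
  intro l
  rw [fact_ot hd, fact_ot hn]
  split_ifs
  · exact le_rfl
  · exact (Nat.factorization_le_iff_dvd hd hn).2 h l

lemma ot_dvd {n : ℕ} (hn : n ≠ 0) : ot p N n ∣ n := Nat.div_dvd_of_dvd (sm_dvd hn)

/-! ## The number of classes -/

/-- the number of possible parts outside the sieving primes -/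
def C1 (p : Prm) : ℝ := ((p.E : ℝ) + 1) ^ (p.E + 1) * 2 ^ (3 / p.ζ)

lemma C1_pos (p : Prm) : 0 < C1 p := by unfold C1; positivity

lemma prod_small {n : ℕ} (hn : n ≠ 0) (ht : tame p n) :
    (∏ l ∈ (ot p N n).primeFactors.filter (fun l => l ≤ p.E),
      ((ot p N n).factorization l + 1)) ≤ (p.E + 1) ^ (p.E + 1) := by
  refine (prod_le_pow_card _ _ (p.E + 1) fun l hl => ?_).trans
    (Nat.pow_le_pow_right (Nat.succ_pos _) ?_)
  · rw [mem_filter] at hl
    have hp := Nat.prime_of_mem_primeFactors hl.1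
    have h1 : (ot p N n).factorization l ≤ n.factorization l := by
      rw [fact_ot hn]
      split_ifs
      · exact Nat.zero_le _
      · exact le_rfl
    have h2 : n.factorization l < p.E := by
      by_contra h3
      push Not at h3
      exact ht l hp hl.2 ((pow_dvd_pow l h3).trans (Nat.ordProj_dvd n l))
    omega
  · refine (card_le_card (t := range (p.E + 1)) fun l hl => ?_).trans (card_range _).le
    rw [mem_filter] at hl
    rw [mem_range]
    omega

lemma prod_large {M : ℕ} (haM : aa < M ^ 2) (hE : 2 * aa ≤ p.E) (hz : 1 < zz p N) :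
    ((∏ l ∈ (ot p N (vl M)).primeFactors.filter (fun l => ¬ l ≤ p.E),
      ((ot p N (vl M)).factorization l + 1) : ℕ) : ℝ) ≤
      2 ^ (Real.log ((M : ℝ) ^ 2 + az) / Real.log (zz p N)) := by
  set n := vl M with hn'
  have hn : n ≠ 0 := (Bs.vl_pos_all M).ne'
  set S := (ot p N n).primeFactors.filter (fun l => ¬ l ≤ p.E) with hS
  set v : ℕ → ℕ := fun l => (ot p N n).factorization l with hv
  have hz0 : 0 < zz p N := by linarith
  have hlz : 0 < Real.log (zz p N) := Real.log_pos hz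
  have h1 : ∏ l ∈ S, (v l + 1) ≤ 2 ^ ∑ l ∈ S, v l := by
    rw [← prod_pow_eq_pow_sum]
    exact prod_le_prod' fun l _ => Nat.lt_two_pow_self
  have h2 : ∀ l ∈ S, zz p N ≤ (l : ℝ) := by
    intro l hl
    rw [hS, mem_filter] at hl
    have hp := Nat.prime_of_mem_primeFactors hl.1
    have hd : l ∣ n := (Nat.dvd_of_mem_primeFactors hl.1).trans (ot_dvd hn)
    have h4 := Bs.spl_of_dvd_of_E hE hp (by omega) hd
    by_contra h5
    push Not at h5
    have h6 : l ∈ PP p N := mem_PP.2 ⟨h5, hp, h4, by omega⟩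
    have h7 : (ot p N n).factorization l = 0 := by rw [fact_ot hn, if_pos h6]
    have h8 : l ∈ (ot p N n).factorization.support := by
      rw [Nat.support_factorization]; exact hl.1
    exact (Finsupp.mem_support_iff.1 h8) h7
  have h3 : zz p N ^ ∑ l ∈ S, v l ≤ (n : ℝ) := by
    calc zz p N ^ ∑ l ∈ S, v l = ∏ l ∈ S, zz p N ^ v l := (prod_pow_eq_pow_sum _ _ _).symm
      _ ≤ ∏ l ∈ S, (l : ℝ) ^ v l :=
        prod_le_prod (fun l _ => by positivity) fun l hl => pow_le_pow_left₀ hz0.le (h2 l hl) _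
      _ = ((∏ l ∈ S, l ^ v l : ℕ) : ℝ) := by push_cast; rfl
      _ ≤ ((∏ l ∈ (ot p N n).primeFactors, l ^ v l : ℕ) : ℝ) := by
        have h31 : ∏ l ∈ S, l ^ v l ≤ ∏ l ∈ (ot p N n).primeFactors, l ^ v l :=
          prod_le_prod_of_subset_of_one_le' (filter_subset _ _)
            fun l hl _ => Nat.one_le_pow _ _ (Nat.prime_of_mem_primeFactors hl).pos
        exact_mod_cast h31
      _ = ((ot p N n : ℕ) : ℝ) := by
        congr 1
        exact Nat.prod_factorization_pow_eq_self (ot_ne_zero hn)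
      _ ≤ (n : ℝ) := by exact_mod_cast Nat.le_of_dvd (Nat.pos_of_ne_zero hn) (ot_dvd hn)
  have h4 : ((∑ l ∈ S, v l : ℕ) : ℝ) ≤ Real.log ((M : ℝ) ^ 2 + az) / Real.log (zz p N) := by
    rw [le_div_iff₀ hlz]
    have h5 := Real.log_le_log (by positivity) h3
    rw [Real.log_pow] at h5
    have h6 : ((n : ℕ) : ℝ) = (M : ℝ) ^ 2 + az := by rw [hn']; exact vl_castR haM
    rwa [h6] at h5
  calc ((∏ l ∈ S, (v l + 1) : ℕ) : ℝ) ≤ ((2 ^ ∑ l ∈ S, v l : ℕ) : ℝ) := by exact_mod_cast h1
    _ = (2 : ℝ) ^ ((∑ l ∈ S, v l : ℕ) : ℝ) := by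
      rw [Real.rpow_natCast]
      push_cast
      rfl
    _ ≤ _ := Real.rpow_le_rpow_of_exponent_le (by norm_num) h4

lemma card_divisors_ot {M : ℕ} (haM : aa < M ^ 2) (hE : 2 * aa ≤ p.E) (hz : 1 < zz p N)
    (ht : tame p (vl M))
    (hM : Real.log ((M : ℝ) ^ 2 + az) / Real.log (zz p N) ≤ 3 / p.ζ) :
    (((ot p N (vl M)).divisors.card : ℕ) : ℝ) ≤ C1 p := by
  have hn : vl M ≠ 0 := (Bs.vl_pos_all M).ne'
  rw [Nat.card_divisors (ot_ne_zero hn),
    ← prod_filter_mul_prod_filter_not _ (fun l => l ≤ p.E), Nat.cast_mul]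
  unfold C1
  refine mul_le_mul ?_ ?_ (Nat.cast_nonneg _) (by positivity)
  · exact_mod_cast prod_small (N := N) hn ht
  · exact (prod_large haM hE hz).trans (Real.rpow_le_rpow_of_exponent_le (by norm_num) hM)

/-! ## Large classes -/

/-- if there are few classes then half of a large set lies in large classes -/
lemma half_large {α : Type} {D : Finset α} {o : α → ℕ} {C T : ℝ} (hT : 0 ≤ T)
    (hC : ((D.image o).card : ℝ) ≤ C) (h : 2 * C * T < D.card) :
    D.card ≤ 2 * (D.filter (fun d => T < ((D.filter (fun d' => o d' = o d)).card : ℝ))).card := by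
  set A := D.filter (fun d => T < ((D.filter (fun d' => o d' = o d)).card : ℝ)) with hA
  set B := D.filter (fun d => ¬ T < ((D.filter (fun d' => o d' = o d)).card : ℝ)) with hB
  have h1 : A.card + B.card = D.card := card_filter_add_card_filter_not _
  have h2 : B.card ≤ ⌊T⌋₊ * (B.image o).card := by
    refine card_le_mul_card_image _ _ fun a ha => ?_
    rw [mem_image] at ha
    obtain ⟨d, hd, rfl⟩ := ha
    rw [hB, mem_filter] at hd
    push Not at hd
    refine Nat.le_floor (le_trans ?_ hd.2)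
    exact_mod_cast card_le_card fun x hx => by
      rw [mem_filter] at hx ⊢
      exact ⟨(mem_filter.1 hx.1).1, hx.2⟩
  have h3 : ((B.image o).card : ℝ) ≤ C := by
    refine le_trans ?_ hC
    exact_mod_cast card_le_card (image_subset_image (filter_subset _ _))
  have h4 : (B.card : ℝ) ≤ C * T := by
    calc (B.card : ℝ) ≤ (⌊T⌋₊ : ℝ) * ((B.image o).card : ℝ) := by exact_mod_cast h2
      _ ≤ T * C := mul_le_mul (Nat.floor_le hT) h3 (Nat.cast_nonneg _) hT
      _ = C * T := mul_comm _ _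
  have h5 : 2 * (B.card : ℝ) < (D.card : ℝ) := by linarith
  have h6 : 2 * B.card < D.card := by exact_mod_cast h5
  omega

/-! ## Counting the pairs over a given `M` -/

lemma natAbs_mem {x : VV} (hx : x ∈ Gam N 1 3) : N < (mm x).natAbs ∧ (mm x).natAbs ≤ 2 * N := by
  unfold Gam at hx
  rw [mem_filter] at hx
  omega

lemma mm_eq {x : VV} (hx : x ∈ Gam N 1 3) : mm x = ((mm x).natAbs : ℤ) := by
  unfold Gam at hx
  rw [mem_filter] at hx
  omega

/-- the pairs over `M` -/
def Ga (N M : ℕ) : Finset VV := (Gam N 1 3).filter (fun x => (mm x).natAbs = M)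

/-- the pairs in the class of `x` -/
lemma class_le {C : ℕ} (hC : ∀ (S : Finset VV) (M d : ℤ), 0 < d →
    (∀ x ∈ S, cross x.1 x.2 = -1 ∧ Cn x.1 ∧ mm x = M ∧ dd x = d) → S.card ≤ C) {M : ℕ} {x : VV}
    (hx : x ∈ Ga N M) :
    ((Ga N M).filter (fun y => ot p N (dd y).natAbs = ot p N (dd x).natAbs)).card ≤
      C * nus p N x := by
  have hxM : (mm x).natAbs = M := (mem_filter.1 hx).2
  unfold nus
  refine card_le_mul_card_image_of_maps_to (f := fun y : VV => (dd y).natAbs) ?_ C ?_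
  · intro y hy
    rw [mem_filter] at hy
    obtain ⟨hy1, hy2⟩ := hy
    unfold Ga at hy1
    rw [mem_filter] at hy1
    obtain ⟨hy1, hyM⟩ := hy1
    have hG := Bs.mem_Gam.1 hy1
    have hcr := Bs.CC_of_mem_Gam hy1
    have hmy := mm_eq hy1
    have hd := Bs.dd_pos hcr
    unfold nusS
    rw [mem_filter, Nat.mem_divisors, hxM]
    refine ⟨⟨?_, (Bs.vl_pos_all M).ne'⟩, ?_, ?_, hy2⟩
    · have h1 : dd y ∣ mm y ^ 2 + az := Bs.dd_dvd hcr.1
      rw [hmy, hyM] at h1
      rw [natCast_dvd_vl, Int.natAbs_dvd]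
      exact h1
    · have h1 : (1 : ℝ) * (mm y : ℝ) < (dd y : ℝ) := hG.2.2.2.1
      rw [one_mul] at h1
      have h2 : mm y < dd y := by exact_mod_cast h1
      omega
    · have h1 : (dd y : ℝ) ≤ 3 * (mm y : ℝ) := hG.2.2.2.2
      have h2 : dd y ≤ 3 * mm y := by exact_mod_cast h1
      omega
  · intro d hd
    unfold nusS at hd
    rw [mem_filter, Nat.mem_divisors] at hd
    have hd0 : 0 < d := by omega
    refine hC _ (M : ℤ) (d : ℤ) (by exact_mod_cast hd0) ?_
    intro y hy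
    rw [mem_filter, mem_filter] at hy
    obtain ⟨⟨hy1, -⟩, hy3⟩ := hy
    unfold Ga at hy1
    rw [mem_filter] at hy1
    obtain ⟨hy1, hyM⟩ := hy1
    have hcr := Bs.CC_of_mem_Gam hy1
    have hmy := mm_eq hy1
    have hdp := Bs.dd_pos hcr
    refine ⟨hcr.1, hcr.2.1, by rw [hmy, hyM], ?_⟩
    omega

lemma card_bad {C : ℕ} (hC0 : 0 < C) (hC : ∀ (S : Finset VV) (M d : ℤ), 0 < d →
    (∀ x ∈ S, cross x.1 x.2 = -1 ∧ Cn x.1 ∧ mm x = M ∧ dd x = d) → S.card ≤ C) {M : ℕ}
    (haM : aa < M ^ 2) (hE : 2 * aa ≤ p.E) (hz : 1 < zz p N) (ht : tame p (vl M))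
    (hlog : Real.log ((M : ℝ) ^ 2 + az) / Real.log (zz p N) ≤ 3 / p.ζ) {T : ℝ} (hT : 0 ≤ T)
    (hbad : 2 * C1 p * (C * T) < ((Ga N M).card : ℝ)) :
    (Ga N M).card ≤ 2 * ((Ga N M).filter (fun x => T < (nus p N x : ℝ))).card := by
  have hn : vl M ≠ 0 := (Bs.vl_pos_all M).ne'
  have hCr : (0 : ℝ) < C := by exact_mod_cast hC0
  have him : (((Ga N M).image (fun x => ot p N (dd x).natAbs)).card : ℝ) ≤ C1 p := by
    refine le_trans ?_ (card_divisors_ot haM hE hz ht hlog)
    have : (Ga N M).image (fun x => ot p N (dd x).natAbs) ⊆ (ot p N (vl M)).divisors := by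
      intro v hv
      rw [mem_image] at hv
      obtain ⟨y, hy, rfl⟩ := hv
      unfold Ga at hy
      rw [mem_filter] at hy
      obtain ⟨hy1, hyM⟩ := hy
      have hcr := Bs.CC_of_mem_Gam hy1
      have hmy := mm_eq hy1
      refine Nat.mem_divisors.2 ⟨ot_dvd_ot hn ?_, ot_ne_zero hn⟩
      have h1 : dd y ∣ mm y ^ 2 + az := Bs.dd_dvd hcr.1
      rw [hmy, hyM] at h1
      rw [natCast_dvd_vl, Int.natAbs_dvd]
      exact h1
    exact_mod_cast card_le_card this
  have h5 := half_large (o := fun x => ot p N (dd x).natAbs) (by positivity : 0 ≤ (C : ℝ) * T) him hbad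
  refine h5.trans (Nat.mul_le_mul_left 2 (card_le_card fun x hx => ?_))
  rw [mem_filter] at hx ⊢
  refine ⟨hx.1, ?_⟩
  have h6 := class_le (p := p) hC hx.1
  have h7 : ((((Ga N M).filter (fun y => ot p N (dd y).natAbs = ot p N (dd x).natAbs)).card : ℕ) : ℝ) ≤
      (C : ℝ) * (nus p N x : ℝ) := by exact_mod_cast h6
  have h8 := lt_of_lt_of_le hx.2 h7
  exact lt_of_mul_lt_mul_left h8 hCr.le

lemma log_le {M : ℕ} (haM : aa < M ^ 2) (hN : 5 + aa ≤ N) (hζ : 0 < p.ζ) (hM : M ≤ 2 * N) :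
    Real.log ((M : ℝ) ^ 2 + az) / Real.log (zz p N) ≤ 3 / p.ζ := by
  have hNr : (5 : ℝ) + aa ≤ N := by exact_mod_cast hN
  have haa : (1 : ℝ) ≤ (aa : ℝ) := Bs.aa_one_le_real
  have hMr : (M : ℝ) ≤ 2 * N := by exact_mod_cast hM
  have hM0 : (0 : ℝ) ≤ M := Nat.cast_nonneg _
  have hlN : 0 < Real.log N := Real.log_pos (by linarith)
  have hlz : Real.log (zz p N) = p.ζ * Real.log N := by
    unfold T4.zz
    rw [Real.log_rpow (by linarith)]
  have h1 : Real.log ((M : ℝ) ^ 2 + az) ≤ 3 * Real.log N := by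
    have h0 : 0 < (M : ℝ) ^ 2 + az := by
      rw [← vl_castR haM]
      exact_mod_cast vl_pos haM
    have h2 : (M : ℝ) ^ 2 + az ≤ (N : ℝ) ^ 3 := by
      have h01 : (M : ℝ) ^ 2 + az = (M : ℝ) ^ 2 - aa := by rw [← vl_castR haM, vl_castR' haM]
      rw [h01]
      have h3 : (M : ℝ) ^ 2 ≤ 4 * (N : ℝ) ^ 2 := by nlinarith
      have h4 : (5 + (aa : ℝ)) * (N : ℝ) ^ 2 ≤ (N : ℝ) ^ 3 := by
        have : (N : ℝ) ^ 3 = N * (N : ℝ) ^ 2 := by ring
        rw [this]
        exact mul_le_mul_of_nonneg_right hNr (by positivity)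
      have h5 : (1 : ℝ) ≤ (N : ℝ) ^ 2 := by nlinarith
      nlinarith
    calc Real.log ((M : ℝ) ^ 2 + az) ≤ Real.log ((N : ℝ) ^ 3) :=
          Real.log_le_log h0 h2
      _ = 3 * Real.log N := by rw [Real.log_pow]; norm_num
  rw [hlz, div_le_div_iff₀ (by positivity) hζ]
  nlinarith

end NuJ0

open NuJ0 in
theorem specJ0 : SpecJ0 := by
  intro hA hT hN ε hε
  obtain ⟨C, hC0, hC⟩ := hA
  have hCr : (0 : ℝ) < C := by exact_mod_cast hC0
  have g := (((hT (ε / 2) (by positivity)).and (hN (ε / 4) (by positivity))).and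
    Bs.good_aa).and T4.Good.zeta_pos
  refine g.mono fun p ⟨⟨⟨h1, K₁, hK₁, h2⟩, hE⟩, hζ⟩ => ?_
  refine ⟨2 * C1 p * (C * K₁), by have := C1_pos p; positivity, ?_⟩
  filter_upwards [h1, h2, eventually_ge_atTop (5 + aa)] with N a1 a2 hN5
  have hNr : (5 : ℝ) + aa ≤ N := by exact_mod_cast hN5
  have haa : (1 : ℝ) ≤ (aa : ℝ) := Bs.aa_one_le_real
  have hz : 1 < zz p N := by
    unfold T4.zz
    exact Real.one_lt_rpow (by linarith) hζ
  have hlz : 0 < Real.log (zz p N) := Real.log_pos hz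
  set T : ℕ → ℝ := fun M => K₁ * 2 ^ om p N (vl M) / Real.log (zz p N) with hTd
  have hT0 : ∀ M, 0 ≤ T M := fun M => by simp only [hTd]; positivity
  have hfib : ∀ x ∈ Gam N 1 3, (Gam N 1 3).filter (fun y => mm y = mm x) = Ga N (mm x).natAbs := by
    intro x hx
    have hmx := mm_eq hx
    unfold Ga
    refine filter_congr fun y hy => ?_
    have hmy := mm_eq hy
    constructor
    · intro h; rw [h]
    · intro h; rw [hmy, h, ← hmx]
  -- the tame part
  have hmain : ((Gam N 1 3).filter (fun x => tame p (mq x) ∧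
      2 * C1 p * (C * K₁) * 2 ^ om p N (vl (mm x).natAbs) / Real.log (zz p N) <
        (((Gam N 1 3).filter (fun y => mm y = mm x)).card : ℝ))).card ≤
      2 * ((Gam N 1 3).filter (fun x => K₁ * 2 ^ om p N (mq x) / Real.log (zz p N) <
        (nus p N x : ℝ))).card := by
    have hmap : ∀ (P : VV → Prop) [DecidablePred P], ((Gam N 1 3).filter P).card =
        ∑ M ∈ Ioc N (2 * N), ((Gam N 1 3).filter (fun x => (mm x).natAbs = M ∧ P x)).card := by
      intro P _
      rw [card_eq_sum_card_fiberwise (f := fun x => (mm x).natAbs) (t := Ioc N (2 * N))]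
      · refine sum_congr rfl fun M _ => ?_
        rw [filter_filter]
        congr 1
        ext x
        rw [mem_filter, mem_filter]
        tauto
      · intro x hx
        have hx' := mem_filter.1 (mem_coe.1 hx)
        have := natAbs_mem hx'.1
        exact mem_coe.2 (mem_Ioc.2 this)
    rw [hmap, hmap, mul_sum]
    refine sum_le_sum fun M hM => ?_
    rw [mem_Ioc] at hM
    by_cases hB : tame p (vl M) ∧ 2 * C1 p * (C * T M) < ((Ga N M).card : ℝ)
    · have haM : aa < M ^ 2 := Bs.lt_sq (by omega)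
      have h3 := card_bad hC0 hC haM hE hz hB.1 (log_le haM hN5 hζ hM.2) (hT0 M) hB.2
      refine (card_le_card fun x hx => ?_).trans (h3.trans
        (Nat.mul_le_mul_left 2 (card_le_card fun x hx => ?_)))
      · unfold Ga
        rw [mem_filter] at hx ⊢
        exact ⟨hx.1, hx.2.1⟩
      · unfold Ga at hx
        rw [mem_filter, mem_filter] at hx
        rw [mem_filter]
        refine ⟨hx.1.1, hx.1.2, ?_⟩
        have h4 := hx.2
        simp only [hTd] at h4
        rw [mq, hx.1.2]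
        exact h4
    · refine le_trans (le_of_eq (card_eq_zero.2 (filter_eq_empty_iff.2 fun x hxG hx => hB ?_)))
        (Nat.zero_le _)
      obtain ⟨b1, b2, b3⟩ := hx
      rw [hfib x hxG] at b3
      unfold mq at b2
      rw [b1] at b2 b3
      refine ⟨b2, ?_⟩
      simp only [hTd]
      calc 2 * C1 p * (C * (K₁ * 2 ^ om p N (vl M) / Real.log (zz p N))) =
          2 * C1 p * (C * K₁) * 2 ^ om p N (vl M) / Real.log (zz p N) := by ring
        _ < _ := b3
  have hsub : (Gam N 1 3).filter (fun x =>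
      2 * C1 p * (C * K₁) * 2 ^ om p N (vl (mm x).natAbs) / Real.log (zz p N) <
        (((Gam N 1 3).filter (fun y => mm y = mm x)).card : ℝ)) ⊆
      (Gam N 1 3).filter (fun x => ¬ tame p (mq x)) ∪
      (Gam N 1 3).filter (fun x => tame p (mq x) ∧
      2 * C1 p * (C * K₁) * 2 ^ om p N (vl (mm x).natAbs) / Real.log (zz p N) <
        (((Gam N 1 3).filter (fun y => mm y = mm x)).card : ℝ)) := by
    intro x hx
    rw [mem_filter] at hx
    rw [mem_union, mem_filter, mem_filter]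
    by_cases h : tame p (mq x)
    · exact Or.inr ⟨hx.1, h, hx.2⟩
    · exact Or.inl ⟨hx.1, h⟩
  have hc := (card_le_card hsub).trans (card_union_le _ _)
  have hc' : (((Gam N 1 3).filter (fun x =>
      2 * C1 p * (C * K₁) * 2 ^ om p N (vl (mm x).natAbs) / Real.log (zz p N) <
        (((Gam N 1 3).filter (fun y => mm y = mm x)).card : ℝ))).card : ℝ) ≤
      (((Gam N 1 3).filter (fun x => ¬ tame p (mq x))).card : ℝ) +
      2 * (((Gam N 1 3).filter (fun x => K₁ * 2 ^ om p N (mq x) / Real.log (zz p N) <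
        (nus p N x : ℝ))).card : ℝ) := by
    have : _ ≤ _ + 2 * _ := hc.trans (Nat.add_le_add_left hmain _)
    exact_mod_cast this
  linarith

end

end Pool.Agent.Lib.MP391708.TG
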