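import Pool.Agent.Lib.MP_391708_nt.TG1.JDefs
import Pool.Agent.Lib.MP_391708_nt.T1.GoodL
import Pool.Agent.Lib.MP_391708_nt.TA.A3An

/-!
# Theorem T1, group J, module J2
-/

set_option autoImplicit false

namespace Pool.Agent.Lib.MP391708.TG

variable [Pool.Agent.Lib.MP391708.TG.Aa] [Pool.Agent.Lib.MP391708.TG.Frm]

open Finset Filter Topology
open Pool.Agent.Lib.MP391708.Eqd (V cross pairs)
open scoped Classical

noncomputable section

namespace NuJ2

lemma mem_PP {p : Prm} {N l : ℕ} : l ∈ PP p N ↔ (l : ℝ) < zz p N ∧ l.Prime ∧ spl l ∧ p.E < l := by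
  unfold PP
  rw [mem_filter, mem_range, Nat.lt_ceil]

lemma dvd_mq_iff (l : ℕ) (x : VV) : l ∣ mq x ↔ (l : ℤ) ∣ mm x ^ 2 + az := by
  unfold mq
  rw [natCast_dvd_vl, Int.natCast_natAbs, sq_abs]

lemma cg_mm {q : ℕ} {x y : VV} (h : cg q x y) : (q : ℤ) ∣ mm x - mm y := by
  obtain ⟨h1, h2, h3, h4⟩ := h
  unfold mm dot
  have e : Frm.A * (x.1.1 * x.2.1) + Frm.B * (x.1.1 * x.2.2 + x.1.2 * x.2.1) +
      Frm.C * (x.1.2 * x.2.2) - (Frm.A * (y.1.1 * y.2.1) + Frm.B * (y.1.1 * y.2.2 + y.1.2 * y.2.1) +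
      Frm.C * (y.1.2 * y.2.2)) =
      (x.1.1 - y.1.1) * (Frm.A * x.2.1 + Frm.B * x.2.2) +
      (x.1.2 - y.1.2) * (Frm.B * x.2.1 + Frm.C * x.2.2) +
      (x.2.1 - y.2.1) * (Frm.A * y.1.1 + Frm.B * y.1.2) +
      (x.2.2 - y.2.2) * (Frm.B * y.1.1 + Frm.C * y.1.2) := by ring
  rw [e]
  exact dvd_add (dvd_add (dvd_add (Dvd.dvd.mul_right h1 _) (Dvd.dvd.mul_right h2 _))
    (Dvd.dvd.mul_right h3 _)) (Dvd.dvd.mul_right h4 _)

lemma cg_dvd_mq {l : ℕ} {x y : VV} (h : cg l x y) : l ∣ mq x ↔ l ∣ mq y := by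
  rw [dvd_mq_iff, dvd_mq_iff]
  have h1 : (l : ℤ) ∣ (mm x ^ 2 + az) - (mm y ^ 2 + az) := by
    have e : (mm x ^ 2 + az) - (mm y ^ 2 + az) = (mm x - mm y) * (mm x + mm y) := by ring
    rw [e]
    exact Dvd.dvd.mul_right (cg_mm h) _
  constructor
  · intro h2
    have := dvd_sub h2 h1
    rwa [sub_sub_cancel] at this
  · intro h2
    have := dvd_add h1 h2
    rwa [sub_add_cancel] at this

lemma mean_nonneg {q : ℕ} {F : VV → ℝ} (hF : ∀ x, 0 ≤ F x) : 0 ≤ mean q F :=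
  div_nonneg (sum_nonneg fun _ _ => hF _) (Nat.cast_nonneg _)

lemma mean_mul_left (q : ℕ) (c : ℝ) (F : VV → ℝ) : mean q (fun x => c * F x) = c * mean q F := by
  unfold mean
  rw [← mul_sum, mul_div_assoc]

lemma mean_zero (q : ℕ) : mean q (fun _ => 0) = 0 := by
  unfold mean
  simp

lemma sum_sq_PP (p : Prm) (N : ℕ) (S : Finset ℕ) (hS : S ⊆ PP p N) :
    ∑ l ∈ S, 1 / (l : ℝ) ^ 2 ≤ 1 := by
  obtain ⟨y, hy⟩ : ∃ y : ℕ, ∀ l ∈ S, l ∈ Icc 2 (y + 1) := by
    refine ⟨∑ l ∈ S, l, fun l hl => ?_⟩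
    rw [mem_Icc]
    have h1 := (mem_PP.1 (hS hl)).2.1.two_le
    have h2 : l ≤ ∑ l ∈ S, l := single_le_sum (f := fun l => l) (fun _ _ => Nat.zero_le _) hl
    omega
  have h1 := Pool.Agent.Lib.MP_391708_nt.Many.sum_inv_mul_pred_le y
  have h0 : (0 : ℝ) < 1 / ((y : ℝ) + 1) := by positivity
  have h2 : ∑ l ∈ S, 1 / (l : ℝ) ^ 2 ≤ ∑ n ∈ Icc 1 (y + 1), 1 / ((n : ℝ) * (n - 1)) := by
    calc ∑ l ∈ S, 1 / (l : ℝ) ^ 2 ≤ ∑ l ∈ S, 1 / ((l : ℝ) * (l - 1)) := by
          refine sum_le_sum fun l hl => ?_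
          have h3 := hy l hl
          rw [mem_Icc] at h3
          have h4 : (2 : ℝ) ≤ l := by exact_mod_cast h3.1
          apply one_div_le_one_div_of_le (by nlinarith) (by nlinarith)
      _ ≤ _ := by
          refine sum_le_sum_of_subset_of_nonneg ?_ ?_
          · intro l hl
            have h3 := hy l hl
            rw [mem_Icc] at h3 ⊢
            omega
          · intro n hn _
            rw [mem_Icc] at hn
            have : (1 : ℝ) ≤ n := by exact_mod_cast hn.1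
            apply div_nonneg zero_le_one
            apply mul_nonneg <;> linarith
  linarith

lemma one_lt_log3 : 1 < Real.log 3 := by
  rw [Real.lt_log_iff_exp_lt (by norm_num)]
  exact Real.exp_one_lt_d9.trans (by norm_num)

/-- Mertens for the sieving primes `≥ w` -/
lemma sum_ge : ∃ C : ℝ, 0 < C ∧ ∀ (p : Prm) (N : ℕ) (w : ℝ), 3 ≤ w → (p.E : ℝ) < w →
    w ≤ zz p N → Real.log (Real.log (zz p N)) - Real.log (Real.log w) - C ≤
      ∑ l ∈ (PP p N).filter (fun l : ℕ => w ≤ (l : ℝ)), 2 / (l : ℝ) := by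
  obtain ⟨C, hC0, hC⟩ := TA.A3.mert az_ne nsq_az
  refine ⟨4 * C + Real.log 2, by have := Real.log_pos one_lt_two; linarith,
    fun p N w hw hE hwz => ?_⟩
  set z := zz p N with hz
  have hl3 := one_lt_log3
  have hw0 : (0 : ℝ) < w := by linarith
  have hlw : 1 < Real.log w := hl3.trans_le (Real.log_le_log (by norm_num) hw)
  have hlz : Real.log w ≤ Real.log z := Real.log_le_log hw0 hwz
  have hS0 : 0 ≤ ∑ l ∈ (PP p N).filter (fun l : ℕ => w ≤ (l : ℝ)), 2 / (l : ℝ) :=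
    sum_nonneg fun l _ => by positivity
  rcases lt_or_ge z 9 with h9 | h9
  · -- small `z`
    have h1 : Real.log z ≤ 2 * Real.log w := by
      have h2 : Real.log z ≤ Real.log (3 ^ 2 : ℝ) :=
        Real.log_le_log (by linarith) (by linarith)
      rw [Real.log_pow] at h2
      push_cast at h2
      have h3 : Real.log 3 ≤ Real.log w := Real.log_le_log (by norm_num) hw
      linarith
    have h2 : Real.log (Real.log z) ≤ Real.log 2 + Real.log (Real.log w) := by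
      rw [← Real.log_mul (by norm_num) (by linarith)]
      exact Real.log_le_log (by linarith) h1
    linarith
  set y₁ := ⌈z⌉₊ - 1 with hy₁
  set y₀ := ⌊w⌋₊ with hy₀
  have hc1 : (9 : ℝ) ≤ ⌈z⌉₊ := h9.trans (Nat.le_ceil z)
  have hc1' : 9 ≤ ⌈z⌉₊ := by exact_mod_cast hc1
  have hy3 : 3 ≤ y₁ := by omega
  have hy03 : 3 ≤ y₀ := Nat.le_floor (by exact_mod_cast hw)
  have hy1c : (y₁ : ℝ) = ⌈z⌉₊ - 1 := by
    rw [hy₁, Nat.cast_sub (by omega)]
    simp
  have hyz : z - 1 ≤ y₁ := by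
    have h2 := Nat.le_ceil z
    linarith
  have hyz' : (y₁ : ℝ) < z := by
    have h2 := Nat.ceil_lt_add_one (by linarith : 0 ≤ z)
    linarith
  have h2 : 1 / 2 * Real.log z ≤ Real.log y₁ := by
    have h3 : Real.sqrt z ≤ z - 1 := by
      rw [Real.sqrt_le_left (by linarith)]
      nlinarith
    have h4 : 1 / 2 * Real.log z = Real.log (Real.sqrt z) := by
      rw [Real.log_sqrt (by linarith)]
      ring
    rw [h4]
    exact Real.log_le_log (Real.sqrt_pos.2 (by linarith)) (h3.trans hyz)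
  have h5 : Real.log (Real.log z) - Real.log 2 ≤ Real.log (Real.log y₁) := by
    rw [← Real.log_div (by linarith) (by norm_num)]
    refine Real.log_le_log (by linarith) ?_
    linarith
  have h6 : Real.log (Real.log y₀) ≤ Real.log (Real.log w) := by
    have h7 : (3 : ℝ) ≤ y₀ := by exact_mod_cast hy03
    have h8 : (y₀ : ℝ) ≤ w := Nat.floor_le hw0.le
    have h10 : Real.log 3 ≤ Real.log y₀ := Real.log_le_log (by norm_num) h7
    exact Real.log_le_log (by linarith) (Real.log_le_log (by linarith) h8)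
  have hm1 := (abs_le.1 (hC y₁ hy3)).1
  have hm0 := (abs_le.1 (hC y₀ hy03)).2
  have hsub : TA.A3.P1 az y₁ ⊆
      (PP p N).filter (fun l : ℕ => w ≤ (l : ℝ)) ∪ TA.A3.P1 az y₀ := by
    intro l hl
    unfold TA.A3.P1 at hl
    rw [mem_filter, mem_Icc] at hl
    obtain ⟨⟨hl1, hl2⟩, hl3, hl4⟩ := hl
    rw [mem_union]
    by_cases h : l ≤ y₀
    · right
      unfold TA.A3.P1
      rw [mem_filter, mem_Icc]
      exact ⟨⟨hl1, h⟩, hl3, hl4⟩
    · left
      have hwl : w < (l : ℝ) := by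
        rw [hy₀] at h
        exact (Nat.floor_lt hw0.le).1 (not_le.1 h)
      rw [mem_filter, mem_PP]
      refine ⟨⟨?_, hl3, hl4, ?_⟩, hwl.le⟩
      · exact lt_of_le_of_lt (by exact_mod_cast hl2) hyz'
      · exact_mod_cast hE.trans hwl
  have h7 := sum_le_sum_of_subset_of_nonneg (f := fun l : ℕ => 1 / (l : ℝ)) hsub
    (fun l _ _ => by positivity)
  have h8 := sum_union_inter (s₁ := (PP p N).filter (fun l : ℕ => w ≤ (l : ℝ)))
    (s₂ := TA.A3.P1 az y₀) (f := fun l : ℕ => 1 / (l : ℝ))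
  have h10 : 0 ≤ ∑ l ∈ (PP p N).filter (fun l : ℕ => w ≤ (l : ℝ)) ∩ TA.A3.P1 az y₀,
      (fun l : ℕ => 1 / (l : ℝ)) l := sum_nonneg fun l _ => by positivity
  have h11 : ∑ l ∈ (PP p N).filter (fun l : ℕ => w ≤ (l : ℝ)), 2 / (l : ℝ) =
      2 * ∑ l ∈ (PP p N).filter (fun l : ℕ => w ≤ (l : ℝ)), 1 / (l : ℝ) := by
    rw [mul_sum]
    exact sum_congr rfl fun l _ => by ring
  rw [h11]
  linarith

/-- the product of the local factors -/
lemma prod_bound {C : ℝ} (p : Prm) (N : ℕ) (w : ℝ)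
    (hC : Real.log (Real.log (zz p N)) - Real.log (Real.log w) - C ≤
      ∑ l ∈ (PP p N).filter (fun l : ℕ => w ≤ (l : ℝ)), 2 / (l : ℝ)) (μ : ℕ → ℝ)
    (h0 : ∀ l ∈ PP p N, μ l ≤ 1) (h1 : ∀ l ∈ PP p N, 0 ≤ μ l)
    (h2 : ∀ l ∈ PP p N, w ≤ (l : ℝ) → 1 / (l : ℝ) - 2 * (1 / (l : ℝ) ^ 2) ≤ μ l) :
    ∏ l ∈ PP p N, (1 - μ l) ≤
      Real.exp (2 + C / 2 - (Real.log (Real.log (zz p N)) - Real.log (Real.log w)) / 2) := by
  set A := (PP p N).filter (fun l : ℕ => w ≤ (l : ℝ)) with hA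
  have h3 : ∏ l ∈ PP p N, (1 - μ l) ≤
      ∏ l ∈ A, Real.exp (-(1 / (l : ℝ)) + 2 * (1 / (l : ℝ) ^ 2)) := by
    rw [hA, prod_filter (fun l : ℕ => w ≤ (l : ℝ))]
    refine prod_le_prod (fun l hl' => ?_) fun l hl' => ?_
    · have := h0 l hl'
      linarith
    · split_ifs with h4
      · have h5 := h2 l hl' h4
        have h6 := Real.add_one_le_exp (-(1 / (l : ℝ)) + 2 * (1 / (l : ℝ) ^ 2))
        linarith
      · have := h1 l hl'
        linarith
  refine h3.trans ?_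
  rw [← Real.exp_sum, sum_add_distrib, ← mul_sum, sum_neg_distrib]
  have h5 : ∑ l ∈ A, 1 / (l : ℝ) ^ 2 ≤ 1 := sum_sq_PP p N _ (filter_subset _ _)
  have h6 : ∑ l ∈ A, 2 / (l : ℝ) = 2 * ∑ l ∈ A, 1 / (l : ℝ) := by
    rw [mul_sum]
    exact sum_congr rfl fun l _ => by ring
  apply Real.exp_le_exp.2
  linarith

lemma prod_if (S : Finset ℕ) (P : ℕ → Prop) [DecidablePred P] (a : ℝ) :
    ∏ l ∈ S, (if P l then a else 1) = a ^ (S.filter P).card := by
  rw [prod_ite, prod_const, prod_const_one, mul_one]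

/-- the exponential moment at the scale `w` -/
lemma moment {c : ℝ} (hc : 0 < c) {C : ℝ}
    (hC : ∀ (p : Prm) (N : ℕ) (w : ℝ), 3 ≤ w → (p.E : ℝ) < w →
    w ≤ zz p N → Real.log (Real.log (zz p N)) - Real.log (Real.log w) - C ≤
      ∑ l ∈ (PP p N).filter (fun l : ℕ => w ≤ (l : ℝ)), 2 / (l : ℝ)) (hLM : SpecLM1)
    (p : Prm) (N : ℕ) (hN1 : 1 ≤ N) (hz1 : 1 ≤ zz p N)
    (hN : ∀ (N₁ m : ℕ) (w F : VV → ℝ) (f : ℕ → VV → ℝ) (α β : ℝ), N ≤ 4 * N₁ → N₁ ≤ 8 * N →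
    0 < m → (m : ℝ) ≤ ML p N →
    Loc (PP p N) ((1 : ℕ) : ℝ) m w F f → (N : ℝ) ^ (-c) ≤ α → α < β → β ≤ 20 →
    |∑ x ∈ Gam N₁ α β, w x - ((Gam N₁ α β).card : ℝ) * mean m F *
        ∏ l ∈ (PP p N).filter (fun l => ¬ l ∣ m), (1 - mean l (fun x => 1 - f l x))| ≤
      1 * (((Gam N₁ α β).card : ℝ) * mean m F *
        ∏ l ∈ (PP p N).filter (fun l => ¬ l ∣ m), (1 - mean l (fun x => 1 - f l x))) +
      (N : ℝ) ^ (1 - c))
    (w : ℝ) (hw3 : 3 ≤ w) (hwE : (p.E : ℝ) < w) (hwz : w ≤ zz p N) :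
    ∑ x ∈ Gam N 1 3, (3 / 4 : ℝ) ^ omg p N w (mq x) ≤
      2 * Real.exp (2 + C / 2 - (Real.log (Real.log (zz p N)) - Real.log (Real.log w)) / 2) *
        ((Gam N 1 3).card : ℝ) + (N : ℝ) ^ (1 - c) := by
  have hN1' : (1 : ℝ) ≤ N := by exact_mod_cast hN1
  set f : ℕ → VV → ℝ := fun l x => if w ≤ (l : ℝ) ∧ l ∣ mq x then 3 / 4 else 1 with hf
  have hf1 : ∀ l : ℕ, w ≤ (l : ℝ) → (fun x => 1 - f l x) =
      fun x => (1 / 4 : ℝ) * (if l ∣ mq x then 1 else 0) := by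
    intro l hlw
    funext x
    simp only [hf]
    by_cases h : l ∣ mq x
    · rw [if_pos ⟨hlw, h⟩, if_pos h]; norm_num
    · rw [if_neg (fun h' => h h'.2), if_neg h]; norm_num
  have hf2 : ∀ l : ℕ, ¬ w ≤ (l : ℝ) → (fun x => 1 - f l x) = fun _ => 0 := by
    intro l hlw
    funext x
    simp only [hf]
    rw [if_neg (fun h' => hlw h'.1)]
    norm_num
  have hμ : ∀ l ∈ PP p N, 0 ≤ mean l (fun x => 1 - f l x) ∧
      mean l (fun x => 1 - f l x) ≤ 1 / (l : ℝ) ∧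
      (w ≤ (l : ℝ) → 1 / (l : ℝ) - 2 * (1 / (l : ℝ) ^ 2) ≤ mean l (fun x => 1 - f l x)) := by
    intro l hlP
    obtain ⟨_, hlp, hl4, _⟩ := mem_PP.1 hlP
    have hl0 : (0 : ℝ) < l := by exact_mod_cast hlp.pos
    have hl1 : (1 : ℝ) ≤ l := by exact_mod_cast hlp.one_lt.le
    by_cases hlw : w ≤ (l : ℝ)
    · rw [hf1 l hlw, mean_mul_left, hLM l hlp hl4]
      have e : 1 / 4 * ((4 * (l : ℝ) - 2) / (l * (l + 1))) =
          1 / (l : ℝ) - 3 / 2 * (1 / ((l : ℝ) * (l + 1))) := by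
        field_simp
        ring
      have h5 : 1 / ((l : ℝ) * (l + 1)) ≤ 1 / (l : ℝ) ^ 2 :=
        one_div_le_one_div_of_le (by positivity) (by nlinarith)
      have h6 : 0 < 1 / ((l : ℝ) * (l + 1)) := by positivity
      refine ⟨?_, ?_, fun _ => ?_⟩
      · apply mul_nonneg (by norm_num)
        apply div_nonneg _ (by positivity)
        linarith
      · rw [e]
        linarith
      · rw [e]
        linarith
    · rw [hf2 l hlw, mean_zero]
      exact ⟨le_rfl, by positivity, fun h => absurd h hlw⟩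
  have hfil : (PP p N).filter (fun l => ¬ l ∣ 1) = PP p N := by
    refine filter_true_of_mem fun l hl h => ?_
    exact (mem_PP.1 hl).2.1.one_lt.ne' (Nat.dvd_one.1 h)
  have hloc : Loc (PP p N) ((1 : ℕ) : ℝ) 1
      (fun x => (1 : ℝ) * ∏ l ∈ (PP p N).filter (fun l => ¬ l ∣ 1), f l x) (fun _ => 1) f := by
    refine ⟨fun x _ => rfl, ?_, ?_, ?_, ?_, ?_, ?_, ?_⟩
    · intro x y _; rfl
    · intro x; exact zero_le_one
    · intro x; exact le_rfl
    · intro l _ _ x y hxy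
      simp only [hf]
      exact if_congr (and_congr_right fun _ => cg_dvd_mq hxy) rfl rfl
    · intro l _ _ x; simp only [hf]; split_ifs <;> norm_num
    · intro l _ _ x; simp only [hf]; split_ifs <;> norm_num
    · intro l hl' _
      exact_mod_cast (hμ l hl').2.1
  have hML : ((1 : ℕ) : ℝ) ≤ ML p N := by
    rw [Nat.cast_one]
    unfold ML
    exact one_le_pow₀ hz1
  have hmain := hN N 1 _ (fun _ => 1) f 1 3 (by omega) (by omega) one_pos hML hloc
    (Real.rpow_le_one_of_one_le_of_nonpos hN1' (by linarith)) (by norm_num) (by norm_num)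
  rw [hfil] at hmain
  have hup := (abs_le.1 hmain).2
  rw [one_mul] at hup
  have hprod := prod_bound p N w (hC p N w hw3 hwE hwz) (fun l => mean l (fun x => 1 - f l x))
    (fun l hl' => by
      have h5 := (hμ l hl').2.1
      have h6 : (1 : ℝ) ≤ l := by exact_mod_cast (mem_PP.1 hl').2.1.one_lt.le
      have h7 : 1 / (l : ℝ) ≤ 1 := by
        rw [div_le_one (by linarith)]
        exact h6
      linarith) (fun l hl' => (hμ l hl').1) (fun l hl' => (hμ l hl').2.2)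
  set Pr := ∏ l ∈ PP p N, (1 - mean l (fun x => 1 - f l x)) with hPr
  have hPr0 : 0 ≤ Pr := by
    refine prod_nonneg fun l hl' => ?_
    have h5 := (hμ l hl').2.1
    have h6 : (1 : ℝ) ≤ l := by exact_mod_cast (mem_PP.1 hl').2.1.one_lt.le
    have h7 : 1 / (l : ℝ) ≤ 1 := by
      rw [div_le_one (by linarith)]
      exact h6
    linarith
  have hm1 : mean 1 (fun _ => (1 : ℝ)) ≤ 1 := by
    unfold mean
    rw [sum_const, nsmul_eq_mul, mul_one]
    exact div_self_le_one _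
  have hm0 : 0 ≤ mean 1 (fun _ => (1 : ℝ)) := mean_nonneg fun _ => zero_le_one
  have hG0 : (0 : ℝ) ≤ (Gam N 1 3).card := Nat.cast_nonneg _
  have hsum : ∑ x ∈ Gam N 1 3, (3 / 4 : ℝ) ^ omg p N w (mq x) =
      ∑ x ∈ Gam N 1 3, (1 : ℝ) * ∏ l ∈ PP p N, f l x := by
    refine sum_congr rfl fun x _ => ?_
    simp only [hf]
    rw [one_mul, prod_if]
    rfl
  rw [hsum]
  have h8 : ((Gam N 1 3).card : ℝ) * mean 1 (fun _ => (1 : ℝ)) * Pr ≤ ((Gam N 1 3).card : ℝ) * 1 *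
      Real.exp (2 + C / 2 - (Real.log (Real.log (zz p N)) - Real.log (Real.log w)) / 2) :=
    mul_le_mul (mul_le_mul_of_nonneg_left hm1 hG0) hprod hPr0 (by positivity)
  linarith

lemma wi_facts {p : Prm} {N i : ℕ} (hE3 : 3 ≤ p.E) (hz1 : 1 < zz p N)
    (hi : (p.E : ℝ) < wi p N i) : 3 ≤ wi p N i ∧ wi p N i ≤ zz p N ∧
    Real.log (Real.log (zz p N)) - Real.log (Real.log (wi p N i)) = i * Real.log 2 ∧
    (2 : ℝ) ^ i < Real.log (zz p N) := by
  have hE3' : (3 : ℝ) ≤ p.E := by exact_mod_cast hE3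
  have hz0 : 0 < zz p N := by linarith
  have hlz : 0 < Real.log (zz p N) := Real.log_pos hz1
  have h2i : (0 : ℝ) < (1 / 2 : ℝ) ^ i := by positivity
  have hlw : Real.log (wi p N i) = (1 / 2 : ℝ) ^ i * Real.log (zz p N) := by
    unfold wi
    rw [Real.log_rpow hz0]
  have hw3 : 3 ≤ wi p N i := by linarith
  refine ⟨hw3, ?_, ?_, ?_⟩
  · unfold wi
    calc zz p N ^ ((1 / 2 : ℝ) ^ i) ≤ zz p N ^ (1 : ℝ) := by
          apply Real.rpow_le_rpow_of_exponent_le hz1.le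
          exact pow_le_one₀ (by norm_num) (by norm_num)
      _ = zz p N := Real.rpow_one _
  · rw [hlw, Real.log_mul h2i.ne' hlz.ne', Real.log_pow]
    have : Real.log (1 / 2 : ℝ) = -Real.log 2 := by
      rw [one_div, Real.log_inv]
    rw [this]
    ring
  · have h1 : 1 < Real.log (wi p N i) := by
      have := one_lt_log3
      exact this.trans_le (Real.log_le_log (by norm_num) hw3)
    rw [hlw] at h1
    have h2 : (2 : ℝ) ^ i * (1 / 2 : ℝ) ^ i = 1 := by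
      rw [← mul_pow]; norm_num
    calc (2 : ℝ) ^ i = (2 : ℝ) ^ i * 1 := (mul_one _).symm
      _ < (2 : ℝ) ^ i * ((1 / 2 : ℝ) ^ i * Real.log (zz p N)) :=
          mul_lt_mul_of_pos_left h1 (by positivity)
      _ = Real.log (zz p N) := by rw [← mul_assoc, h2, one_mul]

/-- Markov at the scale `i` -/
lemma bad_card {p : Prm} {N : ℕ} {i : ℕ} {w T : ℝ} (n : ℕ)
    (hT : ∑ x ∈ Gam N 1 3, (3 / 4 : ℝ) ^ omg p N w (mq x) ≤ T) :
    (((Gam N 1 3).filter (fun x => (omg p N w (mq x) : ℝ) < 3 / 2 * i * Real.log 2 - n)).card : ℝ) ≤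
      (3 / 4 : ℝ) ^ n * (Real.exp (3 / 2 * Real.log 2 * Real.log (4 / 3) * i) * T) := by
  set B := (Gam N 1 3).filter (fun x => (omg p N w (mq x) : ℝ) < 3 / 2 * i * Real.log 2 - n)
    with hB
  have hl : 0 < Real.log (4 / 3) := Real.log_pos (by norm_num)
  have hl34 : Real.log (3 / 4 : ℝ) = -Real.log (4 / 3) := by
    rw [← Real.log_inv]; norm_num
  have h1 : ∀ x ∈ B, (1 : ℝ) ≤ (3 / 4 : ℝ) ^ n *
      (Real.exp (3 / 2 * Real.log 2 * Real.log (4 / 3) * i) * (3 / 4 : ℝ) ^ omg p N w (mq x)) := by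
    intro x hx
    rw [hB, mem_filter] at hx
    have h2 := hx.2
    have e : ∀ k : ℕ, (3 / 4 : ℝ) ^ k = Real.exp (-(Real.log (4 / 3) * k)) := by
      intro k
      rw [← Real.exp_log (show (0 : ℝ) < (3 / 4) ^ k by positivity), Real.log_pow, hl34]
      congr 1
      ring
    rw [e, e, ← Real.exp_add, ← Real.exp_add, Real.one_le_exp_iff]
    have h3 : Real.log (4 / 3) * ((omg p N w (mq x) : ℝ) + n) ≤
        Real.log (4 / 3) * (3 / 2 * i * Real.log 2) :=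
      mul_le_mul_of_nonneg_left (by linarith) hl.le
    linarith
  calc (B.card : ℝ) = ∑ _x ∈ B, (1 : ℝ) := by rw [sum_const, nsmul_eq_mul, mul_one]
    _ ≤ ∑ x ∈ B, (3 / 4 : ℝ) ^ n * (Real.exp (3 / 2 * Real.log 2 * Real.log (4 / 3) * i) *
        (3 / 4 : ℝ) ^ omg p N w (mq x)) := sum_le_sum h1
    _ ≤ ∑ x ∈ Gam N 1 3, (3 / 4 : ℝ) ^ n *
        (Real.exp (3 / 2 * Real.log 2 * Real.log (4 / 3) * i) *
        (3 / 4 : ℝ) ^ omg p N w (mq x)) :=
        sum_le_sum_of_subset_of_nonneg (filter_subset _ _) fun x _ _ => by positivity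
    _ = (3 / 4 : ℝ) ^ n * (Real.exp (3 / 2 * Real.log 2 * Real.log (4 / 3) * i) *
        ∑ x ∈ Gam N 1 3, (3 / 4 : ℝ) ^ omg p N w (mq x)) := by
        rw [mul_sum, mul_sum]
    _ ≤ _ := by gcongr

end NuJ2

open NuJ2 in
theorem specJ2 (hFL : SpecFL) (hCNT : SpecCNT) (h1 : SpecLM1) : SpecJ2 := by
  obtain ⟨c, hc, hFL⟩ := hFL
  obtain ⟨CM, hCM0, hCM⟩ := sum_ge
  obtain ⟨-, c₀, hc₀, hcnt⟩ := hCNT
  intro ε hε
  set θ : ℝ := 3 / 2 * Real.log 2 * Real.log (4 / 3) with hθ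
  set ρ : ℝ := Real.exp (θ - Real.log 2 / 2) with hρ
  have hl2 : 0 < Real.log 2 := Real.log_pos (by norm_num)
  have hl43 : Real.log (4 / 3) < 1 / 3 := by
    have := Real.log_lt_sub_one_of_pos (show (0 : ℝ) < 4 / 3 by norm_num) (by norm_num)
    linarith
  have hθ2 : θ < Real.log 2 / 2 := by
    have := mul_lt_mul_of_pos_left hl43 (show 0 < 3 / 2 * Real.log 2 by positivity)
    rw [hθ]
    linarith
  have hρ0 : 0 < ρ := Real.exp_pos _
  have hρ1 : ρ < 1 := by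
    rw [hρ, Real.exp_lt_one_iff]
    linarith
  have h1ρ : 0 < 1 - ρ := by linarith
  set C' : ℝ := 2 * Real.exp (2 + CM / 2) with hC'
  have hC'0 : 0 < C' := by positivity
  obtain ⟨n, hn⟩ := exists_pow_lt_of_lt_one (show 0 < ε / 2 * ((1 - ρ) / C') by positivity)
    (show (3 / 4 : ℝ) < 1 by norm_num)
  refine (((hFL 1 1 one_pos).and (Pool.Agent.Lib.MP391708.T4.Good.large_E 3)).and Pool.Agent.Lib.MP391708.T4.Good.zeta_pos).mono fun p hp => ?_
  obtain ⟨⟨hp1, hE⟩, hζ⟩ := hp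
  refine ⟨n, Nat.cast_nonneg _, ?_⟩
  -- the error term
  have herr : ∀ᶠ N : ℕ in atTop, (Real.log (zz p N) + 1) * (Real.log (zz p N) * (N : ℝ) ^ (1 - c)) ≤
      ε / 2 * (c₀ * N) := by
    have hδ : 0 < ε / 2 * c₀ / (p.ζ + 1) ^ 2 := by positivity
    have h2 := ((isLittleO_log_rpow_atTop (show 0 < c / 2 by positivity)).pow two_pos).def hδ
    have h3 := tendsto_natCast_atTop_atTop.eventually h2
    filter_upwards [h3, eventually_ge_atTop 3] with N h4 hN3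
    have hN3' : (3 : ℝ) ≤ N := by exact_mod_cast hN3
    have hN0 : (0 : ℝ) < N := by linarith
    have hlN : 1 < Real.log N :=
      one_lt_log3.trans_le (Real.log_le_log (by norm_num) hN3')
    have hlz : Real.log (zz p N) = p.ζ * Real.log N := by
      unfold zz
      rw [Real.log_rpow hN0]
    rw [Real.norm_of_nonneg (by positivity), Real.norm_of_nonneg (by positivity),
      ← Real.rpow_natCast ((N : ℝ) ^ (c / 2)), ← Real.rpow_mul hN0.le] at h4
    have e1 : c / 2 * ((2 : ℕ) : ℝ) = c := by push_cast; ring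
    rw [e1] at h4
    have h5 : (Real.log (zz p N) + 1) * Real.log (zz p N) ≤ (p.ζ + 1) ^ 2 * Real.log N ^ 2 := by
      rw [hlz]
      have h6 : p.ζ * Real.log N + 1 ≤ (p.ζ + 1) * Real.log N := by linarith
      have h7 : p.ζ * Real.log N ≤ (p.ζ + 1) * Real.log N := by linarith
      calc (p.ζ * Real.log N + 1) * (p.ζ * Real.log N) ≤
          ((p.ζ + 1) * Real.log N) * ((p.ζ + 1) * Real.log N) :=
            mul_le_mul h6 h7 (by positivity) (by positivity)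
        _ = _ := by ring
    have h8 : (p.ζ + 1) ^ 2 * Real.log N ^ 2 ≤ ε / 2 * c₀ * (N : ℝ) ^ c := by
      have := mul_le_mul_of_nonneg_left h4 (show 0 ≤ (p.ζ + 1) ^ 2 by positivity)
      refine this.trans (le_of_eq ?_)
      field_simp
    have h9 : (N : ℝ) ^ c * (N : ℝ) ^ (1 - c) = N := by
      rw [← Real.rpow_add hN0]
      have : c + (1 - c) = 1 := by ring
      rw [this, Real.rpow_one]
    calc (Real.log (zz p N) + 1) * (Real.log (zz p N) * (N : ℝ) ^ (1 - c)) =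
        (Real.log (zz p N) + 1) * Real.log (zz p N) * (N : ℝ) ^ (1 - c) := by ring
      _ ≤ ε / 2 * c₀ * (N : ℝ) ^ c * (N : ℝ) ^ (1 - c) :=
          mul_le_mul_of_nonneg_right (h5.trans h8) (by positivity)
      _ = ε / 2 * (c₀ * ((N : ℝ) ^ c * (N : ℝ) ^ (1 - c))) := by ring
      _ = _ := by rw [h9]
  filter_upwards [hp1, herr, hcnt, eventually_ge_atTop 2] with N hN herr hcnt hN2
  have hN2' : (2 : ℝ) ≤ N := by exact_mod_cast hN2
  have hz1 : 1 < zz p N := Real.one_lt_rpow (by linarith) hζ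
  have hlz : 0 < Real.log (zz p N) := Real.log_pos hz1
  have hG0 : (0 : ℝ) ≤ (Gam N 1 3).card := Nat.cast_nonneg _
  have hNc : 0 ≤ (N : ℝ) ^ (1 - c) := by positivity
  set G : ℝ := ((Gam N 1 3).card : ℝ) with hG
  -- one scale
  have hone : ∀ i : ℕ, (p.E : ℝ) < wi p N i →
      (((Gam N 1 3).filter (fun x => (omg p N (wi p N i) (mq x) : ℝ) <
        3 / 2 * i * Real.log 2 - n)).card : ℝ) ≤
      (3 / 4 : ℝ) ^ n * C' * G * ρ ^ i + Real.log (zz p N) * (N : ℝ) ^ (1 - c) := by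
    intro i hi
    obtain ⟨hw3, hwz, hll, h2i⟩ := wi_facts hE hz1 hi
    have hmom := moment hc hCM h1 p N (by omega) hz1.le hN _ hw3 hi hwz
    rw [hll] at hmom
    refine (bad_card n hmom).trans ?_
    rw [← hθ]
    have e1 : Real.exp (θ * i) * (2 * Real.exp (2 + CM / 2 - (i * Real.log 2) / 2) * G) =
        C' * G * ρ ^ i := by
      rw [hC', hρ, ← Real.exp_nat_mul]
      have : Real.exp (2 + CM / 2 - (i * Real.log 2) / 2) =
          Real.exp (2 + CM / 2) * Real.exp (-((i * Real.log 2) / 2)) := by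
        rw [← Real.exp_add]; rfl
      rw [this]
      have h3 : Real.exp (i * (θ - Real.log 2 / 2)) =
          Real.exp (θ * i) * Real.exp (-((i * Real.log 2) / 2)) := by
        rw [← Real.exp_add]; congr 1; ring
      rw [h3]
      ring
    have e2 : Real.exp (θ * i) ≤ Real.log (zz p N) := by
      refine le_trans ?_ h2i.le
      calc Real.exp (θ * i) ≤ Real.exp (Real.log 2 * i) := by
            apply Real.exp_le_exp.2
            exact mul_le_mul_of_nonneg_right (by linarith) (Nat.cast_nonneg _)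
        _ = (2 : ℝ) ^ i := by
            rw [mul_comm, Real.exp_nat_mul, Real.exp_log (by norm_num)]
    have e3 : (3 / 4 : ℝ) ^ n ≤ 1 := pow_le_one₀ (by norm_num) (by norm_num)
    calc (3 / 4 : ℝ) ^ n * (Real.exp (θ * i) *
        (2 * Real.exp (2 + CM / 2 - (i * Real.log 2) / 2) * G + (N : ℝ) ^ (1 - c))) =
        (3 / 4 : ℝ) ^ n * (Real.exp (θ * i) *
          (2 * Real.exp (2 + CM / 2 - (i * Real.log 2) / 2) * G)) +
        (3 / 4 : ℝ) ^ n * (Real.exp (θ * i) * (N : ℝ) ^ (1 - c)) := by ring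
      _ ≤ (3 / 4 : ℝ) ^ n * (C' * G * ρ ^ i) +
          1 * (Real.log (zz p N) * (N : ℝ) ^ (1 - c)) := by
          rw [e1]
          gcongr
      _ = _ := by ring
  -- union
  set R := (range (⌊Real.log (zz p N)⌋₊ + 1)).filter (fun i : ℕ => (p.E : ℝ) < wi p N i) with hR
  have hsub : (Gam N 1 3).filter (fun x => ∃ i : ℕ, (p.E : ℝ) < wi p N i ∧
      (omg p N (wi p N i) (mq x) : ℝ) < 3 / 2 * i * Real.log 2 - n) ⊆
      R.biUnion (fun i => (Gam N 1 3).filter (fun x => (omg p N (wi p N i) (mq x) : ℝ) <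
        3 / 2 * i * Real.log 2 - n)) := by
    intro x hx
    rw [mem_filter] at hx
    obtain ⟨hx1, i, hi1, hi2⟩ := hx
    rw [mem_biUnion]
    refine ⟨i, ?_, ?_⟩
    · rw [hR, mem_filter, mem_range]
      refine ⟨?_, hi1⟩
      obtain ⟨-, -, -, h2i⟩ := wi_facts hE hz1 hi1
      have h3 : (i : ℝ) < (2 : ℝ) ^ i := by exact_mod_cast i.lt_two_pow_self
      have h4 : i ≤ ⌊Real.log (zz p N)⌋₊ := Nat.le_floor (h3.trans h2i).le
      omega
    · rw [mem_filter]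
      exact ⟨hx1, hi2⟩
  have hcard := (card_le_card hsub).trans card_biUnion_le
  have hcard' : (((Gam N 1 3).filter (fun x => ∃ i : ℕ, (p.E : ℝ) < wi p N i ∧
      (omg p N (wi p N i) (mq x) : ℝ) < 3 / 2 * i * Real.log 2 - n)).card : ℝ) ≤
      ∑ i ∈ R, (((Gam N 1 3).filter (fun x => (omg p N (wi p N i) (mq x) : ℝ) <
        3 / 2 * i * Real.log 2 - n)).card : ℝ) := by exact_mod_cast hcard
  refine hcard'.trans ?_
  have h2 : ∑ i ∈ R, (((Gam N 1 3).filter (fun x => (omg p N (wi p N i) (mq x) : ℝ) <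
        3 / 2 * i * Real.log 2 - n)).card : ℝ) ≤
      ∑ i ∈ R, ((3 / 4 : ℝ) ^ n * C' * G * ρ ^ i + Real.log (zz p N) * (N : ℝ) ^ (1 - c)) := by
    refine sum_le_sum fun i hi => hone i ?_
    rw [hR, mem_filter] at hi
    exact hi.2
  have h3 : ∑ i ∈ R, ((3 / 4 : ℝ) ^ n * C' * G * ρ ^ i +
      Real.log (zz p N) * (N : ℝ) ^ (1 - c)) ≤
      ∑ i ∈ range (⌊Real.log (zz p N)⌋₊ + 1), ((3 / 4 : ℝ) ^ n * C' * G * ρ ^ i +
      Real.log (zz p N) * (N : ℝ) ^ (1 - c)) :=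
    sum_le_sum_of_subset_of_nonneg (filter_subset _ _) fun i _ _ => by positivity
  have h3' : ∑ i ∈ range (⌊Real.log (zz p N)⌋₊ + 1), ((3 / 4 : ℝ) ^ n * C' * G * ρ ^ i +
      Real.log (zz p N) * (N : ℝ) ^ (1 - c)) =
      (3 / 4 : ℝ) ^ n * C' * G * ∑ i ∈ range (⌊Real.log (zz p N)⌋₊ + 1), ρ ^ i +
      ((⌊Real.log (zz p N)⌋₊ + 1 : ℕ) : ℝ) * (Real.log (zz p N) * (N : ℝ) ^ (1 - c)) := by
    rw [sum_add_distrib, ← mul_sum, sum_const, card_range, nsmul_eq_mul]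
  have h4 : ∑ i ∈ range (⌊Real.log (zz p N)⌋₊ + 1), ρ ^ i ≤ 1 / (1 - ρ) := by
    have h5 := (summable_geometric_of_lt_one hρ0.le hρ1).sum_le_tsum
      (range (⌊Real.log (zz p N)⌋₊ + 1)) fun i _ => by positivity
    rw [tsum_geometric_of_lt_one hρ0.le hρ1] at h5
    rw [one_div]
    exact h5
  have h5 : (3 / 4 : ℝ) ^ n * C' * G * (1 / (1 - ρ)) ≤ ε / 2 * G := by
    have h6 : (3 / 4 : ℝ) ^ n * (C' * (1 / (1 - ρ))) ≤ ε / 2 := by
      have h7 := mul_le_mul_of_nonneg_right hn.le (show 0 ≤ C' * (1 / (1 - ρ)) by positivity)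
      refine h7.trans (le_of_eq ?_)
      field_simp
    calc (3 / 4 : ℝ) ^ n * C' * G * (1 / (1 - ρ)) =
        (3 / 4 : ℝ) ^ n * (C' * (1 / (1 - ρ))) * G := by ring
      _ ≤ _ := mul_le_mul_of_nonneg_right h6 hG0
  have h6 : ((⌊Real.log (zz p N)⌋₊ + 1 : ℕ) : ℝ) * (Real.log (zz p N) * (N : ℝ) ^ (1 - c)) ≤
      (Real.log (zz p N) + 1) * (Real.log (zz p N) * (N : ℝ) ^ (1 - c)) := by
    apply mul_le_mul_of_nonneg_right _ (by positivity)
    push_cast
    have := Nat.floor_le hlz.le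
    linarith
  have h7 : (3 / 4 : ℝ) ^ n * C' * G * ∑ i ∈ range (⌊Real.log (zz p N)⌋₊ + 1), ρ ^ i ≤
      (3 / 4 : ℝ) ^ n * C' * G * (1 / (1 - ρ)) :=
    mul_le_mul_of_nonneg_left h4 (by positivity)
  have h8 : ε / 2 * (c₀ * N) ≤ ε / 2 * G := mul_le_mul_of_nonneg_left hcnt (by positivity)
  linarith

end

end Pool.Agent.Lib.MP391708.TG
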