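import Pool.Agent.Lib.MP_391708_nt.TG1.NuJF
import Pool.Agent.Lib.MP_391708_nt.TG1.NuJ2
import Pool.Agent.Lib.MP_391708_nt.TG1.NuJ0
import Pool.Agent.Lib.MP_391708_nt.TG1.NuD
import Pool.Agent.Lib.MP_391708_nt.TG1.NuLM

/-!
# Theorem T1a, group J: the bound for the number of critical divisors
-/

set_option autoImplicit false

namespace Pool.Agent.Lib.MP391708.TG

open NuJF

variable [Aa] [Frm]

/-- **NU** -/
theorem specNU (hFL : SpecFL) (hCNT : SpecCNT) (hAUT : SpecAUT) (hTyp : SpecTyp) : SpecNU :=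
  specJ0 hAUT (specTMT hTyp) (specNUS_of hCNT (specSMT hTyp) (specJ2 hFL hCNT specLM1)
    (specJ3 hFL specLM1 specLM2))

end Pool.Agent.Lib.MP391708.TG
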