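import Pool.Agent.Lib.MP_391708_nt.TG1.TypA
import Pool.Agent.Lib.MP_391708_nt.TG1.A3An
import Pool.Agent.Lib.MP_391708_nt.TG.SpecH
import Pool.Agent.Lib.MP_391708_nt.TG.Basic
import Pool.Agent.Lib.MP_5b6025_nt.RP.Mertens

/-!
# T1b, group F, part B: the Chernoff bound and the typical pairs (`T1/TypB`, `T1/TypC`)
-/

set_option autoImplicit false

namespace Pool.Agent.Lib.MP391708.TG

variable [Pool.Agent.Lib.MP391708.TG.Aa] [Pool.Agent.Lib.MP391708.TG.Frm]

open Finset Filter Topology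
open Pool.Agent.Lib.MP391708.Eqd (V cross pairs)
open scoped Classical

open Pool.Agent.Lib.MP391708.T4 (per_iff mean_eq)

namespace TypM

/-! ### Chernoff -/

omit [Aa] [Frm] in
lemma mean_one : mean 1 (fun _ => (1 : ℝ)) = 1 := by
  rw [mean_eq one_pos]
  have : NeZero (1 : ℕ) := ⟨one_ne_zero⟩
  exact T1.mn_const 1 1

omit [Aa] [Frm] in
lemma mean_smul (q : ℕ) (a : ℝ) (F : VV → ℝ) : mean q (fun x => a * F x) = a * mean q F := by
  unfold mean
  rw [← Finset.mul_sum, mul_div_assoc]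

/-- the local factor of the Chernoff weight -/
noncomputable def fC (L : ℝ) (l : ℕ) (x : VV) : ℝ := 1 - (1 - L) * iD l x

lemma fC_eq (L : ℝ) (l : ℕ) (x : VV) : fC L l x = if l ∣ vl (mm x).natAbs then L else 1 := by
  unfold fC iD
  by_cases h : (l : ℤ) ∣ dot x.1 x.2 ^ 2 + az
  · rw [if_pos h, if_pos ((dvd_iff l x).2 h)]; ring
  · rw [if_neg h, if_neg (fun h' => h ((dvd_iff l x).1 h'))]; ring

lemma prod_fC (p : Prm) (N : ℕ) (L : ℝ) (x : VV) :
    ∏ l ∈ PP p N, fC L l x = L ^ om p N (vl (mm x).natAbs) := by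
  simp only [fC_eq]
  rw [Finset.prod_ite, Finset.prod_const_one, mul_one, Finset.prod_const]
  rfl

omit [Aa] [Frm] in
lemma zz_ge_one {p : Prm} {N : ℕ} (hN : 1 ≤ N) (hζ : 0 < p.ζ) : 1 ≤ zz p N :=
  Real.one_le_rpow (by exact_mod_cast hN) hζ.le

omit [Frm] in
lemma S0_nonneg' (p : Prm) (N : ℕ) : 0 ≤ S0 p N :=
  Finset.sum_nonneg fun _ _ => by positivity

/-- the Loc structure -/
lemma loc_fC (p : Prm) (N : ℕ) {L : ℝ} (hL0 : 0 < L) (hL1 : L ≤ 1) :
    Loc (PP p N) (4 : ℕ) 1 (fun x => ∏ l ∈ PP p N, fC L l x) (fun _ => 1) (fC L) where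
  w_eq := by
    intro x _
    rw [one_mul]
    refine Finset.prod_congr ?_ fun _ _ => rfl
    symm
    rw [Finset.filter_eq_self]
    intro l hl h
    exact (PP_spec hl).1.one_lt.ne' (Nat.dvd_one.1 h)
  perF := fun _ _ _ => rfl
  F_nn := fun _ => zero_le_one
  F_le := fun _ => le_rfl
  perf := by
    intro l _ _ x y h
    unfold fC
    rw [per_iD l x y h]
  f_nn := by
    intro l _ _ x
    rw [fC_eq]; split_ifs
    · exact hL0.le
    · exact zero_le_one
  f_le := by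
    intro l _ _ x
    rw [fC_eq]; split_ifs
    · exact hL1
    · exact le_rfl
  f_mean := by
    intro l hl _
    have e : (fun x => 1 - fC L l x) = fun x => (1 - L) * iD l x := by
      funext x; unfold fC; ring
    rw [e, mean_smul]
    have h1 := mean_pow_le (k := 1) (PP_spec hl).1 (PP_not_dvd hl) one_pos one_le_two
    rw [pow_one] at h1
    norm_num at h1
    have h2 : 0 ≤ mean l (iD l) := by
      unfold mean
      exact div_nonneg (Finset.sum_nonneg fun x _ => iD_nonneg l x) (Nat.cast_nonneg _)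
    push_cast
    calc (1 - L) * mean l (iD l) ≤ 1 * mean l (iD l) :=
          mul_le_mul_of_nonneg_right (by linarith) h2
      _ ≤ _ := by rw [one_mul]; exact h1

/-- **FC** -/
theorem specFC (hFL : SpecFL) (hC : SpecCNT) : H.SpecFC := by
  obtain ⟨c, hc0, hF⟩ := hFL
  obtain ⟨-, c₁, hc₁, hG⟩ := hC
  intro L hL0 hL1
  refine ⟨3 * Real.exp 12, by positivity, ?_⟩
  have hgood := hF 4 1 one_pos
  refine ((hgood.and (T4.Good.zeta_le (fun _ _ _ _ => c / 8) (fun _ _ _ _ => by positivity))).and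
    T4.Good.zeta_pos).mono ?_
  rintro p ⟨⟨hp, hζ⟩, hζ0⟩
  replace hζ : p.ζ ≤ c / 8 := hζ
  obtain ⟨C₂, hC₂, hS⟩ := A3.exp_S0_le p hζ0
  filter_upwards [hp, hG, hS, ev_rpow (show 0 < c / 2 by positivity) (C₂ ^ 2 / c₁),
    eventually_ge_atTop 1] with N hN hG hS hN4 hN1
  obtain ⟨hS1, hlz, -⟩ := hS
  have hN1' : (1 : ℝ) ≤ N := by exact_mod_cast hN1
  have hN0 : (0 : ℝ) < N := by linarith
  have hz1 := zz_ge_one hN1 hζ0
  have hML : ((1 : ℕ) : ℝ) ≤ ML p N := by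
    rw [Nat.cast_one]; unfold ML; exact one_le_pow₀ hz1
  have h0 := hN N 1 (fun x => ∏ l ∈ PP p N, fC L l x) (fun _ => 1) (fC L) 1 3 (by omega) (by omega)
    one_pos hML (loc_fC p N hL0 hL1)
    (Real.rpow_le_one_of_one_le_of_nonpos hN1' (by linarith)) (by norm_num) (by norm_num)
  rw [mean_one, mul_one, one_mul] at h0
  set Pr := ∏ l ∈ (PP p N).filter (fun l => ¬ l ∣ 1), (1 - mean l (fun x => 1 - fC L l x)) with hPr
  set G := ((Gam N 1 3).card : ℝ) with hGd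
  have hG0 : 0 ≤ G := Nat.cast_nonneg _
  have hfilt : (PP p N).filter (fun l => ¬ l ∣ 1) = PP p N := by
    rw [Finset.filter_eq_self]
    intro l hl h
    exact (PP_spec hl).1.one_lt.ne' (Nat.dvd_one.1 h)
  have hmeq : ∀ l : ℕ, mean l (fun x => 1 - fC L l x) = (1 - L) * mean l (iD l) := by
    intro l
    have e : (fun x => 1 - fC L l x) = fun x => (1 - L) * iD l x := by
      funext x; unfold fC; ring
    rw [e, mean_smul]
  have hmge : ∀ l ∈ PP p N, 4 / (l : ℝ) - 6 / (l : ℝ) ^ 2 ≤ mean l (iD l) := by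
    intro l hl
    rw [mean_eq (PP_spec hl).1.pos]
    exact TG1.LocD.mn_dot_ge (PP_spec hl).1 (PP_spec hl).2.1
  have hmle : ∀ l ∈ PP p N, mean l (iD l) ≤ 1 := by
    intro l hl
    rw [mean_eq (PP_spec hl).1.pos]
    exact T1.mn_le_one (iD_le l)
  have hmnn : ∀ l ∈ PP p N, 0 ≤ mean l (iD l) := by
    intro l hl
    rw [mean_eq (PP_spec hl).1.pos]
    exact T1.mn_nonneg (iD_nonneg l)
  have hPr0 : 0 ≤ Pr := by
    rw [hPr, hfilt]
    refine Finset.prod_nonneg fun l hl => ?_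
    rw [hmeq]
    nlinarith [hmle l hl, hmnn l hl]
  have hPrle : Pr ≤ Real.exp 12 * Real.exp (-(2 * (1 - L) * S0 p N)) := by
    rw [hPr, hfilt]
    calc ∏ l ∈ PP p N, (1 - mean l (fun x => 1 - fC L l x))
        ≤ ∏ l ∈ PP p N, Real.exp (-((1 - L) * (4 / (l : ℝ) - 6 / (l : ℝ) ^ 2))) := by
          refine Finset.prod_le_prod (fun l hl => ?_) fun l hl => ?_
          · rw [hmeq]
            nlinarith [hmle l hl, hmnn l hl]
          · rw [hmeq]
            have h1 : (1 - L) * (4 / (l : ℝ) - 6 / (l : ℝ) ^ 2) ≤ (1 - L) * mean l (iD l) :=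
              mul_le_mul_of_nonneg_left (hmge l hl) (by linarith)
            have h2 := Real.add_one_le_exp (-((1 - L) * mean l (iD l)))
            calc 1 - (1 - L) * mean l (iD l) ≤ Real.exp (-((1 - L) * mean l (iD l))) := by linarith
              _ ≤ _ := Real.exp_le_exp.2 (by linarith)
      _ = Real.exp (-(∑ l ∈ PP p N, (1 - L) * (4 / (l : ℝ) - 6 / (l : ℝ) ^ 2))) := by
          rw [← Real.exp_sum, Finset.sum_neg_distrib]
      _ ≤ Real.exp (12 + -(2 * (1 - L) * S0 p N)) := by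
          refine Real.exp_le_exp.2 ?_
          have e1 : ∑ l ∈ PP p N, (1 - L) * (4 / (l : ℝ) - 6 / (l : ℝ) ^ 2) =
              2 * (1 - L) * S0 p N - 6 * (1 - L) * ∑ l ∈ PP p N, 1 / (l : ℝ) ^ 2 := by
            unfold S0
            rw [Finset.mul_sum, Finset.mul_sum, ← Finset.sum_sub_distrib]
            exact Finset.sum_congr rfl fun l _ => by ring
          rw [e1]
          have h3 := sum_inv_sq p N
          have h4 : 2 / ((p.E : ℝ) + 1) ≤ 2 := by
            rw [div_le_iff₀ (by positivity)]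
            nlinarith [(Nat.cast_nonneg p.E : (0 : ℝ) ≤ p.E)]
          have h5 : 0 ≤ ∑ l ∈ PP p N, 1 / (l : ℝ) ^ 2 := Finset.sum_nonneg fun _ _ => by positivity
          have h6 : 6 * (1 - L) * ∑ l ∈ PP p N, 1 / (l : ℝ) ^ 2 ≤ 6 * 1 * 2 := by
            refine mul_le_mul ?_ (h3.trans h4) h5 (by norm_num)
            linarith
          linarith
      _ = _ := by rw [Real.exp_add]
  have hsum : ∑ x ∈ Gam N 1 3, L ^ om p N (vl (H.Md x)) ≤ 2 * (G * Pr) + (N : ℝ) ^ (1 - c) := by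
    have h7 := (abs_le.1 h0).2
    have e : ∑ x ∈ Gam N 1 3, L ^ om p N (vl (H.Md x)) =
        ∑ x ∈ Gam N 1 3, ∏ l ∈ PP p N, fC L l x :=
      Finset.sum_congr rfl fun x _ => (prod_fC p N L x).symm
    rw [e]
    linarith
  -- the error term
  have hS0 : 0 ≤ S0 p N := S0_nonneg' p N
  have herr : (N : ℝ) ^ (1 - c) ≤ Real.exp (-(2 * (1 - L) * S0 p N)) * G := by
    set lz := Real.log (zz p N) with hlzd
    have h8 : lz ≤ (N : ℝ) ^ (c / 8) := by
      calc lz ≤ zz p N := (Real.log_le_self (by linarith))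
        _ ≤ _ := Real.rpow_le_rpow_of_exponent_le hN1' hζ
    have h9 : Real.exp (2 * S0 p N) ≤ C₂ ^ 2 * (N : ℝ) ^ (c / 4) := by
      have e1 : Real.exp (2 * S0 p N) = Real.exp (S0 p N) ^ 2 := by
        rw [← Real.exp_nat_mul]; norm_num
      have e2 : (N : ℝ) ^ (c / 4) = ((N : ℝ) ^ (c / 8)) ^ 2 := by
        rw [← Real.rpow_natCast, ← Real.rpow_mul hN0.le]; congr 1; push_cast; ring
      rw [e1, e2, ← mul_pow]
      refine pow_le_pow_left₀ (Real.exp_pos _).le ?_ 2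
      exact hS1.trans (mul_le_mul_of_nonneg_left h8 hC₂.le)
    have h10 : (N : ℝ) ^ (1 - c) * Real.exp (2 * S0 p N) ≤ G := by
      have e3 : (N : ℝ) ^ (1 - c) * ((N : ℝ) ^ (c / 4) * ((N : ℝ) ^ (c / 2) * (N : ℝ) ^ (c / 4))) =
          N := by
        rw [← Real.rpow_add hN0, ← Real.rpow_add hN0, ← Real.rpow_add hN0]
        rw [show 1 - c + (c / 4 + (c / 2 + c / 4)) = 1 by ring, Real.rpow_one]
      have h11 : (1 : ℝ) ≤ (N : ℝ) ^ (c / 4) := Real.one_le_rpow hN1' (by positivity)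
      have h12 : C₂ ^ 2 ≤ c₁ * (N : ℝ) ^ (c / 2) := by
        rw [div_le_iff₀ hc₁] at hN4; linarith
      have h13 : 0 < (N : ℝ) ^ (1 - c) := Real.rpow_pos_of_pos hN0 _
      calc (N : ℝ) ^ (1 - c) * Real.exp (2 * S0 p N)
          ≤ (N : ℝ) ^ (1 - c) * (C₂ ^ 2 * (N : ℝ) ^ (c / 4)) :=
            mul_le_mul_of_nonneg_left h9 h13.le
        _ ≤ (N : ℝ) ^ (1 - c) * (c₁ * (N : ℝ) ^ (c / 2) * (N : ℝ) ^ (c / 4)) := by gcongr
        _ ≤ (N : ℝ) ^ (1 - c) * (c₁ * (N : ℝ) ^ (c / 2) * (N : ℝ) ^ (c / 4)) * (N : ℝ) ^ (c / 4) :=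
            le_mul_of_one_le_right (by positivity) h11
        _ = c₁ * ((N : ℝ) ^ (1 - c) * ((N : ℝ) ^ (c / 4) * ((N : ℝ) ^ (c / 2) *
              (N : ℝ) ^ (c / 4)))) := by ring
        _ = c₁ * N := by rw [e3]
        _ ≤ G := hG
    have h14 : Real.exp (-(2 * S0 p N)) ≤ Real.exp (-(2 * (1 - L) * S0 p N)) := by
      refine Real.exp_le_exp.2 ?_
      nlinarith
    calc (N : ℝ) ^ (1 - c) = (N : ℝ) ^ (1 - c) * Real.exp (2 * S0 p N) *
          Real.exp (-(2 * S0 p N)) := by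
          rw [mul_assoc, ← Real.exp_add]; simp
      _ ≤ G * Real.exp (-(2 * S0 p N)) := mul_le_mul_of_nonneg_right h10 (Real.exp_pos _).le
      _ ≤ G * Real.exp (-(2 * (1 - L) * S0 p N)) := mul_le_mul_of_nonneg_left h14 hG0
      _ = _ := mul_comm _ _
  set X := Real.exp (-(2 * (1 - L) * S0 p N)) with hX
  have hX0 : 0 < X := Real.exp_pos _
  have he1 : (1 : ℝ) ≤ Real.exp 12 := Real.one_le_exp (by norm_num)
  calc ∑ x ∈ Gam N 1 3, L ^ om p N (vl (H.Md x)) ≤ 2 * (G * Pr) + (N : ℝ) ^ (1 - c) := hsum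
    _ ≤ 2 * (G * (Real.exp 12 * X)) + X * G := by
        have := mul_le_mul_of_nonneg_left hPrle hG0
        linarith
    _ ≤ 2 * (G * (Real.exp 12 * X)) + Real.exp 12 * (X * G) := by
        have : X * G ≤ Real.exp 12 * (X * G) := le_mul_of_one_le_left (by positivity) he1
        linarith
    _ = _ := by ring

/-- **PQ** in the form of `SpecH` -/
theorem specPQH (hEQ : SpecEQ) (hC : SpecCNT) : H.SpecPQ := specPQ hEQ hC

/-! ### The smooth part -/

omit [Frm] in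
lemma sum_log_PP : ∃ C : ℝ, 0 ≤ C ∧ ∀ (p : Prm) (N : ℕ), 1 ≤ zz p N →
    ∑ l ∈ PP p N, Real.log l / l ≤ Real.log (zz p N) + C := by
  obtain ⟨C, hC0, hC⟩ := Pool.Agent.Lib.MP5b6025.RP.MertensM.mertens_upper
  refine ⟨C, hC0, fun p N hz => ?_⟩
  have hfl : 1 ≤ ⌊zz p N⌋₊ := Nat.le_floor (by exact_mod_cast hz)
  have h1 := hC ⌊zz p N⌋₊ hfl
  have h2 : Real.log (⌊zz p N⌋₊ : ℝ) ≤ Real.log (zz p N) :=
    Real.log_le_log (by exact_mod_cast hfl) (Nat.floor_le (by linarith))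
  have h3 : ∑ l ∈ PP p N, Real.log l / l ≤
      ∑ d ∈ Ioc 0 ⌊zz p N⌋₊, ArithmeticFunction.vonMangoldt d / (d : ℝ) := by
    calc ∑ l ∈ PP p N, Real.log l / l =
          ∑ l ∈ PP p N, ArithmeticFunction.vonMangoldt l / (l : ℝ) := by
          refine Finset.sum_congr rfl fun l hl => ?_
          rw [ArithmeticFunction.vonMangoldt_apply_prime (PP_spec hl).1]
      _ ≤ _ := by
          refine Finset.sum_le_sum_of_subset_of_nonneg ?_ fun _ _ _ =>
            div_nonneg ArithmeticFunction.vonMangoldt_nonneg (Nat.cast_nonneg _)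
          intro l hl
          rw [mem_Ioc]
          exact ⟨(PP_spec hl).1.pos, Nat.le_floor (PP_spec hl).2.2.2.le⟩
  linarith

omit [Frm] in
/-- the smooth part of a divisor -/
lemma sm_le {p : Prm} {N D n : ℕ} (hD : D ≠ 0) (hDn : D ∣ n) (hsq : ∀ l ∈ PP p N, ¬ l ^ 2 ∣ n)
    {B : ℝ} (hB : ∑ l ∈ (PP p N).filter (fun l => l ∣ n), Real.log l ≤ B) :
    (sm p N D : ℝ) ≤ Real.exp B := by
  have h1 : sm p N D ≤ ∏ l ∈ (PP p N).filter (fun l => l ∣ n), l := by
    rw [Finset.prod_filter]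
    unfold sm
    refine Finset.prod_le_prod' fun l hl => ?_
    have hp := (PP_spec hl).1
    have hd : l ^ D.factorization l ∣ D := Nat.ordProj_dvd D l
    have hv : D.factorization l ≤ 1 := by
      by_contra h
      push Not at h
      exact hsq l hl (((pow_dvd_pow l (show 2 ≤ D.factorization l by omega)).trans hd).trans hDn)
    split_ifs with h
    · calc l ^ D.factorization l ≤ l ^ 1 := Nat.pow_le_pow_right hp.pos hv
        _ = l := pow_one l
    · have h0 : D.factorization l = 0 :=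
        Nat.factorization_eq_zero_of_not_dvd fun h' => h (h'.trans hDn)
      rw [h0, pow_zero]
  have hpos : ∀ l ∈ (PP p N).filter (fun l => l ∣ n), (0 : ℝ) < l := fun l hl => by
    exact_mod_cast (PP_spec (mem_filter.1 hl).1).1.pos
  calc (sm p N D : ℝ) ≤ ((∏ l ∈ (PP p N).filter (fun l => l ∣ n), l : ℕ) : ℝ) := by
        exact_mod_cast h1
    _ = Real.exp (∑ l ∈ (PP p N).filter (fun l => l ∣ n), Real.log l) := by
        rw [Real.exp_sum]
        push_cast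
        exact Finset.prod_congr rfl fun l hl => (Real.exp_log (hpos l hl)).symm
    _ ≤ _ := Real.exp_le_exp.2 hB

/-- (T1) -/
lemma typ1 (hPQ : SpecPQ) (ε : ℝ) (hε : 0 < ε) : Good (fun p => ∀ᶠ N : ℕ in atTop,
    (((Gam N 1 3).filter (fun x => p.K * Real.log (zz p N) < ∑ l ∈ (PP p N).filter
      (fun l => l ∣ vl (mm x).natAbs), Real.log l)).card : ℝ) ≤
        ε * ((Gam N 1 3).card : ℝ)) := by
  obtain ⟨C, hC, hG⟩ := hPQ
  obtain ⟨C₂, hC₂, hM⟩ := sum_log_PP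
  refine ((hG.and (T4.Good.large_K (fun _ => ⌈2 * C / ε⌉₊ + 1))).and T4.Good.zeta_pos).mono ?_
  rintro p ⟨⟨hp, hK⟩, hζ⟩
  replace hK : ⌈2 * C / ε⌉₊ + 1 ≤ p.K := hK
  have hK1 : (0 : ℝ) < p.K := by exact_mod_cast (by omega : 0 < p.K)
  have hK' : 2 * C / ε ≤ p.K := (Nat.le_ceil _).trans (by exact_mod_cast (by omega))
  filter_upwards [hp, (A3.tendsto_zz hζ).eventually_ge_atTop (Real.exp (C₂ + 1)),
    eventually_ge_atTop 1] with N hN hz hN1
  have hz1 : 1 ≤ zz p N := zz_ge_one hN1 hζ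
  have hlz : C₂ + 1 ≤ Real.log (zz p N) := by
    rw [Real.le_log_iff_exp_le (by linarith)]; exact hz
  have hlz0 : 0 < Real.log (zz p N) := by linarith
  have h1 : ∑ x ∈ Gam N 1 3, ∑ l ∈ (PP p N).filter (fun l => l ∣ vl (mm x).natAbs),
      Real.log l ≤ C * (Real.log (zz p N) + C₂) * ((Gam N 1 3).card : ℝ) := by
    rw [sum_swap]
    calc ∑ l ∈ PP p N, Real.log l *
          (((Gam N 1 3).filter (fun x => l ∣ vl (mm x).natAbs)).card : ℝ)
        ≤ ∑ l ∈ PP p N, Real.log l * (C / l * ((Gam N 1 3).card : ℝ)) :=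
          Finset.sum_le_sum fun l hl => mul_le_mul_of_nonneg_left (hN l hl)
            (Real.log_natCast_nonneg l)
      _ = C * (∑ l ∈ PP p N, Real.log l / l) * ((Gam N 1 3).card : ℝ) := by
          rw [Finset.mul_sum, Finset.sum_mul]
          refine Finset.sum_congr rfl fun l hl => by ring
      _ ≤ _ := mul_le_mul_of_nonneg_right (mul_le_mul_of_nonneg_left (hM p N hz1) hC.le)
            (Nat.cast_nonneg _)
  refine (markov (fun x _ => Finset.sum_nonneg fun _ _ => Real.log_natCast_nonneg _) h1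
    (by positivity)).trans ?_
  rw [div_le_iff₀ (by positivity)]
  rw [div_le_iff₀ hε] at hK'
  have h2 : C * (Real.log (zz p N) + C₂) ≤ ε * (p.K * Real.log (zz p N)) := by
    have h3 : C * (Real.log (zz p N) + C₂) ≤ C * (2 * Real.log (zz p N)) :=
      mul_le_mul_of_nonneg_left (by linarith) hC.le
    have h4 : 2 * C * Real.log (zz p N) ≤ p.K * ε * Real.log (zz p N) :=
      mul_le_mul_of_nonneg_right hK' hlz0.le
    linarith
  calc C * (Real.log (zz p N) + C₂) * ((Gam N 1 3).card : ℝ) ≤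
        ε * (p.K * Real.log (zz p N)) * ((Gam N 1 3).card : ℝ) :=
        mul_le_mul_of_nonneg_right h2 (Nat.cast_nonneg _)
    _ = _ := by ring

/-- (T5) -/
lemma typ5 (hFC : H.SpecFC) (ε e₁ : ℝ) (hε : 0 < ε) (he : 0 < e₁) (he1 : e₁ ≤ 1) :
    Good (fun p => ∀ᶠ N : ℕ in atTop,
    (((Gam N 1 3).filter (fun x => (om p N (vl (mm x).natAbs) : ℝ) <
      (2 - e₁) * S0 p N)).card : ℝ) ≤ ε * ((Gam N 1 3).card : ℝ)) := by
  have hL0 : 0 < 1 - e₁ / 4 := by linarith
  obtain ⟨C, hC, hG⟩ := hFC (1 - e₁ / 4) hL0 (by linarith)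
  refine (hG.and T4.Good.zeta_pos).mono ?_
  rintro p ⟨hp, hζ⟩
  obtain ⟨C₂, hC₂, hS⟩ := A3.exp_S0_le p hζ
  -- `S0 → ∞`
  have hS0 : ∀ᶠ N : ℕ in atTop, 12 / e₁ ^ 2 * Real.log (C / ε) ≤ S0 p N := by
    filter_upwards [hS, (Real.tendsto_log_atTop.comp (A3.tendsto_zz hζ)).eventually_ge_atTop
      (C₂ * Real.exp (12 / e₁ ^ 2 * Real.log (C / ε)))] with N h1 h2
    have h3 : C₂ * Real.exp (12 / e₁ ^ 2 * Real.log (C / ε)) ≤ C₂ * Real.exp (S0 p N) :=
      le_trans h2 h1.2.2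
    exact Real.exp_le_exp.1 (le_of_mul_le_mul_left h3 hC₂)
  filter_upwards [hp, hS0] with N hN hS0
  set G := ((Gam N 1 3).card : ℝ) with hGd
  have hG0 : 0 ≤ G := Nat.cast_nonneg _
  set L := 1 - e₁ / 4 with hL
  have hS0nn := S0_nonneg' p N
  -- Markov
  set a := Real.exp ((2 - e₁) * S0 p N * Real.log L) with ha
  have ha0 : 0 < a := Real.exp_pos _
  have hsub : (Gam N 1 3).filter (fun x => (om p N (vl (mm x).natAbs) : ℝ) <
      (2 - e₁) * S0 p N) ⊆ (Gam N 1 3).filter (fun x => a < L ^ om p N (vl (H.Md x))) := by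
    intro x hx
    rw [mem_filter] at hx ⊢
    refine ⟨hx.1, ?_⟩
    have hlL : Real.log L < 0 := Real.log_neg hL0 (by rw [hL]; linarith)
    have e : L ^ om p N (vl (H.Md x)) =
        Real.exp ((om p N (vl (H.Md x)) : ℝ) * Real.log L) := by
      rw [Real.exp_nat_mul, Real.exp_log hL0]
    rw [e, ha, Real.exp_lt_exp]
    exact mul_lt_mul_of_neg_right hx.2 hlL
  have hcard : (((Gam N 1 3).filter (fun x => (om p N (vl (mm x).natAbs) : ℝ) <
      (2 - e₁) * S0 p N)).card : ℝ) ≤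
      (((Gam N 1 3).filter (fun x => a < L ^ om p N (vl (H.Md x)))).card : ℝ) := by
    exact_mod_cast card_le_card hsub
  refine hcard.trans ((markov (fun x _ => pow_nonneg hL0.le _) hN ha0).trans ?_)
  rw [div_le_iff₀ ha0]
  -- `log L ≥ - e₁/4 - e₁²/12`
  have hlog : -(e₁ / 4) - e₁ ^ 2 / 12 ≤ Real.log L := by
    have h1 := Real.one_sub_inv_le_log_of_pos hL0
    refine le_trans ?_ h1
    have h2 : L⁻¹ ≤ 1 + e₁ / 4 + e₁ ^ 2 / 12 := by
      rw [inv_le_comm₀ hL0 (by positivity)]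
      rw [inv_le_iff_one_le_mul₀ (by positivity), hL]
      nlinarith [sq_nonneg e₁, mul_pos he he, pow_pos he 3]
    linarith
  have hexp : -(2 * (1 - L) * S0 p N) ≤ (2 - e₁) * S0 p N * Real.log L - e₁ ^ 2 / 12 * S0 p N := by
    have h1 : (2 - e₁) * S0 p N * (-(e₁ / 4) - e₁ ^ 2 / 12) ≤ (2 - e₁) * S0 p N * Real.log L :=
      mul_le_mul_of_nonneg_left hlog (mul_nonneg (by linarith) hS0nn)
    have h2 : -(2 * (1 - L) * S0 p N) ≤
        (2 - e₁) * S0 p N * (-(e₁ / 4) - e₁ ^ 2 / 12) - e₁ ^ 2 / 12 * S0 p N := by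
      rw [hL]
      have : 0 ≤ e₁ ^ 3 * S0 p N := by positivity
      nlinarith
    linarith
  have hCε : C * Real.exp (-(e₁ ^ 2 / 12 * S0 p N)) ≤ ε := by
    have h1 : Real.log (C / ε) ≤ e₁ ^ 2 / 12 * S0 p N := by
      have h2 := mul_le_mul_of_nonneg_left hS0 (show 0 ≤ e₁ ^ 2 / 12 by positivity)
      have e : e₁ ^ 2 / 12 * (12 / e₁ ^ 2 * Real.log (C / ε)) = Real.log (C / ε) := by
        field_simp
      linarith
    have h3 : C / ε ≤ Real.exp (e₁ ^ 2 / 12 * S0 p N) := by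
      rw [← Real.exp_log (show 0 < C / ε by positivity)]
      exact Real.exp_le_exp.2 h1
    rw [div_le_iff₀ hε] at h3
    rw [Real.exp_neg, ← div_eq_mul_inv, div_le_iff₀ (Real.exp_pos _)]
    linarith
  calc C * Real.exp (-(2 * (1 - L) * S0 p N)) * G
      ≤ C * Real.exp ((2 - e₁) * S0 p N * Real.log L - e₁ ^ 2 / 12 * S0 p N) * G := by
        refine mul_le_mul_of_nonneg_right (mul_le_mul_of_nonneg_left (Real.exp_le_exp.2 hexp) hC.le)
          hG0
    _ = C * Real.exp (-(e₁ ^ 2 / 12 * S0 p N)) * G * a := by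
        rw [ha, sub_eq_add_neg, Real.exp_add]; ring
    _ ≤ ε * G * a := by
        refine mul_le_mul_of_nonneg_right (mul_le_mul_of_nonneg_right hCε hG0) ha0.le

/-! ### Assembly -/

omit [Aa] [Frm] in
lemma card_filter_or_le {S : Finset VV} {A B : VV → Prop} {a b : ℝ}
    [DecidablePred A] [DecidablePred B] [DecidablePred (fun x => A x ∨ B x)]
    (hA : ((S.filter A).card : ℝ) ≤ a) (hB : ((S.filter B).card : ℝ) ≤ b) :
    ((S.filter (fun x => A x ∨ B x)).card : ℝ) ≤ a + b := by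
  have h : S.filter (fun x => A x ∨ B x) ⊆ S.filter A ∪ S.filter B := by
    intro x hx
    rw [mem_filter] at hx
    rw [mem_union, mem_filter, mem_filter]
    rcases hx.2 with h | h
    · exact Or.inl ⟨hx.1, h⟩
    · exact Or.inr ⟨hx.1, h⟩
  calc ((S.filter (fun x => A x ∨ B x)).card : ℝ) ≤ ((S.filter A ∪ S.filter B).card : ℝ) := by
        exact_mod_cast card_le_card h
    _ ≤ ((S.filter A).card : ℝ) + ((S.filter B).card : ℝ) := by exact_mod_cast card_union_le _ _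
    _ ≤ _ := add_le_add hA hB

lemma dd_ee_dvd {N : ℕ} {x : VV} (hx : x ∈ Gam N 1 3) :
    (dd x).natAbs ≠ 0 ∧ (dd x).natAbs ∣ vl (mm x).natAbs ∧
      (ee x).natAbs ≠ 0 ∧ (ee x).natAbs ∣ vl (mm x).natAbs := by
  have h1 : dd x * ee x = mm x ^ 2 + az := Bs.dd_mul_ee (Bs.CC_of_mem_Gam hx)
  have h2 : (dd x).natAbs * (ee x).natAbs = vl (mm x).natAbs := by
    rw [← Int.natAbs_mul, h1, vl_natAbs]
  have h3 : (dd x).natAbs * (ee x).natAbs ≠ 0 := by rw [h2]; exact (Bs.vl_pos_all _).ne'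
  exact ⟨left_ne_zero_of_mul h3, Dvd.intro _ h2, right_ne_zero_of_mul h3, Dvd.intro_left _ h2⟩

/-- **TYP** -/
theorem specTyp_of (hEQ : SpecEQ) (hC : SpecCNT) (hFC : H.SpecFC) : SpecTyp := by
  have hPQ := specPQ hEQ hC
  intro ε δ e₁ hε hδ he
  have hε5 : 0 < ε / 5 := by positivity
  set e₂ := min e₁ 1 with he₂
  have he₂0 : 0 < e₂ := lt_min he one_pos
  refine (((typ1 hPQ _ hε5).and (typ2 hPQ _ δ hε5 hδ)).and (((typ3 hEQ hC _ hε5).and
    (typ4 hEQ hC _ hε5)).and ((typ5 hFC _ e₂ hε5 he₂0 (min_le_right _ _)).and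
      T4.Good.zeta_pos))).mono ?_
  rintro p ⟨⟨h1, h2⟩, ⟨h3, h4⟩, h5, hζ⟩
  filter_upwards [h1, h2, h3, h4, h5, eventually_ge_atTop 1] with N h1 h2 h3 h4 h5 hN1
  have hz1 : 1 ≤ zz p N := zz_ge_one hN1 hζ
  have hsub : (Gam N 1 3).filter (fun x => ¬ typ p N δ e₁ x) ⊆
      (Gam N 1 3).filter (fun x => (p.K * Real.log (zz p N) < ∑ l ∈ (PP p N).filter
        (fun l => l ∣ vl (mm x).natAbs), Real.log l) ∨
        ((δ < ∑ l ∈ (PP p N).filter (fun l => l ∣ vl (mm x).natAbs), 1 / (l : ℝ)) ∨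
        ((∃ l ∈ PP p N, l ^ 2 ∣ vl (mm x).natAbs) ∨
        (¬ tame p (vl (mm x).natAbs) ∨
        (om p N (vl (mm x).natAbs) : ℝ) < (2 - e₂) * S0 p N)))) := by
    intro x hx
    rw [mem_filter] at hx ⊢
    refine ⟨hx.1, ?_⟩
    by_contra hcon
    push Not at hcon
    obtain ⟨c1, c2, c3, c4, c5⟩ := hcon
    obtain ⟨d1, d2, e1, e2⟩ := dd_ee_dvd hx.1
    have hexp : Real.exp (p.K * Real.log (zz p N)) = zz p N ^ p.K := by
      rw [Real.exp_nat_mul, Real.exp_log (by linarith)]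
    refine hx.2 ⟨?_, ?_, c2, c3, c4, ?_⟩
    · rw [← hexp]; exact sm_le d1 d2 c3 c1
    · rw [← hexp]; exact sm_le e1 e2 c3 c1
    · refine le_trans ?_ c5
      refine mul_le_mul_of_nonneg_right ?_ (S0_nonneg' p N)
      have := min_le_left e₁ 1
      linarith
  refine ((Nat.cast_le (α := ℝ)).2 (card_le_card hsub)).trans ((card_filter_or_le h1 (card_filter_or_le h2 (card_filter_or_le h3
    (card_filter_or_le h4 h5)))).trans ?_)
  linarith

theorem specTyp (hEQ : SpecEQ) (hFL : SpecFL) (hC : SpecCNT) : SpecTyp :=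
  specTyp_of hEQ hC (specFC hFL hC)

end TypM

end Pool.Agent.Lib.MP391708.TG
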