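import Pool.Agent.Lib.MP_391708_nt.TG1.Gam

/-!
# T1b, group D: equidistribution of class functions over `Gam N al be`
-/

set_option autoImplicit false

namespace Pool.Agent.Lib.MP391708.TG1

open Finset Filter Topology
open Pool.Agent.Lib.MP391708.Eqd (V cross pairs res)
open Pool.Agent.Lib.MP391708.T1 (Per Per.mul Per.mono mn mn_def lift sl gm mn_nonneg mn_le_one mn_mul Bd
  zexp sum_per)
open Pool.Agent.Lib.MP391708.QPA (PB)
open Pool.Agent.Lib.MP391708.TG (aa nsq dot mm dd Gam mem_Gam Gam_split)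
open scoped Classical

variable [Pool.Agent.Lib.MP391708.TG.Aa] [Pool.Agent.Lib.MP391708.TG.Frm]

/-- class functions over `Gam N al be` -/
def SpecGmEq : Prop :=
  ∃ K : ℝ, 0 < K ∧ ∀ N : ℕ, 1 ≤ N → aa ≤ N ^ 2 → ∀ al be : ℝ,
    (N : ℝ) ^ (-(1 / 2) : ℝ) ≤ al → al < be → be ≤ 20 →
    ∀ q : ℕ, 0 < q → ∀ F : V × V → ℝ, Per q F → (∀ x, |F x| ≤ 1) →
    |∑ x ∈ Gam N al be, F x - (Gam N al be).card * mn q F| ≤
      K * (q : ℝ) ^ 12 * (N : ℝ) ^ (49 / 50 : ℝ)

theorem specGmEq (hEq : SpecEquid) : SpecGmEq := by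
  obtain ⟨K, hK⟩ := hEq 20 (by norm_num)
  refine ⟨306 * (|K| + 1), by positivity, ?_⟩
  intro N hN hNa al be hal hab hbe q hq F hF hF1
  have : NeZero q := ⟨hq.ne'⟩
  have hNR : (1 : ℝ) ≤ N := by exact_mod_cast hN
  have hN0 : (0 : ℝ) < N := by linarith
  have hNh : 0 < (N : ℝ) ^ (-(1 / 2) : ℝ) := Real.rpow_pos_of_pos hN0 _
  have hpiece : ∀ al be : ℝ, (N : ℝ) ^ (-(1 / 2) : ℝ) ≤ al → al < be → be ≤ 20 →
      be ≤ 2 * al → |∑ x ∈ Gam N al be, F x - (Gam N al be).card * mn q F| ≤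
      (|K| + 1) * (q : ℝ) ^ 12 * (N : ℝ) ^ (39 / 40 : ℝ) := by
    intro al be h1 h2 h3 h4
    have h5 : (N : ℝ) ^ (1 / 2 : ℝ) ≤ al * N := by
      calc (N : ℝ) ^ (1 / 2 : ℝ) = (N : ℝ) ^ (-(1 / 2) : ℝ) * N := by
            nth_rewrite 3 [← Real.rpow_one (N : ℝ)]
            rw [← Real.rpow_add hN0]; norm_num
        _ ≤ al * N := mul_le_mul_of_nonneg_right h1 hN0.le
    have h6 : 1 ≤ al * N := (Real.one_le_rpow hNR (by norm_num)).trans h5
    have hal0 := hNh.trans_le h1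
    obtain ⟨T₁, T₂, M0, hB, hM, eR⟩ := gm_reg K hNa hal0 h2 h4 h6
    have hsub : Gam N al be ⊆ pairs 1 M0 := by
      rw [← eR]; exact Finset.filter_subset _ _
    have h7 := sum_per (M := M0) (q := q) hsub hF hF1
      (E := K * (q : ℝ) ^ 8 * N * (al * N) ^ (-(1 / 20) : ℝ)) (by
        intro r hr
        have h8 := hK (N : ℝ) (al * N) h6 (by nlinarith) T₁ T₂ hB M0 hM q r hr
        have e1 : (Gam N al be).filter (fun x => res q x = r) =
            (pairs 1 M0).filter (fun x => Reg T₁ T₂ x ∧ res q x = r) := by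
          rw [← eR, RegS, Finset.filter_filter]
        have e2 : Gam N al be = (pairs 1 M0).filter (Reg T₁ T₂) := by rw [← eR, RegS]
        rw [e1]
        rw [← e2] at h8
        exact h8)
    refine h7.trans ?_
    have h8 : (al * N) ^ (-(1 / 20) : ℝ) ≤ (N : ℝ) ^ (-(1 / 40) : ℝ) := by
      calc (al * N) ^ (-(1 / 20) : ℝ) ≤ ((N : ℝ) ^ (1 / 2 : ℝ)) ^ (-(1 / 20) : ℝ) :=
            Real.rpow_le_rpow_of_nonpos (Real.rpow_pos_of_pos hN0 _) h5 (by norm_num)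
        _ = (N : ℝ) ^ (-(1 / 40) : ℝ) := by rw [← Real.rpow_mul hN0.le]; norm_num
    have h9 : (N : ℝ) * (al * N) ^ (-(1 / 20) : ℝ) ≤ (N : ℝ) ^ (39 / 40 : ℝ) := by
      calc (N : ℝ) * (al * N) ^ (-(1 / 20) : ℝ) ≤ (N : ℝ) * (N : ℝ) ^ (-(1 / 40) : ℝ) :=
            mul_le_mul_of_nonneg_left h8 hN0.le
        _ = (N : ℝ) ^ (39 / 40 : ℝ) := by
            nth_rewrite 1 [← Real.rpow_one (N : ℝ)]
            rw [← Real.rpow_add hN0]; norm_num
    have h10 : K ≤ |K| + 1 := by linarith [le_abs_self K]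
    have h11 : (0 : ℝ) ≤ (N : ℝ) * (al * N) ^ (-(1 / 20) : ℝ) := by positivity
    calc (q : ℝ) ^ 4 * (K * (q : ℝ) ^ 8 * N * (al * N) ^ (-(1 / 20) : ℝ)) =
        K * ((q : ℝ) ^ 12 * (N * (al * N) ^ (-(1 / 20) : ℝ))) := by ring
      _ ≤ (|K| + 1) * ((q : ℝ) ^ 12 * (N : ℝ) ^ (39 / 40 : ℝ)) :=
        mul_le_mul h10 (mul_le_mul_of_nonneg_left h9 (by positivity)) (by positivity)
          (by positivity)
      _ = _ := by ring
  have hind : ∀ n : ℕ, ∀ al be : ℝ, (N : ℝ) ^ (-(1 / 2) : ℝ) ≤ al → al < be → be ≤ 20 →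
      be ≤ 2 ^ (n + 1) * al → |∑ x ∈ Gam N al be, F x - (Gam N al be).card * mn q F| ≤
      (n + 1) * ((|K| + 1) * (q : ℝ) ^ 12 * (N : ℝ) ^ (39 / 40 : ℝ)) := by
    intro n
    induction n with
    | zero =>
      intro al be h1 h2 h3 h4
      have h5 := hpiece al be h1 h2 h3 (by simpa using h4)
      simpa using h5
    | succ n ih =>
      intro al be h1 h2 h3 h4
      rcases le_or_gt be (2 * al) with h5 | h5
      · refine (hpiece al be h1 h2 h3 h5).trans ?_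
        have h6 : 0 ≤ (|K| + 1) * (q : ℝ) ^ 12 * (N : ℝ) ^ (39 / 40 : ℝ) := by positivity
        push_cast
        nlinarith
      · have hal0 : 0 < al := hNh.trans_le h1
        obtain ⟨hs, hd⟩ := Gam_split (N := N) (al := al) (be := be) (ga := 2 * al) (by linarith)
          h5.le
        have h6 := hpiece al (2 * al) h1 (by linarith) (by linarith) le_rfl
        have h7 := ih (2 * al) be (by linarith) h5 h3 (by
          calc be ≤ 2 ^ (n + 1 + 1) * al := h4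
            _ = 2 ^ (n + 1) * (2 * al) := by ring)
        rw [hs, Finset.sum_union hd, Finset.card_union_of_disjoint hd]
        have e3 : ∑ x ∈ Gam N al (2 * al), F x + ∑ x ∈ Gam N (2 * al) be, F x -
            (((Gam N al (2 * al)).card + (Gam N (2 * al) be).card : ℕ) : ℝ) * mn q F =
            (∑ x ∈ Gam N al (2 * al), F x - (Gam N al (2 * al)).card * mn q F) +
            (∑ x ∈ Gam N (2 * al) be, F x - (Gam N (2 * al) be).card * mn q F) := by
          push_cast; ring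
        rw [e3]
        refine (abs_add_le _ _).trans ((add_le_add h6 h7).trans (le_of_eq ?_))
        push_cast
        ring
  have h10 : be ≤ 2 ^ (Nat.log 2 N + 5 + 1) * al := by
    have h11 : N < 2 ^ (Nat.log 2 N + 1) := Nat.lt_pow_succ_log_self one_lt_two N
    have h12 : (N : ℝ) ≤ 2 ^ (Nat.log 2 N + 1) := by exact_mod_cast h11.le
    have h13 : (1 : ℝ) ≤ N * al := by
      calc (1 : ℝ) ≤ (N : ℝ) ^ (1 / 2 : ℝ) := Real.one_le_rpow hNR (by norm_num)
        _ = N * (N : ℝ) ^ (-(1 / 2) : ℝ) := by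
            nth_rewrite 2 [← Real.rpow_one (N : ℝ)]
            rw [← Real.rpow_add hN0]; norm_num
        _ ≤ N * al := mul_le_mul_of_nonneg_left hal hN0.le
    have h14 : (2 : ℝ) ^ (Nat.log 2 N + 5 + 1) = 32 * 2 ^ (Nat.log 2 N + 1) := by
      rw [show Nat.log 2 N + 5 + 1 = (Nat.log 2 N + 1) + 5 by ring, pow_add]; ring
    rw [h14]
    have h15 : 0 < al := hNh.trans_le hal
    nlinarith
  refine (hind (Nat.log 2 N + 5) al be hal hab hbe h10).trans ?_
  have h17 : (((Nat.log 2 N + 5 : ℕ) : ℝ) + 1) ≤ 306 * (N : ℝ) ^ (1 / 200 : ℝ) := by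
    have h18 : (Nat.log 2 N : ℝ) * Real.log 2 ≤ Real.log N := by
      rw [← Real.log_pow]
      refine Real.log_le_log (by positivity) ?_
      have := Nat.pow_log_le_self 2 (show N ≠ 0 by omega)
      exact_mod_cast this
    have h19 := Real.log_le_rpow_div hN0.le (show (0 : ℝ) < 1 / 200 by norm_num)
    have h20 := Real.log_two_gt_d9
    have h21 : (1 : ℝ) ≤ (N : ℝ) ^ (1 / 200 : ℝ) := Real.one_le_rpow hNR (by norm_num)
    have h22 : (0 : ℝ) ≤ (Nat.log 2 N : ℝ) := Nat.cast_nonneg _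
    have h23 : (N : ℝ) ^ (1 / 200 : ℝ) / (1 / 200) = 200 * (N : ℝ) ^ (1 / 200 : ℝ) := by ring
    rw [h23] at h19
    push_cast
    nlinarith
  have h24 : (N : ℝ) ^ (49 / 50 : ℝ) = (N : ℝ) ^ (1 / 200 : ℝ) * (N : ℝ) ^ (39 / 40 : ℝ) := by
    rw [← Real.rpow_add hN0]; norm_num
  rw [h24]
  have h25 : 0 ≤ (|K| + 1) * (q : ℝ) ^ 12 * (N : ℝ) ^ (39 / 40 : ℝ) := by positivity
  calc (((Nat.log 2 N + 5 : ℕ) : ℝ) + 1) *
        ((|K| + 1) * (q : ℝ) ^ 12 * (N : ℝ) ^ (39 / 40 : ℝ)) ≤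
      306 * (N : ℝ) ^ (1 / 200 : ℝ) *
        ((|K| + 1) * (q : ℝ) ^ 12 * (N : ℝ) ^ (39 / 40 : ℝ)) :=
        mul_le_mul_of_nonneg_right h17 h25
    _ = _ := by ring

end Pool.Agent.Lib.MP391708.TG1
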