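import Pool.Agent.Lib.MP_391708_nt.TG.EqcD
import Pool.Agent.Lib.MP_391708_nt.TG1.Flg

/-!
# T1b: EQUID for the form of determinant `a`, in the cone
-/

set_option autoImplicit false

namespace Pool.Agent.Lib.MP391708.TG1

open Finset
open Pool.Agent.Lib.MP391708.Eqd (V cross pairs res)
open Pool.Agent.Lib.MP391708.T1 (sl Bd)
open Pool.Agent.Lib.MP391708.TG (nsq dot Cn)
open scoped Classical

variable [Pool.Agent.Lib.MP391708.TG.Aa] [Pool.Agent.Lib.MP391708.TG.Frm]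

lemma reg_iff_regQ (T₁ T₂ : ℝ → ℝ) (x : V × V) :
    Reg T₁ T₂ x ↔ TA.RegQ TG.Frm.A TG.Frm.B TG.Frm.C T₁ T₂ x ∧ Cn x.1 := by
  have e1 : nsq x.1 = TA.qv TG.Frm.A TG.Frm.B TG.Frm.C x.1 := by
    simp only [nsq, TA.qv]
  have e2 : dot x.1 x.2 = TA.qb TG.Frm.A TG.Frm.B TG.Frm.C x.1 x.2 := by
    simp only [dot, TA.qb]; ring
  unfold Reg TA.RegQ
  rw [e1, e2]

/-- **EQUID** for the form of determinant `a`, in the cone -/
theorem equid : SpecEquid := by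
  intro L hL
  obtain ⟨K, hK⟩ := TG.equidCn L hL
  refine ⟨K, ?_⟩
  intro X Y hY hX T₁ T₂ hB M hM q hq0 r hr
  have h := hK X Y hY hX T₁ T₂ hB M hM q r hr
  have e1 : (pairs 1 M).filter (fun x => Reg T₁ T₂ x ∧ res q x = r) =
      (pairs 1 M).filter (fun x => (TA.RegQ TG.Frm.A TG.Frm.B TG.Frm.C T₁ T₂ x ∧ Cn x.1) ∧
        res q x = r) := by
    apply filter_congr; intro x _; rw [reg_iff_regQ]
  have e2 : (pairs 1 M).filter (Reg T₁ T₂) =
      (pairs 1 M).filter (fun x => TA.RegQ TG.Frm.A TG.Frm.B TG.Frm.C T₁ T₂ x ∧ Cn x.1) := by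
    apply filter_congr; intro x _; rw [reg_iff_regQ]
  rw [e1, e2]
  exact h

end Pool.Agent.Lib.MP391708.TG1
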