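import Pool.Agent.Lib.MP_391708_nt.TG1.Gam

/-!
# T1b, group D: FLGG (fundamental lemma over `Gam N al be`) and CMP (comparison lemma)
-/

set_option autoImplicit false

namespace Pool.Agent.Lib.MP391708.TG1

open Finset Filter Topology
open Pool.Agent.Lib.MP391708.Eqd (V cross pairs res)
open Pool.Agent.Lib.MP391708.T1 (Per Per.mul Per.mono mn mn_def lift sl gm mn_nonneg mn_le_one mn_mul Bd
  zexp sum_per)
open Pool.Agent.Lib.MP391708.QPA (PB)
open Pool.Agent.Lib.MP391708.TG (nsq dot mm dd Gam mem_Gam aa Gam_split)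
open scoped Classical

variable [Pool.Agent.Lib.MP391708.TG.Aa] [Pool.Agent.Lib.MP391708.TG.Frm]

/-- the sum of a class function times local weights -/
noncomputable def sG (N : ℕ) (al be z : ℝ) (m : ℕ) (w : V × V → ℝ) (f : ℕ → V × V → ℝ) : ℝ :=
  ∑ x ∈ Gam N al be, w x * ∏ l ∈ (PB z).filter (fun l => ¬ l ∣ m), f l x

/-- its main term -/
noncomputable def mG (N : ℕ) (al be z : ℝ) (m : ℕ) (w : V × V → ℝ) (f : ℕ → V × V → ℝ) : ℝ :=
  (Gam N al be).card * mn m w * ∏ l ∈ PB z, (1 - gm m f l)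

lemma flg_sum (hF : SpecFlg) (κ : ℕ) : ∃ C : ℝ, 0 < C ∧ ∃ K : ℝ, 0 < K ∧
    ∀ N : ℕ, 1 ≤ N → aa ≤ N ^ 2 → ∀ al be : ℝ, (N : ℝ) ^ (-(1 / 2) : ℝ) ≤ al → al < be → be ≤ 20 →
    ∀ (b : ℕ) (z : ℝ), 2 ≤ z → ∀ m : ℕ, 0 < m →
    ∀ w : V × V → ℝ, Per m w → (∀ x, 0 ≤ w x ∧ w x ≤ 1) →
    ∀ f : ℕ → V × V → ℝ, (∀ l : ℕ, l.Prime → Per (l ^ 2) (f l) ∧ ∀ x, 0 ≤ f l x ∧ f l x ≤ 1) →
    (∀ l : ℕ, l.Prime → gm m f l ≤ κ / (l : ℝ) ∧ gm m f l ≤ 2 / 3) →
    |sG N al be z m w f - mG N al be z m w f| ≤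
      C * Real.exp (-(b : ℝ)) * mG N al be z m w f +
      K * (m : ℝ) ^ 12 * z ^ zexp b * (N : ℝ) ^ (49 / 50 : ℝ) := by
  obtain ⟨C, hC, K, hK, h⟩ := flg_piece hF κ
  refine ⟨C, hC, 306 * K, by positivity, ?_⟩
  intro N hN hNa al be hal hab hbe b z hz m hm w hw hw01 f hf hg
  have hNR : (1 : ℝ) ≤ N := by exact_mod_cast hN
  have hN0 : (0 : ℝ) < N := by linarith
  have hNh : 0 < (N : ℝ) ^ (-(1 / 2) : ℝ) := Real.rpow_pos_of_pos hN0 _
  have hz0 : 0 < z := by linarith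
  -- induction on the number of pieces
  have hind : ∀ n : ℕ, ∀ al be : ℝ, (N : ℝ) ^ (-(1 / 2) : ℝ) ≤ al → al < be → be ≤ 20 →
      be ≤ 2 ^ (n + 1) * al →
      |sG N al be z m w f - mG N al be z m w f| ≤
      C * Real.exp (-(b : ℝ)) * mG N al be z m w f +
      (n + 1) * (K * (m : ℝ) ^ 12 * z ^ zexp b * (N : ℝ) ^ (39 / 40 : ℝ)) := by
    have hpiece : ∀ al be : ℝ, (N : ℝ) ^ (-(1 / 2) : ℝ) ≤ al → al < be → be ≤ 20 →
        be ≤ 2 * al → |sG N al be z m w f - mG N al be z m w f| ≤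
        C * Real.exp (-(b : ℝ)) * mG N al be z m w f +
        K * (m : ℝ) ^ 12 * z ^ zexp b * (N : ℝ) ^ (39 / 40 : ℝ) := by
      intro al be h1 h2 h3 h4
      have h5 : (N : ℝ) ^ (1 / 2 : ℝ) ≤ al * N := by
        calc (N : ℝ) ^ (1 / 2 : ℝ) = (N : ℝ) ^ (-(1 / 2) : ℝ) * N := by
              nth_rewrite 3 [← Real.rpow_one (N : ℝ)]
              rw [← Real.rpow_add hN0]; norm_num
          _ ≤ al * N := mul_le_mul_of_nonneg_right h1 hN0.le
      have h6 : 1 ≤ al * N := (Real.one_le_rpow hNR (by norm_num)).trans h5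
      have h7 := h N al be hNa (hNh.trans_le h1) h2 h4 h3 h6 b z hz m hm w hw hw01 f hf hg
      refine h7.trans (add_le_add le_rfl ?_)
      have h8 : (al * N) ^ (-(1 / 20) : ℝ) ≤ (N : ℝ) ^ (-(1 / 40) : ℝ) := by
        calc (al * N) ^ (-(1 / 20) : ℝ) ≤ ((N : ℝ) ^ (1 / 2 : ℝ)) ^ (-(1 / 20) : ℝ) :=
              Real.rpow_le_rpow_of_nonpos (Real.rpow_pos_of_pos hN0 _) h5 (by norm_num)
          _ = (N : ℝ) ^ (-(1 / 40) : ℝ) := by rw [← Real.rpow_mul hN0.le]; norm_num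
      have h9 : (N : ℝ) * (al * N) ^ (-(1 / 20) : ℝ) ≤ (N : ℝ) ^ (39 / 40 : ℝ) := by
        calc (N : ℝ) * (al * N) ^ (-(1 / 20) : ℝ) ≤ (N : ℝ) * (N : ℝ) ^ (-(1 / 40) : ℝ) :=
              mul_le_mul_of_nonneg_left h8 hN0.le
          _ = (N : ℝ) ^ (39 / 40 : ℝ) := by
              nth_rewrite 1 [← Real.rpow_one (N : ℝ)]
              rw [← Real.rpow_add hN0]; norm_num
      calc K * (m : ℝ) ^ 12 * z ^ zexp b * N * (al * N) ^ (-(1 / 20) : ℝ) =
          K * (m : ℝ) ^ 12 * z ^ zexp b * (N * (al * N) ^ (-(1 / 20) : ℝ)) := by ring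
        _ ≤ _ := mul_le_mul_of_nonneg_left h9 (by positivity)
    intro n
    induction n with
    | zero =>
      intro al be h1 h2 h3 h4
      have h5 := hpiece al be h1 h2 h3 (by simpa using h4)
      simpa using h5
    | succ n ih =>
      intro al be h1 h2 h3 h4
      rcases le_or_gt be (2 * al) with h5 | h5
      · refine (hpiece al be h1 h2 h3 h5).trans (add_le_add le_rfl ?_)
        have h6 : 0 ≤ K * (m : ℝ) ^ 12 * z ^ zexp b * (N : ℝ) ^ (39 / 40 : ℝ) := by positivity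
        push_cast
        nlinarith
      · have hal0 : 0 < al := hNh.trans_le h1
        obtain ⟨hs, hd⟩ := Gam_split (N := N) (al := al) (be := be) (ga := 2 * al) (by linarith)
          h5.le
        have e1 : sG N al be z m w f = sG N al (2 * al) z m w f + sG N (2 * al) be z m w f := by
          unfold sG
          rw [hs, Finset.sum_union hd]
        have e2 : mG N al be z m w f = mG N al (2 * al) z m w f + mG N (2 * al) be z m w f := by
          unfold mG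
          rw [hs, Finset.card_union_of_disjoint hd]
          push_cast
          ring
        have h6 := hpiece al (2 * al) h1 (by linarith) (by linarith) le_rfl
        have h7 := ih (2 * al) be (by linarith) h5 h3 (by
          calc be ≤ 2 ^ (n + 1 + 1) * al := h4
            _ = 2 ^ (n + 1) * (2 * al) := by ring)
        rw [e1, e2]
        have e3 : sG N al (2 * al) z m w f + sG N (2 * al) be z m w f -
            (mG N al (2 * al) z m w f + mG N (2 * al) be z m w f) =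
            (sG N al (2 * al) z m w f - mG N al (2 * al) z m w f) +
            (sG N (2 * al) be z m w f - mG N (2 * al) be z m w f) := by ring
        rw [e3]
        refine (abs_add_le _ _).trans ((add_le_add h6 h7).trans (le_of_eq ?_))
        push_cast
        ring
  have h10 : be ≤ 2 ^ (Nat.log 2 N + 5 + 1) * al := by
    have h11 : N < 2 ^ (Nat.log 2 N + 1) := Nat.lt_pow_succ_log_self one_lt_two N
    have h12 : (N : ℝ) ≤ 2 ^ (Nat.log 2 N + 1) := by exact_mod_cast h11.le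
    have h13 : (1 : ℝ) ≤ N * al := by
      calc (1 : ℝ) ≤ (N : ℝ) ^ (1 / 2 : ℝ) := Real.one_le_rpow hNR (by norm_num)
        _ = N * (N : ℝ) ^ (-(1 / 2) : ℝ) := by
            nth_rewrite 2 [← Real.rpow_one (N : ℝ)]
            rw [← Real.rpow_add hN0]; norm_num
        _ ≤ N * al := mul_le_mul_of_nonneg_left hal hN0.le
    have h14 : (2 : ℝ) ^ (Nat.log 2 N + 5 + 1) = 32 * 2 ^ (Nat.log 2 N + 1) := by
      rw [show Nat.log 2 N + 5 + 1 = (Nat.log 2 N + 1) + 5 by ring, pow_add]; ring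
    rw [h14]
    have h15 : 0 < al := hNh.trans_le hal
    nlinarith
  have h16 := hind (Nat.log 2 N + 5) al be hal hab hbe h10
  refine h16.trans (add_le_add le_rfl ?_)
  have h17 : (((Nat.log 2 N + 5 : ℕ) : ℝ) + 1) ≤ 306 * (N : ℝ) ^ (1 / 200 : ℝ) := by
    have h18 : (Nat.log 2 N : ℝ) * Real.log 2 ≤ Real.log N := by
      rw [← Real.log_pow]
      refine Real.log_le_log (by positivity) ?_
      have := Nat.pow_log_le_self 2 (show N ≠ 0 by omega)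
      exact_mod_cast this
    have h19 := Real.log_le_rpow_div hN0.le (show (0 : ℝ) < 1 / 200 by norm_num)
    have h20 := Real.log_two_gt_d9
    have h21 : (1 : ℝ) ≤ (N : ℝ) ^ (1 / 200 : ℝ) := Real.one_le_rpow hNR (by norm_num)
    have h22 : (0 : ℝ) ≤ (Nat.log 2 N : ℝ) := Nat.cast_nonneg _
    have h23 : (N : ℝ) ^ (1 / 200 : ℝ) / (1 / 200) = 200 * (N : ℝ) ^ (1 / 200 : ℝ) := by ring
    rw [h23] at h19
    push_cast
    nlinarith
  have h24 : (N : ℝ) ^ (49 / 50 : ℝ) = (N : ℝ) ^ (1 / 200 : ℝ) * (N : ℝ) ^ (39 / 40 : ℝ) := by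
    rw [← Real.rpow_add hN0]; norm_num
  rw [h24]
  have h25 : 0 ≤ K * (m : ℝ) ^ 12 * z ^ zexp b * (N : ℝ) ^ (39 / 40 : ℝ) := by positivity
  calc (((Nat.log 2 N + 5 : ℕ) : ℝ) + 1) *
        (K * (m : ℝ) ^ 12 * z ^ zexp b * (N : ℝ) ^ (39 / 40 : ℝ)) ≤
      306 * (N : ℝ) ^ (1 / 200 : ℝ) *
        (K * (m : ℝ) ^ 12 * z ^ zexp b * (N : ℝ) ^ (39 / 40 : ℝ)) :=
        mul_le_mul_of_nonneg_right h17 h25
    _ = _ := by ring

/-- **FLGG**: the fundamental lemma over `Gam N al be`, with `ε`. -/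
def SpecFlgg : Prop :=
  ∀ (κ : ℕ) (ε : ℝ), 0 < ε → ∃ θ : ℝ, 0 < θ ∧ ∃ N₀ : ℕ, ∀ N : ℕ, N₀ ≤ N →
    ∀ al be : ℝ, (N : ℝ) ^ (-(1 / 2) : ℝ) ≤ al → al < be → be ≤ 20 →
    ∀ z : ℝ, 2 ≤ z → z ≤ (N : ℝ) ^ θ → ∀ m : ℕ, 0 < m → (m : ℝ) ≤ (N : ℝ) ^ (1 / 2400 : ℝ) →
    ∀ w : V × V → ℝ, Per m w → (∀ x, 0 ≤ w x ∧ w x ≤ 1) →
    ∀ f : ℕ → V × V → ℝ, (∀ l : ℕ, l.Prime → Per (l ^ 2) (f l) ∧ ∀ x, 0 ≤ f l x ∧ f l x ≤ 1) →
    (∀ l : ℕ, l.Prime → gm m f l ≤ κ / (l : ℝ) ∧ gm m f l ≤ 2 / 3) →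
    |sG N al be z m w f - mG N al be z m w f| ≤
      ε * mG N al be z m w f + (N : ℝ) ^ (99 / 100 : ℝ)

theorem specFlgg (hF : SpecFlg) : SpecFlgg := by
  intro κ ε hε
  obtain ⟨C, hC, K, hK, h⟩ := flg_sum hF κ
  -- choice of `b`
  obtain ⟨b, hb⟩ : ∃ b : ℕ, C * Real.exp (-(b : ℝ)) ≤ ε := by
    have h1 : Tendsto (fun b : ℕ => C * Real.exp (-(b : ℝ))) atTop (𝓝 (C * 0)) :=
      (Real.tendsto_exp_neg_atTop_nhds_zero.comp tendsto_natCast_atTop_atTop).const_mul C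
    rw [mul_zero] at h1
    exact ((h1.eventually_lt_const hε).exists).imp fun b hb => hb.le
  have hzb : (0 : ℝ) < (zexp b : ℝ) := by
    have : 0 < zexp b := by unfold zexp; omega
    exact_mod_cast this
  refine ⟨1 / (1000 * zexp b), by positivity, ?_⟩
  -- `K ≤ N ^ (1/250)`
  have h2 : ∀ᶠ N : ℕ in atTop, K ≤ (N : ℝ) ^ (1 / 250 : ℝ) ∧ 1 + aa ≤ N :=
    ((((tendsto_rpow_atTop (show (0 : ℝ) < 1 / 250 by norm_num)).comp
      tendsto_natCast_atTop_atTop).eventually_ge_atTop K).and (eventually_ge_atTop (1 + aa)))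
  obtain ⟨N₀, hN₀⟩ := eventually_atTop.1 h2
  refine ⟨N₀, ?_⟩
  intro N hN al be hal hab hbe z hz hzN m hm hmN w hw hw01 f hf hg
  obtain ⟨hKN, hN1'⟩ := hN₀ N hN
  have hN1 : 1 ≤ N := by omega
  have hNa : aa ≤ N ^ 2 := by
    have h01 : aa ≤ N := by omega
    exact h01.trans (Nat.le_self_pow two_ne_zero N)
  have hNR : (1 : ℝ) ≤ N := by exact_mod_cast hN1
  have hN0 : (0 : ℝ) < N := by linarith
  have h3 := h N hN1 hNa al be hal hab hbe b z hz m hm w hw hw01 f hf hg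
  have hm0 : 0 ≤ mG N al be z m w f := by
    unfold mG
    refine mul_nonneg (mul_nonneg (Nat.cast_nonneg _) (mn_nonneg fun x => (hw01 x).1)) ?_
    refine Finset.prod_nonneg fun l hl => ?_
    have hlp : l.Prime := by
      have := (Pool.Agent.Lib.MP391708.QPA.FL.mem_PB.1 hl).1
      exact this
    linarith [(hg l hlp).2]
  refine h3.trans (add_le_add (mul_le_mul_of_nonneg_right hb hm0) ?_)
  have h4 : (m : ℝ) ^ 12 ≤ (N : ℝ) ^ (1 / 200 : ℝ) := by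
    calc (m : ℝ) ^ 12 ≤ ((N : ℝ) ^ (1 / 2400 : ℝ)) ^ 12 :=
          pow_le_pow_left₀ (Nat.cast_nonneg _) hmN _
      _ = (N : ℝ) ^ (1 / 200 : ℝ) := by
          rw [← Real.rpow_natCast, ← Real.rpow_mul hN0.le]; norm_num
  have h5 : z ^ zexp b ≤ (N : ℝ) ^ (1 / 1000 : ℝ) := by
    calc z ^ zexp b ≤ ((N : ℝ) ^ (1 / (1000 * (zexp b : ℝ)) : ℝ)) ^ zexp b :=
          pow_le_pow_left₀ (by linarith) hzN _
      _ = (N : ℝ) ^ (1 / 1000 : ℝ) := by
          rw [← Real.rpow_natCast, ← Real.rpow_mul hN0.le]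
          congr 1
          field_simp
  have hz0 : 0 < z := by linarith
  calc K * (m : ℝ) ^ 12 * z ^ zexp b * (N : ℝ) ^ (49 / 50 : ℝ) ≤
      (N : ℝ) ^ (1 / 250 : ℝ) * (N : ℝ) ^ (1 / 200 : ℝ) * (N : ℝ) ^ (1 / 1000 : ℝ) *
        (N : ℝ) ^ (49 / 50 : ℝ) := by
        refine mul_le_mul_of_nonneg_right ?_ (by positivity)
        exact mul_le_mul (mul_le_mul hKN h4 (by positivity) (by positivity)) h5
          (by positivity) (by positivity)
    _ = (N : ℝ) ^ (99 / 100 : ℝ) := by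
        rw [← Real.rpow_add hN0, ← Real.rpow_add hN0, ← Real.rpow_add hN0]
        norm_num

/-- **CMP**: conditions modulo a number free of primes `< z` are independent of everything below
`z`. -/
def SpecCmp : Prop :=
  ∀ (κ : ℕ) (ε : ℝ), 0 < ε → ∃ θ : ℝ, 0 < θ ∧ ∃ N₀ : ℕ, ∀ N : ℕ, N₀ ≤ N →
    ∀ al be : ℝ, (N : ℝ) ^ (-(1 / 2) : ℝ) ≤ al → al < be → be ≤ 20 →
    ∀ z : ℝ, 2 ≤ z → z ≤ (N : ℝ) ^ θ → ∀ m m' : ℕ, 0 < m → 0 < m' → m.Coprime m' →
    ((m * m' : ℕ) : ℝ) ≤ (N : ℝ) ^ (1 / 2400 : ℝ) →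
    (∀ l : ℕ, l.Prime → l ∣ m' → z ≤ l) →
    ∀ w w' : V × V → ℝ, Per m w → (∀ x, 0 ≤ w x ∧ w x ≤ 1) → Per m' w' →
    (∀ x, 0 ≤ w' x ∧ w' x ≤ 1) →
    ∀ f : ℕ → V × V → ℝ, (∀ l : ℕ, l.Prime → Per (l ^ 2) (f l) ∧ ∀ x, 0 ≤ f l x ∧ f l x ≤ 1) →
    (∀ l : ℕ, l.Prime → gm m f l ≤ κ / (l : ℝ) ∧ gm m f l ≤ 2 / 3) →
    |sG N al be z m (fun x => w x * w' x) f - mn m' w' * sG N al be z m w f| ≤
      ε * (mn m' w' * sG N al be z m w f) + (N : ℝ) ^ (199 / 200 : ℝ)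

theorem specCmp (hF : SpecFlg) : SpecCmp := by
  intro κ ε hε
  set η : ℝ := min (1 / 2) (ε / 4) with hη
  have hη0 : 0 < η := lt_min (by norm_num) (by positivity)
  have hη1 : η ≤ 1 / 2 := min_le_left _ _
  have hη2 : 4 * η ≤ ε := by have := min_le_right (1 / 2 : ℝ) (ε / 4); linarith
  obtain ⟨θ, hθ, N₁, h⟩ := specFlgg hF κ η hη0
  have h2 : ∀ᶠ N : ℕ in atTop, (4 : ℝ) ≤ (N : ℝ) ^ (1 / 200 : ℝ) ∧ 1 ≤ N :=
    ((((tendsto_rpow_atTop (show (0 : ℝ) < 1 / 200 by norm_num)).comp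
      tendsto_natCast_atTop_atTop).eventually_ge_atTop 4).and (eventually_ge_atTop 1))
  obtain ⟨N₂, hN₂⟩ := eventually_atTop.1 h2
  refine ⟨θ, hθ, max N₁ N₂, ?_⟩
  intro N hN al be hal hab hbe z hz hzN m m' hm hm' hcop hmm hrough w w' hw hw01 hw' hw01' f hf hg
  obtain ⟨hN4, hN1⟩ := hN₂ N ((le_max_right _ _).trans hN)
  have hNR : (1 : ℝ) ≤ N := by exact_mod_cast hN1
  have hN0 : (0 : ℝ) < N := by linarith
  have hmle : (m : ℝ) ≤ (N : ℝ) ^ (1 / 2400 : ℝ) := by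
    refine le_trans ?_ hmm
    have : m ≤ m * m' := Nat.le_mul_of_pos_right _ hm'
    exact_mod_cast this
  have hPB : ∀ l ∈ PB z, l.Prime ∧ (l : ℝ) < z := fun l hl =>
    Pool.Agent.Lib.MP391708.QPA.FL.mem_PB.1 hl
  -- the divisors
  have hdvd : ∀ l ∈ PB z, (l ∣ m * m' ↔ l ∣ m) := by
    intro l hl
    obtain ⟨h1, h2⟩ := hPB l hl
    rw [h1.dvd_mul]
    constructor
    · rintro (h3 | h3)
      · exact h3
      · exact absurd (hrough l h1 h3) (not_le.2 h2)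
    · exact fun h3 => Or.inl h3
  have e1 : (PB z).filter (fun l => ¬ l ∣ m * m') = (PB z).filter (fun l => ¬ l ∣ m) :=
    Finset.filter_congr fun l hl => not_congr (hdvd l hl)
  have e2 : ∏ l ∈ PB z, (1 - gm (m * m') f l) = ∏ l ∈ PB z, (1 - gm m f l) := by
    refine Finset.prod_congr rfl fun l hl => ?_
    unfold gm
    by_cases h3 : l ∣ m
    · rw [if_pos h3, if_pos ((hdvd l hl).2 h3)]
    · rw [if_neg h3, if_neg (fun h4 => h3 ((hdvd l hl).1 h4))]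
  have hg' : ∀ l : ℕ, l.Prime → gm (m * m') f l ≤ κ / (l : ℝ) ∧ gm (m * m') f l ≤ 2 / 3 := by
    intro l hl
    by_cases h3 : l ∣ m * m'
    · unfold gm
      rw [if_pos h3]
      constructor
      · positivity
      · norm_num
    · have h4 : gm (m * m') f l = gm m f l := by
        unfold gm
        rw [if_neg h3, if_neg (fun h5 => h3 (h5.mul_right m'))]
      rw [h4]
      exact hg l hl
  have hP : Per (m * m') (fun x => w x * w' x) :=
    (hw.mono (Dvd.intro _ rfl)).mul (hw'.mono (Dvd.intro_left _ rfl))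
  have h01 : ∀ x, 0 ≤ w x * w' x ∧ w x * w' x ≤ 1 := fun x =>
    ⟨mul_nonneg (hw01 x).1 (hw01' x).1,
      mul_le_one₀ (hw01 x).2 (hw01' x).1 (hw01' x).2⟩
  have key1 := h N ((le_max_left _ _).trans hN) al be hal hab hbe z hz hzN (m * m')
    (Nat.mul_pos hm hm') hmm (fun x => w x * w' x) hP h01 f hf hg'
  have key0 := h N ((le_max_left _ _).trans hN) al be hal hab hbe z hz hzN m hm hmle
    w hw hw01 f hf hg
  have e3 : sG N al be z (m * m') (fun x => w x * w' x) f =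
      sG N al be z m (fun x => w x * w' x) f := by
    unfold sG
    rw [e1]
  have e4 : mG N al be z (m * m') (fun x => w x * w' x) f =
      mn m' w' * mG N al be z m w f := by
    unfold mG
    rw [e2, mn_mul hcop hm.ne' hm'.ne' hw hw']
    ring
  rw [e3, e4] at key1
  set μ := mn m' w' with hμ
  have hμ0 : 0 ≤ μ := mn_nonneg fun x => (hw01' x).1
  have hμ1 : μ ≤ 1 := mn_le_one fun x => (hw01' x).2
  set S1 := sG N al be z m (fun x => w x * w' x) f with hS1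
  set S0 := sG N al be z m w f with hS0
  set G0 := mG N al be z m w f with hG0
  have hGnn : 0 ≤ G0 := by
    rw [hG0]
    unfold mG
    refine mul_nonneg (mul_nonneg (Nat.cast_nonneg _) (mn_nonneg fun x => (hw01 x).1)) ?_
    exact Finset.prod_nonneg fun l hl => by linarith [(hg l (hPB l hl).1).2]
  have hSnn : 0 ≤ S0 := by
    rw [hS0]
    unfold sG
    refine Finset.sum_nonneg fun x _ => mul_nonneg (hw01 x).1 ?_
    exact Finset.prod_nonneg fun l hl =>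
      ((hf l (hPB l (Finset.mem_filter.1 hl).1).1).2 x).1
  set E := (N : ℝ) ^ (99 / 100 : ℝ) with hE
  have hE0 : 0 < E := Real.rpow_pos_of_pos hN0 _
  have hEE : 4 * E ≤ (N : ℝ) ^ (199 / 200 : ℝ) := by
    calc 4 * E ≤ (N : ℝ) ^ (1 / 200 : ℝ) * E := mul_le_mul_of_nonneg_right hN4 hE0.le
      _ = (N : ℝ) ^ (199 / 200 : ℝ) := by rw [hE, ← Real.rpow_add hN0]; norm_num
  have h5 := abs_le.1 key1
  have h6 := abs_le.1 key0
  -- `G0 ≤ 2 (S0 + E)`
  have h7 : G0 ≤ 2 * (S0 + E) := by nlinarith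
  have h8 : |S1 - μ * S0| ≤ 2 * (η * (μ * G0)) + 2 * E := by
    have e5 : S1 - μ * S0 = (S1 - μ * G0) - μ * (S0 - G0) := by ring
    rw [e5]
    have h9 : |μ * (S0 - G0)| ≤ μ * (η * G0) + E := by
      rw [abs_mul, abs_of_nonneg hμ0]
      calc μ * |S0 - G0| ≤ μ * (η * G0 + E) := mul_le_mul_of_nonneg_left key0 hμ0
        _ = μ * (η * G0) + μ * E := by ring
        _ ≤ μ * (η * G0) + E := by nlinarith
    calc |(S1 - μ * G0) - μ * (S0 - G0)| ≤ |S1 - μ * G0| + |μ * (S0 - G0)| := abs_sub _ _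
      _ ≤ (η * (μ * G0) + E) + (μ * (η * G0) + E) := add_le_add key1 h9
      _ = _ := by ring
  have h10 : η * (μ * G0) ≤ 2 * η * (μ * S0) + E := by
    have h11 : μ * G0 ≤ μ * (2 * (S0 + E)) := mul_le_mul_of_nonneg_left h7 hμ0
    have h12 : μ * E ≤ E := by nlinarith
    calc η * (μ * G0) ≤ η * (μ * (2 * (S0 + E))) := mul_le_mul_of_nonneg_left h11 hη0.le
      _ = 2 * η * (μ * S0) + 2 * η * (μ * E) := by ring
      _ ≤ 2 * η * (μ * S0) + E := by nlinarith [mul_nonneg hμ0 hE0.le]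
  have h13 : 0 ≤ μ * S0 := mul_nonneg hμ0 hSnn
  calc |S1 - μ * S0| ≤ 2 * (2 * η * (μ * S0) + E) + 2 * E := by linarith
    _ = 4 * η * (μ * S0) + 4 * E := by ring
    _ ≤ ε * (μ * S0) + (N : ℝ) ^ (199 / 200 : ℝ) :=
        add_le_add (mul_le_mul_of_nonneg_right hη2 h13) hEE

end Pool.Agent.Lib.MP391708.TG1
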