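import Pool.Agent.Lib.MP_391708_nt.TG1.ESpecU
import Pool.Agent.Lib.MP_391708_nt.TG.Basic
import Pool.Agent.Lib.MP_391708_nt.T1.EVS
import Pool.Agent.Lib.MP_391708_nt.T1.ELM
import Pool.Agent.Lib.MP_391708_nt.T1.EUC0
import Pool.Agent.Lib.MP_391708_nt.TA.ELM
import Pool.Agent.Lib.MP_391708_nt.TA.LMJ
import Pool.Agent.Lib.MP_391708_nt.TA.RTS

/-!
# Theorem T1b, module EUC0: the cases of PHU with the modulus `n' = n`
-/

set_option autoImplicit false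

namespace Pool.Agent.Lib.MP391708.TG1

open Finset Filter Topology
open scoped Classical
open T1 (F1 F2 wgt wgt0 Locm SQ SDD)
open T1.EUCM (F1_congr F2_congr X_congr locm_ind dvd_of_sub)
open T4 (Prm Good zz W0)
open TG (PP sm Adm S1 S2 vh kp kpU S0 Aa aa az vl az_ne nsq_az az_natAbs vl_cast)
open TA (EX DD Rt chz rr LL dens dm lm lmj Bm chz_one chz_mul chz_dvd chz_even rp_pos SpecRTS SpecRRB
  SpecELM SpecLMJ)

noncomputable section

variable [Aa]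

namespace EUCM

lemma mem_PP {p : Prm} {N l : ℕ} :
    l ∈ PP p N ↔ (l : ℝ) < zz p N ∧ l.Prime ∧ chz az l = 1 ∧ p.E < l := by
  unfold PP
  rw [mem_filter, mem_range, Nat.lt_ceil]
  exact Iff.rfl

lemma not_dvd_a {p : Prm} {N l : ℕ} (h : l ∈ PP p N) : ¬ (l : ℤ) ∣ az := by
  intro hd
  obtain ⟨_, hp, h1, _⟩ := mem_PP.1 h
  rw [chz_dvd hp] at h1
  · exact absurd h1 (by norm_num)
  · rw [az_natAbs]
    exact Dvd.dvd.mul_left (TG.Bs.natCast_dvd_az.1 hd) _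

lemma ne_two {p : Prm} {N l : ℕ} (h : l ∈ PP p N) : l ≠ 2 := by
  rintro rfl
  obtain ⟨_, hp, h1, _⟩ := mem_PP.1 h
  rw [chz_even (by norm_num)] at h1
  exact absurd h1 (by norm_num)

/-- `n` composed of sieving primes is prime to `2 a` -/
lemma cop_two_a {p : Prm} {N n : ℕ} (h : ∀ l : ℕ, l.Prime → l ∣ n → l ∈ PP p N) :
    n.Coprime (2 * az.natAbs) := by
  refine Nat.Coprime.symm (Nat.coprime_of_dvd fun l hl h1 h2 => ?_)
  have h3 := mem_PP.1 (h l hl h2)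
  rw [chz_dvd hl h1] at h3
  exact absurd h3.2.2.1 (by norm_num)

/-- the sum for given `n` is at most a sum of EX sums over the roots -/
lemma UU_le (hRT : SpecRTS) (hRR : SpecRRB) {p : Prm} {N M : ℕ} {s : ℤ} {G P Q n : ℕ} {bT bR : ℝ}
    {c : ℤ → ℤ → ℤ → Prop} (hn : 0 < n) (F : ℤ → ℤ → ℝ) (hF0 : ∀ D D₂, 0 ≤ F D D₂)
    (hF : ∀ D D₂ : ℤ, c (F1 (s * M) G P Q D) (F2 (s * M) G P Q D₂) (G + D * D₂) →
      (n : ℤ) ∣ G + D * D₂ → wU p N (s * M) G P Q n bT bR D D₂ ≤ F D D₂) :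
    UU p N M s G P Q n bT bR c ≤
      ∑ ρ ∈ Rt n (s * M) G P Q, (tU p M G P n ρ n 1 0).S az F := by
  have hr0 : ∀ x : ℕ, 0 ≤ rr az x := fun x => ((hRR _ az_ne).1 x).1
  unfold UU
  rw [hRT.1 (W0 p) n G P Q _ _ (s * M) _ hn]
  refine sum_le_sum fun ρ _ => ?_
  unfold EX.S
  refine sum_le_sum fun D hD => ?_
  refine mul_le_mul_of_nonneg_left ?_ (one_div_nonneg.2 (rp_pos _ D).le)
  have hD0 : (D : ℤ) ≠ 0 := by
    have : (M - 1) / (3 * P) < D := (mem_Ioc.1 (mem_filter.1 hD).1).1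
    exact_mod_cast (Nat.ne_of_gt (lt_of_le_of_lt (Nat.zero_le _) this))
  refine le_trans (sum_le_sum (g := fun x : ℕ => rr az x *
    F (D : ℤ) (((n : ℤ) * x - G) / (D : ℤ))) fun x hx => ?_)
    (sum_le_sum_of_subset_of_nonneg ?_ fun x _ _ => mul_nonneg (hr0 x) (hF0 _ _))
  · obtain ⟨_, hk2, hk3⟩ := mem_filter.1 hx
    have hdv : (D : ℤ) ∣ n * x - G := dvd_trans ⟨(W0 p : ℤ), by push_cast; ring⟩ hk2
    have hx : (G : ℤ) + D * (((n : ℤ) * x - G) / D) = n * x := by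
      rw [Int.mul_ediv_cancel' hdv]; ring
    refine mul_le_mul_of_nonneg_left (hF _ _ ?_ ?_) (hr0 x)
    · rw [hx]; exact hk3
    · rw [hx]; exact ⟨x, rfl⟩
  · intro x hx
    obtain ⟨hk0, hk2, hk3⟩ := mem_filter.1 hx
    unfold EX.SX
    rw [mem_filter]
    refine ⟨hk0, hk2, ?_⟩
    show x ≡ 0 [MOD 1]
    exact Nat.modEq_one

/-- sum over the roots -/
lemma sum_roots (hRT : SpecRTS) {M' : ℤ} {G P Q n : ℕ} (h : (G : ℤ) * P * Q = M' ^ 2 + az)
    (hn : n.Coprime (2 * az.natAbs)) {g : ℕ → ℝ} {X : ℝ} (hX : 0 ≤ X) (hg : ∀ ρ ∈ Rt n M' G P Q, g ρ ≤ X) :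
    ∑ ρ ∈ Rt n M' G P Q, g ρ ≤ 2 ^ n.primeFactors.card * X := by
  calc ∑ ρ ∈ Rt n M' G P Q, g ρ ≤ ∑ _ρ ∈ Rt n M' G P Q, X := sum_le_sum hg
    _ = (Rt n M' G P Q).card * X := by rw [sum_const, nsmul_eq_mul]
    _ ≤ 2 ^ n.primeFactors.card * X := by
        refine mul_le_mul_of_nonneg_right ?_ hX
        exact_mod_cast hRT.2.1 az n G P Q M' h hn

/-- facts on `n` -/
lemma n_facts {p : Prm} {N n : ℕ} {Y : ℝ} (hn : n ∈ SQ (PP p N) Y) :
    0 < n ∧ (n : ℝ) ≤ Y ∧ ∀ l : ℕ, l.Prime → l ∣ n → l ∈ PP p N := by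
  unfold SQ at hn
  obtain ⟨h1, h2, h3⟩ := mem_filter.1 hn
  rw [mem_Icc] at h1
  have hY : 0 ≤ Y := by
    by_contra h
    have : ⌊Y⌋₊ = 0 := Nat.floor_of_nonpos (not_le.1 h).le
    omega
  exact ⟨by omega, (Nat.le_floor_iff hY).1 h1.2, h3⟩

lemma sq_sign {M : ℕ} {s : ℤ} (hs : s = 1 ∨ s = -1) :
    (s * (M : ℤ)) ^ 2 + az = (M : ℤ) ^ 2 + az := by
  rcases hs with rfl | rfl <;> ring

/-- facts on a sieving prime -/
lemma lm_facts (hM : SpecELM) {p : Prm} {N l M G P Q : ℕ} {s : ℤ} {bT bR : ℝ}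
    (hl : l ∈ PP p N) (hE : 1000 ≤ p.E) (hs : s = 1 ∨ s = -1) (h : (G : ℤ) * P * Q = (M : ℤ) ^ 2 + az)
    (h1 : 0 ≤ bT) (h2 : bT ≤ 1) (h3 : 0 ≤ bR) (h4 : bR ≤ 1) (hd : ¬ (l : ℤ) ∣ (M : ℤ) ^ 2 + az) :
    1 / 3 ≤ lm az l G (wgt l (s * M) G P Q bT bR) := by
  obtain ⟨_, hp, h41, hEl⟩ := mem_PP.1 hl
  have hMM : (s * (M : ℤ)) ^ 2 + az = (M : ℤ) ^ 2 + az := sq_sign hs
  obtain ⟨_, hA, _⟩ := hM az l (s * M) G P Q bT bR hp (by omega) (not_dvd_a hl)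
    (by rw [hMM]; exact h) h1 h2 h3 h4
  have := hA (by rw [hMM]; exact hd) h41
  have hl : (1000 : ℝ) < l := by exact_mod_cast (by omega : 1000 < l)
  have e1 : (6 - 2 * bT - 2 * bR) / (l : ℝ) ≤ 6 / 1000 := by
    rw [div_le_div_iff₀ (by linarith) (by norm_num)]
    nlinarith
  have e2 : 100 / (l : ℝ) ^ 2 ≤ 100 / 1000 ^ 2 := by gcongr
  rw [abs_le] at this
  norm_num at e2
  linarith [this.2]

/-- the local means are in `[0,1]` -/
lemma lm_unit_int {p : Prm} {N l M G P Q : ℕ} {s : ℤ} {bT bR : ℝ}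
    (hl : l ∈ PP p N)
    (h1 : 0 ≤ bT) (h2 : bT ≤ 1) (h3 : 0 ≤ bR) (h4 : bR ≤ 1) :
    0 ≤ lm az l G (wgt l (s * M) G P Q bT bR) ∧ lm az l G (wgt l (s * M) G P Q bT bR) ≤ 1 := by
  obtain ⟨_, hp, h41, hEl⟩ := mem_PP.1 hl
  have := Fact.mk hp
  exact TA.ELMM.lm_bounds (l := l) (a := az) (G := G)
    (ψ := wgt l (s * M) G P Q bT bR) (fun x y => T1.ELMM.wgt_bounds h1 h2 h3 h4 _ _)

/-- the set of primes with weights -/
def AA (p : Prm) (N M n : ℕ) : Finset ℕ :=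
  (PP p N).filter (fun l : ℕ => ¬ l ∣ n ∧ ¬ (l : ℤ) ∣ (M : ℤ) ^ 2 + az)

lemma filter_eq (p : Prm) (N M n : ℕ) (S : Finset ℕ) :
    (PP p N).filter (fun l : ℕ => ¬ l ∣ n ∧ ¬ (l : ℤ) ∣ (M : ℤ) ^ 2 + az ∧ l ∉ S) =
      (AA p N M n).filter (fun l => l ∉ S) := by
  unfold AA
  rw [filter_filter]
  refine filter_congr fun l _ => ?_
  tauto

lemma prod_le_VU (hM : SpecELM) {p : Prm} {N M G P Q n : ℕ} {s : ℤ} {bT bR : ℝ}
    (hE : 1000 ≤ p.E) (hs : s = 1 ∨ s = -1) (h : (G : ℤ) * P * Q = (M : ℤ) ^ 2 + az)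
    (h1 : 0 ≤ bT) (h2 : bT ≤ 1) (h3 : 0 ≤ bR) (h4 : bR ≤ 1) {S : Finset ℕ} (hS : S.card ≤ 1) :
    ∏ l ∈ (PP p N).filter (fun l : ℕ => ¬ l ∣ n ∧ ¬ (l : ℤ) ∣ (M : ℤ) ^ 2 + az ∧ l ∉ S),
      lm az l G (wgt l (s * M) G P Q bT bR) ≤ 3 * VU p N M s G P Q n bT bR := by
  rw [filter_eq]
  have e : VU p N M s G P Q n bT bR =
      (∏ l ∈ (AA p N M n).filter (fun l => l ∉ S), lm az l G (wgt l (s * M) G P Q bT bR)) *
      ∏ l ∈ (AA p N M n).filter (fun l => ¬ l ∉ S), lm az l G (wgt l (s * M) G P Q bT bR) :=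
    (prod_filter_mul_prod_filter_not _ _ _).symm
  have h0 : 0 ≤ ∏ l ∈ (AA p N M n).filter (fun l => l ∉ S),
      lm az l G (wgt l (s * M) G P Q bT bR) :=
    prod_nonneg fun l hl => (lm_unit_int (mem_filter.1 (mem_filter.1 hl).1).1 h1 h2 h3 h4).1
  have hlow : (1 / 3 : ℝ) ≤ ∏ l ∈ (AA p N M n).filter (fun l => ¬ l ∉ S),
      lm az l G (wgt l (s * M) G P Q bT bR) := by
    have hc : ((AA p N M n).filter (fun l => ¬ l ∉ S)).card ≤ 1 := by
      refine (card_le_card ?_).trans hS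
      intro l hl
      exact not_not.1 (mem_filter.1 hl).2
    rcases Nat.le_one_iff_eq_zero_or_eq_one.1 hc with hc | hc
    · rw [card_eq_zero.1 hc, prod_empty]
      norm_num
    · obtain ⟨l, hl⟩ := card_eq_one.1 hc
      have hl' : l ∈ (AA p N M n).filter (fun l => ¬ l ∉ S) := by rw [hl]; exact mem_singleton_self l
      rw [hl, prod_singleton]
      have h5 := mem_filter.1 (mem_filter.1 hl').1
      exact lm_facts hM h5.1 hE hs h h1 h2 h3 h4 h5.2.2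
  rw [e]
  nlinarith

lemma wU_le {p : Prm} {N M G P Q n : ℕ} {s : ℤ} {bT bR : ℝ} (hs : s = 1 ∨ s = -1)
    (h1 : 0 ≤ bT) (h2 : bT ≤ 1) (h3 : 0 ≤ bR) (h4 : bR ≤ 1) (S : Finset ℕ) (D D₂ : ℤ) :
    wU p N (s * M) G P Q n bT bR D D₂ ≤
      ∏ l ∈ (PP p N).filter (fun l : ℕ => ¬ l ∣ n ∧ ¬ (l : ℤ) ∣ (M : ℤ) ^ 2 + az ∧ l ∉ S),
        wgt l (s * M) G P Q bT bR D D₂ := by
  rw [filter_eq]
  have e : wU p N (s * M) G P Q n bT bR D D₂ =
      (∏ l ∈ (AA p N M n).filter (fun l => l ∉ S), wgt l (s * M) G P Q bT bR D D₂) *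
      ∏ l ∈ (AA p N M n).filter (fun l => ¬ l ∉ S), wgt l (s * M) G P Q bT bR D D₂ := by
    rw [prod_filter_mul_prod_filter_not]
    unfold wU AA
    rw [sq_sign hs]
  rw [e]
  refine mul_le_of_le_one_right (prod_nonneg fun l hl => ?_) (prod_le_one (fun l hl => ?_) fun l hl => ?_)
  · have : Fact l.Prime := ⟨(mem_PP.1 (mem_filter.1 (mem_filter.1 hl).1).1).2.1⟩
    exact (T1.ELMM.wgt_bounds h1 h2 h3 h4 _ _).1
  · have : Fact l.Prime := ⟨(mem_PP.1 (mem_filter.1 (mem_filter.1 hl).1).1).2.1⟩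
    exact (T1.ELMM.wgt_bounds h1 h2 h3 h4 _ _).1
  · have : Fact l.Prime := ⟨(mem_PP.1 (mem_filter.1 (mem_filter.1 hl).1).1).2.1⟩
    exact (T1.ELMM.wgt_bounds h1 h2 h3 h4 _ _).2

/-- the common step -/
theorem general (hEU : SpecEUG) (hRT : SpecRTS) (hM : SpecELM) (hRR : SpecRRB)
    {c : ℕ → ℤ → ℤ → ℤ → Prop} {H : Finset ℕ → ℕ → ℕ → ℕ → Prop} {f : ℕ → ℝ} {A : ℝ} (hA : 0 < A)
    {Sf : ℕ → Finset ℕ} {j : ℕ} (ψ : ℤ → ℕ → ℕ → ℕ → ℕ → ℤ → ℤ → ℝ)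
    (hf : ∀ q, 0 ≤ f q)
    (hS1 : ∀ q, (Sf q).card ≤ 1)
    (hS : ∀ (PP : Finset ℕ) (M n q : ℕ), H PP M n q → ∀ l ∈ Sf q, l ∈ PP ∧ ¬ l ∣ n)
    (hj : 1 ≤ j ∧ j ≤ 2)
    (hψ : ∀ (M' : ℤ) (G P Q l : ℕ), l.Prime → Locm (l ^ j) (ψ M' G P Q l))
    (hc : ∀ (M' : ℤ) (G P Q q : ℕ) (d e : ℤ), c q (F1 M' G P Q d) (F2 M' G P Q e) (G + d * e) →
      ∀ l ∈ Sf q, 1 ≤ ψ M' G P Q l d e)
    (hm : ∀ (p : Prm) (N M n q G P Q : ℕ) (s : ℤ), H (PP p N) M n q → 1000 ≤ p.E →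
      (s = 1 ∨ s = -1) → (G : ℤ) * P * Q = (M : ℤ) ^ 2 + az →
      ∏ l ∈ Sf q, lmj az l j G (ψ (s * M) G P Q l) ≤ A * f q) : EUC c H f := by
  obtain ⟨C, hC, hG⟩ := hEU
  refine ⟨3 * C * A, by positivity, ?_⟩
  refine (hG.and ((T4.Good.large_E 1000).and T4.Good.zeta_pos)).mono fun p hp => ?_
  obtain ⟨h1, hE, hζ⟩ := hp
  filter_upwards [h1, (T1.EVS.zz_tendsto hζ).eventually_ge_atTop 2] with N hN hz
  intro M G P Q s bT bR n q hAd hs b1 b2 b3 b4 hn hnG hH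
  have hMM : (G : ℤ) * P * Q = (M : ℤ) ^ 2 + az := by
    rw [← vl_cast hAd.1]
    exact_mod_cast hAd.2.1
  obtain ⟨hn0, hnle, hnp⟩ := n_facts hn
  have hPPp : ∀ l ∈ PP p N, l.Prime := fun l hl => (mem_PP.1 hl).2.1
  have hz1 : 1 ≤ zz p N := by linarith
  have hVU : 0 ≤ VU p N M s G P Q n bT bR :=
    prod_nonneg fun l hl => (lm_unit_int (mem_filter.1 hl).1 b1 b2 b3 b4).1
  have hlj : ∀ l ∈ Sf q, 0 ≤ lmj az l j G (ψ (s * M) G P Q l) := by
    intro l hl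
    have hl' := hS _ _ _ _ hH l hl
    have hlp := hPPp l hl'.1
    unfold lmj
    have e0 : T1.Dm l j G (fun _ => (0 : ℝ)) = 0 := T1.LMJM.Dm_const hlp hj.1 G 0
    rw [← e0]
    refine T1.LMJM.Dm_mono hlp G fun d => ?_
    have e1 : Bm az l j G (fun _ _ => (0 : ℝ)) (d : ℤ) = 0 := TA.LMJM.Bm_const _ hlp _ _ 0
    rw [← e1]
    exact TA.LMJM.Bm_mono _ hlp hj.1 _ _ fun e => ((hψ (s * M) G P Q l hlp).1 _ _).1
  have key := UU_le hRT hRR (p := p) (N := N) (M := M) (s := s) (G := G) (P := P) (Q := Q) (n := n)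
    (bT := bT) (bR := bR) (c := c q) hn0
    (fun D D₂ => (∏ l ∈ Sf q, ψ (s * M) G P Q l D D₂) *
      ∏ l ∈ (PP p N).filter (fun l : ℕ => ¬ l ∣ n ∧ ¬ (l : ℤ) ∣ (M : ℤ) ^ 2 + az ∧ l ∉ Sf q),
        wgt l (s * M) G P Q bT bR D D₂)
    (fun D D₂ => mul_nonneg
      (prod_nonneg fun l hl => ((hψ _ _ _ _ l (hPPp l (hS _ _ _ _ hH l hl).1)).1 _ _).1)
      (prod_nonneg fun l hl => by
        have : Fact l.Prime := ⟨hPPp l (mem_filter.1 hl).1⟩
        exact (T1.ELMM.wgt_bounds b1 b2 b3 b4 _ _).1))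
    (fun D D₂ hcc _ => by
      refine (wU_le hs b1 b2 b3 b4 (Sf q) D D₂).trans ?_
      refine le_mul_of_one_le_left (prod_nonneg fun l hl => ?_) ?_
      · have : Fact l.Prime := ⟨hPPp l (mem_filter.1 hl).1⟩
        exact (T1.ELMM.wgt_bounds b1 b2 b3 b4 _ _).1
      · rw [← prod_const_one (s := Sf q)]
        exact prod_le_prod (fun _ _ => zero_le_one) fun l hl => hc _ _ _ _ _ _ _ hcc l hl)
  refine key.trans (sum_roots hRT (by rw [sq_sign hs]; exact hMM) (cop_two_a hnp) ?_ fun ρ hρ => ?_)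
  · have := hf q
    positivity
  · have hρ2 := mem_filter.1 hρ
    have h := hN M G P Q s bT bR n n ρ 1 0 (Sf q) (fun _ => j) (ψ (s * M) G P Q) hAd hs b1 b2
      b3 b4 hn dvd_rfl hn0 (hnle.trans (pow_le_pow_right₀ hz1 (by omega)))
      (fun l hl hd => ⟨hnp l hl hd, fun hg => hl.one_lt.ne' (Nat.eq_one_of_dvd_coprimes hnG hd hg)⟩)
      hρ2.2.1 (Or.inl rfl) (by exact_mod_cast hz1) (fun l hl hd => absurd (Nat.dvd_one.1 hd) hl.ne_one)
      (hS1 q) (fun l hl => ⟨(hS _ _ _ _ hH l hl).1, (hS _ _ _ _ hH l hl).2, hj.1, hj.2,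
        hψ _ _ _ _ l (hPPp l (hS _ _ _ _ hH l hl).1)⟩)
    refine h.trans ?_
    have e1 : (G : ℝ) / ((W0 p : ℝ) ^ 2 * n * n) * dm az 1 0 =
        G / ((W0 p : ℝ) ^ 2 * (n : ℝ) ^ 2) := by
      unfold dm
      rw [if_pos rfl, mul_one]
      congr 1
      ring
    have hX : 0 ≤ C * ((G : ℝ) / ((W0 p : ℝ) ^ 2 * (n : ℝ) ^ 2)) := by positivity
    have h3 : C * ((G : ℝ) / ((W0 p : ℝ) ^ 2 * n * n)) * dm az 1 0 *
        (∏ l ∈ Sf q, lmj az l j G (ψ (s * M) G P Q l)) *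
        ∏ l ∈ (PP p N).filter (fun l : ℕ => ¬ l ∣ n ∧ ¬ (l : ℤ) ∣ (M : ℤ) ^ 2 + az ∧ l ∉ Sf q),
          lm az l G (wgt l (s * M) G P Q bT bR) ≤
        3 * C * A * f q * ((G : ℝ) / ((W0 p : ℝ) ^ 2 * (n : ℝ) ^ 2)) *
          VU p N M s G P Q n bT bR := by
      rw [mul_assoc C, e1]
      calc _ ≤ C * ((G : ℝ) / ((W0 p : ℝ) ^ 2 * (n : ℝ) ^ 2)) * (A * f q) *
            (3 * VU p N M s G P Q n bT bR) := by
            refine mul_le_mul (mul_le_mul_of_nonneg_left (hm p N M n q G P Q s hH hE hs hMM) hX)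
              (prod_le_VU hM hE hs hMM b1 b2 b3 b4 (hS1 q)) (prod_nonneg fun l hl =>
                (lm_unit_int (mem_filter.1 hl).1 b1 b2 b3 b4).1) ?_
            have := hf q
            positivity
        _ = _ := by ring
    have h4 : (G : ℝ) / zz p N ^ (20 * p.K + 20) ≤ G / zz p N ^ (20 * p.K + 10) := by
      refine div_le_div_of_nonneg_left (by positivity) (by positivity) ?_
      exact pow_le_pow_right₀ hz1 (by omega)
    exact add_le_add h3 h4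

end EUCM

open EUCM

theorem specEUC0 (hEU : SpecEUG) (hRT : SpecRTS) (hM : SpecELM) (hRR : SpecRRB) : SpecEUC0 := by
  refine general hEU hRT hM hRR (A := 1) one_pos (Sf := fun _ => ∅) (j := 1)
    (fun _ _ _ _ _ _ _ => 1) (fun _ => zero_le_one) (fun _ => by simp) (by simp) ⟨le_rfl, by norm_num⟩
    (fun _ _ _ _ _ _ => ⟨fun _ _ => ⟨zero_le_one, le_rfl⟩, fun _ _ _ _ _ _ => rfl⟩)
    (by simp) (by simp)

theorem specEUCB (hEU : SpecEUG) (hRT : SpecRTS) (hM : SpecELM) (hRR : SpecRRB) : SpecEUCB := by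
  refine general hEU hRT hM hRR (A := 13) (by norm_num) (Sf := fun q => {q}) (j := 1)
    (fun M' G P Q l d e => if (l : ℤ) ∣ (G + d * e) * F1 M' G P Q d * F2 M' G P Q e then 1 else 0)
    (fun _ => by positivity) (fun _ => by simp) ?_ ⟨le_rfl, by norm_num⟩ ?_ ?_ ?_
  · intro PP M n q h l hl
    rw [mem_singleton] at hl
    subst hl
    exact h
  · intro M' G P Q l hl
    rw [pow_one]
    refine locm_ind fun d d' e e' h1 h2 h => ?_
    rcases (Nat.prime_iff_prime_int.1 hl).dvd_or_dvd h with h | h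
    · rcases (Nat.prime_iff_prime_int.1 hl).dvd_or_dvd h with h | h
      · exact Dvd.dvd.mul_right (Dvd.dvd.mul_right (dvd_of_sub (X_congr G h1 h2) h) _) _
      · exact Dvd.dvd.mul_right (Dvd.dvd.mul_left (dvd_of_sub (F1_congr M' G P Q h1) h) _) _
    · exact Dvd.dvd.mul_left (dvd_of_sub (F2_congr M' G P Q h2) h) _
  · intro M' G P Q q d e h l hl
    rw [mem_singleton] at hl
    subst hl
    rw [if_pos h]
  · intro p N M n q G P Q s hH hE hs hMM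
    obtain ⟨hq, hqn⟩ := hH
    obtain ⟨_, hp, h41, hEl⟩ := mem_PP.1 hq
    have := Fact.mk hp
    have hMM' : (G : ℤ) * P * Q = (s * (M : ℤ)) ^ 2 + az := by rw [sq_sign hs]; exact hMM
    have hMM'' : (G : ℤ) * Q * P = (-(s * (M : ℤ))) ^ 2 + az := by rw [neg_sq, ← hMM']; ring
    have hq0 : (0 : ℝ) < q := by exact_mod_cast hp.pos
    rw [prod_singleton, TA.LMJM.lmj_one _ hp]
    set T : Finset (ZMod q × ZMod q) :=
      ((univ : Finset (ZMod q × ZMod q)).filter (fun x => x.1 ≠ 0 ∧ (G : ZMod q) + x.1 * x.2 = 0)) ∪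
      ((((univ : Finset (ZMod q)).filter (fun x => T1.ELMM.f1 q (s * M) G P Q x = 0)) ×ˢ univ) ∪
      (univ ×ˢ ((univ : Finset (ZMod q)).filter (fun x => T1.ELMM.f1 q (-(s * M)) G Q P x = 0))))
      with hT
    have hcard : T.card ≤ 5 * q := by
      have hc : Fintype.card (ZMod q) = q := ZMod.card q
      have h1 := T1.ELMM.card_w (l := q) (G := G)
      have h2 := TA.ELMM.roots_le (l := q) (by omega) (TA.ELMM.a_ne (not_dvd_a hq)) hMM'
      have h3 := TA.ELMM.roots_le (l := q) (by omega) (TA.ELMM.a_ne (not_dvd_a hq)) hMM''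
      have h4 : ((((univ : Finset (ZMod q)).filter (fun x => T1.ELMM.f1 q (s * M) G P Q x = 0)) ×ˢ
          (univ : Finset (ZMod q)))).card ≤ 2 * q := by
        rw [card_product, card_univ, hc]
        exact Nat.mul_le_mul_right _ h2
      have h5 : (((univ : Finset (ZMod q)) ×ˢ
          ((univ : Finset (ZMod q)).filter (fun x => T1.ELMM.f1 q (-(s * M)) G Q P x = 0)))).card ≤
          2 * q := by
        rw [card_product, card_univ, hc, mul_comm]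
        exact Nat.mul_le_mul_right _ h3
      refine (card_union_le _ _).trans ?_
      have := card_union_le (((univ : Finset (ZMod q)).filter
        (fun x => T1.ELMM.f1 q (s * M) G P Q x = 0)) ×ˢ (univ : Finset (ZMod q)))
        ((univ : Finset (ZMod q)) ×ˢ
          ((univ : Finset (ZMod q)).filter (fun x => T1.ELMM.f1 q (-(s * M)) G Q P x = 0)))
      omega
    have hcard' : (T.card : ℝ) ≤ 5 * q := by exact_mod_cast hcard
    refine (TA.ELMM.fin_bound (l := q) (a := az) (G := G) (by omega) T hcard' ?_ ?_).trans ?_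
    · intro x y
      split_ifs <;> norm_num
    · intro x y hx hxy
      rw [if_neg]
      intro h
      apply hxy
      rw [hT, mem_union, mem_union]
      rcases (Nat.prime_iff_prime_int.1 hp).dvd_or_dvd h with h | h
      · rcases (Nat.prime_iff_prime_int.1 hp).dvd_or_dvd h with h | h
        · left
          rw [mem_filter]
          have h' := (T1.ELMM.dvd_w G x y).1 h
          refine ⟨mem_univ _, ?_, h'⟩
          rintro rfl
          rw [zero_mul, add_zero] at h'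
          exact hx ((ZMod.natCast_eq_zero_iff G q).1 h') rfl
        · right; left
          rw [mem_product, mem_filter]
          exact ⟨⟨mem_univ _, (T1.ELMM.dvd_F1 _ G P Q x).1 h⟩, mem_univ _⟩
      · right; right
        rw [mem_product, mem_filter]
        exact ⟨mem_univ _, mem_univ _, (T1.ELMM.dvd_F2 _ G P Q y).1 h⟩
    · have : 5 / 2 * (5 * (q : ℝ)) / (q : ℝ) ^ 2 = 25 / 2 * (1 / q) := by
        field_simp
        ring
      rw [this]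
      have : 0 < 1 / (q : ℝ) := by positivity
      linarith

theorem specEUCD (hEU : SpecEUG) (hRT : SpecRTS) (hM : SpecELM) (hRR : SpecRRB) (hJ : SpecLMJ) :
    SpecEUCD := by
  refine general hEU hRT hM hRR (A := 10) (by norm_num) (Sf := fun q => {q}) (j := 2)
    (fun M' G P Q l _ e => if (l : ℤ) ^ 2 ∣ F2 M' G P Q e then 1 else 0)
    (fun _ => by positivity) (fun _ => by simp) ?_ ⟨by norm_num, le_rfl⟩ ?_ ?_ ?_
  · intro PP M n q h l hl
    rw [mem_singleton] at hl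
    subst hl
    exact ⟨h.1, h.2.1⟩
  · intro M' G P Q l hl
    refine locm_ind fun d d' e e' h1 h2 h => ?_
    push_cast at h2
    exact dvd_of_sub (F2_congr M' G P Q h2) h
  · intro M' G P Q q d e h l hl
    rw [mem_singleton] at hl
    subst hl
    rw [if_pos h]
  · intro p N M n q G P Q s hH hE hs hMM
    obtain ⟨hq, hqn, hqM⟩ := hH
    obtain ⟨_, hp, h41, hEl⟩ := mem_PP.1 hq
    have hMM' : (G : ℤ) * P * Q = (s * (M : ℤ)) ^ 2 + az := by rw [sq_sign hs]; exact hMM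
    rw [prod_singleton]
    have := (hJ az q 2 G hp (by norm_num)).2.2.2.2.2.2.2.2 (s * M) P Q h41 hMM' (by
      rw [sq_sign hs]; exact mt TG.natCast_dvd_vl.2 hqM)
    refine this.trans (le_of_eq ?_)
    ring

theorem specEUCF (hEU : SpecEUG) (hRT : SpecRTS) (hM : SpecELM) (hRR : SpecRRB) : SpecEUCF := by
  refine general hEU hRT hM hRR (A := 10) (by norm_num) (Sf := fun q => {q}) (j := 1)
    (fun M' G P Q l d e => if (l : ℤ) ∣ F1 M' G P Q d ∧ (l : ℤ) ∣ F2 M' G P Q e ∧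
      ¬ (l : ℤ) ∣ G + d * e then 1 else 0)
    (fun _ => by positivity) (fun _ => by simp) ?_ ⟨le_rfl, by norm_num⟩ ?_ ?_ ?_
  · intro PP M n q h l hl
    rw [mem_singleton] at hl
    subst hl
    exact ⟨h.1, h.2.1⟩
  · intro M' G P Q l hl
    rw [pow_one]
    refine locm_ind fun d d' e e' h1 h2 h => ?_
    refine ⟨dvd_of_sub (F1_congr M' G P Q h1) h.1, dvd_of_sub (F2_congr M' G P Q h2) h.2.1, ?_⟩
    intro h'
    refine h.2.2 (dvd_of_sub ?_ h')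
    refine X_congr G ?_ ?_
    · rw [← neg_sub]; exact (dvd_neg).2 h1
    · rw [← neg_sub]; exact (dvd_neg).2 h2
  · intro M' G P Q q d e h l hl
    rw [mem_singleton] at hl
    subst hl
    rw [if_pos ⟨h.2.1, h.2.2, h.1⟩]
  · intro p N M n q G P Q s hH hE hs hMM
    obtain ⟨hq, hqn, hqM⟩ := hH
    obtain ⟨_, hp, h41, hEl⟩ := mem_PP.1 hq
    have hMM' : (G : ℤ) * P * Q = (s * (M : ℤ)) ^ 2 + az := by rw [sq_sign hs]; exact hMM
    rw [prod_singleton, TA.LMJM.lmj_one _ hp]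
    have := ((hM az q (s * M) G P Q 1 1 hp (by omega) (not_dvd_a hq) hMM' zero_le_one le_rfl zero_le_one
      le_rfl).2.2.2.2.1 (by rw [sq_sign hs]; exact mt TG.natCast_dvd_vl.2 hqM)).2.2.2.2.2
    refine this.trans (le_of_eq ?_)
    ring

end

end Pool.Agent.Lib.MP391708.TG1
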