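import Pool.Agent.Lib.MP_391708_nt.TG1.ESpecC
import Pool.Agent.Lib.MP_391708_nt.TG1.EVS
import Pool.Agent.Lib.MP_391708_nt.TG1.EUC0

/-!
# Theorem T1b, module EPUa: the sum over the smooth part `n` of `X` in PHU
-/

set_option autoImplicit false

namespace Pool.Agent.Lib.MP391708.TG1

open Finset Filter Topology
open scoped Classical
open TG (Aa aa az vl spl Prm Good zz W0 PP sm Adm S1 S2 vh kp kpU S0)
open T1 (wgt SQ)
open TA (PPs chz lm SpecESX SpecELM)

variable [Aa]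

namespace EPUa

omit [Aa] in
lemma exp_le_add {x B : ℝ} (h0 : 0 ≤ x) (hB : x ≤ B) : Real.exp x ≤ 1 + x * Real.exp B := by
  have h1 := Real.add_one_le_exp (-x)
  have h2 : Real.exp x * Real.exp (-x) = 1 := by rw [← Real.exp_add]; simp
  have h3 : Real.exp x ≤ Real.exp B := Real.exp_le_exp.2 hB
  have h4 := mul_le_mul_of_nonneg_left h1 (Real.exp_pos x).le
  have h5 := mul_le_mul_of_nonneg_left h3 h0
  rw [h2] at h4
  linarith

omit [Aa] in
/-- `exp (C ∑ 1/l) ≤ ∏ (1 + C'/l)` -/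
lemma exp_sum_le {P : Finset ℕ} (hP : ∀ l ∈ P, 1 ≤ l) {C C' : ℝ} (hC : 0 ≤ C)
    (hC' : C * Real.exp C ≤ C') :
    Real.exp (C * ∑ l ∈ P, 1 / (l : ℝ)) ≤ ∏ l ∈ P, (1 + C' / (l : ℝ)) := by
  rw [mul_sum, Real.exp_sum]
  refine prod_le_prod (fun _ _ => (Real.exp_pos _).le) fun l hl => ?_
  have h1 : (1 : ℝ) ≤ l := by exact_mod_cast hP l hl
  have h0 : (0 : ℝ) < l := by linarith
  have h2 : C * (1 / (l : ℝ)) ≤ C := by
    rw [mul_one_div, div_le_iff₀ h0]
    nlinarith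
  refine (exp_le_add (by positivity) h2).trans ?_
  have : C * (1 / (l : ℝ)) * Real.exp C = C * Real.exp C / l := by ring
  rw [this]
  gcongr

omit [Aa] in
lemma two_pow_le {n : ℕ} (hn : 0 < n) : 2 ^ n.primeFactors.card ≤ n := by
  calc 2 ^ n.primeFactors.card = ∏ _l ∈ n.primeFactors, 2 := by rw [prod_const]
    _ ≤ ∏ l ∈ n.primeFactors, l :=
        prod_le_prod' fun l hl => (Nat.prime_of_mem_primeFactors hl).two_le
    _ ≤ n := Nat.le_of_dvd hn (Nat.prod_primeFactors_dvd n)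

/-- the sum over `n` -/
theorem sum_n (hX : SpecESX) (hV : SpecEVS) (hR : SpecERR) (hM : SpecELM) {al bT bR : ℝ}
    (ha0 : 0 < al) (ha1 : al ≤ 1) (hT0 : 0 < bT) (hT1 : bT ≤ 1) (hR0 : 0 < bR) (hR1 : bR ≤ 1)
    {C₁ : ℝ} (hC₁ : 0 < C₁) : ∃ C : ℝ, 0 < C ∧ Good (fun p => ∀ᶠ N : ℕ in atTop,
    ∀ (M G P Q : ℕ) (s : ℤ) (q : ℕ) (f₁ f₂ : ℝ) (U : ℕ → ℝ), Adm p N M G P Q →
    (s = 1 ∨ s = -1) → (q = 1 ∨ q ∈ PP p N) → 0 ≤ f₁ → 0 ≤ f₂ →
    (∀ n ∈ SQ (PP p N) (zz p N ^ (4 * p.K)), n.Coprime G → U n ≤ 2 ^ n.primeFactors.card *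
      (C₁ * (if q ∣ n then f₂ else f₁) * (G / ((W0 p : ℝ) ^ 2 * (n : ℝ) ^ 2)) *
        VU p N M s G P Q n bT bR + G / zz p N ^ (20 * p.K + 10))) →
    100 / G * ∑ n ∈ (SQ (PP p N) (zz p N ^ (4 * p.K))).filter (fun n => n.Coprime G),
      al ^ n.primeFactors.card * n * U n ≤
      kpU p N M (3 - al - bT - bR) C * (f₁ + f₂ / q + 1 / (q : ℝ) ^ 2)) := by
  obtain ⟨C₂, hC₂, hX⟩ := hX
  refine ⟨100 * C₁ * C₂ + C₂ * Real.exp C₂ + 1, by positivity, ?_⟩
  set C := 100 * C₁ * C₂ + C₂ * Real.exp C₂ + 1 with hC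
  have hCa : 100 * C₁ * C₂ ≤ C := by
    have : 0 < C₂ * Real.exp C₂ := by positivity
    linarith
  have hCb : C₂ * Real.exp C₂ ≤ C := by
    have : 0 < 100 * C₁ * C₂ := by positivity
    linarith
  have hC1 : 1 ≤ C := by
    have : 0 < 100 * C₁ * C₂ := by positivity
    have : 0 < C₂ * Real.exp C₂ := by positivity
    linarith
  refine ((hV.2 3).and (hR fun _ => 1)).mono fun p hp => ?_
  obtain ⟨h1, hζ, hE, hK, h4W, hW, h2⟩ := hp
  filter_upwards [h1, h2] with N hN hN2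
  obtain ⟨hz, hzN, hadm⟩ := hN2
  intro M G P Q s q f₁ f₂ U hAd hs hq hf1 hf2 hU
  obtain ⟨hM0, hG0, hP0, hQ0, hG4, -⟩ := hadm M G P Q hAd
  have hMM : (G : ℤ) * P * Q = (M : ℤ) ^ 2 + az := by
    rw [← TG.vl_cast hAd.1]
    exact_mod_cast hAd.2.1
  have hMs : (G : ℤ) * P * Q = (s * (M : ℤ)) ^ 2 + az := by rw [EUCM.sq_sign hs]; exact hMM
  set z := zz p N with hzdef
  have hz0 : 0 < z := by linarith
  have hz1 : 1 ≤ z := by linarith
  have hGr : (0 : ℝ) < G := by exact_mod_cast hG0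
  have hW0 : 0 < W0 p := Nat.pos_of_ne_zero fun h => by
    have h3 := (hW (Nat.minFac (p.E.factorial + 1))
      (Nat.minFac_prime (by have := Nat.factorial_pos p.E; omega))).2 (by rw [h]; exact dvd_zero _)
    have h4 := Nat.minFac_prime (n := p.E.factorial + 1) (by have := Nat.factorial_pos p.E; omega)
    have h5 := (Nat.Prime.dvd_factorial h4).2 h3
    have h6 := (Nat.dvd_add_right h5).1 (Nat.minFac_dvd _)
    exact h4.one_lt.ne' (Nat.dvd_one.1 h6)
  have hWr : (1 : ℝ) ≤ W0 p := by exact_mod_cast hW0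
  have hq1 : 1 ≤ q := by
    rcases hq with rfl | h
    · exact le_rfl
    · exact (EVS.mem_PP.1 h).2.1.one_le
  have hqr : (1 : ℝ) ≤ q := by exact_mod_cast hq1
  have hqz : (q : ℝ) ≤ z := by
    rcases hq with rfl | h
    · push_cast; exact hz1
    · exact (EVS.mem_PP.1 h).1.le
  set P1 := (PP p N).filter (fun l => l ∣ vl M) with hP1
  set a : ℕ → ℝ := fun l => 1 - lm az l G (wgt l (s * M) G P Q bT bR) with ha
  set S := SQ (PP p N) (z ^ (4 * p.K)) with hS
  have hPP1 : ∀ l : ℕ, l ∈ P1 ↔ l ∈ PP p N ∧ (l : ℤ) ∣ (M : ℤ) ^ 2 + az := by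
    intro l
    rw [hP1, mem_filter]
    have : (l : ℤ) ∣ (M : ℤ) ^ 2 + az ↔ l ∣ vl M := TG.natCast_dvd_vl.symm
    rw [this]
  -- the product is `VU`
  have hVU : ∀ n : ℕ, ∏ l ∈ (PPs az p.E z).filter (fun l => ¬ l ∣ n ∧ l ∉ P1), (1 - a l) =
      VU p N M s G P Q n bT bR := by
    intro n
    unfold VU
    rw [PPs_eq]
    refine prod_congr (filter_congr fun l hl => ?_) fun l _ => by rw [ha]; ring
    rw [hPP1]
    tauto
  have hVU0 : ∀ n : ℕ, 0 ≤ VU p N M s G P Q n bT bR := fun n =>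
    prod_nonneg fun l hl => (EUCM.lm_unit_int (mem_filter.1 hl).1 hT0.le hT1 hR0.le hR1).1
  have hzK : z ^ (((4 * p.K : ℕ) : ℝ)) = z ^ (4 * p.K) := Real.rpow_natCast _ _
  have hXX := hX az p.E z ((4 * p.K : ℕ) : ℝ) al (6 - 2 * bT - 2 * bR) a P1 hE hz
    (by exact_mod_cast (by omega : 1 ≤ 4 * p.K)) ha0.le ha1 (by linarith) (by linarith)
    (fun l hl => by
      have := EVS.mem_PP.1 ((hPP1 l).1 hl).1
      exact ⟨this.2.1, this.2.2.2, this.1⟩)
    (fun l hl hl1 => by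
      rw [PPs_eq] at hl
      have h3 := EUCM.lm_unit_int (M := M) (G := G) (P := P) (Q := Q) (s := s) (p := p) (N := N) hl
        hT0.le hT1 hR0.le hR1
      have h4 := EVS.mem_PP.1 hl
      have hnd : ¬ (l : ℤ) ∣ (M : ℤ) ^ 2 + az := fun h => hl1 ((hPP1 l).2 ⟨hl, h⟩)
      have h5 := (hM az l (s * M) G P Q bT bR h4.2.1 (by omega) (EUCM.not_dvd_a hl) hMs hT0.le hT1
        hR0.le hR1).2.1 (by rw [EUCM.sq_sign hs]; exact hnd) h4.2.2.1
      exact ⟨by linarith [h3.2], by linarith [h3.1], h5⟩)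
  have hPPs : PPs az p.E z = PP p N := PPs_eq p N
  simp only [hVU, hzK] at hXX
  simp only [hPPs] at hXX
  obtain ⟨hX1, hX2⟩ := hXX
  set V := ∏ l ∈ PP p N, (1 - (6 - 2 * bT - 2 * bR - 2 * al) / (l : ℝ)) with hVdef
  -- the size of `V`
  have hV1 : V ≤ Real.exp (-((3 - al - bT - bR) * S0 p N)) := by
    have := (hV.1 p N (6 - 2 * bT - 2 * bR - 2 * al) (by omega) (by linarith) (by linarith)).2
    rw [PPs_eq] at this
    refine this.trans (le_of_eq ?_)
    congr 2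
    ring
  have hexp := exp_sum_le (P := P1) (fun l hl => (EVS.mem_PP.1 ((hPP1 l).1 hl).1).2.1.one_le)
    hC₂.le hCb
  have hPr0 : 1 ≤ ∏ l ∈ P1, (1 + C / (l : ℝ)) := by
    refine (prod_const_one (s := P1)).symm.le.trans (prod_le_prod (fun _ _ => zero_le_one) fun l _ => ?_)
    have : 0 ≤ C / (l : ℝ) := by positivity
    linarith
  have hkU : kpU p N M (3 - al - bT - bR) C = C * kp p N (3 - al - bT - bR) *
      ∏ l ∈ P1, (1 + C / (l : ℝ)) := rfl
  have hkp : kp p N (3 - al - bT - bR) =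
      Real.exp (-((3 - al - bT - bR) * S0 p N)) / (W0 p : ℝ) ^ 2 := rfl
  set Ex := Real.exp (-((3 - al - bT - bR) * S0 p N)) with hEx
  have hEx0 : 0 < Ex := Real.exp_pos _
  set Pr := ∏ l ∈ P1, (1 + C / (l : ℝ)) with hPr
  -- main bound
  have hmain : Real.exp (C₂ * ∑ l ∈ P1, 1 / (l : ℝ)) * V ≤ Pr * Ex := by
    calc _ ≤ Real.exp (C₂ * ∑ l ∈ P1, 1 / (l : ℝ)) * Ex :=
          mul_le_mul_of_nonneg_left hV1 (Real.exp_pos _).le
      _ ≤ _ := mul_le_mul_of_nonneg_right hexp hEx0.le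
  set T : ℕ → ℝ := fun n => (2 * al) ^ n.primeFactors.card / (n : ℝ) * VU p N M s G P Q n bT bR
    with hT
  have hTn : ∀ n, 0 ≤ T n := fun n => mul_nonneg (by positivity) (hVU0 n)
  have hall : ∑ n ∈ S, T n ≤ C₂ * (Pr * Ex) := by
    refine hX1.trans ?_
    rw [mul_assoc]
    exact mul_le_mul_of_nonneg_left hmain hC₂.le
  have hdiv : ∑ n ∈ S.filter (fun n => q ∣ n), T n ≤ C₂ * (Pr * Ex) / q := by
    rcases hq with rfl | h
    · have : S.filter (fun n => 1 ∣ n) = S := filter_true_of_mem fun n _ => one_dvd n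
      rw [this]
      push_cast
      rw [div_one]
      exact hall
    · refine (hX2 q (EVS.mem_PP.1 h).2.1).trans ?_
      rw [mul_assoc, div_mul_eq_mul_div]
      exact div_le_div_of_nonneg_right (mul_le_mul_of_nonneg_left hmain hC₂.le) (by linarith)
  -- the error
  have herr : 100 * ∑ n ∈ S, (2 * al) ^ n.primeFactors.card * (n : ℝ) / z ^ (20 * p.K + 10) ≤
      1 / (z * (q : ℝ) ^ 2) := by
    have hn : ∀ n ∈ S, (2 * al) ^ n.primeFactors.card * (n : ℝ) / z ^ (20 * p.K + 10) ≤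
        1 / z ^ (12 * p.K + 10) := by
      intro n hn
      obtain ⟨h3, h4, -⟩ := EUCM.n_facts hn
      have h5 : (2 * al) ^ n.primeFactors.card ≤ n := by
        calc (2 * al) ^ n.primeFactors.card ≤ 2 ^ n.primeFactors.card :=
              pow_le_pow_left₀ (by positivity) (by linarith) _
          _ ≤ n := by exact_mod_cast two_pow_le h3
      rw [div_le_div_iff₀ (by positivity) (by positivity), one_mul]
      calc (2 * al) ^ n.primeFactors.card * (n : ℝ) * z ^ (12 * p.K + 10) ≤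
            z ^ (4 * p.K) * z ^ (4 * p.K) * z ^ (12 * p.K + 10) := by
            refine mul_le_mul_of_nonneg_right ?_ (by positivity)
            exact mul_le_mul (h5.trans h4) h4 (by positivity) (by positivity)
        _ = z ^ (20 * p.K + 10) := by
            rw [← pow_add, ← pow_add]
            congr 1
            ring
    have hcard : (S.card : ℝ) ≤ z ^ (4 * p.K) := by
      have h3 : S.card ≤ ⌊z ^ (4 * p.K)⌋₊ := by
        refine (card_filter_le _ _).trans ?_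
        rw [Nat.card_Icc]
        omega
      exact (Nat.cast_le.2 h3).trans (Nat.floor_le (by positivity))
    have h3 : ∑ n ∈ S, (2 * al) ^ n.primeFactors.card * (n : ℝ) / z ^ (20 * p.K + 10) ≤
        z ^ (4 * p.K) * (1 / z ^ (12 * p.K + 10)) := by
      refine (sum_le_sum hn).trans ?_
      rw [sum_const, nsmul_eq_mul]
      exact mul_le_mul_of_nonneg_right hcard (by positivity)
    have h4 : z ^ (4 * p.K) * (1 / z ^ (12 * p.K + 10)) = 1 / z ^ (8 * p.K + 10) := by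
      rw [mul_one_div, div_eq_div_iff (by positivity) (by positivity), one_mul, ← pow_add]
      congr 1
      ring
    rw [h4] at h3
    have h5 : 100 * (1 / z ^ (8 * p.K + 10)) ≤ 1 / z ^ 3 := by
      rw [mul_one_div, div_le_div_iff₀ (by positivity) (by positivity), one_mul]
      have h6 : (100 : ℝ) ≤ z ^ (8 * p.K + 7) := by
        calc (100 : ℝ) ≤ 2 ^ 7 := by norm_num
          _ ≤ z ^ 7 := pow_le_pow_left₀ (by norm_num) hz 7
          _ ≤ z ^ (8 * p.K + 7) := pow_le_pow_right₀ hz1 (by omega)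
      calc 100 * z ^ 3 ≤ z ^ (8 * p.K + 7) * z ^ 3 := mul_le_mul_of_nonneg_right h6 (by positivity)
        _ = z ^ (8 * p.K + 10) := by rw [← pow_add]
    have h6 : 1 / z ^ 3 ≤ 1 / (z * (q : ℝ) ^ 2) := by
      refine one_div_le_one_div_of_le (by positivity) ?_
      calc z * (q : ℝ) ^ 2 ≤ z * z ^ 2 := by gcongr
        _ = z ^ 3 := by ring
    linarith
  have hkpz : 1 / z ≤ kp p N (3 - al - bT - bR) := by
    rw [hkp, div_le_div_iff₀ hz0 (by positivity), one_mul]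
    have h3 : Real.exp (3 * S0 p N) * Ex ≥ 1 := by
      rw [hEx, ← Real.exp_add]
      refine Real.one_le_exp ?_
      have := EVS.S0_nonneg p N
      nlinarith
    have h4 : (W0 p : ℝ) ^ 2 ≤ (W0 p : ℝ) ^ 4 := pow_le_pow_right₀ hWr (by norm_num)
    calc (W0 p : ℝ) ^ 2 ≤ (W0 p : ℝ) ^ 4 * (Real.exp (3 * S0 p N) * Ex) := by
          refine h4.trans (le_mul_of_one_le_right (by positivity) h3)
      _ = (W0 p : ℝ) ^ 4 * Real.exp (3 * S0 p N) * Ex := by ring
      _ ≤ z * Ex := mul_le_mul_of_nonneg_right hN hEx0.le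
      _ = Ex * z := mul_comm _ _
  -- the sum
  have hstep : 100 / G * ∑ n ∈ S.filter (fun n => n.Coprime G),
      al ^ n.primeFactors.card * n * U n ≤
      100 * C₁ / (W0 p : ℝ) ^ 2 * ∑ n ∈ S, (if q ∣ n then f₂ else f₁) * T n +
      100 * ∑ n ∈ S, (2 * al) ^ n.primeFactors.card * (n : ℝ) / z ^ (20 * p.K + 10) := by
    rw [mul_sum, mul_sum, mul_sum, ← sum_add_distrib]
    refine (sum_le_sum fun n hn => ?_).trans (sum_le_sum_of_subset_of_nonneg (filter_subset _ _)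
      fun n hn _ => ?_)
    · obtain ⟨hn1, hn2⟩ := mem_filter.1 hn
      obtain ⟨h3, h4, -⟩ := EUCM.n_facts hn1
      have h3r : (0 : ℝ) < n := by exact_mod_cast h3
      have h5 := hU n hn1 hn2
      calc 100 / G * (al ^ n.primeFactors.card * n * U n) ≤
          100 / G * (al ^ n.primeFactors.card * n * (2 ^ n.primeFactors.card *
            (C₁ * (if q ∣ n then f₂ else f₁) * (G / ((W0 p : ℝ) ^ 2 * (n : ℝ) ^ 2)) *
            VU p N M s G P Q n bT bR + G / z ^ (20 * p.K + 10)))) := by gcongr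
        _ = _ := by
            simp only [hT, mul_pow]
            field_simp
    · have h6 : 0 ≤ (if q ∣ n then f₂ else f₁) := by split_ifs <;> assumption
      have := hTn n
      positivity
  have hsplit : ∑ n ∈ S, (if q ∣ n then f₂ else f₁) * T n ≤
      C₂ * (Pr * Ex) * (f₁ + f₂ / q) := by
    rw [← sum_filter_add_sum_filter_not S (fun n => q ∣ n)]
    have h3 : ∑ n ∈ S.filter (fun n => q ∣ n), (if q ∣ n then f₂ else f₁) * T n =
        f₂ * ∑ n ∈ S.filter (fun n => q ∣ n), T n := by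
      rw [mul_sum]
      exact sum_congr rfl fun n hn => by rw [if_pos (mem_filter.1 hn).2]
    have h4 : ∑ n ∈ S.filter (fun n => ¬ q ∣ n), (if q ∣ n then f₂ else f₁) * T n =
        f₁ * ∑ n ∈ S.filter (fun n => ¬ q ∣ n), T n := by
      rw [mul_sum]
      exact sum_congr rfl fun n hn => by rw [if_neg (mem_filter.1 hn).2]
    rw [h3, h4]
    have h5 : ∑ n ∈ S.filter (fun n => ¬ q ∣ n), T n ≤ C₂ * (Pr * Ex) :=
      (sum_le_sum_of_subset_of_nonneg (filter_subset _ _) fun n _ _ => hTn n).trans hall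
    have h6 := mul_le_mul_of_nonneg_left hdiv hf2
    have h7 := mul_le_mul_of_nonneg_left h5 hf1
    have h8 : C₂ * (Pr * Ex) * (f₁ + f₂ / q) = f₂ * (C₂ * (Pr * Ex) / q) + f₁ * (C₂ * (Pr * Ex)) := by
      ring
    rw [h8]
    exact add_le_add h6 h7
  have hfq : 0 ≤ f₁ + f₂ / q := by positivity
  have hfin1 : 100 * C₁ / (W0 p : ℝ) ^ 2 * ∑ n ∈ S, (if q ∣ n then f₂ else f₁) * T n ≤
      kpU p N M (3 - al - bT - bR) C * (f₁ + f₂ / q) := by
    calc _ ≤ 100 * C₁ / (W0 p : ℝ) ^ 2 * (C₂ * (Pr * Ex) * (f₁ + f₂ / q)) :=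
          mul_le_mul_of_nonneg_left hsplit (by positivity)
      _ = (100 * C₁ * C₂) * (Ex / (W0 p : ℝ) ^ 2 * Pr * (f₁ + f₂ / q)) := by ring
      _ ≤ C * (Ex / (W0 p : ℝ) ^ 2 * Pr * (f₁ + f₂ / q)) := by
          refine mul_le_mul_of_nonneg_right hCa ?_
          have : 0 ≤ Pr := by linarith
          positivity
      _ = _ := by rw [hkU, hkp]; ring
  have hfin2 : 1 / (z * (q : ℝ) ^ 2) ≤ kpU p N M (3 - al - bT - bR) C * (1 / (q : ℝ) ^ 2) := by
    have h3 : 1 / (z * (q : ℝ) ^ 2) = 1 / z * (1 / (q : ℝ) ^ 2) := by rw [one_div_mul_one_div]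
    rw [h3]
    refine mul_le_mul_of_nonneg_right ?_ (by positivity)
    rw [hkU]
    have h4 : 0 < kp p N (3 - al - bT - bR) := lt_of_lt_of_le (by positivity) hkpz
    calc 1 / z ≤ kp p N (3 - al - bT - bR) := hkpz
      _ ≤ C * kp p N (3 - al - bT - bR) := le_mul_of_one_le_left h4.le hC1
      _ ≤ C * kp p N (3 - al - bT - bR) * Pr := le_mul_of_one_le_right (by positivity) hPr0
  calc _ ≤ _ := hstep
    _ ≤ kpU p N M (3 - al - bT - bR) C * (f₁ + f₂ / q) +
        kpU p N M (3 - al - bT - bR) C * (1 / (q : ℝ) ^ 2) :=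
        add_le_add hfin1 (herr.trans hfin2)
    _ = _ := by ring

end EPUa

end Pool.Agent.Lib.MP391708.TG1
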