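import Pool.Agent.Lib.MP_391708_nt.TG1.EPUa

/-!
# Theorem T1b: final assembly of PHU
-/

set_option autoImplicit false

namespace Pool.Agent.Lib.MP391708.TG1

open Finset Filter Topology
open scoped Classical
open TG (Aa aa az vl az_ne spl Prm Good zz W0 PP sm Adm S1 S2 vh kp kpU S0)
open T1 (Locm F1 F2 wgt SQ)
open TA (DD rr lm lmj SpecESX SpecELM SpecRRB)

noncomputable section

variable [Aa]

namespace EPUh

attribute [local irreducible] TG.S1 TG.S2 T4.dbox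

lemma wU_nonneg {p : Prm} {N : ℕ} {M : ℤ} {G P Q n : ℕ} {bT bR : ℝ}
    (h1 : 0 ≤ bT) (h2 : bT ≤ 1) (h3 : 0 ≤ bR) (h4 : bR ≤ 1) (D D₂ : ℤ) :
    0 ≤ wU p N M G P Q n bT bR D D₂ := by
  unfold wU
  refine prod_nonneg fun l hl => ?_
  have : Fact l.Prime := ⟨(EUCM.mem_PP.1 (mem_filter.1 hl).1).2.1⟩
  exact (T1.ELMM.wgt_bounds h1 h2 h3 h4 _ _).1

/-- the sum as a sum without filter on `c` -/
lemma UU_eq {p : Prm} {N M : ℕ} {s : ℤ} {G P Q n : ℕ} {bT bR : ℝ} (c : ℤ → ℤ → ℤ → Prop) :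
    UU p N M s G P Q n bT bR c =
    ∑ D ∈ DD (W0 p) n (s * M) G P Q ((M - 1) / (3 * P)) (10 * M / P), (1 / TA.rp az D) *
    ∑ k ∈ (Ioc 0 ⌊(D : ℝ) * LU M G P / n⌋₊).filter (fun k : ℕ =>
        ((D * W0 p : ℕ) : ℤ) ∣ (n : ℤ) * k - G),
      if c (F1 (s * M) G P Q D) (F2 (s * M) G P Q (((n : ℤ) * k - G) / D)) ((n : ℤ) * k) then
        rr az k * wU p N (s * M) G P Q n bT bR D (((n : ℤ) * k - G) / D) else 0 := by
  unfold UU
  refine sum_congr rfl fun D _ => ?_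
  congr 1
  rw [← sum_filter, filter_filter]

lemma rr_nonneg (hRR : SpecRRB) (x : ℕ) : 0 ≤ rr az x := ((hRR _ az_ne).1 x).1

lemma UU_mono (hRR : SpecRRB) {p : Prm} {N M : ℕ} {s : ℤ} {G P Q n : ℕ} {bT bR : ℝ}
    (h1 : 0 ≤ bT) (h2 : bT ≤ 1) (h3 : 0 ≤ bR) (h4 : bR ≤ 1) {c c' : ℤ → ℤ → ℤ → Prop}
    (h : ∀ f₁ f₂ x, c f₁ f₂ x → c' f₁ f₂ x) :
    UU p N M s G P Q n bT bR c ≤ UU p N M s G P Q n bT bR c' := by
  rw [UU_eq, UU_eq]
  refine sum_le_sum fun D _ => mul_le_mul_of_nonneg_left (sum_le_sum fun k _ => ?_)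
    (one_div_nonneg.2 (TA.rp_pos _ D).le)
  have hw := mul_nonneg (rr_nonneg hRR k) (wU_nonneg (p := p) (N := N) (M := s * M) (G := G)
    (P := P) (Q := Q) (n := n) h1 h2 h3 h4 (D : ℤ) (((n : ℤ) * k - G) / D))
  split_ifs with ha hb
  · exact le_rfl
  · exact absurd (h _ _ _ ha) hb
  · exact hw
  · exact le_rfl

lemma UU_add (hRR : SpecRRB) {p : Prm} {N M : ℕ} {s : ℤ} {G P Q n : ℕ} {bT bR : ℝ}
    (h1 : 0 ≤ bT) (h2 : bT ≤ 1) (h3 : 0 ≤ bR) (h4 : bR ≤ 1) {c c₁ c₂ c₃ : ℤ → ℤ → ℤ → Prop}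
    (h : ∀ f₁ f₂ x, c f₁ f₂ x → c₁ f₁ f₂ x ∨ c₂ f₁ f₂ x ∨ c₃ f₁ f₂ x) :
    UU p N M s G P Q n bT bR c ≤ UU p N M s G P Q n bT bR c₁ + UU p N M s G P Q n bT bR c₂ +
      UU p N M s G P Q n bT bR c₃ := by
  simp only [UU_eq]
  rw [← sum_add_distrib, ← sum_add_distrib]
  refine sum_le_sum fun D _ => ?_
  rw [← mul_add, ← mul_add, ← sum_add_distrib, ← sum_add_distrib]
  refine mul_le_mul_of_nonneg_left (sum_le_sum fun k _ => ?_)
    (one_div_nonneg.2 (TA.rp_pos _ D).le)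
  have hw := mul_nonneg (rr_nonneg hRR k) (wU_nonneg (p := p) (N := N) (M := s * M) (G := G)
    (P := P) (Q := Q) (n := n) h1 h2 h3 h4 (D : ℤ) (((n : ℤ) * k - G) / D))
  set W := rr az k * wU p N (s * M) G P Q n bT bR D (((n : ℤ) * k - G) / D) with hW
  have hi : ∀ (q : Prop) [Decidable q], (0 : ℝ) ≤ if q then W else 0 := by
    intro q _
    split_ifs <;> [exact hw; exact le_rfl]
  have a1 := hi (c₁ (F1 (s * M) G P Q D) (F2 (s * M) G P Q (((n : ℤ) * k - G) / D)) ((n : ℤ) * k))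
  have a2 := hi (c₂ (F1 (s * M) G P Q D) (F2 (s * M) G P Q (((n : ℤ) * k - G) / D)) ((n : ℤ) * k))
  have a3 := hi (c₃ (F1 (s * M) G P Q D) (F2 (s * M) G P Q (((n : ℤ) * k - G) / D)) ((n : ℤ) * k))
  by_cases hc : c (F1 (s * M) G P Q D) (F2 (s * M) G P Q (((n : ℤ) * k - G) / D)) ((n : ℤ) * k)
  · rw [if_pos hc]
    rcases h _ _ _ hc with hh | hh | hh
    · rw [if_pos hh]
      linarith
    · rw [if_pos hh]
      linarith
    · rw [if_pos hh]
      linarith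
  · rw [if_neg hc]
    linarith

/-- if `c` requires `q ∤ X` and `q ∣ n` the sum is zero -/
lemma UU_zero {p : Prm} {N M : ℕ} {s : ℤ} {G P Q n : ℕ} {bT bR : ℝ} {c : ℤ → ℤ → ℤ → Prop}
    (h : ∀ f₁ f₂ x, (n : ℤ) ∣ x → ¬ c f₁ f₂ x) : UU p N M s G P Q n bT bR c = 0 := by
  rw [UU_eq]
  refine sum_eq_zero fun D _ => ?_
  rw [sum_eq_zero, mul_zero]
  intro k _
  rw [if_neg (h _ _ _ ⟨_, rfl⟩)]

lemma kpU_mono {p : Prm} {N M : ℕ} {τ C C' : ℝ} (h0 : 0 ≤ C) (h : C ≤ C') :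
    kpU p N M τ C ≤ kpU p N M τ C' := by
  unfold kpU
  have hk : 0 ≤ kp p N τ := by unfold kp; positivity
  refine mul_le_mul (mul_le_mul_of_nonneg_right h hk) (prod_le_prod (fun l _ => by positivity)
    fun l _ => by gcongr) (prod_nonneg fun l _ => by positivity) (by
      have := h0.trans h
      positivity)

lemma kpU_scale {p : Prm} {N M : ℕ} {τ C A : ℝ} (h0 : 0 ≤ C) (h : 1 ≤ A) :
    A * kpU p N M τ C ≤ kpU p N M τ (A * C) := by
  have hk : 0 ≤ kp p N τ := by unfold kp; positivity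
  have hCA : C ≤ A * C := le_mul_of_one_le_left h0 h
  unfold kpU
  calc A * (C * kp p N τ * ∏ l ∈ (PP p N).filter (fun l => l ∣ vl M), (1 + C / (l : ℝ)))
      = A * C * kp p N τ * ∏ l ∈ (PP p N).filter (fun l => l ∣ vl M), (1 + C / (l : ℝ)) := by
        ring
    _ ≤ _ := by
        refine mul_le_mul_of_nonneg_left (prod_le_prod (fun l _ => by positivity)
          fun l _ => by gcongr) (by
            have := h0.trans hCA
            positivity)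

lemma kpU_nonneg {p : Prm} {N M : ℕ} {τ C : ℝ} (h0 : 0 ≤ C) : 0 ≤ kpU p N M τ C := by
  unfold kpU kp
  positivity

lemma VU_nonneg {p : Prm} {N M G P Q n : ℕ} {s : ℤ} {bT bR : ℝ}
    (b1 : 0 ≤ bT) (b2 : bT ≤ 1) (b3 : 0 ≤ bR) (b4 : bR ≤ 1) : 0 ≤ VU p N M s G P Q n bT bR :=
  prod_nonneg fun _ hl => (EUCM.lm_unit_int (mem_filter.1 hl).1 b1 b2 b3 b4).1

omit [Aa] in
/-- weaken the constant and the density in a case -/
lemma weaken {U w C C₁ f f' X V E : ℝ} (hw : 0 ≤ w) (hC : C ≤ C₁) (hC0 : 0 ≤ C₁)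
    (hf : f ≤ f') (hf0 : 0 ≤ f) (hX : 0 ≤ X) (hV : 0 ≤ V) (h : U ≤ w * (C * f * X * V + E)) :
    U ≤ w * (C₁ * f' * X * V + E) := by
  refine h.trans (mul_le_mul_of_nonneg_left (add_le_add_left ?_ E |>.trans le_rfl) hw)
  have h1 : C * f ≤ C₁ * f' := mul_le_mul hC hf hf0 hC0
  gcongr

end EPUh

open EPUh

theorem specPHU_of' (hDU : SpecEDU) (h0 : SpecEUC0) (hB : SpecEUCB) (hA : SpecEUCA)
    (hA' : SpecEUCA') (hD : SpecEUCD) (hD' : SpecEUCD') (hF : SpecEUCF) (hX : SpecESX)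
    (hV : SpecEVS) (hR : SpecERR) (hM : SpecELM) (hRR : SpecRRB) : TG.SpecPHU := by
  intro al bT bR a0 a1 t0 t1 r0 r1
  obtain ⟨C0, hC0, g0⟩ := h0
  obtain ⟨CB, hCB, gB⟩ := hB
  obtain ⟨CA, hCA, gA⟩ := hA
  obtain ⟨CA', hCA', gA'⟩ := hA'
  obtain ⟨CD, hCD, gD⟩ := hD
  obtain ⟨CD', hCD', gD'⟩ := hD'
  obtain ⟨CF, hCF, gF⟩ := hF
  set C₁ : ℝ := C0 + CB + CA + CA' + CD + CD' + CF with hC₁
  have hC₁0 : 0 < C₁ := by positivity
  obtain ⟨C, hC, gS⟩ := EPUa.sum_n hX hV hR hM a0 a1 t0 t1 r0 r1 hC₁0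
  refine ⟨20 * C, by positivity, ?_⟩
  refine ((((g0.and gB).and (gA.and gA')).and ((gD.and gD').and gF)).and
    (gS.and (hR fun _ => 1))).mono fun p hp => ?_
  obtain ⟨⟨⟨⟨e0, eB⟩, eA, eA'⟩, ⟨eD, eD'⟩, eF⟩, eS, -, -, -, h4W, hW, eR⟩ := hp
  filter_upwards [e0, eB, eA, eA', eD, eD', eF, eS, eR] with N n0 nB nA nA' nD nD' nF nS nR
  obtain ⟨hz, -, hadm⟩ := nR
  intro M G P Q hAd
  obtain ⟨hM0, hG0, hP0, hQ0, -⟩ := hadm M G P Q hAd
  set z := zz p N with hzdef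
  set τ := 3 - al - bT - bR with hτ
  have hW0 : (0 : ℝ) ≤ (W0 p : ℝ) := by positivity
  have hkU := kpU_nonneg (p := p) (N := N) (M := M) (τ := τ) (C := C) hC.le
  -- one sign, one condition
  have step : ∀ (s : ℤ) (q : ℕ) (f₁ f₂ : ℝ) (c : ℤ → ℤ → ℤ → Prop), (s = 1 ∨ s = -1) →
      (q = 1 ∨ q ∈ PP p N) → 0 ≤ f₁ → 0 ≤ f₂ →
      (∀ n ∈ SQ (PP p N) (z ^ (4 * p.K)), n.Coprime G → UU p N M s G P Q n bT bR c ≤
        2 ^ n.primeFactors.card * (C₁ * (if q ∣ n then f₂ else f₁) *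
          (G / ((W0 p : ℝ) ^ 2 * (n : ℝ) ^ 2)) * VU p N M s G P Q n bT bR +
          G / z ^ (20 * p.K + 10))) →
      100 / G * ∑ n ∈ (SQ (PP p N) (z ^ (4 * p.K))).filter (fun n => n.Coprime G),
        al ^ n.primeFactors.card * n * UU p N M s G P Q n bT bR c ≤
        kpU p N M τ C * (f₁ + f₂ / q + 1 / (q : ℝ) ^ 2) :=
    fun s q f₁ f₂ c hs hq h1 h2 h => nS M G P Q s q f₁ f₂ _ hAd hs hq h1 h2 h
  have hs1 : (1 : ℤ) = 1 ∨ (1 : ℤ) = -1 := Or.inl rfl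
  have hs2 : (-1 : ℤ) = 1 ∨ (-1 : ℤ) = -1 := Or.inr rfl
  have hVU : ∀ (s : ℤ) (n : ℕ), 0 ≤ VU p N M s G P Q n bT bR := fun s n =>
    VU_nonneg t0.le t1 r0.le r1
  have hXn : ∀ n : ℕ, 0 ≤ (G : ℝ) / ((W0 p : ℝ) ^ 2 * (n : ℝ) ^ 2) := fun n => by positivity
  -- decomposition
  have dec : ∀ c : ℤ → ℤ → ℤ → Prop,
      ∑ t ∈ (S2 p N M G P Q).filter
        (fun t => c (T4.F1 (M, G, P, Q, t)) (T4.F2 (M, G, P, Q, t)) (t.2 : ℤ)),
        vh p N al bT bR (M, G, P, Q, t) ≤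
      100 / G * ∑ n ∈ (SQ (PP p N) (z ^ (4 * p.K))).filter (fun n => n.Coprime G),
        al ^ n.primeFactors.card * n * UU p N M 1 G P Q n bT bR c +
      100 / G * ∑ n ∈ (SQ (PP p N) (z ^ (4 * p.K))).filter (fun n => n.Coprime G),
        al ^ n.primeFactors.card * n * UU p N M (-1) G P Q n bT bR c := by
    intro c
    refine (hDU p N M G P Q al bT bR c h4W hW hz hAd hM0 hG0 hP0 hQ0 a0.le a1 t0.le t1 r0.le
      r1).trans (le_of_eq ?_)
    rw [← mul_add, ← sum_add_distrib]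
    congr 1
    refine sum_congr rfl fun n _ => ?_
    rw [mul_add]
  have hsc : ∀ A : ℝ, 0 ≤ A → A ≤ 20 → A * kpU p N M τ C ≤ kpU p N M τ (20 * C) := by
    intro A hA0 hA
    refine le_trans (mul_le_mul_of_nonneg_right hA hkU) (kpU_scale hC.le (by norm_num))
  refine ⟨?_, fun q hq => ⟨?_, ?_⟩⟩
  · -- no condition
    have h := dec (fun _ _ _ => True)
    simp only [filter_true] at h
    have hc : ∀ s : ℤ, (s = 1 ∨ s = -1) →
        100 / G * ∑ n ∈ (SQ (PP p N) (z ^ (4 * p.K))).filter (fun n => n.Coprime G),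
          al ^ n.primeFactors.card * n * UU p N M s G P Q n bT bR (fun _ _ _ => True) ≤
        kpU p N M τ C * (0 + 1 / ((1 : ℕ) : ℝ) + 1 / ((1 : ℕ) : ℝ) ^ 2) := by
      intro s hs
      refine step s 1 0 1 _ hs (Or.inl rfl) le_rfl zero_le_one fun n hn hnG => ?_
      rw [if_pos (one_dvd n)]
      refine weaken (C := C0) (f := 1) (by positivity) (by rw [hC₁]; linarith) hC₁0.le le_rfl
        zero_le_one (hXn n) (hVU s n) ?_
      exact n0 M G P Q s bT bR n 1 hAd hs t0.le t1 r0.le r1 hn hnG trivial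
    refine h.trans ((add_le_add (hc 1 hs1) (hc (-1) hs2)).trans ?_)
    refine le_trans (le_of_eq ?_) (hsc 4 (by norm_num) (by norm_num))
    push_cast
    ring
  · -- q²
    have hq1 : (1 : ℝ) ≤ q := by exact_mod_cast (EUCM.mem_PP.1 hq).2.1.one_le
    by_cases hqM : q ∣ vl M
    · rw [filter_false_of_mem (fun t _ h => h.1 hqM), sum_empty]
      exact div_nonneg (kpU_nonneg (by positivity)) (by positivity)
    obtain ⟨c, hc⟩ : ∃ c : ℤ → ℤ → ℤ → Prop, c = fun f₁ f₂ x => (q : ℤ) ^ 2 ∣ f₁ ∨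
      (q : ℤ) ^ 2 ∣ f₂ ∨ (¬ (q : ℤ) ∣ x ∧ (q : ℤ) ∣ f₁ ∧ (q : ℤ) ∣ f₂) := ⟨_, rfl⟩
    have hset : (S2 p N M G P Q).filter (fun t => ¬ q ∣ vl M ∧
          ((q : ℤ) ^ 2 ∣ T4.F1 (M, G, P, Q, t) ∨ (q : ℤ) ^ 2 ∣ T4.F2 (M, G, P, Q, t) ∨
            (¬ q ∣ t.2 ∧ (q : ℤ) ∣ T4.F1 (M, G, P, Q, t) ∧ (q : ℤ) ∣ T4.F2 (M, G, P, Q, t)))) =
        (S2 p N M G P Q).filter
        (fun t => c (T4.F1 (M, G, P, Q, t)) (T4.F2 (M, G, P, Q, t)) (t.2 : ℤ)) := by
      refine filter_congr fun t _ => ?_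
      simp only [hc, hqM, not_false_eq_true, true_and, Int.natCast_dvd_natCast]
    rw [hset]
    have hs : ∀ s : ℤ, (s = 1 ∨ s = -1) →
        100 / G * ∑ n ∈ (SQ (PP p N) (z ^ (4 * p.K))).filter (fun n => n.Coprime G),
          al ^ n.primeFactors.card * n * UU p N M s G P Q n bT bR c ≤
        kpU p N M τ C * (1 / (q : ℝ) ^ 2 + 1 / (q : ℝ) / q + 1 / (q : ℝ) ^ 2) +
        kpU p N M τ C * (1 / (q : ℝ) ^ 2 + 1 / (q : ℝ) / q + 1 / (q : ℝ) ^ 2) +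
        kpU p N M τ C * (1 / (q : ℝ) ^ 2 + 0 / q + 1 / (q : ℝ) ^ 2) := by
      intro s hs
      have i1 := step s q (1 / (q : ℝ) ^ 2) (1 / (q : ℝ)) (fun f₁ _ _ => (q : ℤ) ^ 2 ∣ f₁) hs
        (Or.inr hq) (by positivity) (by positivity) (fun n hn hnG => by
          split_ifs with hqn
          · exact weaken (C := CA') (f := 1 / (q : ℝ)) (by positivity) (by rw [hC₁]; linarith)
              hC₁0.le le_rfl (by positivity) (hXn n) (hVU s n)
              (nA' M G P Q s bT bR n q hAd hs t0.le t1 r0.le r1 hn hnG ⟨hq, hqn, hqM⟩)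
          · exact weaken (C := CA) (f := 1 / (q : ℝ) ^ 2) (by positivity) (by rw [hC₁]; linarith)
              hC₁0.le le_rfl (by positivity) (hXn n) (hVU s n)
              (nA M G P Q s bT bR n q hAd hs t0.le t1 r0.le r1 hn hnG ⟨hq, hqn, hqM⟩))
      have i2 := step s q (1 / (q : ℝ) ^ 2) (1 / (q : ℝ)) (fun _ f₂ _ => (q : ℤ) ^ 2 ∣ f₂) hs
        (Or.inr hq) (by positivity) (by positivity) (fun n hn hnG => by
          split_ifs with hqn
          · exact weaken (C := CD') (f := 1 / (q : ℝ)) (by positivity) (by rw [hC₁]; linarith)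
              hC₁0.le le_rfl (by positivity) (hXn n) (hVU s n)
              (nD' M G P Q s bT bR n q hAd hs t0.le t1 r0.le r1 hn hnG ⟨hq, hqn, hqM⟩)
          · exact weaken (C := CD) (f := 1 / (q : ℝ) ^ 2) (by positivity) (by rw [hC₁]; linarith)
              hC₁0.le le_rfl (by positivity) (hXn n) (hVU s n)
              (nD M G P Q s bT bR n q hAd hs t0.le t1 r0.le r1 hn hnG ⟨hq, hqn, hqM⟩))
      have i3 := step s q (1 / (q : ℝ) ^ 2) 0
        (fun f₁ f₂ x => ¬ (q : ℤ) ∣ x ∧ (q : ℤ) ∣ f₁ ∧ (q : ℤ) ∣ f₂) hs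
        (Or.inr hq) (by positivity) le_rfl (fun n hn hnG => by
          split_ifs with hqn
          · rw [UU_zero (fun f₁ f₂ x hx hc => hc.1 ((Int.natCast_dvd_natCast.2 hqn).trans hx))]
            have hz0 : 0 < z := by linarith
            have := hXn n
            have := hVU s n
            positivity
          · exact weaken (C := CF) (f := 1 / (q : ℝ) ^ 2) (by positivity) (by rw [hC₁]; linarith)
              hC₁0.le le_rfl (by positivity) (hXn n) (hVU s n)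
              (nF M G P Q s bT bR n q hAd hs t0.le t1 r0.le r1 hn hnG ⟨hq, hqn, hqM⟩))
      refine le_trans ?_ (add_le_add (add_le_add i1 i2) i3)
      rw [← mul_add, ← mul_add, ← sum_add_distrib, ← sum_add_distrib]
      refine mul_le_mul_of_nonneg_left (sum_le_sum fun n _ => ?_) (by positivity)
      rw [← mul_add, ← mul_add]
      refine mul_le_mul_of_nonneg_left ?_ (by positivity)
      refine UU_add hRR t0.le t1 r0.le r1 fun f₁ f₂ x h => ?_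
      rw [hc] at h
      exact h
    refine (dec c).trans ((add_le_add (hs 1 hs1) (hs (-1) hs2)).trans ?_)
    have e : (1 / (q : ℝ) / q) = 1 / (q : ℝ) ^ 2 := by rw [div_div, sq]
    rw [e, zero_div, le_div_iff₀ (by positivity)]
    refine le_trans (le_of_eq ?_) (hsc 16 (by norm_num) (by norm_num))
    have hq0 : (q : ℝ) ≠ 0 := by linarith
    field_simp
    ring
  · -- q
    have hq1 : (1 : ℝ) ≤ q := by exact_mod_cast (EUCM.mem_PP.1 hq).2.1.one_le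
    obtain ⟨c, hc⟩ : ∃ c : ℤ → ℤ → ℤ → Prop, c = fun f₁ f₂ x => (q : ℤ) ∣ x * f₁ * f₂ :=
      ⟨_, rfl⟩
    have hset : (S2 p N M G P Q).filter (fun t =>
          (q : ℤ) ∣ t.2 * T4.F1 (M, G, P, Q, t) * T4.F2 (M, G, P, Q, t)) =
        (S2 p N M G P Q).filter
        (fun t => c (T4.F1 (M, G, P, Q, t)) (T4.F2 (M, G, P, Q, t)) (t.2 : ℤ)) := by
      refine filter_congr fun t _ => ?_
      simp only [hc]
    rw [hset]
    have hs : ∀ s : ℤ, (s = 1 ∨ s = -1) →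
        100 / G * ∑ n ∈ (SQ (PP p N) (z ^ (4 * p.K))).filter (fun n => n.Coprime G),
          al ^ n.primeFactors.card * n * UU p N M s G P Q n bT bR c ≤
        kpU p N M τ C * (1 / (q : ℝ) + 1 / (q : ℝ) + 1 / (q : ℝ) ^ 2) := by
      intro s hs
      refine step s q (1 / (q : ℝ)) 1 c hs (Or.inr hq) (by positivity) zero_le_one
        fun n hn hnG => ?_
      split_ifs with hqn
      · refine weaken (C := C0) (f := 1) (by positivity) (by rw [hC₁]; linarith) hC₁0.le le_rfl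
          zero_le_one (hXn n) (hVU s n) ?_
        exact (UU_mono hRR t0.le t1 r0.le r1 (fun _ _ _ _ => trivial)).trans
          (n0 M G P Q s bT bR n 1 hAd hs t0.le t1 r0.le r1 hn hnG trivial)
      · rw [hc]
        exact weaken (C := CB) (f := 1 / (q : ℝ)) (by positivity) (by rw [hC₁]; linarith)
          hC₁0.le le_rfl (by positivity) (hXn n) (hVU s n)
          (nB M G P Q s bT bR n q hAd hs t0.le t1 r0.le r1 hn hnG ⟨hq, hqn⟩)
    refine (dec c).trans ((add_le_add (hs 1 hs1) (hs (-1) hs2)).trans ?_)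
    rw [le_div_iff₀ (by positivity)]
    refine le_trans ?_ (hsc 6 (by norm_num) (by norm_num))
    have e : (kpU p N M τ C * (1 / (q : ℝ) + 1 / (q : ℝ) + 1 / (q : ℝ) ^ 2) +
        kpU p N M τ C * (1 / (q : ℝ) + 1 / (q : ℝ) + 1 / (q : ℝ) ^ 2)) * q =
        kpU p N M τ C * (4 + 2 / q) := by
      have hq0 : (q : ℝ) ≠ 0 := by linarith
      field_simp
      ring
    rw [e, mul_comm 6]
    refine mul_le_mul_of_nonneg_left ?_ hkU
    have : 2 / (q : ℝ) ≤ 2 := div_le_self (by norm_num) hq1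
    linarith

end

end Pool.Agent.Lib.MP391708.TG1
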