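import Pool.Agent.Lib.MP_391708_nt.TG.FSpecA
import Pool.Agent.Lib.MP_391708_nt.TG.Basic
import Pool.Agent.Lib.MP_391708_nt.T1.FuP

/-!
# T1a, group F: the moments of `∏_{l ∣ M² + a} (1 + C/l)`
-/

set_option autoImplicit false

namespace Pool.Agent.Lib.MP391708.TG

variable [Pool.Agent.Lib.MP391708.TG.Aa] [Pool.Agent.Lib.MP391708.TG.Frm]

open Finset Filter Topology
open Pool.Agent.Lib.MP391708.Eqd (V cross pairs)
open scoped Classical

namespace FuPM

export T4.FuPM (pow_bound card_le_log sum_sq_le sum_inv_le prod_exp_le prod_primes_le)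

/-- the indicator of `l ∣ M² + a` -/
noncomputable def im (l : ℕ) (x : VV) : ℝ := if l ∣ vl (mm x).natAbs then 1 else 0

lemma im_nonneg (l : ℕ) (x : VV) : 0 ≤ im l x := by unfold im; split_ifs <;> norm_num

lemma im_le_one (l : ℕ) (x : VV) : im l x ≤ 1 := by unfold im; split_ifs <;> norm_num

lemma dvd_iff (l : ℕ) (x : VV) : l ∣ vl (mm x).natAbs ↔ (l : ℤ) ∣ mm x ^ 2 + az := by
  rw [natCast_dvd_vl, Int.natCast_natAbs, sq_abs]

/-- the bilinear form at residues -/
noncomputable def bz (l : ℕ) (v w : ZMod l × ZMod l) : ZMod l :=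
  (Frm.A : ZMod l) * (v.1 * w.1) + (Frm.B : ZMod l) * (v.1 * w.2 + v.2 * w.1) +
    (Frm.C : ZMod l) * (v.2 * w.2)

lemma dvd_iff_zmod (l : ℕ) (x : VV) : (l : ℤ) ∣ mm x ^ 2 + az ↔
    bz l ((Eqd.res l x).1) ((Eqd.res l x).2) ^ 2 + (az : ZMod l) = 0 := by
  rw [← ZMod.intCast_zmod_eq_zero_iff_dvd]
  unfold mm dot bz
  simp only [Eqd.res]
  push_cast
  rfl

lemma im_per (l : ℕ) : T1.Per l (im l) := by
  intro x y h
  unfold im
  simp only [dvd_iff, dvd_iff_zmod, h]

lemma dvd_nsq_iff (l : ℕ) (v : V) : (l : ℤ) ∣ nsq v ↔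
    bz l ((v.1 : ZMod l), (v.2 : ZMod l)) ((v.1 : ZMod l), (v.2 : ZMod l)) = 0 := by
  rw [← ZMod.intCast_zmod_eq_zero_iff_dvd, ← dot_self]
  unfold dot bz
  push_cast
  rfl

omit [Frm] in
lemma spl_root {l : ℕ} (hl : l.Prime) (h : spl l) :
    ∃ c : ZMod l, c ^ 2 = -(az : ZMod l) ∧ c ≠ 0 ∧ (2 : ZMod l) ≠ 0 := by
  have : Fact l.Prime := ⟨hl⟩
  unfold spl at h
  have h1 : ¬ l ∣ 2 * aa := TG.Bs.not_dvd_two_aa_of_spl hl h
  have h2 : l ≠ 2 := by
    rintro rfl
    exact h1 (dvd_mul_right 2 aa)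
  have h3 : ¬ (l : ℤ) ∣ az := fun hd => h1 ((TG.Bs.natCast_dvd_az.1 hd).mul_left 2)
  obtain ⟨s, hs⟩ := (TA.chz_prime_one hl h2 h3).1 h
  rw [← ZMod.intCast_zmod_eq_zero_iff_dvd] at hs
  push_cast at hs
  have h4 : (s : ZMod l) ^ 2 = -(az : ZMod l) := by linear_combination hs
  refine ⟨(s : ZMod l), h4, ?_, ?_⟩
  · intro hz
    rw [hz] at h4
    have h5 : (az : ZMod l) = 0 := by linear_combination h4
    rw [ZMod.intCast_zmod_eq_zero_iff_dvd] at h5
    exact h3 h5
  · intro hz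
    have h5 : ((2 : ℕ) : ZMod l) = 0 := by exact_mod_cast hz
    rw [ZMod.natCast_eq_zero_iff] at h5
    exact h2 ((Nat.prime_dvd_prime_iff_eq hl Nat.prime_two).1 h5)

/-- the zeros of the form lie on two lines -/
lemma zeros_card {l : ℕ} [NeZero l] (hl : l.Prime) (h : spl l) :
    ((univ : Finset (ZMod l × ZMod l)).filter (fun v => bz l v v = 0)).card ≤ 2 * l := by
  have : Fact l.Prime := ⟨hl⟩
  obtain ⟨c, hc, hc0, h2⟩ := spl_root hl h
  have hdet : (Frm.A : ZMod l) * (Frm.C : ZMod l) - (Frm.B : ZMod l) ^ 2 = (az : ZMod l) := by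
    have := congrArg (Int.cast : ℤ → ZMod l) (Frm.det)
    push_cast at this
    exact this
  have key : ∃ a1 b1 a2 b2 : ZMod l, (IsUnit a1 ∨ IsUnit b1) ∧ (IsUnit a2 ∨ IsUnit b2) ∧
      ∀ v : ZMod l × ZMod l, bz l v v = 0 → (a1 * v.2 - b1 * v.1 = 0 ∨ a2 * v.2 - b2 * v.1 = 0) := by
    by_cases hA : (Frm.A : ZMod l) = 0
    · have hB : (Frm.B : ZMod l) ≠ 0 := by
        intro hB
        rw [hA, hB] at hdet
        apply hc0
        have : c ^ 2 = 0 := by rw [hc, ← hdet]; ring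
        exact pow_eq_zero_iff (two_ne_zero) |>.1 this
      refine ⟨1, 0, (Frm.C : ZMod l), -(2 * (Frm.B : ZMod l)), Or.inl isUnit_one,
        Or.inr (isUnit_iff_ne_zero.2 (neg_ne_zero.2 (mul_ne_zero h2 hB))), ?_⟩
      intro v hv
      unfold bz at hv
      rw [hA] at hv
      have : v.2 * ((Frm.C : ZMod l) * v.2 - -(2 * (Frm.B : ZMod l)) * v.1) = 0 := by
        linear_combination hv
      rcases mul_eq_zero.1 this with h | h
      · left; rw [h]; ring
      · right; exact h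
    · refine ⟨(Frm.B : ZMod l) - c, -(Frm.A : ZMod l), (Frm.B : ZMod l) + c, -(Frm.A : ZMod l),
        Or.inr (isUnit_iff_ne_zero.2 (neg_ne_zero.2 hA)),
        Or.inr (isUnit_iff_ne_zero.2 (neg_ne_zero.2 hA)), ?_⟩
      intro v hv
      unfold bz at hv
      apply mul_eq_zero.1
      linear_combination (Frm.A : ZMod l) * hv - v.2 ^ 2 * hdet - v.2 ^ 2 * hc
  obtain ⟨a1, b1, a2, b2, hu1, hu2, hk⟩ := key
  have e : (univ : Finset (ZMod l × ZMod l)).filter (fun v => bz l v v = 0) ⊆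
      (univ : Finset (ZMod l × ZMod l)).filter (fun v => a1 * v.2 - b1 * v.1 = 0) ∪
      (univ : Finset (ZMod l × ZMod l)).filter (fun v => a2 * v.2 - b2 * v.1 = 0) := by
    intro v hv
    rw [mem_filter] at hv
    rw [mem_union, mem_filter, mem_filter]
    rcases hk v hv.2 with h | h
    · exact Or.inl ⟨mem_univ _, h⟩
    · exact Or.inr ⟨mem_univ _, h⟩
  refine (card_le_card e).trans ((card_union_le _ _).trans ?_)
  have f1 := T1.LocM.fiber_card a1 b1 0 hu1
  have f2 := T1.LocM.fiber_card a2 b2 0 hu2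
  rw [ZMod.card] at f1 f2
  have g1 : ((univ : Finset (ZMod l × ZMod l)).filter (fun v => a1 * v.2 - b1 * v.1 = 0)).card =
      l := by convert f1
  have g2 : ((univ : Finset (ZMod l × ZMod l)).filter (fun v => a2 * v.2 - b2 * v.1 = 0)).card =
      l := by convert f2
  rw [g1, g2]; omega

omit [Aa] [Frm] in
lemma sum_sl_fst' {l q : ℕ} (hl : l.Prime) (hq : q = l ^ 1) [NeZero q]
    (G : ZMod q × ZMod q → ℝ) :
    ∑ r ∈ T1.sl q, G r.1 = (q : ℝ) * ∑ v ∈ T1.LocM.prim q, G v := by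
  subst hq; exact T1.LocM.sum_sl_fst hl one_pos G

omit [Aa] [Frm] in
lemma card_sl' {l q : ℕ} (hl : l.Prime) (hq : q = l ^ 1) [NeZero q] :
    ((T1.sl q).card : ℝ) = (q : ℝ) ^ 3 * (1 - 1 / (l : ℝ) ^ 2) := by
  subst hq; exact T1.LocM.card_sl hl one_pos

/-- the mean of `l ∣ F(v)` over the classes -/
lemma zero_mean {l : ℕ} (hl : l.Prime) (h : spl l) (s t : ZMod l) (hst : IsUnit s ∨ IsUnit t)
    [NeZero l] :
    (∑ r ∈ T1.sl l, (if bz l (s * r.1.1 + t * r.2.1, s * r.1.2 + t * r.2.2)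
      (s * r.1.1 + t * r.2.1, s * r.1.2 + t * r.2.2) = 0 then (1 : ℝ) else 0)) /
      ((T1.sl l).card : ℝ) ≤ 4 / (l : ℝ) := by
  have h1 := T1.LocM.sum_lin hst (fun v => if bz l v v = 0 then (1 : ℝ) else 0)
  have h2 := sum_sl_fst' hl (pow_one l).symm (fun v => if bz l v v = 0 then (1 : ℝ) else 0)
  rw [h1, h2, card_sl' hl (pow_one l).symm]
  have h4 : ∑ v ∈ T1.LocM.prim l, (if bz l v v = 0 then (1 : ℝ) else 0) ≤ 2 * l := by
    have h5 : ∑ v ∈ T1.LocM.prim l, (if bz l v v = 0 then (1 : ℝ) else 0) ≤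
        ∑ v : ZMod l × ZMod l, (if bz l v v = 0 then (1 : ℝ) else 0) :=
      sum_le_sum_of_subset_of_nonneg (subset_univ _) fun _ _ _ => by split_ifs <;> norm_num
    refine h5.trans ?_
    rw [← sum_filter, sum_const, nsmul_eq_mul, mul_one]
    exact_mod_cast zeros_card hl h
  have hl2 : (2 : ℝ) ≤ l := by exact_mod_cast hl.two_le
  have hl0 : (0 : ℝ) < l := by linarith
  have h6 : (1 : ℝ) / (l : ℝ) ^ 2 ≤ 1 / 4 := by
    apply div_le_div_of_nonneg_left (by norm_num) (by norm_num)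
    nlinarith
  calc (l : ℝ) * (∑ v ∈ T1.LocM.prim l, (if bz l v v = 0 then (1 : ℝ) else 0)) /
        ((l : ℝ) ^ 3 * (1 - 1 / (l : ℝ) ^ 2)) ≤
        (l : ℝ) * (2 * l) / ((l : ℝ) ^ 3 * (1 / 2)) := by
        refine div_le_div₀ (by positivity) (mul_le_mul_of_nonneg_left h4 hl0.le)
          (by positivity) (mul_le_mul_of_nonneg_left (by linarith) (by positivity))
    _ = 4 / (l : ℝ) := by
        field_simp
        norm_num

lemma im_mean {l : ℕ} (hl : l.Prime) (hl4 : spl l) : T1.mn l (im l) ≤ 8 / (l : ℝ) := by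
  have : NeZero l := ⟨hl.ne_zero⟩
  have h1 := zero_mean hl hl4 1 0 (Or.inl isUnit_one)
  have h2 := zero_mean hl hl4 0 1 (Or.inr isUnit_one)
  simp only [one_mul, zero_mul, add_zero, zero_add] at h1 h2
  have h3 : T1.mn l (im l) ≤
      (∑ r ∈ T1.sl l, (if bz l (r.1.1, r.1.2) (r.1.1, r.1.2) = 0 then (1 : ℝ) else 0)) /
      ((T1.sl l).card : ℝ) +
      (∑ r ∈ T1.sl l, (if bz l (r.2.1, r.2.2) (r.2.1, r.2.2) = 0 then (1 : ℝ) else 0)) /
      ((T1.sl l).card : ℝ) := by
    rw [T1.mn_def, ← add_div, ← sum_add_distrib]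
    refine div_le_div_of_nonneg_right (sum_le_sum fun r hr => ?_) (Nat.cast_nonneg _)
    unfold im
    split_ifs with ha hb hc hc
    · norm_num
    · norm_num
    · norm_num
    · exfalso
      rw [dvd_iff, dvd_iff_zmod, T1.res_lift] at ha
      have h5 := (T1.mem_sl).1 hr
      have hdet : (Frm.A : ZMod l) * (Frm.C : ZMod l) - (Frm.B : ZMod l) ^ 2 = (az : ZMod l) := by
        have := congrArg (Int.cast : ℤ → ZMod l) (Frm.det)
        push_cast at this
        exact this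
      have : Fact l.Prime := ⟨hl⟩
      have hprod : bz l (r.1.1, r.1.2) (r.1.1, r.1.2) * bz l (r.2.1, r.2.2) (r.2.1, r.2.2) = 0 := by
        rw [← ha]
        unfold bz
        have h6 : (r.1.1 * r.2.2 - r.1.2 * r.2.1) ^ 2 = 1 := by rw [h5]; ring
        linear_combination ((r.1.1 * r.2.2 - r.1.2 * r.2.1) ^ 2) * hdet + (az : ZMod l) * h6
      rcases mul_eq_zero.1 hprod with h | h
      · exact hb h
      · exact hc h
    · norm_num
    · norm_num
    · norm_num
    · norm_num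
  calc T1.mn l (im l) ≤ _ := h3
    _ ≤ 4 / (l : ℝ) + 4 / (l : ℝ) := add_le_add h1 h2
    _ = 8 / (l : ℝ) := by ring

/-- the mean of a product of indicators -/
lemma im_prod {T : Finset ℕ} (hT : ∀ l ∈ T, l.Prime ∧ spl l) :
    T1.Per (∏ l ∈ T, l) (fun x => ∏ l ∈ T, im l x) ∧
    T1.mn (∏ l ∈ T, l) (fun x => ∏ l ∈ T, im l x) ≤ ∏ l ∈ T, 8 / (l : ℝ) := by
  obtain ⟨h1, h2⟩ := T1.mn_prod 1 one_ne_zero (w := fun _ => (1 : ℝ)) (fun _ _ _ => rfl)
    (fun _ => 1) im T (fun l hl => ⟨(hT l hl).1, fun h => (hT l hl).1.one_lt.ne' (Nat.dvd_one.1 h)⟩)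
    (fun l _ => by rw [pow_one]; exact im_per l)
  have e1 : 1 * ∏ l ∈ T, l ^ (1 : ℕ) = ∏ l ∈ T, l := by
    rw [one_mul]; exact prod_congr rfl fun l _ => pow_one l
  have e2 : (fun x : VV => (1 : ℝ) * ∏ l ∈ T, im l x) = fun x => ∏ l ∈ T, im l x := by
    funext x; rw [one_mul]
  rw [e1, e2] at h1 h2
  refine ⟨h1, ?_⟩
  rw [h2, T1.mn_const, one_mul]
  refine prod_le_prod (fun l _ => T1.mn_nonneg fun x => im_nonneg l x) fun l hl => ?_
  rw [pow_one]
  exact im_mean (hT l hl).1 (hT l hl).2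

lemma prod_im (T : Finset ℕ) (x : VV) : ∏ l ∈ T, im l x =
    if ∀ l ∈ T, l ∣ vl (mm x).natAbs then 1 else 0 := by
  unfold im
  rw [prod_ite_zero]
  simp

end FuPM

open FuPM in
/-- **PM** -/
theorem specPM (hEQ : SpecEQ) (hC : SpecCNT) : SpecPM := by
  intro C j hC0
  obtain ⟨c, hc, hE⟩ := hEQ
  obtain ⟨-, c2, hc2, hG⟩ := hC
  obtain ⟨C1, hC1⟩ : ∃ C1 : ℝ, C1 = (1 + C) ^ j := ⟨_, rfl⟩
  have hC1p : 0 < C1 := by rw [hC1]; positivity
  refine ⟨Real.exp (12 * C1 / c) * (Real.exp (16 * C1) + 1), by positivity, ?_⟩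
  refine ⟨0, fun E _ => ⟨0, fun K _ => ⟨0, fun r _ => ⟨0, fun k _ => ⟨1, one_pos,
    fun ζ _ _ => ?_⟩⟩⟩⟩⟩
  generalize (⟨E, K, r, k, ζ⟩ : Prm) = p
  -- the level
  have hlog : Tendsto (fun N : ℕ => c / 2 * Real.log N) atTop atTop :=
    (Real.tendsto_log_atTop.comp tendsto_natCast_atTop_atTop).const_mul_atTop (by positivity)
  have hlog1 : Tendsto (fun N : ℕ => Real.log N) atTop atTop :=
    Real.tendsto_log_atTop.comp tendsto_natCast_atTop_atTop
  have hdec := (tendsto_rpow_mul_exp_neg_mul_atTop_nhds_zero C1 2 (by norm_num)).comp hlog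
  have hev := (hdec.eventually (gt_mem_nhds (show (0 : ℝ) < c2 * Real.exp (-C1) by positivity)))
  filter_upwards [hE, hG, hev, hlog.eventually_ge_atTop 1, hlog1.eventually_ge_atTop 2,
    eventually_ge_atTop 1, eventually_ge_atTop aa] with N hEN hGN hdN hy1 hL1 hN1 hNa
  obtain ⟨L, hL⟩ : ∃ L : ℝ, L = Real.log N := ⟨_, rfl⟩
  obtain ⟨y, hy⟩ : ∃ y : ℝ, y = c / 2 * Real.log N := ⟨_, rfl⟩
  have hNpos : (0 : ℝ) < N := by exact_mod_cast hN1
  simp only [Function.comp_apply] at hdN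
  rw [← hy] at hdN hy1
  have hy0 : 0 < y := by linarith
  have hNc : (N : ℝ) ^ c = Real.exp (2 * y) := by
    rw [Real.rpow_def_of_pos hNpos, hy]; congr 1; ring
  -- pointwise
  set S : Finset ℕ := (PP p N).filter (fun l : ℕ => (l : ℝ) ≤ y) with hS
  have hSp : ∀ l ∈ S, l.Prime ∧ spl l ∧ (l : ℝ) ≤ y := by
    intro l hl
    rw [hS, mem_filter, PP, mem_filter] at hl
    exact ⟨hl.1.2.1, hl.1.2.2.1, hl.2⟩
  have hpt : ∀ x ∈ Gam N 1 3, (∏ l ∈ (PP p N).filter (fun l => l ∣ vl (mm x).natAbs),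
      (1 + C / l)) ^ j ≤ Real.exp (12 * C1 / c) *
        ∑ T ∈ S.powerset, (∏ l ∈ T, C1 / (l : ℝ)) * ∏ l ∈ T, im l x := by
    intro x hx
    rw [TG.Bs.mem_Gam] at hx
    obtain ⟨hcc, hx1, hx2, -⟩ := hx
    obtain ⟨n, hn⟩ : ∃ n : ℕ, n = vl (mm x).natAbs := ⟨_, rfl⟩
    rw [← hn]
    have hn0 : n ≠ 0 := by rw [hn]; exact (TG.Bs.vl_pos_all _).ne'
    have hnle : (n : ℝ) ≤ 5 * (N : ℝ) ^ 2 := by
      have h1 : (((mm x).natAbs : ℕ) : ℝ) ≤ 2 * N := by
        have h2 : ((mm x).natAbs : ℤ) = mm x := Int.natAbs_of_nonneg (by omega)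
        have h3 : (((mm x).natAbs : ℤ)) ≤ 2 * N := by rw [h2]; exact hx2
        exact_mod_cast h3
      have h4 : (0 : ℝ) ≤ (((mm x).natAbs : ℕ) : ℝ) := Nat.cast_nonneg _
      have h5 : (1 : ℝ) ≤ N := by exact_mod_cast hN1
      have h6 : (aa : ℝ) ≤ N := by exact_mod_cast hNa
      have h7 : (vl (mm x).natAbs : ℝ) ≤ (((mm x).natAbs : ℕ) : ℝ) ^ 2 := by
        have h8 : vl (mm x).natAbs ≤ (mm x).natAbs ^ 2 := vl_le (aa_lt_sq hcc)
        exact_mod_cast h8
      rw [hn]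
      nlinarith
    -- the factors
    have h1 : (∏ l ∈ (PP p N).filter (fun l => l ∣ n), (1 + C / (l : ℝ))) ^ j ≤
        ∏ l ∈ (PP p N).filter (fun l => l ∣ n), (1 + C1 / (l : ℝ)) := by
      rw [← prod_pow]
      refine prod_le_prod (fun l _ => by positivity) fun l hl => ?_
      have hlp : l.Prime := by
        rw [mem_filter, PP, mem_filter] at hl; exact hl.1.2.1
      have hl1 : (1 : ℝ) ≤ l := by exact_mod_cast hlp.one_lt.le
      refine (pow_bound hC0 hl1 j).trans ?_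
      rw [hC1]
      have : ((1 + C) ^ j - 1) / (l : ℝ) ≤ (1 + C) ^ j / l :=
        div_le_div_of_nonneg_right (by linarith) (by linarith)
      linarith
    -- the large primes
    have h2 : ∏ l ∈ ((PP p N).filter (fun l => l ∣ n)).filter (fun l : ℕ => ¬ (l : ℝ) ≤ y),
        (1 + C1 / (l : ℝ)) ≤ Real.exp (12 * C1 / c) := by
      refine (prod_exp_le fun l _ => by positivity).trans (Real.exp_le_exp.2 ?_)
      obtain ⟨B, hB⟩ : ∃ B : Finset ℕ,
        B = ((PP p N).filter (fun l => l ∣ n)).filter (fun l : ℕ => ¬ (l : ℝ) ≤ y) := ⟨_, rfl⟩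
      rw [← hB]
      have hBp : ∀ l ∈ B, l.Prime ∧ l ∣ n ∧ y < (l : ℝ) := by
        intro l hl
        rw [hB, mem_filter, mem_filter, PP, mem_filter] at hl
        exact ⟨hl.1.1.2.1, hl.1.2, not_le.1 hl.2⟩
      have hBc := card_le_log hn0 (T := B) fun l hl => ⟨(hBp l hl).1, (hBp l hl).2.1⟩
      have hln : Real.log n ≤ 4 * L := by
        have hn1 : (0 : ℝ) < n := by exact_mod_cast Nat.pos_of_ne_zero hn0
        have h3 := Real.log_le_log hn1 hnle
        rw [Real.log_mul (by norm_num) (by positivity), Real.log_pow] at h3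
        have h4 : Real.log 5 ≤ 3 := by
          have h5 : Real.log 5 ≤ Real.log 8 := Real.log_le_log (by norm_num) (by norm_num)
          rw [show (8 : ℝ) = 2 ^ 3 by norm_num, Real.log_pow] at h5
          have := Real.log_two_lt_d9
          push_cast at h5; linarith
        rw [hL]
        push_cast at h3
        linarith
      have hB6 : (B.card : ℝ) ≤ 6 * L := by
        have h3 := Real.log_two_gt_d9
        have h4 : (B.card : ℝ) * (2 / 3) ≤ B.card * Real.log 2 :=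
          mul_le_mul_of_nonneg_left (by linarith) (Nat.cast_nonneg _)
        linarith
      calc ∑ l ∈ B, C1 / (l : ℝ) ≤ ∑ _l ∈ B, C1 / y := by
            refine sum_le_sum fun l hl => ?_
            exact div_le_div_of_nonneg_left hC1p.le hy0 (hBp l hl).2.2.le
        _ = B.card * (C1 / y) := by rw [sum_const, nsmul_eq_mul]
        _ ≤ 6 * L * (C1 / y) := mul_le_mul_of_nonneg_right hB6 (by positivity)
        _ = 12 * C1 / c := by
            have hL0 : L ≠ 0 := by rw [hL]; linarith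
            rw [hy, ← hL]
            field_simp
            norm_num
    -- the small primes
    have h3 : ∏ l ∈ ((PP p N).filter (fun l => l ∣ n)).filter (fun l : ℕ => (l : ℝ) ≤ y),
        (1 + C1 / (l : ℝ)) = ∑ T ∈ S.powerset, (∏ l ∈ T, C1 / (l : ℝ)) * ∏ l ∈ T, im l x := by
      have e1 : ((PP p N).filter (fun l => l ∣ n)).filter (fun l : ℕ => (l : ℝ) ≤ y) =
          S.filter (fun l => l ∣ n) := by
        rw [hS, filter_filter, filter_filter]
        exact filter_congr fun l _ => and_comm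
      rw [e1, prod_filter]
      have e2 : ∏ l ∈ S, (if l ∣ n then 1 + C1 / (l : ℝ) else 1) =
          ∏ l ∈ S, (1 + C1 / (l : ℝ) * im l x) := by
        refine prod_congr rfl fun l _ => ?_
        unfold im
        rw [← hn]
        split_ifs <;> ring
      rw [e2, prod_one_add]
      exact sum_congr rfl fun T _ => prod_mul_distrib
    refine h1.trans ?_
    rw [← prod_filter_mul_prod_filter_not ((PP p N).filter (fun l => l ∣ n))
      (fun l : ℕ => (l : ℝ) ≤ y), h3, mul_comm]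
    refine mul_le_mul_of_nonneg_right h2 (sum_nonneg fun T _ => mul_nonneg ?_ ?_)
    · exact prod_nonneg fun l _ => by positivity
    · exact prod_nonneg fun l _ => im_nonneg l x
  -- the counts
  have hcnt : ∀ T ∈ S.powerset, ∑ x ∈ Gam N 1 3, ∏ l ∈ T, im l x ≤
      ((Gam N 1 3).card : ℝ) * ∏ l ∈ T, 8 / (l : ℝ) + (N : ℝ) ^ (1 - c) := by
    intro T hT
    have hTS := mem_powerset.1 hT
    obtain ⟨hper, hmean⟩ := im_prod (T := T) fun l hl =>
      ⟨(hSp l (hTS hl)).1, (hSp l (hTS hl)).2.1⟩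
    have hm0 : 0 < ∏ l ∈ T, l := prod_pos fun l hl => (hSp l (hTS hl)).1.pos
    have hml : ((∏ l ∈ T, l : ℕ) : ℝ) ≤ (N : ℝ) ^ c := by
      rw [hNc]
      exact prod_primes_le hy0.le fun l hl => ⟨(hSp l (hTS hl)).1, (hSp l (hTS hl)).2.2⟩
    have h1 := hEN (∏ l ∈ T, l) (fun x => ∏ l ∈ T, im l x) 1 3 hm0 hml (T4.per_iff.2 hper)
      (fun x => prod_nonneg fun l _ => im_nonneg l x)
      (fun x => prod_le_one (fun l _ => im_nonneg l x) fun l _ => im_le_one l x)
      (Real.rpow_le_one_of_one_le_of_nonpos (by exact_mod_cast hN1) (by linarith))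
      (by norm_num) (by norm_num)
    rw [T4.mean_eq hm0] at h1
    have h2 := (abs_le.1 h1).2
    have h3 := mul_le_mul_of_nonneg_left hmean (Nat.cast_nonneg ((Gam N 1 3).card) (α := ℝ))
    linarith
  -- the sum
  calc ∑ x ∈ Gam N 1 3, (∏ l ∈ (PP p N).filter (fun l => l ∣ vl (mm x).natAbs),
      (1 + C / (l : ℝ))) ^ j
      ≤ ∑ x ∈ Gam N 1 3, Real.exp (12 * C1 / c) *
        ∑ T ∈ S.powerset, (∏ l ∈ T, C1 / (l : ℝ)) * ∏ l ∈ T, im l x := sum_le_sum hpt
    _ = Real.exp (12 * C1 / c) * ∑ T ∈ S.powerset, (∏ l ∈ T, C1 / (l : ℝ)) *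
        ∑ x ∈ Gam N 1 3, ∏ l ∈ T, im l x := by
        rw [← mul_sum, sum_comm]
        refine congrArg (fun u : ℝ => Real.exp (12 * C1 / c) * u) ?_
        exact sum_congr rfl fun T _ => by rw [mul_sum]
    _ ≤ Real.exp (12 * C1 / c) * ∑ T ∈ S.powerset, (∏ l ∈ T, C1 / (l : ℝ)) *
        (((Gam N 1 3).card : ℝ) * ∏ l ∈ T, 8 / (l : ℝ) + (N : ℝ) ^ (1 - c)) := by
        refine mul_le_mul_of_nonneg_left (sum_le_sum fun T hT => ?_) (Real.exp_pos _).le
        exact mul_le_mul_of_nonneg_left (hcnt T hT) (prod_nonneg fun l _ => by positivity)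
    _ = Real.exp (12 * C1 / c) * (((Gam N 1 3).card : ℝ) * ∏ l ∈ S, (1 + 8 * C1 * (1 / (l : ℝ) ^ 2)) +
        (N : ℝ) ^ (1 - c) * ∏ l ∈ S, (1 + C1 * (1 / (l : ℝ)))) := by
        refine congrArg (fun u : ℝ => Real.exp (12 * C1 / c) * u) ?_
        rw [prod_one_add, prod_one_add, mul_sum, mul_sum, ← sum_add_distrib]
        refine sum_congr rfl fun T _ => ?_
        have e1 : (∏ l ∈ T, C1 / (l : ℝ)) * ∏ l ∈ T, 8 / (l : ℝ) =
            ∏ l ∈ T, 8 * C1 * (1 / (l : ℝ) ^ 2) := by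
          rw [← prod_mul_distrib]
          exact prod_congr rfl fun l _ => by ring
        have e2 : (∏ l ∈ T, C1 / (l : ℝ)) = ∏ l ∈ T, C1 * (1 / (l : ℝ)) :=
          prod_congr rfl fun l _ => by ring
        rw [← e1, ← e2]
        ring
    _ ≤ Real.exp (12 * C1 / c) * (((Gam N 1 3).card : ℝ) * Real.exp (16 * C1) +
        ((Gam N 1 3).card : ℝ)) := by
        refine mul_le_mul_of_nonneg_left (add_le_add ?_ ?_) (Real.exp_pos _).le
        · refine mul_le_mul_of_nonneg_left ?_ (Nat.cast_nonneg _)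
          refine (prod_exp_le fun l _ => by positivity).trans (Real.exp_le_exp.2 ?_)
          rw [← mul_sum]
          have := sum_sq_le S fun l hl => (hSp l hl).1.one_lt.le
          nlinarith
        · have h1 : ∏ l ∈ S, (1 + C1 * (1 / (l : ℝ))) ≤ Real.exp C1 * y ^ C1 := by
            refine (prod_exp_le fun l _ => by positivity).trans ?_
            rw [← mul_sum]
            have h2 := sum_inv_le hy1 (T := S) fun l hl => ⟨(hSp l hl).1.one_lt.le, (hSp l hl).2.2⟩
            have h3 : C1 * ∑ l ∈ S, 1 / (l : ℝ) ≤ C1 * (1 + Real.log y) :=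
              mul_le_mul_of_nonneg_left h2 hC1p.le
            refine (Real.exp_le_exp.2 h3).trans (le_of_eq ?_)
            rw [Real.rpow_def_of_pos hy0, ← Real.exp_add]
            congr 1; ring
          have h4 : Real.exp C1 * y ^ C1 ≤ c2 * Real.exp (2 * y) := by
            have h5 : y ^ C1 * Real.exp (-2 * y) ≤ c2 * Real.exp (-C1) := hdN.le
            have h6 := mul_le_mul_of_nonneg_left h5 (mul_pos (Real.exp_pos C1)
              (Real.exp_pos (2 * y))).le
            have e1 : Real.exp C1 * Real.exp (2 * y) * (y ^ C1 * Real.exp (-2 * y)) =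
                Real.exp C1 * y ^ C1 := by
              have : Real.exp (2 * y) * Real.exp (-2 * y) = 1 := by
                rw [← Real.exp_add]; simp
              linear_combination (Real.exp C1 * y ^ C1) * this
            have e2 : Real.exp C1 * Real.exp (2 * y) * (c2 * Real.exp (-C1)) =
                c2 * Real.exp (2 * y) := by
              have : Real.exp C1 * Real.exp (-C1) = 1 := by
                rw [← Real.exp_add]; simp
              linear_combination (c2 * Real.exp (2 * y)) * this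
            rw [e1, e2] at h6
            exact h6
          calc (N : ℝ) ^ (1 - c) * ∏ l ∈ S, (1 + C1 * (1 / (l : ℝ)))
              ≤ (N : ℝ) ^ (1 - c) * (c2 * (N : ℝ) ^ c) := by
                rw [hNc]
                exact mul_le_mul_of_nonneg_left (h1.trans h4) (by positivity)
            _ = c2 * N := by
                have : (N : ℝ) ^ (1 - c) * (N : ℝ) ^ c = N := by
                  rw [← Real.rpow_add hNpos]; simp
                linear_combination c2 * this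
            _ ≤ ((Gam N 1 3).card : ℝ) := hGN
    _ = Real.exp (12 * C1 / c) * (Real.exp (16 * C1) + 1) * ((Gam N 1 3).card : ℝ) := by ring

end Pool.Agent.Lib.MP391708.TG
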