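import Pool.Agent.Lib.MP_391708_nt.T1.Gam
import Pool.Agent.Lib.MP_391708_nt.TG1.Flg
import Pool.Agent.Lib.MP_391708_nt.TG.Basic

/-!
# T1b, group D: the fundamental lemma over `{N < M ≤ 2N, α M < d ≤ β M}`, form of determinant `a`
-/

set_option autoImplicit false

namespace Pool.Agent.Lib.MP391708.TG1

open Finset Filter Topology
open Pool.Agent.Lib.MP391708.Eqd (V cross pairs res)
open Pool.Agent.Lib.MP391708.T1 (Per mn mn_def lift sl gm mn_nonneg mn_le_one mn_mul Bd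
  exists_pert zexp)
open Pool.Agent.Lib.MP391708.QPA (PB)
open Pool.Agent.Lib.MP391708.TG (nsq dot mm dd ee Gam mem_Gam mem_pairs_of aa az az_eq bF bF_cast A_pos
  aa_posZ Gam_split Cn CC dd_mul_ee')
open Pool.Agent.Lib.MP391708.TG.Bs (nsq_pos)
open scoped Classical

variable [Pool.Agent.Lib.MP391708.TG.Aa] [Pool.Agent.Lib.MP391708.TG.Frm]

/-- for `N² ≥ |a|` the cone and `M > N` give `d, e > 0` -/
lemma cc_of {N : ℕ} (hN : aa ≤ N ^ 2) {x : V × V} (hc : cross x.1 x.2 = -1) (hn : Cn x.1)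
    (h0 : (N : ℤ) < dot x.1 x.2) : CC x := by
  have h2 : 0 < dd x := nsq_pos hn
  refine ⟨hc, hn, h2, ?_⟩
  have h1 := dd_mul_ee' hc
  have h3 : 0 < mm x ^ 2 + az := by
    have h5 : (aa : ℤ) ≤ (N : ℤ) ^ 2 := by exact_mod_cast hN
    have h4 : (N : ℤ) < mm x := h0
    have h6 : (0 : ℤ) ≤ N := Int.natCast_nonneg N
    rw [az_eq]
    nlinarith
  rw [← h1] at h3
  exact (mul_pos_iff_of_pos_left h2).1 h3

/-- all pairs of a window are in the box -/
lemma mem_pairs_box {N M0 : ℕ} (hM : bF * (N + 1) ^ 2 ≤ M0) {x : V × V}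
    (hc : CC x) (h0 : (N : ℤ) < dot x.1 x.2) (h1 : dot x.1 x.2 ≤ 2 * N) :
    x ∈ pairs 1 M0 := by
  have h := Pool.Agent.Lib.MP391708.TG.mem_Gam (N := N) (x := x)
    (al := (dd x : ℝ) / (mm x : ℝ) - 1) (be := (dd x : ℝ) / (mm x : ℝ))
  have hm : (0 : ℝ) < (mm x : ℝ) := by
    have : (0 : ℤ) < mm x := lt_of_le_of_lt (Int.natCast_nonneg N) h0
    exact_mod_cast this
  have h2 : x ∈ Gam N ((dd x : ℝ) / (mm x : ℝ) - 1) ((dd x : ℝ) / (mm x : ℝ)) := by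
    refine h.2 ⟨hc, h0, h1, ?_, ?_⟩
    · rw [sub_mul, div_mul_cancel₀ _ hm.ne']; linarith
    · rw [div_mul_cancel₀ _ hm.ne']
  unfold Gam at h2
  exact Pool.Agent.Lib.MP391708.Eqd.pairs_mono hM (Finset.mem_filter.1 h2).1

lemma mem_Gam' {N : ℕ} {al be : ℝ} {x : V × V} : x ∈ Gam N al be ↔
    CC x ∧ (N : ℤ) < dot x.1 x.2 ∧ dot x.1 x.2 ≤ 2 * N ∧
    al * (dot x.1 x.2 : ℝ) < nsq x.1 ∧ (nsq x.1 : ℝ) ≤ be * (dot x.1 x.2 : ℝ) := mem_Gam

/-- a dyadic piece is a region of `SpecEquid` -/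
lemma gm_reg (K : ℝ) {N : ℕ} (hNa : aa ≤ N ^ 2) {al be : ℝ} (hal : 0 < al) (hab : al < be) (hbe : be ≤ 2 * al)
    (h1 : 1 ≤ al * N) : ∃ (T₁ T₂ : ℝ → ℝ) (M0 : ℕ), Bd 20 (N : ℝ) (al * N) T₁ T₂ ∧
      K * ((N : ℝ) + 1) ^ 2 ≤ (M0 : ℝ) ∧ RegS T₁ T₂ M0 = Gam N al be := by
  have hN : (0 : ℝ) < N := by
    rcases Nat.eq_zero_or_pos N with h0 | h0
    · rw [h0] at h1; norm_num at h1
    · exact_mod_cast h0
  obtain ⟨al', hal1, hal2, hal3⟩ := exists_pert N al hal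
  obtain ⟨be', hbe1, hbe2, hbe3⟩ := exists_pert N be (hal.trans hab)
  have hal0 : 0 < al' := hal.trans hal1
  have hbe0 : 0 < be' := (hal.trans hab).trans hbe1
  set T₁ : ℝ → ℝ := fun d => max (N : ℝ) (d / be') with hT₁
  set T₂ : ℝ → ℝ := fun d => min (2 * N : ℝ) (d / al') with hT₂
  have hB : Bd 20 (N : ℝ) (al * N) T₁ T₂ := by
    have e1 : (20 : ℝ) * ((N : ℝ) / (al * N)) = 20 / al := by field_simp
    refine ⟨?_, ?_, ?_⟩
    · intro s t
      rw [e1]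
      calc |max (N : ℝ) (s / be') - max (N : ℝ) (t / be')| ≤ |s / be' - t / be'| := by
            have := abs_max_sub_max_le_max (N : ℝ) (s / be') (N : ℝ) (t / be')
            simpa using this
        _ = |s - t| / be' := by rw [← sub_div, abs_div, abs_of_pos hbe0]
        _ ≤ |s - t| / al := div_le_div_of_nonneg_left (abs_nonneg _) hal (by linarith)
        _ ≤ 20 / al * |s - t| := by
            have := abs_nonneg (s - t)
            rw [div_mul_eq_mul_div]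
            exact div_le_div_of_nonneg_right (by linarith) hal.le
    · intro s t
      rw [e1]
      calc |min (2 * N : ℝ) (s / al') - min (2 * N : ℝ) (t / al')| ≤ |s / al' - t / al'| := by
            have := abs_min_sub_min_le_max (2 * N : ℝ) (s / al') (2 * N : ℝ) (t / al')
            simpa using this
        _ = |s - t| / al' := by rw [← sub_div, abs_div, abs_of_pos hal0]
        _ ≤ |s - t| / al := div_le_div_of_nonneg_left (abs_nonneg _) hal (by linarith)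
        _ ≤ 20 / al * |s - t| := by
            have := abs_nonneg (s - t)
            rw [div_mul_eq_mul_div]
            exact div_le_div_of_nonneg_right (by linarith) hal.le
    · intro s hs
      have h2 : (N : ℝ) < s / al' := lt_of_le_of_lt (le_max_left _ _) (lt_of_lt_of_le hs
        (min_le_right _ _))
      have h3 : s / be' < 2 * N := lt_of_le_of_lt (le_max_right _ _) (lt_of_lt_of_le hs
        (min_le_left _ _))
      rw [lt_div_iff₀ hal0] at h2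
      rw [div_lt_iff₀ hbe0] at h3
      refine ⟨?_, ?_, ?_, ?_⟩
      · rw [div_le_iff₀ (by norm_num)]
        nlinarith
      · nlinarith
      · exact hN.le.trans (le_max_left (N : ℝ) (s / be'))
      · exact (min_le_left (2 * N : ℝ) (s / al')).trans (by linarith)
  obtain ⟨M0, hM0⟩ : ∃ M0 : ℕ, M0 = (⌈|K|⌉₊ + bF) * (N + 1) ^ 2 := ⟨_, rfl⟩
  have hM : K * ((N : ℝ) + 1) ^ 2 ≤ (M0 : ℝ) := by
    rw [hM0]
    push_cast
    refine mul_le_mul_of_nonneg_right ?_ (by positivity)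
    have e1 := le_abs_self K
    have e2 := Nat.le_ceil |K|
    have e3 : (0 : ℝ) ≤ (bF : ℝ) := Nat.cast_nonneg _
    linarith
  have hM1 : bF * (N + 1) ^ 2 ≤ M0 := by
    rw [hM0]
    exact Nat.mul_le_mul_right _ (Nat.le_add_left _ _)
  clear hM0
  refine ⟨T₁, T₂, M0, hB, hM, ?_⟩
  ext x
  rw [mem_Gam', RegS, Finset.mem_filter, Reg]
  constructor
  · rintro ⟨hx, ⟨hx1, hx2⟩, hn⟩
    rw [pairs, Finset.mem_filter] at hx
    have hc : cross x.1 x.2 = -1 := by simpa using hx.2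
    have h2 : (N : ℝ) < (dot x.1 x.2 : ℝ) := lt_of_le_of_lt (le_max_left _ _) hx1
    have h3 : (nsq x.1 : ℝ) / be' < (dot x.1 x.2 : ℝ) :=
      lt_of_le_of_lt (le_max_right _ _) hx1
    have h4 : (dot x.1 x.2 : ℝ) ≤ 2 * N := hx2.trans (min_le_left _ _)
    have h5 : (dot x.1 x.2 : ℝ) ≤ (nsq x.1 : ℝ) / al' := hx2.trans (min_le_right _ _)
    rw [div_lt_iff₀ hbe0] at h3
    rw [le_div_iff₀ hal0] at h5
    have h6 : (N : ℤ) < dot x.1 x.2 := by exact_mod_cast h2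
    have h7 : dot x.1 x.2 ≤ 2 * N := by exact_mod_cast h4
    have h8 : 0 < dot x.1 x.2 := lt_of_le_of_lt (Int.natCast_nonneg N) h6
    refine ⟨cc_of hNa hc hn h6, h6, h7, ?_, ?_⟩
    · rw [hal3 _ h8 h7]; linarith
    · by_contra hcon
      push Not at hcon
      rw [hbe3 _ h8 h7] at hcon
      linarith
  · rintro ⟨hc, h6, h7, h9, h10⟩
    have h8 : 0 < dot x.1 x.2 := lt_of_le_of_lt (Int.natCast_nonneg N) h6
    refine ⟨mem_pairs_box hM1 hc h6 h7, ⟨?_, ?_⟩, hc.2.1⟩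
    · rw [hT₁]
      simp only
      rw [max_lt_iff]
      refine ⟨by exact_mod_cast h6, ?_⟩
      rw [div_lt_iff₀ hbe0]
      by_contra hcon
      push Not at hcon
      rw [mul_comm, ← hbe3 _ h8 h7] at hcon
      linarith
    · rw [hT₂]
      simp only
      rw [le_min_iff]
      refine ⟨by exact_mod_cast h7, ?_⟩
      rw [le_div_iff₀ hal0, mul_comm]
      exact (hal3 _ h8 h7 _).1 h9

/-- one dyadic piece -/
lemma flg_piece (hF : SpecFlg) (κ : ℕ) : ∃ C : ℝ, 0 < C ∧ ∃ K : ℝ, 0 < K ∧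
    ∀ (N : ℕ) (al be : ℝ), aa ≤ N ^ 2 → 0 < al → al < be → be ≤ 2 * al → be ≤ 20 →
    1 ≤ al * N →
    ∀ (b : ℕ) (z : ℝ), 2 ≤ z → ∀ m : ℕ, 0 < m →
    ∀ w : V × V → ℝ, Per m w → (∀ x, 0 ≤ w x ∧ w x ≤ 1) →
    ∀ f : ℕ → V × V → ℝ, (∀ l : ℕ, l.Prime → Per (l ^ 2) (f l) ∧ ∀ x, 0 ≤ f l x ∧ f l x ≤ 1) →
    (∀ l : ℕ, l.Prime → gm m f l ≤ κ / (l : ℝ) ∧ gm m f l ≤ 2 / 3) →
    |(∑ x ∈ Gam N al be, w x * ∏ l ∈ (PB z).filter (fun l => ¬ l ∣ m), f l x) -
      (Gam N al be).card * mn m w * ∏ l ∈ PB z, (1 - gm m f l)| ≤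
      C * Real.exp (-(b : ℝ)) *
        ((Gam N al be).card * mn m w * ∏ l ∈ PB z, (1 - gm m f l)) +
      K * (m : ℝ) ^ 12 * z ^ zexp b * N * (al * N) ^ (-(1 / 20) : ℝ) := by
  obtain ⟨C, hC, h⟩ := hF κ
  obtain ⟨K, hK, h⟩ := h 20 (by norm_num)
  refine ⟨C, hC, K, hK, ?_⟩
  intro N al be hNa hal hab hbe hbe20 h1 b z hz m hm w hw hw01 f hf hg
  obtain ⟨T₁, T₂, M0, hB, hM, eR⟩ := gm_reg K hNa hal hab hbe h1
  have key := h (N : ℝ) (al * N) h1 (by nlinarith) T₁ T₂ hB M0 hM b z hz m hm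
    w hw hw01 f hf hg
  rw [eR] at key
  exact key

end Pool.Agent.Lib.MP391708.TG1
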