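import Pool.Agent.Lib.MP_391708_nt.TG1.LocM

/-!
# T1b: the density of the unimodular classes with `l^k ∣ B_F(v, w)² + a`

`l ∤ 2a`: at most `4 / l` for `k = 1` (`mn_dot_one`), `6 / l²` for `k = 2` (`mn_dot_two`), at least
`4 / l - 6 / l²` for split `l`, `k = 1` (`mn_dot_ge`); all primes: at most `2 KF / l^⌈k/2⌉`
(`mn_dot_crude`).
-/

set_option autoImplicit false

namespace Pool.Agent.Lib.MP391708.TG1

open Pool.Agent.Lib.MP391708.TG

variable [Pool.Agent.Lib.MP391708.TG.Aa] [Pool.Agent.Lib.MP391708.TG.Frm]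

open Finset
open Pool.Agent.Lib.MP391708.Eqd (V cross pairs res)
open Pool.Agent.Lib.MP391708.T1 (sl R4 lift mn mn_def res_lift mem_sl mn_le_one mn_const sl_card_pos)
open scoped Classical

namespace LocD

open LocM

lemma nn_eq {q : ℕ} [NeZero q] {r : R4 q} (hr : r ∈ sl q) :
    fr r.1 * fr r.2 = dr r * dr r + ((az : ℤ) : ZMod q) := by
  rw [mem_sl] at hr
  have hd := det_eq q
  unfold fr dr
  linear_combination (r.1.1 * r.2.2 - r.1.2 * r.2.1 - 1) * ((az : ℤ) : ZMod q) * hr +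
    (r.1.1 * r.2.2 - r.1.2 * r.2.1) ^ 2 * hd

lemma dvd_dot_iff {q : ℕ} (x : V × V) :
    (q : ℤ) ∣ dot x.1 x.2 ^ 2 + az ↔ dr (res q x) * dr (res q x) = -((az : ℤ) : ZMod q) := by
  rw [← ZMod.intCast_zmod_eq_zero_iff_dvd]
  simp only [dot, dr, res]
  push_cast
  constructor
  · intro h; linear_combination h
  · intro h; linear_combination h

lemma per_dvd_dot (q : ℕ) :
    T1.Per q (fun x => if (q : ℤ) ∣ dot x.1 x.2 ^ 2 + az then (1 : ℝ) else 0) := by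
  intro x y h
  simp only [dvd_dot_iff, h]

/-- the identity modulo `q`, for a lift of a unimodular class -/
lemma dvd_iff_mul {q : ℕ} {x : V × V} (hx : (q : ℤ) ∣ cross x.1 x.2 + 1) :
    (q : ℤ) ∣ dot x.1 x.2 ^ 2 + az ↔ (q : ℤ) ∣ nsq x.1 * nsq x.2 := by
  have h1 : nsq x.1 * nsq x.2 = dot x.1 x.2 ^ 2 + az +
      (cross x.1 x.2 + 1) * ((cross x.1 x.2 - 1) * az) := by
    have hd : Frm.A * Frm.C - Frm.B ^ 2 = az := Frm.det
    unfold nsq dot cross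
    linear_combination ((x.1.1 * x.2.2 - x.1.2 * x.2.1) ^ 2) * hd
  rw [h1]
  exact (dvd_add_left (hx.mul_right _)).symm

omit [TG.Aa] [TG.Frm] in
lemma cross_lift {q : ℕ} {r : R4 q} [NeZero q] (hr : r ∈ sl q) :
    (q : ℤ) ∣ cross (lift q r).1 (lift q r).2 + 1 := by
  rw [mem_sl] at hr
  rw [← ZMod.intCast_zmod_eq_zero_iff_dvd]
  have e := res_lift q r
  rw [← e] at hr
  simp only [res] at hr
  unfold cross
  push_cast
  rw [hr]
  ring

omit [TG.Aa] [TG.Frm] in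
/-- comparison of means, on the lifts only -/
lemma mn_le_of {q : ℕ} [NeZero q] {F G : V × V → ℝ}
    (h : ∀ r ∈ sl q, F (lift q r) ≤ G (lift q r)) : mn q F ≤ mn q G := by
  rw [mn_def, mn_def]
  exact div_le_div_of_nonneg_right (Finset.sum_le_sum h) (Nat.cast_nonneg _)

omit [TG.Aa] [TG.Frm] in
lemma mn_add (q : ℕ) [NeZero q] (F G : V × V → ℝ) :
    mn q (fun x => F x + G x) = mn q F + mn q G := by
  rw [mn_def, mn_def, mn_def, Finset.sum_add_distrib, add_div]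

/-- the two forms, one after the other -/
lemma mn_fst_le {l k : ℕ} (hl : l.Prime) (hk : 0 < k) (hla : ¬ l ∣ 2 * aa) :
    mn (l ^ k) (fun x => if ((l ^ k : ℕ) : ℤ) ∣ nsq x.1 then (1 : ℝ) else 0) ≤
      2 / ((l ^ k : ℕ) : ℝ) := by
  have h := mn_norm_le hl hk hla 1 0 (fun h => by
    have h1 := Int.natCast_dvd_natCast.1 (show ((l : ℕ) : ℤ) ∣ ((1 : ℕ) : ℤ) by exact_mod_cast h.1)
    exact hl.one_lt.ne' (Nat.dvd_one.1 h1))
  simpa only [lin_one_zero] using h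

lemma mn_snd_le {l k : ℕ} (hl : l.Prime) (hk : 0 < k) (hla : ¬ l ∣ 2 * aa) :
    mn (l ^ k) (fun x => if ((l ^ k : ℕ) : ℤ) ∣ nsq x.2 then (1 : ℝ) else 0) ≤
      2 / ((l ^ k : ℕ) : ℝ) := by
  have h := mn_norm_le hl hk hla 0 1 (fun h => by
    have h1 := Int.natCast_dvd_natCast.1 (show ((l : ℕ) : ℤ) ∣ ((1 : ℕ) : ℤ) by exact_mod_cast h.2)
    exact hl.one_lt.ne' (Nat.dvd_one.1 h1))
  simpa only [lin_zero_one] using h

lemma mn_fst_crude {l k : ℕ} (hl : l.Prime) (hk : 0 < k) :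
    mn (l ^ k) (fun x => if ((l ^ k : ℕ) : ℤ) ∣ nsq x.1 then (1 : ℝ) else 0) ≤
      (KF : ℝ) / ((l ^ k : ℕ) : ℝ) := by
  have h := mn_norm_crude hl hk 1 0 (fun h => by
    have h1 := Int.natCast_dvd_natCast.1 (show ((l : ℕ) : ℤ) ∣ ((1 : ℕ) : ℤ) by exact_mod_cast h.1)
    exact hl.one_lt.ne' (Nat.dvd_one.1 h1))
  simpa only [lin_one_zero] using h

lemma mn_snd_crude {l k : ℕ} (hl : l.Prime) (hk : 0 < k) :
    mn (l ^ k) (fun x => if ((l ^ k : ℕ) : ℤ) ∣ nsq x.2 then (1 : ℝ) else 0) ≤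
      (KF : ℝ) / ((l ^ k : ℕ) : ℝ) := by
  have h := mn_norm_crude hl hk 0 1 (fun h => by
    have h1 := Int.natCast_dvd_natCast.1 (show ((l : ℕ) : ℤ) ∣ ((1 : ℕ) : ℤ) by exact_mod_cast h.2)
    exact hl.one_lt.ne' (Nat.dvd_one.1 h1))
  simpa only [lin_zero_one] using h

lemma per_fst (q : ℕ) : T1.Per q (fun x => if (q : ℤ) ∣ nsq x.1 then (1 : ℝ) else 0) := by
  have h := per_dvd_nsq q 1 0
  simpa only [lin_one_zero] using h

lemma per_snd (q : ℕ) : T1.Per q (fun x => if (q : ℤ) ∣ nsq x.2 then (1 : ℝ) else 0) := by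
  have h := per_dvd_nsq q 0 1
  simpa only [lin_zero_one] using h

omit [TG.Aa] [TG.Frm] in
/-- a prime power dividing a product -/
lemma pow_dvd_or {l k j : ℕ} (hl : l.Prime) (hj : 2 * j ≤ k + 1) {m n : ℤ}
    (h : ((l ^ k : ℕ) : ℤ) ∣ m * n) : ((l ^ j : ℕ) : ℤ) ∣ m ∨ ((l ^ j : ℕ) : ℤ) ∣ n := by
  have h1 : l ^ k ∣ m.natAbs * n.natAbs := by
    rw [← Int.natAbs_mul]
    exact Int.natCast_dvd.1 h
  obtain ⟨d, e, hd, he, hde⟩ := exists_dvd_and_dvd_of_dvd_mul h1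
  obtain ⟨i, hi, rfl⟩ := (Nat.dvd_prime_pow hl).1 (Dvd.intro _ hde.symm)
  have he' : e = l ^ (k - i) := by
    have h3 : l ^ i * e = l ^ i * l ^ (k - i) := by
      rw [← hde, ← pow_add, Nat.add_sub_cancel' hi]
    exact Nat.eq_of_mul_eq_mul_left (pow_pos hl.pos i) h3
  subst he'
  rcases le_or_gt j i with h | h
  · exact Or.inl (Int.natCast_dvd.2 ((pow_dvd_pow l h).trans hd))
  · exact Or.inr (Int.natCast_dvd.2 ((pow_dvd_pow l (by omega)).trans he))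

omit [TG.Aa] [TG.Frm] in
lemma ind_le {P Q R : Prop} [Decidable P] [Decidable Q] [Decidable R] (h : P → Q ∨ R) :
    (if P then (1 : ℝ) else 0) ≤ (if Q then (1 : ℝ) else 0) + (if R then (1 : ℝ) else 0) := by
  have i1 : (0 : ℝ) ≤ (if Q then (1 : ℝ) else 0) := by split_ifs <;> norm_num
  have i2 : (0 : ℝ) ≤ (if R then (1 : ℝ) else 0) := by split_ifs <;> norm_num
  by_cases hP : P
  · rw [if_pos hP]
    rcases h hP with h | h
    · rw [if_pos h] at i1 ⊢; linarith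
    · rw [if_pos h] at i2 ⊢; linarith
  · rw [if_neg hP]; linarith

/-- **LOC3, crude**: all primes -/
theorem mn_dot_crude {l k j : ℕ} (hl : l.Prime) (hj : 0 < j) (hjk : 2 * j ≤ k + 1) :
    mn (l ^ k) (fun x => if ((l ^ k : ℕ) : ℤ) ∣ dot x.1 x.2 ^ 2 + az then (1 : ℝ) else 0) ≤
      2 * KF / ((l ^ j : ℕ) : ℝ) := by
  have hk : j ≤ k := by omega
  have : NeZero (l ^ k) := ⟨pow_ne_zero _ hl.ne_zero⟩
  calc _ ≤ mn (l ^ k) (fun x => (if ((l ^ j : ℕ) : ℤ) ∣ nsq x.1 then (1 : ℝ) else 0) +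
        (if ((l ^ j : ℕ) : ℤ) ∣ nsq x.2 then (1 : ℝ) else 0)) := by
        refine mn_le_of fun r hr => ?_
        simp only [dvd_iff_mul (cross_lift hr)]
        exact ind_le (pow_dvd_or hl hjk)
    _ = mn (l ^ j) (fun x => if ((l ^ j : ℕ) : ℤ) ∣ nsq x.1 then (1 : ℝ) else 0) +
        mn (l ^ j) (fun x => if ((l ^ j : ℕ) : ℤ) ∣ nsq x.2 then (1 : ℝ) else 0) := by
        rw [mn_add, mn_pow hl hj hk (per_fst _), mn_pow hl hj hk (per_snd _)]
    _ ≤ KF / ((l ^ j : ℕ) : ℝ) + KF / ((l ^ j : ℕ) : ℝ) :=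
        add_le_add (mn_fst_crude hl hj) (mn_snd_crude hl hj)
    _ = _ := by ring

/-- **LOC3**, `k = 1` -/
theorem mn_dot_one {l : ℕ} (hl : l.Prime) (hla : ¬ l ∣ 2 * aa) :
    mn l (fun x => if (l : ℤ) ∣ dot x.1 x.2 ^ 2 + az then (1 : ℝ) else 0) ≤ 4 / (l : ℝ) := by
  have : NeZero l := ⟨hl.ne_zero⟩
  have e : l ^ 1 = l := pow_one l
  have h1 := mn_fst_le (k := 1) hl one_pos hla
  have h2 := mn_snd_le (k := 1) hl one_pos hla
  rw [e] at h1 h2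
  calc _ ≤ mn l (fun x => (if (l : ℤ) ∣ nsq x.1 then (1 : ℝ) else 0) +
        (if (l : ℤ) ∣ nsq x.2 then (1 : ℝ) else 0)) := by
        refine mn_le_of fun r hr => ?_
        simp only [dvd_iff_mul (cross_lift hr)]
        exact ind_le (Nat.prime_iff_prime_int.1 hl).dvd_or_dvd
    _ = _ := mn_add _ _ _
    _ ≤ 2 / (l : ℝ) + 2 / (l : ℝ) := add_le_add h1 h2
    _ = _ := by ring

lemma card_both {l : ℕ} (hl : l.Prime) (hla : ¬ l ∣ 2 * aa) [NeZero (l ^ 1)] :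
    ((sl (l ^ 1)).filter (fun r => fr r.1 = 0 ∧ fr r.2 = 0)).card ≤
      2 * (l - 1) := by
  have h1 := card_zero l 1 hl one_pos hla
  have htot : (l ^ 1).totient = l - 1 := by rw [pow_one, Nat.totient_prime hl]
  rw [htot] at h1
  refine le_trans ?_ (Nat.mul_le_mul_right _ (card_iot_le hl one_pos hla))
  rw [← h1]
  refine Finset.card_le_card_of_injOn (fun r => r.1) ?_ ?_
  · intro r hr
    rw [Finset.mem_coe, Finset.mem_filter, mem_sl] at hr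
    rw [Finset.mem_coe, Finset.mem_filter, LocM.prim, Finset.mem_filter]
    refine ⟨⟨Finset.mem_univ _, ?_⟩, hr.2.1⟩
    have h2 : IsUnit (r.1.1 * r.2.2 + -(r.1.2 * r.2.1)) := by
      rw [← sub_eq_add_neg, hr.1]; exact isUnit_one.neg
    rcases isUnit_or hl one_pos h2 with h3 | h3
    · exact Or.inl (isUnit_of_mul_isUnit_left h3)
    · exact Or.inr (isUnit_of_mul_isUnit_left (IsUnit.neg_iff _ |>.1 h3))
  · intro r hr r' hr' h
    rw [Finset.mem_coe, Finset.mem_filter] at hr hr'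
    simp only at h
    -- the bilinear form is a unit
    have e1 := nn_eq hr.1
    rw [hr.2.1, zero_mul] at e1
    have hd : dr r * dr r = -((az : ℤ) : ZMod (l ^ 1)) := by linear_combination -e1
    have hu : IsUnit (dr r) := unit_iot hl one_pos hla hd
    have hc := mem_sl.1 hr.1
    have hc' := mem_sl.1 hr'.1
    have ha : r'.1.1 = r.1.1 := by rw [h]
    have hb : r'.1.2 = r.1.2 := by rw [h]
    rw [ha, hb] at hc'
    have hv := hr.2.1
    have hw := hr.2.2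
    have hw' := hr'.2.2
    have h7 : dr r = (Frm.A : ZMod (l ^ 1)) * (r.1.1 * r.2.1) +
      (Frm.B : ZMod (l ^ 1)) * (r.1.1 * r.2.2 + r.1.2 * r.2.1) +
      (Frm.C : ZMod (l ^ 1)) * (r.1.2 * r.2.2) := rfl
    unfold fr at hv hw hw'
    set A := (Frm.A : ZMod (l ^ 1))
    set B := (Frm.B : ZMod (l ^ 1))
    set C := (Frm.C : ZMod (l ^ 1))
    set a := r.1.1
    set b := r.1.2
    set c := r.2.1
    set d := r.2.2
    set c' := r'.2.1
    set d' := r'.2.2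
    set t := d * c' - c * d' with ht
    have h5 : c' = c - t * a ∧ d' = d - t * b := by
      constructor
      · rw [ht]; linear_combination c' * hc - c * hc'
      · rw [ht]; linear_combination d' * hc - d * hc'
    have h6 : t * (2 * dr r) = 0 := by
      rw [h7]
      have h8 := hw'
      rw [h5.1, h5.2] at h8
      linear_combination hw - h8 + t ^ 2 * hv
    have h9 : t = 0 := (((unit_two hl one_pos hla).mul hu).mul_left_eq_zero).1 h6
    rw [h9] at h5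
    refine Prod.ext h (Prod.ext ?_ ?_)
    · have := h5.1; rw [zero_mul, sub_zero] at this; exact this.symm
    · have := h5.2; rw [zero_mul, sub_zero] at this; exact this.symm

lemma fst_iff {q : ℕ} (x : V × V) : (q : ℤ) ∣ nsq x.1 ↔ fr (res q x).1 = 0 := by
  rw [← ZMod.intCast_zmod_eq_zero_iff_dvd, nsq_res]
  rfl

lemma snd_iff {q : ℕ} (x : V × V) : (q : ℤ) ∣ nsq x.2 ↔ fr (res q x).2 = 0 := by
  rw [← ZMod.intCast_zmod_eq_zero_iff_dvd, nsq_res]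
  rfl

/-- both forms divisible by `l` -/
lemma mn_both {l : ℕ} (hl : l.Prime) (hla : ¬ l ∣ 2 * aa) :
    mn (l ^ 1) (fun x => if ((l ^ 1 : ℕ) : ℤ) ∣ nsq x.1 ∧ ((l ^ 1 : ℕ) : ℤ) ∣ nsq x.2
      then (1 : ℝ) else 0) ≤ 2 / (l : ℝ) ^ 2 := by
  have : NeZero (l ^ 1) := ⟨pow_ne_zero _ hl.ne_zero⟩
  rw [mn_def]
  simp only [fst_iff, snd_iff, res_lift]
  rw [Finset.sum_boole, card_sl hl one_pos, one_sub_sq hl]
  have h1 : (((sl (l ^ 1)).filter (fun r => fr r.1 = 0 ∧ fr r.2 = 0)).card : ℝ) ≤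
      2 * ((l : ℝ) - 1) := by
    have h2 : ((l - 1 : ℕ) : ℝ) = (l : ℝ) - 1 := by rw [Nat.cast_sub hl.one_le]; simp
    rw [← h2]
    exact_mod_cast card_both hl hla
  have hl1 : (1 : ℝ) < l := by exact_mod_cast hl.one_lt
  have hl0 : (0 : ℝ) < l := by linarith
  have h3 : 0 < (1 - 1 / (l : ℝ)) := by
    have : 1 / (l : ℝ) < 1 := by rw [div_lt_one hl0]; exact hl1
    linarith
  have h4 : (0 : ℝ) ≤ 1 / (l : ℝ) := by positivity
  have hq : ((l ^ 1 : ℕ) : ℝ) = l := by rw [pow_one]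
  rw [hq, div_le_div_iff₀ (by positivity) (by positivity)]
  have h5 : 2 * ((l : ℝ) - 1) * (l : ℝ) ^ 2 = 2 * ((l : ℝ) ^ 3 * ((1 - 1 / (l : ℝ)) * 1)) := by
    field_simp
  calc _ ≤ 2 * ((l : ℝ) - 1) * (l : ℝ) ^ 2 := mul_le_mul_of_nonneg_right h1 (by positivity)
    _ = 2 * ((l : ℝ) ^ 3 * ((1 - 1 / (l : ℝ)) * 1)) := h5
    _ ≤ _ := by
        refine mul_le_mul_of_nonneg_left (mul_le_mul_of_nonneg_left
          (mul_le_mul_of_nonneg_left (by linarith) h3.le) (by positivity)) (by norm_num)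

lemma per_both (q : ℕ) : T1.Per q (fun x => if (q : ℤ) ∣ nsq x.1 ∧ (q : ℤ) ∣ nsq x.2
    then (1 : ℝ) else 0) := by
  intro x y h
  simp only [fst_iff, snd_iff, h]

/-- **LOC3**, `k = 2` -/
theorem mn_dot_two {l : ℕ} (hl : l.Prime) (hla : ¬ l ∣ 2 * aa) :
    mn (l ^ 2) (fun x => if ((l ^ 2 : ℕ) : ℤ) ∣ dot x.1 x.2 ^ 2 + az then (1 : ℝ) else 0) ≤
      6 / (l : ℝ) ^ 2 := by
  have : NeZero (l ^ 2) := ⟨pow_ne_zero _ hl.ne_zero⟩
  have h1 := mn_fst_le (k := 2) hl two_pos hla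
  have h2 := mn_snd_le (k := 2) hl two_pos hla
  have h3 := mn_both hl hla
  have hq : ((l ^ 2 : ℕ) : ℝ) = (l : ℝ) ^ 2 := by push_cast; rfl
  rw [hq] at h1 h2
  calc _ ≤ mn (l ^ 2) (fun x => ((if ((l ^ 2 : ℕ) : ℤ) ∣ nsq x.1 then (1 : ℝ) else 0) +
        (if ((l ^ 2 : ℕ) : ℤ) ∣ nsq x.2 then (1 : ℝ) else 0)) +
        (if ((l ^ 1 : ℕ) : ℤ) ∣ nsq x.1 ∧ ((l ^ 1 : ℕ) : ℤ) ∣ nsq x.2 then (1 : ℝ) else 0)) := by
        refine mn_le_of fun r hr => ?_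
        simp only [dvd_iff_mul (cross_lift hr)]
        have key : ((l ^ 2 : ℕ) : ℤ) ∣ nsq (lift (l ^ 2) r).1 * nsq (lift (l ^ 2) r).2 →
            ((l ^ 2 : ℕ) : ℤ) ∣ nsq (lift (l ^ 2) r).1 ∨
            ((l ^ 2 : ℕ) : ℤ) ∣ nsq (lift (l ^ 2) r).2 ∨
            (((l ^ 1 : ℕ) : ℤ) ∣ nsq (lift (l ^ 2) r).1 ∧
              ((l ^ 1 : ℕ) : ℤ) ∣ nsq (lift (l ^ 2) r).2) := by
          intro h
          have hp : Prime ((l : ℕ) : ℤ) := Nat.prime_iff_prime_int.1 hl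
          generalize nsq (lift (l ^ 2) r).1 = m at h ⊢
          generalize nsq (lift (l ^ 2) r).2 = n at h ⊢
          push_cast at h ⊢
          by_cases hm : (l : ℤ) ∣ m
          · by_cases hn : (l : ℤ) ∣ n
            · right; right; rw [pow_one]; exact ⟨hm, hn⟩
            · left; exact (hp.pow_dvd_of_dvd_mul_right 2 hn h)
          · right; left; exact (hp.pow_dvd_of_dvd_mul_left 2 hm h)
        have i1 : (0 : ℝ) ≤ (if ((l ^ 2 : ℕ) : ℤ) ∣ nsq (lift (l ^ 2) r).1 then (1 : ℝ) else 0) := by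
          split_ifs <;> norm_num
        have i2 : (0 : ℝ) ≤ (if ((l ^ 2 : ℕ) : ℤ) ∣ nsq (lift (l ^ 2) r).2 then (1 : ℝ) else 0) := by
          split_ifs <;> norm_num
        have i3 : (0 : ℝ) ≤ (if ((l ^ 1 : ℕ) : ℤ) ∣ nsq (lift (l ^ 2) r).1 ∧
            ((l ^ 1 : ℕ) : ℤ) ∣ nsq (lift (l ^ 2) r).2 then (1 : ℝ) else 0) := by
          split_ifs <;> norm_num
        by_cases h0 : ((l ^ 2 : ℕ) : ℤ) ∣ nsq (lift (l ^ 2) r).1 * nsq (lift (l ^ 2) r).2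
        · rw [if_pos h0]
          rcases key h0 with h | h | h
          · rw [if_pos h] at i1 ⊢; linarith
          · rw [if_pos h] at i2 ⊢; linarith
          · rw [if_pos h] at i3 ⊢; linarith
        · rw [if_neg h0]; linarith
    _ = mn (l ^ 2) (fun x => if ((l ^ 2 : ℕ) : ℤ) ∣ nsq x.1 then (1 : ℝ) else 0) +
        mn (l ^ 2) (fun x => if ((l ^ 2 : ℕ) : ℤ) ∣ nsq x.2 then (1 : ℝ) else 0) +
        mn (l ^ 1) (fun x => if ((l ^ 1 : ℕ) : ℤ) ∣ nsq x.1 ∧ ((l ^ 1 : ℕ) : ℤ) ∣ nsq x.2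
          then (1 : ℝ) else 0) := by
        rw [mn_add, mn_add, mn_pow hl one_pos one_le_two (per_both _)]
    _ ≤ 2 / (l : ℝ) ^ 2 + 2 / (l : ℝ) ^ 2 + 2 / (l : ℝ) ^ 2 :=
        add_le_add (add_le_add h1 h2) h3
    _ = _ := by ring

/-- **LOC4**: the probability that `l ∣ M² + a`, `l` split, from below. -/
theorem mn_dot_ge {l : ℕ} (hl : l.Prime) (hs : spl l) :
    4 / (l : ℝ) - 6 / (l : ℝ) ^ 2 ≤
      mn l (fun x => if (l : ℤ) ∣ dot x.1 x.2 ^ 2 + az then (1 : ℝ) else 0) := by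
  have hla := (spl_spec hl hs).2.1
  have hn1 : NeZero (l ^ 1) := ⟨pow_ne_zero _ hl.ne_zero⟩
  have hl0 : (0 : ℝ) < l := by exact_mod_cast hl.pos
  have hl1 : (1 : ℝ) < l := by exact_mod_cast hl.one_lt
  -- the three means
  have hA : (∑ r ∈ sl (l ^ 1), (if fr r.1 = 0 then (1 : ℝ) else 0)) =
      2 * (l : ℝ) ^ 2 * (1 - 1 / (l : ℝ)) := by
    rw [sum_norm_fst hl one_pos hla, card_iot_eq hl hs]
    push_cast
    ring
  have hB : (∑ r ∈ sl (l ^ 1), (if fr r.2 = 0 then (1 : ℝ) else 0)) =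
      2 * (l : ℝ) ^ 2 * (1 - 1 / (l : ℝ)) := by
    rw [← hA]
    have := sum_lin (q := l ^ 1) (s := 0) (t := 1) (Or.inr isUnit_one)
      (fun v => if fr v = 0 then (1 : ℝ) else 0)
    simp only [zero_mul, one_mul, zero_add] at this
    exact this
  have hC : (∑ r ∈ sl (l ^ 1), (if fr r.1 = 0 ∧ fr r.2 = 0
      then (1 : ℝ) else 0)) ≤ 2 * ((l : ℝ) - 1) := by
    rw [Finset.sum_boole]
    have h1 := card_both hl hla
    have h2 : ((l - 1 : ℕ) : ℝ) = (l : ℝ) - 1 := by rw [Nat.cast_sub hl.one_le]; simp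
    rw [← h2]
    exact_mod_cast h1
  have hD : (∑ r ∈ sl (l ^ 1), (if fr r.1 = 0 then (1 : ℝ) else 0)) +
      (∑ r ∈ sl (l ^ 1), (if fr r.2 = 0 then (1 : ℝ) else 0)) -
      (∑ r ∈ sl (l ^ 1), (if fr r.1 = 0 ∧ fr r.2 = 0 then (1 : ℝ) else 0)) ≤
      ∑ r ∈ sl (l ^ 1), (if dr r * dr r = -((az : ℤ) : ZMod (l ^ 1)) then (1 : ℝ) else 0) := by
    rw [← Finset.sum_add_distrib, ← Finset.sum_sub_distrib]
    refine Finset.sum_le_sum fun r hr => ?_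
    have e := nn_eq hr
    by_cases h1 : fr r.1 = 0
    · rw [h1, zero_mul] at e
      have e' : dr r * dr r = -((az : ℤ) : ZMod (l ^ 1)) := by linear_combination -e
      by_cases h2 : fr r.2 = 0
      · simp [h1, h2, e']
      · simp [h1, h2, e']
    · by_cases h2 : fr r.2 = 0
      · rw [h2, mul_zero] at e
        have e' : dr r * dr r = -((az : ℤ) : ZMod (l ^ 1)) := by linear_combination -e
        simp [h1, h2, e']
      · simp only [h1, h2, if_false, false_and]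
        split_ifs <;> norm_num
  have hcard := card_sl hl one_pos
  have e : mn (l ^ 1) (fun x => if ((l ^ 1 : ℕ) : ℤ) ∣ dot x.1 x.2 ^ 2 + az then (1 : ℝ) else 0) =
      (∑ r ∈ sl (l ^ 1), (if dr r * dr r = -((az : ℤ) : ZMod (l ^ 1)) then (1 : ℝ) else 0)) /
        ((sl (l ^ 1)).card : ℝ) := by
    rw [mn_def]
    simp only [dvd_dot_iff, res_lift]
  have hq : ((l ^ 1 : ℕ) : ℝ) = l := by rw [pow_one]
  have e0 : mn l (fun x => if (l : ℤ) ∣ dot x.1 x.2 ^ 2 + az then (1 : ℝ) else 0) =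
      mn (l ^ 1) (fun x => if ((l ^ 1 : ℕ) : ℤ) ∣ dot x.1 x.2 ^ 2 + az then (1 : ℝ) else 0) := by
    rw [pow_one]
  rw [hcard, hq] at e
  rw [e0, e]
  rw [hA, hB] at hD
  have h5 : 2 * (l : ℝ) ^ 2 * (1 - 1 / (l : ℝ)) + 2 * (l : ℝ) ^ 2 * (1 - 1 / (l : ℝ)) -
      2 * ((l : ℝ) - 1) ≤
      ∑ r ∈ sl (l ^ 1), (if dr r * dr r = -((az : ℤ) : ZMod (l ^ 1)) then (1 : ℝ) else 0) := by
    linarith
  have h6 : 0 < (l : ℝ) ^ 3 * (1 - 1 / (l : ℝ) ^ 2) := by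
    have : 1 / (l : ℝ) ^ 2 < 1 := by
      rw [div_lt_one (by positivity)]
      nlinarith
    have : 0 < 1 - 1 / (l : ℝ) ^ 2 := by linarith
    positivity
  rw [le_div_iff₀ h6]
  refine le_trans ?_ h5
  have e1 : (4 / (l : ℝ) - 6 / (l : ℝ) ^ 2) * ((l : ℝ) ^ 3 * (1 - 1 / (l : ℝ) ^ 2)) =
      (4 * (l : ℝ) - 6) * ((l : ℝ) ^ 2 - 1) / l := by
    field_simp
  have e2 : 2 * (l : ℝ) ^ 2 * (1 - 1 / (l : ℝ)) + 2 * (l : ℝ) ^ 2 * (1 - 1 / (l : ℝ)) -
      2 * ((l : ℝ) - 1) = (4 * (l : ℝ) ^ 2 - 6 * l + 2) := by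
    field_simp
    ring
  rw [e1, e2, div_le_iff₀ hl0]
  nlinarith [sq_nonneg ((l : ℝ) - 1)]

end LocD

end Pool.Agent.Lib.MP391708.TG1
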