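import Pool.Agent.Lib.MP_391708_nt.TG1.JDefs
import Pool.Agent.Lib.MP_391708_nt.T1.GoodL
import Pool.Agent.Lib.MP_391708_nt.TA.A3An
import Pool.Agent.Lib.MP_391708_nt.TG.BasF

/-!
# Theorem T1, group J, module J3
-/

set_option autoImplicit false

namespace Pool.Agent.Lib.MP391708.TG

variable [Pool.Agent.Lib.MP391708.TG.Aa] [Pool.Agent.Lib.MP391708.TG.Frm]

open Finset Filter Topology
open Pool.Agent.Lib.MP391708.Eqd (V cross pairs)
open Pool.Agent.Lib.MP391708.TG1.NuSum (fC cf)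
open scoped Classical

noncomputable section

/-! ## Elementary facts -/

omit [Frm] in
lemma mem_PP {p : Prm} {N l : ℕ} : l ∈ PP p N ↔ (l : ℝ) < zz p N ∧ l.Prime ∧ spl l ∧ p.E < l := by
  unfold PP
  rw [mem_filter, mem_range, Nat.lt_ceil]

lemma natAbs_mul (x : VV) (hx : cross x.1 x.2 = -1) :
    (dd x).natAbs * (ee x).natAbs = mq x := by
  rw [← Int.natAbs_mul, dd_mul_ee' hx]
  unfold mq
  rw [vl_natAbs]

lemma mem_Gam_cross {N : ℕ} {α β : ℝ} {x : VV} (hx : x ∈ Gam N α β) : cross x.1 x.2 = -1 := by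
  unfold Gam at hx
  rw [mem_filter] at hx
  have := hx.1
  unfold Pool.Agent.Lib.MP391708.Eqd.pairs at this
  rw [mem_filter] at this
  have h := this.2
  push_cast at h
  exact h

lemma mem_Gam_CC {N : ℕ} {α β : ℝ} {x : VV} (hx : x ∈ Gam N α β) : CC x := by
  refine ⟨mem_Gam_cross hx, ?_⟩
  unfold Gam at hx
  rw [mem_filter] at hx
  exact hx.2.1

lemma mq_cast {x : VV} (h : CC x) : ((mq x : ℕ) : ℤ) = mm x ^ 2 + az := by
  unfold mq
  rw [vl_cast (aa_lt_sq h), Int.natCast_natAbs, sq_abs]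

lemma dvd_mq_iff (l : ℕ) (x : VV) : l ∣ mq x ↔ (l : ℤ) ∣ mm x ^ 2 + az := by
  unfold mq
  rw [natCast_dvd_vl, Int.natCast_natAbs, sq_abs]

/-! ## Congruences -/

lemma cg_bil {q : ℕ} {v w v' w' : V} (h1 : (q : ℤ) ∣ v.1 - v'.1) (h2 : (q : ℤ) ∣ v.2 - v'.2)
    (h3 : (q : ℤ) ∣ w.1 - w'.1) (h4 : (q : ℤ) ∣ w.2 - w'.2) : (q : ℤ) ∣ dot v w - dot v' w' := by
  unfold dot
  have e : Frm.A * (v.1 * w.1) + Frm.B * (v.1 * w.2 + v.2 * w.1) + Frm.C * (v.2 * w.2) -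
      (Frm.A * (v'.1 * w'.1) + Frm.B * (v'.1 * w'.2 + v'.2 * w'.1) + Frm.C * (v'.2 * w'.2)) =
      (v.1 - v'.1) * (Frm.A * w.1 + Frm.B * w.2) + (v.2 - v'.2) * (Frm.B * w.1 + Frm.C * w.2) +
        ((w.1 - w'.1) * (Frm.A * v'.1 + Frm.B * v'.2) +
          (w.2 - w'.2) * (Frm.B * v'.1 + Frm.C * v'.2)) := by ring
  rw [e]
  exact dvd_add (dvd_add (Dvd.dvd.mul_right h1 _) (Dvd.dvd.mul_right h2 _))
    (dvd_add (Dvd.dvd.mul_right h3 _) (Dvd.dvd.mul_right h4 _))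

lemma cg_mm {q : ℕ} {x y : VV} (h : cg q x y) : (q : ℤ) ∣ mm x - mm y := by
  obtain ⟨h1, h2, h3, h4⟩ := h
  exact cg_bil h1 h2 h3 h4

lemma cg_dd {q : ℕ} {x y : VV} (h : cg q x y) : (q : ℤ) ∣ dd x - dd y := by
  obtain ⟨h1, h2, h3, h4⟩ := h
  unfold dd
  rw [← dot_self, ← dot_self]
  exact cg_bil h1 h2 h1 h2

lemma cg_ee {q : ℕ} {x y : VV} (h : cg q x y) : (q : ℤ) ∣ ee x - ee y := by
  obtain ⟨h1, h2, h3, h4⟩ := h
  unfold ee
  rw [← dot_self, ← dot_self]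
  exact cg_bil h3 h4 h3 h4

lemma cg_dvd_mq {l : ℕ} {x y : VV} (h : cg l x y) : l ∣ mq x ↔ l ∣ mq y := by
  rw [dvd_mq_iff, dvd_mq_iff]
  have h1 : (l : ℤ) ∣ (mm x ^ 2 + az) - (mm y ^ 2 + az) := by
    have e : (mm x ^ 2 + az) - (mm y ^ 2 + az) = (mm x - mm y) * (mm x + mm y) := by ring
    rw [e]
    exact Dvd.dvd.mul_right (cg_mm h) _
  constructor
  · intro h2
    have := dvd_sub h2 h1
    rwa [sub_sub_cancel] at this
  · intro h2
    have := dvd_add h1 h2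
    rwa [sub_add_cancel] at this

lemma cg_dvd_dd {m b : ℕ} (hb : b ∣ m) {x y : VV} (h : cg m x y) :
    b ∣ (dd x).natAbs ↔ b ∣ (dd y).natAbs := by
  rw [← Int.natCast_dvd, ← Int.natCast_dvd]
  have h1 : (b : ℤ) ∣ dd x - dd y := (Int.natCast_dvd_natCast.2 hb).trans (cg_dd h)
  constructor
  · intro h2
    have := dvd_sub h2 h1
    rwa [sub_sub_cancel] at this
  · intro h2
    have := dvd_add h1 h2
    rwa [sub_add_cancel] at this

lemma cg_dvd_ee {m b : ℕ} (hb : b ∣ m) {x y : VV} (h : cg m x y) :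
    b ∣ (ee x).natAbs ↔ b ∣ (ee y).natAbs := by
  rw [← Int.natCast_dvd, ← Int.natCast_dvd]
  have h1 : (b : ℤ) ∣ ee x - ee y := (Int.natCast_dvd_natCast.2 hb).trans (cg_ee h)
  constructor
  · intro h2
    have := dvd_sub h2 h1
    rwa [sub_sub_cancel] at this
  · intro h2
    have := dvd_add h1 h2
    rwa [sub_add_cancel] at this

/-! ## Means -/

omit [Aa] [Frm] in
lemma mean_nonneg {q : ℕ} {F : VV → ℝ} (hF : ∀ x, 0 ≤ F x) : 0 ≤ mean q F :=
  div_nonneg (sum_nonneg fun _ _ => hF _) (Nat.cast_nonneg _)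

omit [Aa] [Frm] in
lemma mean_mul_left (q : ℕ) (c : ℝ) (F : VV → ℝ) : mean q (fun x => c * F x) = c * mean q F := by
  unfold mean
  rw [← mul_sum, mul_div_assoc]

omit [Aa] [Frm] in
lemma mean_zero (q : ℕ) : mean q (fun _ => 0) = 0 := by
  unfold mean
  simp

/-! ## Mertens -/

omit [Frm] in
lemma P1_eq (y : ℕ) : Pool.Agent.Lib.MP391708.TA.A3.P1 az y =
    (Icc 1 y).filter (fun q => q.Prime ∧ spl q) := by
  ext l
  unfold Pool.Agent.Lib.MP391708.TA.A3.P1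
  rw [mem_filter, mem_filter]
  rfl

omit [Frm] in
/-- lower bound for `∑ 2/l` over the sieving primes below `w` -/
lemma sum_PP_lower : ∃ C : ℝ, ∀ (p : Prm) (N : ℕ) (w : ℝ), 4 ≤ w → w ≤ zz p N →
    Real.log (Real.log w) - C - 2 * p.E ≤
      ∑ l ∈ (PP p N).filter (fun l : ℕ => (l : ℝ) < w), 2 / (l : ℝ) := by
  obtain ⟨C, hC0, hC⟩ := Pool.Agent.Lib.MP391708.TA.A3.mert (a := az) az_ne nsq_az
  refine ⟨2 * C + Real.log 4, fun p N w hw hwz => ?_⟩
  set y : ℕ := ⌈w⌉₊ - 1 with hy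
  have hw0 : (0 : ℝ) < w := by linarith
  have hceil : 4 ≤ ⌈w⌉₊ := by
    have : ((4 : ℕ) : ℝ) ≤ ⌈w⌉₊ := by
      push_cast
      exact hw.trans (Nat.le_ceil w)
    exact_mod_cast this
  have hy3 : 3 ≤ y := by omega
  have hyw : (y : ℝ) < w := by
    have h1 : y < ⌈w⌉₊ := by omega
    exact Nat.lt_ceil.1 h1
  have hy1 : w ≤ (y : ℝ) + 1 := by
    have h1 : ⌈w⌉₊ = y + 1 := by omega
    have h2 := Nat.le_ceil w
    rw [h1] at h2
    push_cast at h2
    exact h2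
  have h1 := (abs_le.1 (hC y hy3)).1
  rw [P1_eq] at h1
  -- comparison of the sets
  have h2 : ∑ q ∈ (Icc 1 y).filter (fun q => q.Prime ∧ spl q), 1 / (q : ℝ) ≤
      (∑ l ∈ (PP p N).filter (fun l : ℕ => (l : ℝ) < w), 1 / (l : ℝ)) + p.E := by
    have h3 : (Icc 1 y).filter (fun q => q.Prime ∧ spl q) ⊆
        (PP p N).filter (fun l : ℕ => (l : ℝ) < w) ∪ Icc 1 p.E := by
      intro q hq
      rw [mem_filter, mem_Icc] at hq
      rw [mem_union, mem_filter, mem_PP, mem_Icc]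
      have hqw : (q : ℝ) < w := by
        have : (q : ℝ) ≤ y := by exact_mod_cast hq.1.2
        linarith
      by_cases hE : p.E < q
      · left
        exact ⟨⟨hqw.trans_le hwz, hq.2.1, hq.2.2, hE⟩, hqw⟩
      · right
        exact ⟨hq.1.1, by omega⟩
    have h5 := sum_le_sum_of_subset_of_nonneg (f := fun q : ℕ => 1 / (q : ℝ)) h3
      (fun q _ _ => by positivity)
    have h6 := sum_union_inter (s₁ := (PP p N).filter (fun l : ℕ => (l : ℝ) < w))
      (s₂ := (Icc 1 p.E : Finset ℕ)) (f := fun q : ℕ => 1 / (q : ℝ))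
    have h7 : 0 ≤ ∑ q ∈ (PP p N).filter (fun l : ℕ => (l : ℝ) < w) ∩ (Icc 1 p.E : Finset ℕ),
        (fun q : ℕ => 1 / (q : ℝ)) q := sum_nonneg fun q _ => by positivity
    have h4 : ∑ q ∈ (Icc 1 p.E : Finset ℕ), (fun q : ℕ => 1 / (q : ℝ)) q ≤
        ∑ _q ∈ (Icc 1 p.E : Finset ℕ), (1 : ℝ) := by
      refine sum_le_sum fun q hq => ?_
      rw [mem_Icc] at hq
      have : (1 : ℝ) ≤ q := by exact_mod_cast hq.1
      rw [div_le_one (by linarith)]
      exact this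
    rw [sum_const, Nat.card_Icc, nsmul_eq_mul, mul_one, Nat.add_sub_cancel] at h4
    linarith
  have h3 : Real.log (Real.log w) - Real.log 4 ≤ Real.log (Real.log y) := by
    have hlw : 0 < Real.log w := Real.log_pos (by linarith)
    rw [← Real.log_div hlw.ne' (by norm_num)]
    apply Real.log_le_log (by positivity)
    have hy0 : (0 : ℝ) < y := by exact_mod_cast (by omega : 0 < y)
    have hy3' : (3 : ℝ) ≤ y := by exact_mod_cast hy3
    have h5 : w ≤ (y : ℝ) ^ 4 := by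
      have : (y : ℝ) + 1 ≤ (y : ℝ) ^ 4 := by nlinarith [sq_nonneg ((y : ℝ) ^ 2 - 1), sq_nonneg (y : ℝ)]
      linarith
    have h6 := Real.log_le_log hw0 h5
    rw [Real.log_pow] at h6
    push_cast at h6
    linarith
  have h4 : ∑ l ∈ (PP p N).filter (fun l : ℕ => (l : ℝ) < w), 2 / (l : ℝ) =
      2 * ∑ l ∈ (PP p N).filter (fun l : ℕ => (l : ℝ) < w), 1 / (l : ℝ) := by
    rw [mul_sum]
    exact sum_congr rfl fun l _ => by ring
  rw [h4]
  linarith

omit [Frm] in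
lemma sum_sq_PP (p : Prm) (N : ℕ) (S : Finset ℕ) (hS : S ⊆ PP p N) :
    ∑ l ∈ S, 1 / (l : ℝ) ^ 2 ≤ 1 := by
  obtain ⟨y, hy⟩ : ∃ y : ℕ, ∀ l ∈ S, l ∈ Icc 2 (y + 1) := by
    refine ⟨∑ l ∈ S, l, fun l hl => ?_⟩
    rw [mem_Icc]
    have h1 := (mem_PP.1 (hS hl)).2.1.two_le
    have h2 : l ≤ ∑ l ∈ S, l := single_le_sum (f := fun l => l) (fun _ _ => Nat.zero_le _) hl
    omega
  have h1 := Pool.Agent.Lib.MP_391708_nt.Many.sum_inv_mul_pred_le y
  have h0 : (0 : ℝ) < 1 / ((y : ℝ) + 1) := by positivity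
  have h2 : ∑ l ∈ S, 1 / (l : ℝ) ^ 2 ≤ ∑ n ∈ Icc 1 (y + 1), 1 / ((n : ℝ) * (n - 1)) := by
    calc ∑ l ∈ S, 1 / (l : ℝ) ^ 2 ≤ ∑ l ∈ S, 1 / ((l : ℝ) * (l - 1)) := by
          refine sum_le_sum fun l hl => ?_
          have h3 := hy l hl
          rw [mem_Icc] at h3
          have h4 : (2 : ℝ) ≤ l := by exact_mod_cast h3.1
          apply one_div_le_one_div_of_le (by nlinarith) (by nlinarith)
      _ ≤ _ := by
          refine sum_le_sum_of_subset_of_nonneg ?_ ?_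
          · intro l hl
            have h3 := hy l hl
            rw [mem_Icc] at h3 ⊢
            omega
          · intro n hn _
            rw [mem_Icc] at hn
            have : (1 : ℝ) ≤ n := by exact_mod_cast hn.1
            apply div_nonneg zero_le_one
            apply mul_nonneg <;> linarith
  linarith

end

end Pool.Agent.Lib.MP391708.TG
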