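import Pool.Agent.Lib.MP_391708_nt.TG1.NuC
import Pool.Agent.Lib.MP_391708_nt.TG.ISm

/-!
# Theorem T1, group J, module J1: the number of critical divisors with the same part outside the
sieving primes is at most the number of pairs `(b, b')`, `b ∣ d`, `b' ∣ e`
-/

set_option autoImplicit false

namespace Pool.Agent.Lib.MP391708.TG

variable [Pool.Agent.Lib.MP391708.TG.Aa] [Pool.Agent.Lib.MP391708.TG.Frm]

open Finset Filter Topology
open Pool.Agent.Lib.MP391708.Eqd (V cross pairs)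
open scoped Classical

noncomputable section

omit [Frm] in
/-- the prime factors of `d / g` lie in `PP` if `ot d = ot d'` -/
lemma ot_aux {p : Prm} {N d d' l : ℕ} (hd : d ≠ 0) (hd' : d' ≠ 0) (h : ot p N d' = ot p N d)
    (hl : l.Prime) (hlP : l ∉ PP p N) : ¬ l ∣ d / Nat.gcd d d' := by
  intro hdiv
  have hv : ∀ n : ℕ, n ≠ 0 → (ot p N n).factorization l = n.factorization l := by
    intro n hn
    unfold ot
    have h1 : sm p N n * (n / sm p N n) = n := Nat.mul_div_cancel' (I.sm_dvd hn)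
    have h0 : n / sm p N n ≠ 0 := by
      intro h0; rw [h0, mul_zero] at h1; exact hn h1.symm
    have h2 : (sm p N n * (n / sm p N n)).factorization l = n.factorization l := by rw [h1]
    rw [Nat.factorization_mul (I.sm_pos n).ne' h0, Finsupp.add_apply] at h2
    have h3 : (sm p N n).factorization l = 0 := by
      apply Nat.factorization_eq_zero_of_not_dvd
      intro h4
      exact hlP (I.mem_PP_of_dvd_sm hl h4).1
    rw [h3, zero_add] at h2
    exact h2
  have h1 : d.factorization l = d'.factorization l := by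
    rw [← hv d hd, ← hv d' hd', h]
  have hg : Nat.gcd d d' ≠ 0 := (Nat.gcd_pos_of_pos_left _ (Nat.pos_of_ne_zero hd)).ne'
  have h2 : (Nat.gcd d d').factorization l = d.factorization l := by
    rw [Nat.factorization_gcd hd hd', Finsupp.inf_apply, h1, inf_idem]
  have h3 := Nat.factorization_div (Nat.gcd_dvd_left d d')
  have h4 : (d / Nat.gcd d d').factorization l = 0 := by
    rw [h3, Finsupp.tsub_apply, h2, Nat.sub_self]
  have h5 : d / Nat.gcd d d' ≠ 0 :=
    (Nat.div_pos (Nat.gcd_le_left _ (Nat.pos_of_ne_zero hd)) (Nat.pos_of_ne_zero hg)).ne'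
  exact (hl.factorization_pos_of_dvd h5 hdiv).ne' h4

omit [Frm] in
lemma dvd_sm_of {p : Prm} {N b n : ℕ} (hn : n ≠ 0) (hb : b ∣ n)
    (h : b.primeFactors ⊆ PP p N) : b ∣ sm p N n := by
  have h1 : Nat.Coprime b (n / sm p N n) := by
    refine Nat.coprime_of_dvd fun q hq h1 h2 => ?_
    have hb0 : b ≠ 0 := fun h0 => hn (zero_dvd_iff.1 (h0 ▸ hb))
    exact I.not_dvd_div_sm hn (h (Nat.mem_primeFactors.2 ⟨hq, h1, hb0⟩)) h2
  have h2 : b ∣ sm p N n * (n / sm p N n) := by rwa [Nat.mul_div_cancel' (I.sm_dvd hn)]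
  exact h1.dvd_of_dvd_mul_right h2

theorem specJ1 : SpecJ1 := by
  intro p N x hx hsm
  have hc := mem_Gam_cross hx
  have hm := natAbs_mul x hc
  have hCC := mem_Gam_CC hx
  have hd0 : 0 < dd x := hCC.2.2.1
  have he0 : 0 < ee x := hCC.2.2.2
  obtain ⟨hG1, hG2, hG3⟩ : (0 : ℤ) < mm x ∧ ((mm x).natAbs < (dd x).natAbs) ∧
      (dd x).natAbs ≤ 3 * (mm x).natAbs := by
    unfold Gam at hx
    rw [mem_filter] at hx
    obtain ⟨-, -, h1, -, h3, h4⟩ := hx
    have h5 : (0 : ℤ) < mm x := by omega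
    rw [one_mul] at h3
    have h3' : mm x < dd x := by exact_mod_cast h3
    have h4' : dd x ≤ 3 * mm x := by exact_mod_cast h4
    exact ⟨h5, by omega, by omega⟩
  set M := (mm x).natAbs with hM
  set d := (dd x).natAbs with hd
  set e := (ee x).natAbs with he
  have hdp : 0 < d := Int.natAbs_pos.2 hd0.ne'
  have hep : 0 < e := Int.natAbs_pos.2 he0.ne'
  have hmq : mq x = vl M := rfl
  have hmq0 : mq x ≠ 0 := (vl_pos (aa_lt_sq hCC)).ne'
  unfold nus
  refine card_le_card_of_injOn (fun d' => (d / Nat.gcd d d', d' / Nat.gcd d d')) ?_ ?_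
  · intro d' hd'
    rw [mem_coe] at hd' ⊢
    unfold nusS at hd'
    rw [mem_filter, Nat.mem_divisors] at hd'
    obtain ⟨⟨h1, -⟩, h2, h3, h4⟩ := hd'
    have hd'p : 0 < d' := by omega
    have hg : 0 < Nat.gcd d d' := Nat.gcd_pos_of_pos_left _ hdp
    obtain ⟨b, hb⟩ := Nat.gcd_dvd_left d d'
    obtain ⟨b', hb'⟩ := Nat.gcd_dvd_right d d'
    have hb1 : d / Nat.gcd d d' = b := Nat.div_eq_of_eq_mul_right hg hb
    have hb1' : d' / Nat.gcd d d' = b' := Nat.div_eq_of_eq_mul_right hg hb'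
    have hco : Nat.Coprime b b' := by
      rw [← hb1, ← hb1']
      exact Nat.coprime_div_gcd_div_gcd hg
    have hbp : 0 < b := by
      rcases Nat.eq_zero_or_pos b with h | h
      · rw [h, mul_zero] at hb; omega
      · exact h
    have hbp' : 0 < b' := by
      rcases Nat.eq_zero_or_pos b' with h | h
      · rw [h, mul_zero] at hb'; omega
      · exact h
    have hbd : b ∣ d := ⟨Nat.gcd d d', by rw [mul_comm]; exact hb⟩
    have hbe : b' ∣ e := by
      have h5 : d' ∣ d * e := by rw [hm, hmq]; exact h1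
      have h6 : Nat.gcd d d' * b' ∣ Nat.gcd d d' * (b * e) := by
        rw [← hb', ← mul_assoc, ← hb]; exact h5
      have h7 : b' ∣ b * e := Nat.dvd_of_mul_dvd_mul_left hg h6
      exact hco.symm.dvd_of_dvd_mul_left h7
    have hpf : (b * b').primeFactors ⊆ PP p N := by
      intro l hl
      rw [Nat.mem_primeFactors] at hl
      obtain ⟨hl1, hl2, -⟩ := hl
      by_contra hlP
      rcases (hl1.dvd_mul).1 hl2 with h | h
      · rw [← hb1] at h
        exact ot_aux hdp.ne' hd'p.ne' h4 hl1 hlP h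
      · rw [← hb1', Nat.gcd_comm] at h
        exact ot_aux hd'p.ne' hdp.ne' h4.symm hl1 hlP h
    have hbb : b * b' ∣ sm p N (mq x) := by
      apply dvd_sm_of hmq0 _ hpf
      rw [← hm]
      exact Nat.mul_dvd_mul hbd hbe
    have hle : b * b' ≤ sm p N (mq x) := Nat.le_of_dvd (I.sm_pos _) hbb
    have hfl : sm p N (mq x) ≤ ⌊zz p N ^ (2 * p.K)⌋₊ := Nat.le_floor hsm
    have hfi : (fun d' => (d / d.gcd d', d' / d.gcd d')) d' = (b, b') := by
      show (d / d.gcd d', d' / d.gcd d') = (b, b')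
      rw [hb1, hb1']
    rw [hfi, mem_filter]
    refine ⟨?_, hbd, hbe⟩
    unfold bps
    rw [mem_filter, mem_product, mem_Icc, mem_Icc]
    have h8 : b ≤ b * b' := Nat.le_mul_of_pos_right _ hbp'
    have h9 : b' ≤ b * b' := Nat.le_mul_of_pos_left _ hbp
    refine ⟨⟨⟨hbp, by omega⟩, ⟨hbp', by omega⟩⟩, hco, ?_, ?_, hpf⟩
    · -- b < 3 b'
      have h10 : Nat.gcd d d' * b < Nat.gcd d d' * (3 * b') := by
        rw [← hb, mul_left_comm, ← hb']
        omega
      exact Nat.lt_of_mul_lt_mul_left h10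
    · have h10 : Nat.gcd d d' * b' < Nat.gcd d d' * (3 * b) := by
        rw [← hb', mul_left_comm, ← hb]
        omega
      exact Nat.lt_of_mul_lt_mul_left h10
  · intro a ha a' ha' haa
    rw [mem_coe] at ha ha'
    unfold nusS at ha ha'
    rw [mem_filter, Nat.mem_divisors] at ha ha'
    simp only [Prod.mk.injEq] at haa
    obtain ⟨h1, h2⟩ := haa
    have hg : 0 < Nat.gcd d a := Nat.gcd_pos_of_pos_left _ hdp
    have hg' : 0 < Nat.gcd d a' := Nat.gcd_pos_of_pos_left _ hdp
    have e1 : Nat.gcd d a * (d / Nat.gcd d a) = d := Nat.mul_div_cancel' (Nat.gcd_dvd_left _ _)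
    have e2 : Nat.gcd d a' * (d / Nat.gcd d a') = d := Nat.mul_div_cancel' (Nat.gcd_dvd_left _ _)
    have e3 : 0 < d / Nat.gcd d a := Nat.div_pos (Nat.gcd_le_left _ hdp) hg
    have e4 : Nat.gcd d a = Nat.gcd d a' := by
      rw [← h1] at e2
      exact Nat.eq_of_mul_eq_mul_right e3 (e1.trans e2.symm)
    have e5 : Nat.gcd d a * (a / Nat.gcd d a) = a := Nat.mul_div_cancel' (Nat.gcd_dvd_right _ _)
    have e6 : Nat.gcd d a' * (a' / Nat.gcd d a') = a' :=
      Nat.mul_div_cancel' (Nat.gcd_dvd_right _ _)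
    rw [← e5, ← e6, h2, e4]

end

end Pool.Agent.Lib.MP391708.TG
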