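import Pool.Agent.Lib.MP_391708_nt.T1.RelA

/-!
# T1b, group A: the four-term relations and the four roles for `n² + a`, `a < 0`, and their sizes
in the windows `2 M < D P ≤ 3 M`, `M² + a ≤ D₂ Q M ≤ 2 (M² + a)`, `8 |a| ≤ M`

Six numbers `G, X, P, Q, R, T` = the edges of `K_4`; `M, M_4 = D P - M, M_2 = M + D_2 Q,
M_3 = D R - M_2` its vertices:
`G P Q = M² + a`, `X P T = M_4² + a`, `X Q R = M_2² + a`, `G R T = M_3² + a`.
The data type `RD` and the roles are those of `T1.RelA`.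
-/

set_option autoImplicit false

namespace Pool.Agent.Lib.MP391708.TN

open T1 (RD rel)

namespace RD

open T1.RD (M4 M2 M3 role4_M role4_G role4_P role4_Q role4_X role4_T role4_R role4_D role4_D2
  role2_M role2_G role2_P role2_Q role2_X role2_T role2_R role2_D role2_D2
  role3_M role3_G role3_P role3_Q role3_X role3_T role3_R role3_D role3_D2)

/-- a relation (with the coprimality conditions in the symmetric form) -/
structure Ok (a : ℤ) (r : RD) : Prop where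
  ane : ∀ m : ℤ, m ^ 2 + a ≠ 0
  gpq : r.G * r.P * r.Q = r.M ^ 2 + a
  hX : r.X = r.G + r.D * r.D2
  f1 : r.P * r.D ^ 2 - 2 * r.M * r.D + r.G * r.Q = r.X * r.T
  f2 : r.Q * r.D2 ^ 2 + 2 * r.M * r.D2 + r.G * r.P = r.X * r.R
  X0 : r.X ≠ 0
  D0 : r.D ≠ 0
  cgx : IsCoprime r.G r.X
  cdg : IsCoprime r.D r.G

/-- a relation from `X ∣ F_1` -/
theorem exists_ok {a M G P Q X D D2 : ℤ} (ha : ∀ m : ℤ, m ^ 2 + a ≠ 0) (h1 : G * P * Q = M ^ 2 + a)
    (hX : X = G + D * D2)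
    (hX0 : X ≠ 0) (hD0 : D ≠ 0) (hGX : IsCoprime G X) (hDG : IsCoprime D G)
    (hS : X ∣ P * D ^ 2 - 2 * M * D + G * Q) :
    ∃ T R : ℤ, Ok a ⟨M, G, P, Q, X, T, R, D, D2⟩ := by
  have hc : IsCoprime G (D * D2) := by
    rw [hX] at hGX
    have e : G + D * D2 = D * D2 + G * 1 := by ring
    rw [e] at hGX
    exact (IsCoprime.of_add_mul_left_right hGX)
  obtain ⟨T, R, _, a1, a2, -⟩ := rel h1 hX hX0 hc hS
  exact ⟨T, R, ha, h1, hX, a1, by simpa using (by linarith : Q * D2 ^ 2 + 2 * M * D2 + G * P = X * R),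
    hX0, hD0, hGX, hDG⟩

namespace Ok

variable {a : ℤ} {r : RD}

lemma xpt (h : Ok a r) : r.X * r.P * r.T = r.M4 ^ 2 + a := by
  simp only [M4]
  linear_combination r.P * (-1) * h.f1 + h.gpq

lemma xqr (h : Ok a r) : r.X * r.Q * r.R = r.M2 ^ 2 + a := by
  simp only [M2]
  linear_combination r.Q * (-1) * h.f2 + h.gpq

/-- `X M_3 = G (D P - D_2 Q) + (D D_2 - G) M` -/
lemma xm3 (h : Ok a r) : r.X * r.M3 = r.G * (r.D * r.P - r.D2 * r.Q) + (r.D * r.D2 - r.G) * r.M := by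
  simp only [M3]
  linear_combination (-r.D) * h.f2 + (-r.M - r.D2 * r.Q) * h.hX

lemma d2t (h : Ok a r) : r.D2 * r.T = r.M4 - r.M3 := by
  apply mul_left_cancel₀ h.X0
  have e := h.xm3
  have : r.X * (r.M4 - r.M3) = r.X * r.M4 - r.X * r.M3 := by ring
  rw [this, e]
  simp only [M4]
  linear_combination (-r.D2) * h.f1 + (-(r.D * r.P - r.M)) * h.hX

lemma grt (h : Ok a r) : r.G * r.R * r.T = r.M3 ^ 2 + a := by
  have hH2 : r.X ^ 2 ≠ 0 := pow_ne_zero 2 h.X0
  apply mul_left_cancel₀ hH2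
  have e : r.X ^ 2 * (r.G * r.R * r.T) = r.G * (r.X * r.R) * (r.X * r.T) := by ring
  have e2 : r.X ^ 2 * (r.M3 ^ 2 + a) = (r.X * r.M3) ^ 2 + a * r.X ^ 2 := by ring
  rw [e, e2, h.xm3, ← h.f1, ← h.f2, h.hX]
  linear_combination ((r.G + r.D * r.D2) ^ 2) * h.gpq

lemma G0 (h : Ok a r) : r.G ≠ 0 := by
  intro h0
  have := h.gpq
  rw [h0, zero_mul, zero_mul] at this
  exact h.ane _ this.symm

lemma P0 (h : Ok a r) : r.P ≠ 0 := by
  intro h0
  have := h.gpq
  rw [h0, mul_zero, zero_mul] at this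
  exact h.ane _ this.symm

lemma Q0 (h : Ok a r) : r.Q ≠ 0 := by
  intro h0
  have := h.gpq
  rw [h0, mul_zero] at this
  exact h.ane _ this.symm

lemma cdx (h : Ok a r) : IsCoprime r.D r.X := by
  rw [h.hX]
  exact IsCoprime.add_mul_left_right h.cdg r.D2

/-- `X T = G Q` modulo `D` -/
lemma cdt (h : Ok a r) (hq : IsCoprime r.D r.Q) : IsCoprime r.D r.T := by
  have h1 : IsCoprime r.D (r.X * r.T) := by
    rw [← h.f1]
    have e : r.P * r.D ^ 2 - 2 * r.M * r.D + r.G * r.Q =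
        r.G * r.Q + r.D * (r.P * r.D - 2 * r.M) := by ring
    rw [e]
    exact IsCoprime.add_mul_left_right (h.cdg.mul_right hq) _
  exact h1.of_mul_right_right

/-- a prime dividing `D` divides `T` exactly if it divides `Q` -/
lemma dvd_t_iff (h : Ok a r) {l : ℤ} (hl : Prime l) (hD : l ∣ r.D) : l ∣ r.T ↔ l ∣ r.Q := by
  have e : r.X * r.T = r.G * r.Q + r.D * (r.P * r.D - 2 * r.M) := by
    rw [← h.f1]; ring
  have hG : ¬ l ∣ r.G := fun hg => hl.not_isUnit (h.cdg.isUnit_of_dvd' hD hg)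
  have hX : ¬ l ∣ r.X := fun hx => hl.not_isUnit (h.cdx.isUnit_of_dvd' hD hx)
  constructor
  · intro ht
    have h1 : l ∣ r.G * r.Q := by
      have : r.G * r.Q = r.X * r.T - r.D * (r.P * r.D - 2 * r.M) := by rw [e]; ring
      rw [this]
      exact dvd_sub (Dvd.dvd.mul_left ht _) (Dvd.dvd.mul_right hD _)
    exact (hl.dvd_or_dvd h1).resolve_left hG
  · intro hq
    have h1 : l ∣ r.X * r.T := by
      rw [e]
      exact dvd_add (Dvd.dvd.mul_left hq _) (Dvd.dvd.mul_right hD _)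
    exact (hl.dvd_or_dvd h1).resolve_left hX

theorem role4 (h : Ok a r) : Ok a r.role4 where
  ane := h.ane
  gpq := by simpa using h.xpt
  hX := by
    have := h.hX
    simp only [role4_X, role4_G, role4_D, role4_D2]; linarith
  f1 := by
    simp only [role4_X, role4_G, role4_D, role4_P, role4_Q, role4_M, role4_T, M4]
    linear_combination (-1) * h.f1
  f2 := by
    apply mul_left_cancel₀ h.X0
    simp only [role4_X, role4_G, role4_D2, role4_P, role4_Q, role4_M, role4_R]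
    have e4 : r.X * (r.T * (-r.D2) ^ 2 + 2 * r.M4 * -r.D2 + r.X * r.P) =
      (r.X * r.T) * r.D2 ^ 2 - 2 * r.M4 * r.D2 * r.X + r.X ^ 2 * r.P := by ring
    have e5 : r.X * (r.G * r.R) = r.G * (r.X * r.R) := by ring
    rw [e4, e5, ← h.f1, ← h.f2, h.hX]
    simp only [M4]
    ring
  X0 := h.G0
  D0 := h.D0
  cgx := by simpa using h.cgx.symm
  cdg := by simpa using h.cdx

theorem role2 (h : Ok a r) : Ok a r.role2 where
  ane := h.ane
  gpq := by
    simp only [role2_G, role2_P, role2_Q, role2_M]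
    linear_combination h.xqr
  hX := by
    have := h.hX
    simp only [role2_X, role2_G, role2_D, role2_D2]; linarith
  f1 := by
    apply mul_left_cancel₀ h.X0
    simp only [role2_X, role2_G, role2_D, role2_P, role2_Q, role2_M, role2_T]
    have e4 : r.X * (r.R * r.D ^ 2 - 2 * r.M2 * r.D + r.X * r.Q) =
      (r.X * r.R) * r.D ^ 2 - 2 * r.M2 * r.D * r.X + r.X ^ 2 * r.Q := by ring
    have e5 : r.X * (r.G * r.T) = r.G * (r.X * r.T) := by ring
    rw [e4, e5, ← h.f1, ← h.f2, h.hX]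
    simp only [M2]
    ring
  f2 := by
    simp only [role2_X, role2_G, role2_D2, role2_P, role2_Q, role2_M, role2_R, M2]
    linear_combination (-1) * h.f2
  X0 := h.G0
  D0 := h.D0
  cgx := by simpa using h.cgx.symm
  cdg := by simpa using h.cdx

lemma role4_M2 (h : Ok a r) : r.role4.M2 = r.M3 := by
  have := h.d2t
  simp only [M2, role4_M, role4_D2, role4_Q]
  linarith

theorem role3 (h : Ok a r) : Ok a r.role3 := by
  have e : r.role3 = r.role4.role2 := by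
    refine RD.ext h.role4_M2.symm rfl rfl rfl rfl rfl rfl rfl ?_
    simp
  rw [e]
  exact h.role4.role2

lemma role3_role3 (h : Ok a r) : r.role3.role3 = r := by
  have e := h.d2t
  refine RD.ext ?_ rfl rfl rfl rfl rfl rfl rfl rfl
  simp only [role3_M]
  rw [M3, role3_D, role3_R, role3_M, role3_D2, role3_Q]
  simp only [M4] at e
  linarith

end Ok

/-- the windows of role 1 -/
structure Win (a : ℤ) (r : RD) : Prop where
  a1 : a < 0
  Ma : -(8 * a) ≤ r.M
  G1 : 1 ≤ r.G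
  P1 : 1 ≤ r.P
  Q1 : 1 ≤ r.Q
  D1 : 1 ≤ r.D
  p1 : 2 * r.M < r.D * r.P
  p2 : r.D * r.P ≤ 3 * r.M
  q1 : r.M ^ 2 + a ≤ r.D2 * r.Q * r.M
  q2 : r.D2 * r.Q * r.M ≤ 2 * (r.M ^ 2 + a)

variable {a : ℤ} {r : RD}

lemma Win.M8 (w : Win a r) : 8 ≤ r.M := by
  have := w.a1; have := w.Ma; linarith

lemma Win.M3 (w : Win a r) : 3 ≤ r.M := by
  have := w.M8; linarith

/-- `8 |a| ≤ M ≤ M² / 8` -/
lemma Win.sq_lo (w : Win a r) : -(64 * a) ≤ r.M ^ 2 := by
  have h1 := w.M8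
  have h2 := w.Ma
  nlinarith

lemma Win.pos (w : Win a r) : 0 < r.M ^ 2 + a := by
  have := w.sq_lo; have := w.a1; linarith

lemma Win.lq (w : Win a r) : r.M ≤ r.D2 * r.Q := by
  have h1 := w.q1
  have h3 := w.M8
  have ha := w.Ma
  by_contra hc
  have : r.D2 * r.Q ≤ r.M - 1 := by omega
  nlinarith

lemma Win.uq' (w : Win a r) : r.D2 * r.Q < 2 * r.M := by
  have h1 := w.q2
  have h3 := w.M8
  have ha := w.a1
  by_contra hc
  have : 2 * r.M ≤ r.D2 * r.Q := by omega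
  nlinarith

lemma Win.uq (w : Win a r) : r.D2 * r.Q ≤ 2 * r.M := w.uq'.le

lemma Win.d2 (w : Win a r) : 1 ≤ r.D2 := by
  have h1 := w.lq
  have h3 := w.M3
  have h4 := w.Q1
  by_contra hc
  have : r.D2 ≤ 0 := by omega
  nlinarith

lemma Win.M4_lo (w : Win a r) : r.M < r.M4 := by
  have := w.p1
  simp only [M4]; linarith

lemma Win.M4_hi (w : Win a r) : r.M4 ≤ 2 * r.M := by
  have := w.p2
  simp only [M4]; linarith

lemma Win.M2_lo (w : Win a r) : 2 * r.M ≤ r.M2 := by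
  have := w.lq
  simp only [M2]; linarith

lemma Win.M2_hi' (w : Win a r) : r.M2 < 3 * r.M := by
  have := w.uq'
  simp only [M2]; linarith

lemma Win.M2_hi (w : Win a r) : r.M2 ≤ 3 * r.M := w.M2_hi'.le

/-- `2 G < D D₂ ≤ 6 G` -/
lemma Win.dd_lo (w : Win a r) (h : Ok a r) : 2 * r.G < r.D * r.D2 := by
  have h3 := w.M3
  have h0 : 0 < r.P * r.Q * r.M := by
    have := w.P1; have := w.Q1
    have : 0 < r.P * r.Q := by positivity
    have : 0 < r.M := by linarith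
    positivity
  refine lt_of_mul_lt_mul_right ?_ h0.le
  have e1 : 2 * r.G * (r.P * r.Q * r.M) = 2 * r.M * (r.M ^ 2 + a) := by
    rw [← h.gpq]; ring
  have e2 : r.D * r.D2 * (r.P * r.Q * r.M) = (r.D * r.P) * (r.D2 * r.Q * r.M) := by ring
  rw [e1, e2]
  have a1 := w.p1
  have a2 := w.q1
  calc 2 * r.M * (r.M ^ 2 + a) < (r.D * r.P) * (r.M ^ 2 + a) :=
        mul_lt_mul_of_pos_right a1 w.pos
    _ ≤ (r.D * r.P) * (r.D2 * r.Q * r.M) :=
        mul_le_mul_of_nonneg_left a2 (by linarith)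

lemma Win.dd_hi (w : Win a r) (h : Ok a r) : r.D * r.D2 ≤ 6 * r.G := by
  have h3 := w.M3
  have h0 : 0 < r.P * r.Q * r.M := by
    have := w.P1; have := w.Q1
    have : 0 < r.P * r.Q := by positivity
    have : 0 < r.M := by linarith
    positivity
  refine le_of_mul_le_mul_right ?_ h0
  have e1 : 6 * r.G * (r.P * r.Q * r.M) = 3 * r.M * (2 * (r.M ^ 2 + a)) := by
    rw [← h.gpq]; ring
  have e2 : r.D * r.D2 * (r.P * r.Q * r.M) = (r.D * r.P) * (r.D2 * r.Q * r.M) := by ring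
  rw [e1, e2]
  have a1 := w.p2
  have a2 := w.q2
  have a3 := w.q1
  have a4 := w.pos
  calc (r.D * r.P) * (r.D2 * r.Q * r.M) ≤ (3 * r.M) * (r.D2 * r.Q * r.M) :=
        mul_le_mul_of_nonneg_right a1 (by linarith)
    _ ≤ 3 * r.M * (2 * (r.M ^ 2 + a)) :=
        mul_le_mul_of_nonneg_left a2 (by linarith)

lemma Win.x_lo (w : Win a r) (h : Ok a r) : 3 * r.G < r.X := by
  have := w.dd_lo h
  have := h.hX
  linarith

lemma Win.x_hi (w : Win a r) (h : Ok a r) : r.X ≤ 7 * r.G := by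
  have := w.dd_hi h
  have := h.hX
  linarith

lemma Win.Xpos (w : Win a r) (h : Ok a r) : 1 ≤ r.X := by
  have := w.x_lo h
  have := w.G1
  linarith

/-- `(M² + a + p q) M_3 = (M² + a)(p - q - M) + p q M`, `p = D P`, `q = D₂ Q` -/
lemma Ok.key3 (h : Ok a r) :
    (r.M ^ 2 + a + (r.D * r.P) * (r.D2 * r.Q)) * r.M3 =
      (r.M ^ 2 + a) * (r.D * r.P - r.D2 * r.Q - r.M) + (r.D * r.P) * (r.D2 * r.Q) * r.M := by
  have e := h.xm3
  have e1 : r.X * (r.P * r.Q) = r.M ^ 2 + a + (r.D * r.P) * (r.D2 * r.Q) := by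
    rw [h.hX, ← h.gpq]; ring
  rw [← e1]
  have e2 : r.X * (r.P * r.Q) * r.M3 = (r.P * r.Q) * (r.X * r.M3) := by ring
  rw [e2, e]
  linear_combination ((r.D * r.P) - (r.D2 * r.Q) - r.M) * h.gpq

lemma Win.key0 (w : Win a r) : 0 < r.M ^ 2 + a + (r.D * r.P) * (r.D2 * r.Q) := by
  have a1 := w.p1
  have a3 := w.lq
  have a4 := w.M3
  have : 0 < (r.D * r.P) * (r.D2 * r.Q) := mul_pos (by linarith) (by linarith)
  have := w.pos
  linarith

lemma Win.M3_hi (w : Win a r) (h : Ok a r) : r.M3 ≤ r.M := by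
  have e := h.key3
  have a2 := w.p2
  have a3 := w.lq
  refine le_of_mul_le_mul_left ?_ w.key0
  rw [e]
  have : (r.M ^ 2 + a) * (r.D * r.P - r.D2 * r.Q - r.M) ≤ (r.M ^ 2 + a) * r.M :=
    mul_le_mul_of_nonneg_left (by linarith) w.pos.le
  nlinarith

lemma Win.M3_lo (w : Win a r) (h : Ok a r) : r.M ≤ 2 * r.M3 := by
  have e := h.key3
  have a1 := w.p1
  have a3 := w.lq
  have a4 := w.M3
  have a5 := w.uq
  refine le_of_mul_le_mul_left ?_ w.key0
  have e2 : (r.M ^ 2 + a + (r.D * r.P) * (r.D2 * r.Q)) * (2 * r.M3) =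
    2 * ((r.M ^ 2 + a) * (r.D * r.P - r.D2 * r.Q - r.M) + (r.D * r.P) * (r.D2 * r.Q) * r.M) := by
    rw [← e]; ring
  rw [e2]
  have hp := w.pos
  have ha := w.a1
  set p := r.D * r.P
  set q := r.D2 * r.Q
  set m := r.M
  have b1 : 0 ≤ (p - 2 * m) * (2 * (m ^ 2 + a) + q * m) :=
    mul_nonneg (by linarith) (by nlinarith [mul_nonneg (by linarith : 0 ≤ q) (by linarith : 0 ≤ m)])
  have b2 : 0 ≤ m ^ 3 + a * (m - 2 * q) := by
    have c1 : 0 ≤ m ^ 3 := by positivity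
    have c2 : 0 ≤ a * (m - 2 * q) := mul_nonneg_of_nonpos_of_nonpos ha.le (by linarith)
    linarith
  nlinarith

lemma Win.Tpos (w : Win a r) (h : Ok a r) : 1 ≤ r.T := by
  have e := h.f1
  have a1 := w.p1
  have a2 := w.D1
  have a3 := w.G1
  have a4 := w.Q1
  have a5 := w.Xpos h
  have b1 : 0 < r.X * r.T := by
    rw [← e]
    have : 0 < r.D * (r.D * r.P - 2 * r.M) := mul_pos (by linarith) (by linarith)
    have : 0 < r.G * r.Q := mul_pos (by linarith) (by linarith)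
    nlinarith
  have := (mul_pos_iff_of_pos_left (by linarith : (0:ℤ) < r.X)).1 b1
  linarith

lemma Win.Rpos (w : Win a r) (h : Ok a r) : 1 ≤ r.R := by
  have e := h.f2
  have a1 := w.M3
  have a2 := w.d2
  have a3 := w.G1
  have a4 := w.Q1
  have a5 := w.Xpos h
  have a6 := w.P1
  have b1 : 0 < r.X * r.R := by
    rw [← e]
    have : 0 < r.Q * r.D2 ^ 2 := mul_pos (by linarith) (by positivity)
    have : 0 < r.M * r.D2 := mul_pos (by linarith) (by linarith)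
    have : 0 < r.G * r.P := mul_pos (by linarith) (by linarith)
    nlinarith
  have := (mul_pos_iff_of_pos_left (by linarith : (0:ℤ) < r.X)).1 b1
  linarith

/-- `G Q < X T ≤ 5 G Q` -/
lemma Win.t_lo (w : Win a r) (h : Ok a r) : r.G * r.Q < r.X * r.T := by
  have e := h.f1
  have : 0 < r.D * (r.D * r.P - 2 * r.M) :=
    mul_pos (by linarith [w.D1]) (by linarith [w.p1])
  nlinarith

lemma Win.t_hi (w : Win a r) (h : Ok a r) : r.X * r.T ≤ 5 * (r.G * r.Q) := by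
  have e := h.f1
  have a1 := w.p2
  have a2 := w.P1
  have a3 := w.D1
  have a4 := w.M3
  have h1 : r.D * r.M * r.P ≤ 4 * (r.G * r.Q) * r.P := by
    have e1 : 4 * (r.G * r.Q) * r.P = 4 * (r.M ^ 2 + a) := by rw [← h.gpq]; ring
    rw [e1]
    have h5 : r.D * r.P * r.M ≤ 3 * r.M * r.M := mul_le_mul_of_nonneg_right a1 (by linarith)
    nlinarith [w.sq_lo, w.a1]
  have h2 : r.D * r.M ≤ 4 * (r.G * r.Q) := le_of_mul_le_mul_right h1 (by linarith)
  have h3 : r.D * (r.D * r.P - 2 * r.M) ≤ r.D * r.M :=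
    mul_le_mul_of_nonneg_left (by linarith) (by linarith)
  nlinarith

/-- `4 G P ≤ X R ≤ 9 G P` -/
lemma Win.r_lo (w : Win a r) (h : Ok a r) : 4 * (r.G * r.P) ≤ r.X * r.R := by
  have a1 := w.M2_lo
  have a2 := w.Q1
  have a3 := w.M3
  refine le_of_mul_le_mul_right ?_ (by linarith : 0 < r.Q)
  have e1 : 4 * (r.G * r.P) * r.Q = 4 * (r.M ^ 2 + a) := by rw [← h.gpq]; ring
  have e2 : r.X * r.R * r.Q = r.M2 ^ 2 + a := by rw [← h.xqr]; ring
  rw [e1, e2]
  have : (2 * r.M) ^ 2 ≤ r.M2 ^ 2 := by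
    apply pow_le_pow_left₀ <;> linarith
  nlinarith [w.a1, w.Ma]

lemma Win.r_hi (w : Win a r) (h : Ok a r) : r.X * r.R ≤ 9 * (r.G * r.P) := by
  have a1 := w.M2_lo
  have a2 := w.Q1
  have a3 := w.M8
  have a4 : r.M2 ≤ 3 * r.M - 1 := by have := w.M2_hi'; omega
  refine le_of_mul_le_mul_right ?_ (by linarith : 0 < r.Q)
  have e1 : 9 * (r.G * r.P) * r.Q = 9 * (r.M ^ 2 + a) := by rw [← h.gpq]; ring
  have e2 : r.X * r.R * r.Q = r.M2 ^ 2 + a := by rw [← h.xqr]; ring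
  rw [e1, e2]
  have : r.M2 ^ 2 ≤ (3 * r.M - 1) ^ 2 := by
    apply pow_le_pow_left₀ <;> linarith
  nlinarith [w.a1, w.Ma]

lemma Win.M3pos (w : Win a r) (h : Ok a r) : 2 ≤ r.M3 := by
  have := w.M3_lo h
  have := w.M3
  omega

/-- the windows seen from the other vertices: `D P / M_4 ∈ [3/2, 2)`, `D R / M_2 ∈ (1, 3/2]`,
`D R / M_3 ∈ [3, 7]` -/
lemma Win.p4 (w : Win a r) : 3 * r.M4 ≤ 2 * (r.D * r.P) ∧ r.D * r.P < 2 * r.M4 := by
  have := w.p1; have := w.p2
  simp only [M4]; constructor <;> linarith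

lemma Win.p2' (w : Win a r) (h : Ok a r) : r.M2 < r.D * r.R ∧ 2 * (r.D * r.R) ≤ 3 * r.M2 := by
  have e := T1.RD.Ok.dr r
  have := w.M3_hi h; have := w.M3pos h; have := w.M2_lo
  constructor <;> linarith

lemma Win.p3 (w : Win a r) (h : Ok a r) : 3 * r.M3 ≤ r.D * r.R ∧ r.D * r.R ≤ 7 * r.M3 := by
  have e := T1.RD.Ok.dr r
  have := w.M3_hi h; have := w.M3_lo h; have := w.M2_lo; have := w.M2_hi
  constructor <;> linarith

/-- the second windows: `D₂ T = M_4 - M_3 > 0`, `≤ 3/2 M` -/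
lemma Win.q4 (w : Win a r) (h : Ok a r) : 0 < r.D2 * r.T ∧ 2 * (r.D2 * r.T) ≤ 3 * r.M := by
  have e := h.d2t
  have := w.M3_hi h; have := w.M3_lo h; have := w.M4_lo; have := w.M4_hi
  constructor <;> linarith

end RD

end Pool.Agent.Lib.MP391708.TN
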