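import Pool.Agent.Lib.MP_391708_nt.TG.FSpecB
import Pool.Agent.Lib.MP_391708_nt.TG1.LocD
import Pool.Agent.Lib.MP_391708_nt.T1.GoodL
import Pool.Agent.Lib.MP_391708_nt.T4.BrA

/-!
# T1b, group F, part B: typical pairs, the elementary conditions
-/

set_option autoImplicit false

namespace Pool.Agent.Lib.MP391708.TG

variable [Pool.Agent.Lib.MP391708.TG.Aa] [Pool.Agent.Lib.MP391708.TG.Frm]

open Finset Filter Topology
open Pool.Agent.Lib.MP391708.Eqd (V cross pairs)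
open scoped Classical

open Pool.Agent.Lib.MP391708.T4 (per_iff mean_eq)

namespace TypM

/-- indicator of `m ∣ dot² + 1` -/
noncomputable def iD (m : ℕ) (x : VV) : ℝ := if (m : ℤ) ∣ dot x.1 x.2 ^ 2 + az then 1 else 0

lemma iD_nonneg (m : ℕ) (x : VV) : 0 ≤ iD m x := by unfold iD; split_ifs <;> norm_num
lemma iD_le (m : ℕ) (x : VV) : iD m x ≤ 1 := by unfold iD; split_ifs <;> norm_num

lemma per_iD (m : ℕ) : Per m (iD m) := per_iff.2 (TG1.LocD.per_dvd_dot m)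

lemma dvd_iff (m : ℕ) (x : VV) : m ∣ vl (mm x).natAbs ↔ (m : ℤ) ∣ dot x.1 x.2 ^ 2 + az := by
  rw [natCast_dvd_vl, Int.natCast_natAbs, sq_abs]
  rfl

lemma card_eq_sum (N m : ℕ) (α β : ℝ) :
    (((Gam N α β).filter (fun x => m ∣ vl (mm x).natAbs)).card : ℝ) =
      ∑ x ∈ Gam N α β, iD m x := by
  simp only [iD, dvd_iff]
  rw [Finset.sum_boole]

omit [Aa] [Frm] in
/-- powers of `N` -/
lemma ev_rpow {b : ℝ} (hb : 0 < b) (C : ℝ) : ∀ᶠ N : ℕ in atTop, C ≤ (N : ℝ) ^ b :=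
  ((tendsto_rpow_atTop hb).comp tendsto_natCast_atTop_atTop).eventually_ge_atTop C

/-- counting with a condition modulo `m ≤ N^c`, relative error -/
lemma cnt_rel (hEQ : SpecEQ) (hC : SpecCNT) : ∃ c : ℝ, 0 < c ∧ ∀ η : ℝ, 0 < η →
    ∀ᶠ N : ℕ in atTop, ∀ m : ℕ, 0 < m → (m : ℝ) ≤ (N : ℝ) ^ c →
      (((Gam N 1 3).filter (fun x => m ∣ vl (mm x).natAbs)).card : ℝ) ≤
        (mean m (iD m) + η / m) * ((Gam N 1 3).card : ℝ) := by
  obtain ⟨c, hc0, hE⟩ := hEQ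
  obtain ⟨-, c₁, hc₁, hG⟩ := hC
  refine ⟨c / 2, by positivity, fun η hη => ?_⟩
  filter_upwards [hE, hG, ev_rpow (show 0 < c / 2 by positivity) (1 / (c₁ * η)),
    eventually_ge_atTop 1] with N hE hG h1 hN1 m hm hmN
  have hN0 : (0 : ℝ) < N := by exact_mod_cast hN1
  have hN1' : (1 : ℝ) ≤ N := by exact_mod_cast hN1
  have hm0 : (0 : ℝ) < m := by exact_mod_cast hm
  have h2 := hE m (iD m) 1 3 hm (hmN.trans (Real.rpow_le_rpow_of_exponent_le hN1' (by linarith)))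
    (per_iD m) (iD_nonneg m) (iD_le m)
    (Real.rpow_le_one_of_one_le_of_nonpos hN1' (by linarith)) (by norm_num) (by norm_num)
  rw [card_eq_sum]
  have h3 := (abs_le.1 h2).2
  have h4 : (N : ℝ) ^ (1 - c) ≤ η / m * ((Gam N 1 3).card : ℝ) := by
    have e1 : (N : ℝ) ^ (1 - c) * ((N : ℝ) ^ (c / 2) * (N : ℝ) ^ (c / 2)) = N := by
      rw [← Real.rpow_add hN0, ← Real.rpow_add hN0]
      rw [show 1 - c + (c / 2 + c / 2) = 1 by ring, Real.rpow_one]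
    have h5 : 0 < (N : ℝ) ^ (1 - c) := Real.rpow_pos_of_pos hN0 _
    have h6 : 1 ≤ c₁ * η * (N : ℝ) ^ (c / 2) := by
      rw [div_le_iff₀ (by positivity)] at h1
      linarith
    have h7 : (m : ℝ) * (N : ℝ) ^ (1 - c) ≤ η * (c₁ * N) := by
      calc (m : ℝ) * (N : ℝ) ^ (1 - c) ≤ (N : ℝ) ^ (c / 2) * (N : ℝ) ^ (1 - c) :=
            mul_le_mul_of_nonneg_right hmN h5.le
        _ ≤ (N : ℝ) ^ (c / 2) * (N : ℝ) ^ (1 - c) * (c₁ * η * (N : ℝ) ^ (c / 2)) :=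
            le_mul_of_one_le_right (by positivity) h6
        _ = η * (c₁ * ((N : ℝ) ^ (1 - c) * ((N : ℝ) ^ (c / 2) * (N : ℝ) ^ (c / 2)))) := by ring
        _ = _ := by rw [e1]
    rw [div_mul_eq_mul_div, le_div_iff₀ hm0]
    calc (N : ℝ) ^ (1 - c) * m = m * (N : ℝ) ^ (1 - c) := mul_comm _ _
      _ ≤ η * (c₁ * N) := h7
      _ ≤ η * ((Gam N 1 3).card : ℝ) := mul_le_mul_of_nonneg_left hG hη.le
  calc ∑ x ∈ Gam N 1 3, iD m x ≤ ((Gam N 1 3).card : ℝ) * mean m (iD m) + (N : ℝ) ^ (1 - c) := by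
        linarith
    _ ≤ ((Gam N 1 3).card : ℝ) * mean m (iD m) + η / m * ((Gam N 1 3).card : ℝ) := by linarith
    _ = _ := by ring

lemma mean_pow_le {l k : ℕ} (hl : l.Prime) (hla : ¬ l ∣ 2 * aa) (hk : 0 < k) (hk2 : k ≤ 2) :
    mean (l ^ k) (iD (l ^ k)) ≤ 2 * (k + 1) / ((l : ℝ) ^ k) := by
  rw [mean_eq (pow_pos hl.pos k)]
  have e : (iD (l ^ k) : VV → ℝ) = fun x => if ((l ^ k : ℕ) : ℤ) ∣ dot x.1 x.2 ^ 2 + az
      then (1 : ℝ) else 0 := rfl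
  rw [e]
  obtain rfl | rfl : k = 1 ∨ k = 2 := by omega
  · have h := TG1.LocD.mn_dot_one hl hla
    rw [pow_one]
    refine h.trans (le_of_eq ?_)
    norm_num
  · have h := TG1.LocD.mn_dot_two hl hla
    refine h.trans (le_of_eq ?_)
    norm_num

/-- the crude bound for all primes -/
lemma mean_crude {l k j : ℕ} (hl : l.Prime) (hj : 0 < j) (hjk : 2 * j ≤ k + 1) :
    mean (l ^ k) (iD (l ^ k)) ≤ 2 * TG1.LocM.KF / ((l : ℝ) ^ j) := by
  rw [mean_eq (pow_pos hl.pos k)]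
  have h := TG1.LocD.mn_dot_crude hl hj hjk
  rw [Nat.cast_pow l j] at h
  exact h

/-- counting with a prime power -/
lemma cnt_pow (hEQ : SpecEQ) (hC : SpecCNT) : ∃ c : ℝ, 0 < c ∧
    ∀ᶠ N : ℕ in atTop, ∀ l k : ℕ, l.Prime → ¬ l ∣ 2 * aa → 0 < k → k ≤ 2 →
      ((l : ℝ) ^ k) ≤ (N : ℝ) ^ c →
      (((Gam N 1 3).filter (fun x => l ^ k ∣ vl (mm x).natAbs)).card : ℝ) ≤
        (2 * k + 3) / (l : ℝ) ^ k * ((Gam N 1 3).card : ℝ) := by
  obtain ⟨c, hc0, hE⟩ := cnt_rel hEQ hC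
  refine ⟨c, hc0, ?_⟩
  filter_upwards [hE 1 one_pos] with N hN l k hl hla hk hk2 hlk
  have h1 := hN (l ^ k) (pow_pos hl.pos k) (by push_cast; exact hlk)
  refine h1.trans (mul_le_mul_of_nonneg_right ?_ (Nat.cast_nonneg _))
  have h2 := mean_pow_le hl hla hk hk2
  push_cast
  calc mean (l ^ k) (iD (l ^ k)) + 1 / (l : ℝ) ^ k ≤ 2 * (k + 1) / (l : ℝ) ^ k +
        1 / (l : ℝ) ^ k := by linarith
    _ = (2 * k + 3) / (l : ℝ) ^ k := by rw [← add_div]; ring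

/-- counting with a prime power, all primes -/
lemma cnt_crude (hEQ : SpecEQ) (hC : SpecCNT) : ∃ c : ℝ, 0 < c ∧
    ∀ᶠ N : ℕ in atTop, ∀ l k j : ℕ, l.Prime → 0 < j → 2 * j ≤ k + 1 →
      ((l : ℝ) ^ k) ≤ (N : ℝ) ^ c →
      (((Gam N 1 3).filter (fun x => l ^ k ∣ vl (mm x).natAbs)).card : ℝ) ≤
        (2 * TG1.LocM.KF + 1) / (l : ℝ) ^ j * ((Gam N 1 3).card : ℝ) := by
  obtain ⟨c, hc0, hE⟩ := cnt_rel hEQ hC
  refine ⟨c, hc0, ?_⟩
  filter_upwards [hE 1 one_pos] with N hN l k j hl hj hjk hlk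
  have h1 := hN (l ^ k) (pow_pos hl.pos k) (by push_cast; exact hlk)
  refine h1.trans (mul_le_mul_of_nonneg_right ?_ (Nat.cast_nonneg _))
  have h2 := mean_crude hl hj hjk
  have hl1 : (1 : ℝ) ≤ l := by exact_mod_cast hl.one_le
  have h3 : 1 / (l : ℝ) ^ k ≤ 1 / (l : ℝ) ^ j :=
    one_div_le_one_div_of_le (by positivity) (pow_le_pow_right₀ hl1 (by omega))
  push_cast
  calc mean (l ^ k) (iD (l ^ k)) + 1 / (l : ℝ) ^ k ≤ 2 * TG1.LocM.KF / (l : ℝ) ^ j +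
        1 / (l : ℝ) ^ j := by linarith
    _ = (2 * TG1.LocM.KF + 1) / (l : ℝ) ^ j := by rw [← add_div]

omit [Frm] in
lemma PP_spec {p : Prm} {N l : ℕ} (h : l ∈ PP p N) :
    l.Prime ∧ spl l ∧ p.E < l ∧ (l : ℝ) < zz p N := by
  unfold PP at h
  rw [mem_filter, mem_range] at h
  exact ⟨h.2.1, h.2.2.1, h.2.2.2, Nat.lt_ceil.1 h.1⟩

omit [Frm] in
/-- `l^k ≤ N^c` for sieving primes -/
lemma PP_pow_le {p : Prm} {N l k : ℕ} {c : ℝ} (hN : 1 ≤ N) (hζ : (k : ℝ) * p.ζ ≤ c)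
    (h : l ∈ PP p N) : (l : ℝ) ^ k ≤ (N : ℝ) ^ c := by
  have hN1 : (1 : ℝ) ≤ N := by exact_mod_cast hN
  calc (l : ℝ) ^ k ≤ (zz p N) ^ k := pow_le_pow_left₀ (Nat.cast_nonneg _) (PP_spec h).2.2.2.le k
    _ = (N : ℝ) ^ (p.ζ * k) := by
        unfold zz
        rw [← Real.rpow_natCast, ← Real.rpow_mul (by linarith)]
    _ ≤ _ := Real.rpow_le_rpow_of_exponent_le hN1 (by linarith)

omit [Frm] in
lemma PP_not_dvd {p : Prm} {N l : ℕ} (h : l ∈ PP p N) : ¬ l ∣ 2 * aa :=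
  (TG1.LocM.spl_spec (PP_spec h).1 (PP_spec h).2.1).2.1

/-- **PQ** -/
theorem specPQ (hEQ : SpecEQ) (hC : SpecCNT) : SpecPQ := by
  obtain ⟨c, hc0, hE⟩ := cnt_pow hEQ hC
  refine ⟨5, by norm_num, (T4.Good.zeta_le (fun _ _ _ _ => c) (fun _ _ _ _ => hc0)).mono ?_⟩
  intro p (hp : p.ζ ≤ c)
  filter_upwards [hE, eventually_ge_atTop 1] with N hN hN1 q hq
  have h1 := hN q 1 (PP_spec hq).1 (PP_not_dvd hq) one_pos one_le_two (PP_pow_le hN1 (by simpa using hp) hq)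
  simp only [pow_one, Nat.cast_one, mul_one] at h1
  norm_num at h1
  exact h1

omit [Frm] in
/-- sums of `1/l²` over sieving primes -/
lemma sum_inv_sq (p : Prm) (N : ℕ) : ∑ l ∈ PP p N, 1 / (l : ℝ) ^ 2 ≤ 2 / ((p.E : ℝ) + 1) := by
  have h := sum_Ioo_inv_sq_le (α := ℝ) p.E (⌈zz p N⌉₊)
  refine le_trans ?_ h
  have e : ∀ l : ℕ, 1 / (l : ℝ) ^ 2 = ((l : ℝ) ^ 2)⁻¹ := fun l => one_div _
  simp only [e]
  refine Finset.sum_le_sum_of_subset_of_nonneg ?_ fun _ _ _ => by positivity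
  intro l hl
  have h1 := hl
  unfold PP at h1
  rw [mem_filter, mem_range] at h1
  rw [mem_Ioo]
  exact ⟨h1.2.2.2, h1.1⟩

omit [Aa] [Frm] in
/-- Markov -/
lemma markov {S : Finset VV} {f : VV → ℝ} {B a : ℝ} (hf : ∀ x ∈ S, 0 ≤ f x)
    (hB : ∑ x ∈ S, f x ≤ B) (ha : 0 < a) :
    ((S.filter (fun x => a < f x)).card : ℝ) ≤ B / a := by
  rw [le_div_iff₀ ha]
  calc ((S.filter (fun x => a < f x)).card : ℝ) * a = ∑ _x ∈ S.filter (fun x => a < f x), a := by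
        rw [Finset.sum_const, nsmul_eq_mul]
    _ ≤ ∑ x ∈ S.filter (fun x => a < f x), f x :=
        Finset.sum_le_sum fun x hx => (mem_filter.1 hx).2.le
    _ ≤ ∑ x ∈ S, f x := Finset.sum_le_sum_of_subset_of_nonneg (filter_subset _ _)
        fun x hx _ => hf x hx
    _ ≤ B := hB

/-- sums over the sieving primes dividing `M² + a` -/
lemma sum_swap (p : Prm) (N : ℕ) (S : Finset VV) (g : ℕ → ℝ) :
    ∑ x ∈ S, ∑ l ∈ (PP p N).filter (fun l => l ∣ vl (mm x).natAbs), g l =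
      ∑ l ∈ PP p N, g l * ((S.filter (fun x => l ∣ vl (mm x).natAbs)).card : ℝ) := by
  simp only [Finset.sum_filter]
  rw [Finset.sum_comm]
  refine Finset.sum_congr rfl fun l _ => ?_
  rw [← Finset.sum_filter, Finset.sum_const, nsmul_eq_mul]
  ring

/-- (T2) -/
lemma typ2 (hPQ : SpecPQ) (ε δ : ℝ) (hε : 0 < ε) (hδ : 0 < δ) : Good (fun p => ∀ᶠ N : ℕ in atTop,
    (((Gam N 1 3).filter (fun x => δ < ∑ l ∈ (PP p N).filter
      (fun l => l ∣ vl (mm x).natAbs), 1 / (l : ℝ))).card : ℝ) ≤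
        ε * ((Gam N 1 3).card : ℝ)) := by
  obtain ⟨C, hC, hG⟩ := hPQ
  refine (hG.and (T4.Good.large_E ⌈2 * C / (ε * δ)⌉₊)).mono ?_
  rintro p ⟨hp, hE⟩
  have hE' : 2 * C / (ε * δ) ≤ p.E := (Nat.le_ceil _).trans (by exact_mod_cast hE)
  filter_upwards [hp] with N hN
  have h1 : ∑ x ∈ Gam N 1 3, ∑ l ∈ (PP p N).filter (fun l => l ∣ vl (mm x).natAbs),
      1 / (l : ℝ) ≤ C * (2 / ((p.E : ℝ) + 1)) * ((Gam N 1 3).card : ℝ) := by
    rw [sum_swap]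
    calc ∑ l ∈ PP p N, 1 / (l : ℝ) *
          (((Gam N 1 3).filter (fun x => l ∣ vl (mm x).natAbs)).card : ℝ)
        ≤ ∑ l ∈ PP p N, 1 / (l : ℝ) * (C / l * ((Gam N 1 3).card : ℝ)) :=
          Finset.sum_le_sum fun l hl => mul_le_mul_of_nonneg_left (hN l hl) (by positivity)
      _ = C * (∑ l ∈ PP p N, 1 / (l : ℝ) ^ 2) * ((Gam N 1 3).card : ℝ) := by
          rw [Finset.mul_sum, Finset.sum_mul]
          refine Finset.sum_congr rfl fun l hl => ?_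
          rw [div_mul_eq_mul_div, one_mul, div_mul_eq_mul_div, div_div, ← pow_two]
          ring
      _ ≤ _ := by
          refine mul_le_mul_of_nonneg_right (mul_le_mul_of_nonneg_left (sum_inv_sq p N) hC.le)
            (Nat.cast_nonneg _)
  refine (markov (fun x _ => Finset.sum_nonneg fun _ _ => by positivity) h1 hδ).trans ?_
  rw [div_le_iff₀ hδ]
  have h2 : C * (2 / ((p.E : ℝ) + 1)) ≤ ε * δ := by
    rw [mul_div_assoc', div_le_iff₀ (by positivity)]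
    rw [div_le_iff₀ (by positivity)] at hE'
    nlinarith [mul_pos hε hδ]
  calc C * (2 / ((p.E : ℝ) + 1)) * ((Gam N 1 3).card : ℝ) ≤ ε * δ * ((Gam N 1 3).card : ℝ) :=
        mul_le_mul_of_nonneg_right h2 (Nat.cast_nonneg _)
    _ = _ := by ring

omit [Aa] [Frm] in
/-- union bound -/
lemma union_bd {S : Finset VV} {T : Finset ℕ} {P : ℕ → VV → Prop} {b : ℕ → ℝ}
    [∀ l, DecidablePred (P l)] [DecidablePred (fun x => ∃ l ∈ T, P l x)]
    (h : ∀ l ∈ T, ((S.filter (P l)).card : ℝ) ≤ b l) :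
    ((S.filter (fun x => ∃ l ∈ T, P l x)).card : ℝ) ≤ ∑ l ∈ T, b l := by
  have hsub : S.filter (fun x => ∃ l ∈ T, P l x) ⊆ T.biUnion (fun l => S.filter (P l)) := by
    intro x hx
    rw [mem_filter] at hx
    obtain ⟨hx1, l, hl, hx2⟩ := hx
    rw [mem_biUnion]
    exact ⟨l, hl, mem_filter.2 ⟨hx1, hx2⟩⟩
  calc ((S.filter (fun x => ∃ l ∈ T, P l x)).card : ℝ) ≤
        ((T.biUnion (fun l => S.filter (P l))).card : ℝ) := by exact_mod_cast card_le_card hsub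
    _ ≤ ∑ l ∈ T, ((S.filter (P l)).card : ℝ) := by exact_mod_cast card_biUnion_le
    _ ≤ _ := Finset.sum_le_sum h

/-- (T3) -/
lemma typ3 (hEQ : SpecEQ) (hC : SpecCNT) (ε : ℝ) (hε : 0 < ε) :
    Good (fun p => ∀ᶠ N : ℕ in atTop,
    (((Gam N 1 3).filter (fun x => ∃ l ∈ PP p N, l ^ 2 ∣ vl (mm x).natAbs)).card : ℝ) ≤
        ε * ((Gam N 1 3).card : ℝ)) := by
  obtain ⟨c, hc0, hE⟩ := cnt_pow hEQ hC
  refine ((T4.Good.zeta_le (fun _ _ _ _ => c / 2) (fun _ _ _ _ => by positivity)).and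
    (T4.Good.large_E ⌈14 / ε⌉₊)).mono ?_
  rintro p ⟨hp, hE'⟩
  replace hp : p.ζ ≤ c / 2 := hp
  have hE'' : 14 / ε ≤ p.E := (Nat.le_ceil _).trans (by exact_mod_cast hE')
  filter_upwards [hE, eventually_ge_atTop 1] with N hN hN1
  have hb : ∀ l ∈ PP p N, (((Gam N 1 3).filter (fun x => l ^ 2 ∣ vl (mm x).natAbs)).card : ℝ) ≤
      7 / (l : ℝ) ^ 2 * ((Gam N 1 3).card : ℝ) := by
    intro l hl
    have h1 := hN l 2 (PP_spec hl).1 (PP_not_dvd hl) two_pos le_rfl (PP_pow_le hN1 (by push_cast; linarith) hl)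
    rw [show (2 * ((2 : ℕ) : ℝ) + 3) = 7 by norm_num] at h1
    exact h1
  refine (union_bd hb).trans ?_
  · rw [← Finset.sum_mul]
    refine mul_le_mul_of_nonneg_right ?_ (Nat.cast_nonneg _)
    have h1 := sum_inv_sq p N
    have e : ∑ l ∈ PP p N, 7 / (l : ℝ) ^ 2 = 7 * ∑ l ∈ PP p N, 1 / (l : ℝ) ^ 2 := by
      rw [Finset.mul_sum]
      exact Finset.sum_congr rfl fun l _ => by ring
    rw [e]
    have h2 : 7 * (2 / ((p.E : ℝ) + 1)) ≤ ε := by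
      rw [mul_div_assoc', div_le_iff₀ (by positivity)]
      rw [div_le_iff₀ hε] at hE''
      nlinarith
    linarith

omit [Aa] [Frm] in
lemma pow_decay (K ε : ℝ) (hε : 0 < ε) : ∃ E₀ : ℕ, ∀ E : ℕ, E₀ ≤ E →
    ((E : ℝ) + 1) * (K / 2 ^ ((E + 1) / 2)) ≤ ε := by
  have h1 : Tendsto (fun j : ℕ => ((j : ℝ) ^ 1) * (1 / 2 : ℝ) ^ j) atTop (𝓝 0) :=
    tendsto_pow_const_mul_const_pow_of_abs_lt_one 1 (by rw [abs_of_pos] <;> norm_num)
  have h2 := h1.eventually (gt_mem_nhds (show 0 < ε / (3 * (|K| + 1)) by positivity))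
  obtain ⟨E₁, hE₁⟩ := eventually_atTop.1 h2
  refine ⟨2 * max E₁ 1, fun E hE => ?_⟩
  have hj : max E₁ 1 ≤ (E + 1) / 2 := by omega
  have hE2 : (E : ℝ) + 1 ≤ 3 * (((E + 1) / 2 : ℕ) : ℝ) := by
    have h5 : E + 1 ≤ 3 * ((E + 1) / 2) := by
      have := (le_max_right E₁ 1).trans hj
      omega
    exact_mod_cast h5
  have h3 := hE₁ ((E + 1) / 2) ((le_max_left _ _).trans hj)
  generalize (E + 1) / 2 = j at *
  rw [lt_div_iff₀ (by positivity)] at h3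
  have h6 : (0 : ℝ) < (1 / 2 : ℝ) ^ j := by positivity
  have e : ((E : ℝ) + 1) * (K / 2 ^ j) = ((E : ℝ) + 1) * (1 / 2 : ℝ) ^ j * K := by
    rw [one_div, inv_pow]; ring
  rw [e]
  have hE0 : (0 : ℝ) ≤ (E : ℝ) + 1 := by positivity
  calc ((E : ℝ) + 1) * (1 / 2 : ℝ) ^ j * K ≤ ((E : ℝ) + 1) * (1 / 2 : ℝ) ^ j * (|K| + 1) := by
        refine mul_le_mul_of_nonneg_left ?_ (by positivity)
        linarith [le_abs_self K]
    _ ≤ 3 * (j : ℝ) * (1 / 2 : ℝ) ^ j * (|K| + 1) :=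
        mul_le_mul_of_nonneg_right (mul_le_mul_of_nonneg_right hE2 h6.le) (by positivity)
    _ = (j : ℝ) ^ 1 * (1 / 2 : ℝ) ^ j * (3 * (|K| + 1)) := by ring
    _ ≤ ε := h3.le

/-- (T4) -/
lemma typ4 (hEQ : SpecEQ) (hC : SpecCNT) (ε : ℝ) (hε : 0 < ε) :
    Good (fun p => ∀ᶠ N : ℕ in atTop,
    (((Gam N 1 3).filter (fun x => ¬ tame p (vl (mm x).natAbs))).card : ℝ) ≤
        ε * ((Gam N 1 3).card : ℝ)) := by
  obtain ⟨c, hc0, hE⟩ := cnt_crude hEQ hC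
  obtain ⟨E₀, hE₀⟩ := pow_decay (2 * TG1.LocM.KF + 1) ε hε
  refine ((T4.Good.large_E E₀).and (T4.Good.large_E 1)).mono ?_
  rintro p ⟨hp, hp1⟩
  replace hE₀ := hE₀ p.E hp
  generalize hEE : p.E = E at hp hp1 hE₀
  filter_upwards [hE, ev_rpow hc0 ((E : ℝ) ^ E)] with N hN hN1
  have hsub : (Gam N 1 3).filter (fun x => ¬ tame p (vl (mm x).natAbs)) ⊆
      (Gam N 1 3).filter (fun x => ∃ l ∈ (range (E + 1)).filter Nat.Prime,
        l ^ E ∣ vl (mm x).natAbs) := by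
    intro x hx
    rw [mem_filter] at hx ⊢
    refine ⟨hx.1, ?_⟩
    have h1 := hx.2
    unfold tame at h1
    push Not at h1
    obtain ⟨l, hl, hlE, h2⟩ := h1
    rw [hEE] at hlE h2
    exact ⟨l, mem_filter.2 ⟨mem_range.2 (by omega), hl⟩, h2⟩
  have hcard : (((Gam N 1 3).filter (fun x => ¬ tame p (vl (mm x).natAbs))).card : ℝ) ≤
      (((Gam N 1 3).filter (fun x => ∃ l ∈ (range (E + 1)).filter Nat.Prime,
        l ^ E ∣ vl (mm x).natAbs)).card : ℝ) := by exact_mod_cast card_le_card hsub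
  have hb : ∀ l ∈ (range (E + 1)).filter Nat.Prime,
      (((Gam N 1 3).filter (fun x => l ^ E ∣ vl (mm x).natAbs)).card : ℝ) ≤
        (2 * TG1.LocM.KF + 1) / 2 ^ ((E + 1) / 2) * ((Gam N 1 3).card : ℝ) := by
    intro l hl
    rw [mem_filter, mem_range] at hl
    have hl2 : (2 : ℝ) ≤ l := by exact_mod_cast hl.2.two_le
    have hlE : (l : ℝ) ≤ E := by exact_mod_cast Nat.lt_succ_iff.1 hl.1
    have h1 := hN l E ((E + 1) / 2) hl.2 (by omega) (by omega)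
      ((pow_le_pow_left₀ (Nat.cast_nonneg _) hlE _).trans hN1)
    refine h1.trans (mul_le_mul_of_nonneg_right ?_ (Nat.cast_nonneg _))
    exact div_le_div_of_nonneg_left (by positivity) (by positivity)
      (pow_le_pow_left₀ (by norm_num) hl2 _)
  refine hcard.trans ((union_bd hb).trans ?_)
  rw [Finset.sum_const, nsmul_eq_mul, ← mul_assoc]
  refine mul_le_mul_of_nonneg_right ?_ (Nat.cast_nonneg _)
  refine le_trans ?_ hE₀
  refine mul_le_mul_of_nonneg_right ?_ (by positivity)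
  have h5 : ((range (E + 1)).filter Nat.Prime).card ≤ E + 1 :=
    (card_filter_le _ _).trans (by rw [card_range])
  exact_mod_cast h5

end TypM

end Pool.Agent.Lib.MP391708.TG
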